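import Mathlib

set_option autoImplicit false

open Finset

namespace Pool.Agent.Work.MP_f473e4_nt

theorem bonf_sum (n b : ℕ) (Q : Finset ℕ) (hQ : Q.card = n + 1) :
    ∑ S ∈ Q.powerset.filter (fun S => S.card ≤ 2 * b), (-1 : ℝ) ^ S.card = (n.choose (2 * b) : ℝ) := by
  rw [sum_filter]
  have h1 := sum_powerset_apply_card (fun i => if i ≤ 2 * b then (-1 : ℝ) ^ i else 0) (x := Q)
  rw [h1, hQ]
  have h2 : ∑ m ∈ range (n + 1 + 1), (n + 1).choose m • (if m ≤ 2 * b then (-1 : ℝ) ^ m else 0)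
      = ∑ m ∈ range (2 * b + 1), ((-1 : ℝ) ^ m * (n + 1).choose m) := by
    simp only [nsmul_eq_mul, mul_ite, mul_zero]
    rw [← sum_filter]
    have h3 : ∑ m ∈ range (2 * b + 1), ((-1 : ℝ) ^ m * (n + 1).choose m)
        = ∑ m ∈ (range (2 * b + 1)).filter (fun m => m < n + 1 + 1), ((-1 : ℝ) ^ m * (n + 1).choose m) := by
      refine (sum_subset (filter_subset _ _) ?_).symm
      intro m hm hm'
      simp only [mem_filter, not_and] at hm'
      have h4 := hm' hm
      rw [Nat.choose_eq_zero_of_lt (by omega)]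
      simp
    rw [h3]
    refine sum_congr ?_ fun m _ => by ring
    ext m
    simp only [mem_filter, mem_range]
    omega
  rw [h2]
  have h5 := Int.alternating_sum_range_choose_eq_choose (n := n) (m := 2 * b)
  have h6 : (((∑ k ∈ range (2 * b + 1), ((-1) ^ k * (n + 1).choose k : ℤ)) : ℤ) : ℝ)
      = (((-1) ^ (2 * b) * n.choose (2 * b) : ℤ) : ℝ) := by rw [h5]
  push_cast at h6
  rw [h6]
  simp

/-- S2a. file SComb.lean -/
theorem bonf_even (Q : Finset ℕ) (b : ℕ) :
    (if Q = ∅ then (1 : ℝ) else 0) ≤ ∑ S ∈ Q.powerset.filter (fun S => S.card ≤ 2 * b), (-1 : ℝ) ^ S.card ∧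
    (∑ S ∈ Q.powerset.filter (fun S => S.card ≤ 2 * b), (-1 : ℝ) ^ S.card) -
      (if Q = ∅ then (1 : ℝ) else 0) ≤ ((Q.powerset.filter (fun S => S.card = 2 * b + 1)).card : ℝ) := by
  rcases Q.eq_empty_or_nonempty with rfl | hne
  · simp [filter_singleton]
  · have hc : 0 < Q.card := hne.card_pos
    obtain ⟨n, hn⟩ : ∃ n, Q.card = n + 1 := ⟨Q.card - 1, by omega⟩
    rw [bonf_sum n b Q hn, if_neg hne.ne_empty]
    refine ⟨by positivity, ?_⟩
    have h1 : (Q.powerset.filter (fun S => S.card = 2 * b + 1)).card = (n + 1).choose (2 * b + 1) := by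
      rw [← hn, ← card_powersetCard, powersetCard_eq_filter]
    rw [h1, sub_zero]
    rw [Nat.choose_succ_succ]
    push_cast
    have : (0 : ℝ) ≤ (n.choose (2 * b + 1) : ℝ) := by positivity
    linarith

/-- S2b. file SComb.lean -/
theorem hooley (J : Finset ℕ) (x y e : ℕ → ℝ) (hx : ∀ j ∈ J, 0 ≤ x j) (hxy : ∀ j ∈ J, x j ≤ y j)
    (he : ∀ j ∈ J, y j - x j ≤ e j) :
    ∏ j ∈ J, y j - ∑ j ∈ J, e j * ∏ i ∈ J.erase j, y i ≤ ∏ j ∈ J, x j := by
  induction J using Finset.induction_on with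
  | empty => simp
  | insert a J ha ih =>
    have ih' := ih (fun j hj => hx j (mem_insert_of_mem hj)) (fun j hj => hxy j (mem_insert_of_mem hj))
      (fun j hj => he j (mem_insert_of_mem hj))
    rw [prod_insert ha, prod_insert ha, sum_insert ha, erase_insert ha]
    have h1 : ∑ j ∈ J, e j * ∏ i ∈ (insert a J).erase j, y i
        = y a * ∑ j ∈ J, e j * ∏ i ∈ J.erase j, y i := by
      rw [mul_sum]
      refine sum_congr rfl fun j hj => ?_
      have hja : j ≠ a := fun h => ha (h ▸ hj)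
      rw [erase_insert_of_ne hja.symm, prod_insert]
      · ring
      · simp [ha]
    rw [h1]
    have hxa := hx a (mem_insert_self _ _)
    have hxya := hxy a (mem_insert_self _ _)
    have hea := he a (mem_insert_self _ _)
    have hX : 0 ≤ ∏ j ∈ J, x j := prod_nonneg fun j hj => hx j (mem_insert_of_mem hj)
    have hXY : ∏ j ∈ J, x j ≤ ∏ j ∈ J, y j :=
      prod_le_prod (fun j hj => hx j (mem_insert_of_mem hj)) (fun j hj => hxy j (mem_insert_of_mem hj))
    set X := ∏ j ∈ J, x j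
    set Y := ∏ j ∈ J, y j
    set SE := ∑ j ∈ J, e j * ∏ i ∈ J.erase j, y i
    have hya : 0 ≤ y a := hxa.trans hxya
    have hY : 0 ≤ Y := hX.trans hXY
    -- y a * Y - (e a * Y + y a * SE) = y a (Y - SE) - e a Y ≤ y a X - e a Y ≤ x a X
    have h2 : y a * (Y - SE) ≤ y a * X := mul_le_mul_of_nonneg_left ih' hya
    have h3 : (y a - x a) * X ≤ e a * Y := by
      calc (y a - x a) * X ≤ (y a - x a) * Y := mul_le_mul_of_nonneg_left hXY (by linarith)
        _ ≤ e a * Y := mul_le_mul_of_nonneg_right hea hY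
    nlinarith

theorem powerset_insert_sum (P : Finset ℕ) (a : ℕ) (ha : a ∉ P) (g : ℕ → ℝ) (t : ℕ) :
    ∑ S ∈ (insert a P).powerset.filter (fun S => S.card < t + 1), (-1 : ℝ) ^ S.card * ∏ p ∈ S, g p
      = (∑ S ∈ P.powerset.filter (fun S => S.card < t + 1), (-1 : ℝ) ^ S.card * ∏ p ∈ S, g p)
        - g a * ∑ S ∈ P.powerset.filter (fun S => S.card < t), (-1 : ℝ) ^ S.card * ∏ p ∈ S, g p := by
  simp only [sum_filter]
  rw [sum_powerset_insert ha, sub_eq_add_neg, mul_sum, ← sum_neg_distrib]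
  congr 1
  refine sum_congr rfl fun S hS => ?_
  have haS : a ∉ S := fun h => ha (mem_powerset.1 hS h)
  rw [card_insert_of_notMem haS, prod_insert haS]
  by_cases h : S.card < t
  · rw [if_pos (by omega), if_pos h]
    ring
  · rw [if_neg (by omega), if_neg h]
    simp

theorem model_aux (P : Finset ℕ) (g : ℕ → ℝ) (hg : ∀ p ∈ P, 0 ≤ g p ∧ g p ≤ 1) :
    ∀ t : ℕ, 0 ≤ (-1 : ℝ) ^ t * (∏ p ∈ P, (1 - g p) -
      ∑ S ∈ P.powerset.filter (fun S => S.card < t), (-1 : ℝ) ^ S.card * ∏ p ∈ S, g p) := by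
  induction P using Finset.induction_on with
  | empty =>
    intro t
    rcases Nat.eq_zero_or_pos t with rfl | ht
    · simp
    · simp [filter_singleton, ht]
  | insert a P ha ih =>
    have ih' := ih (fun p hp => hg p (mem_insert_of_mem hp))
    have hga := hg a (mem_insert_self _ _)
    have hprod : 0 ≤ ∏ p ∈ P, (1 - g p) := prod_nonneg fun p hp => by
      have := (hg p (mem_insert_of_mem hp)).2
      linarith
    intro t
    rcases Nat.eq_zero_or_pos t with rfl | ht
    · simp only [pow_zero, not_lt_zero, filter_false, sum_empty, sub_zero, one_mul]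
      rw [prod_insert ha]
      exact mul_nonneg (by linarith) hprod
    · obtain ⟨s, rfl⟩ : ∃ s, t = s + 1 := ⟨t - 1, by omega⟩
      rw [powerset_insert_sum P a ha g s, prod_insert ha]
      have h1 := ih' (s + 1)
      have h2 := ih' s
      have h3 := mul_nonneg hga.1 h2
      have h4 : (-1 : ℝ) ^ (s + 1) = - (-1 : ℝ) ^ s := by rw [pow_succ]; ring
      rw [h4] at h1 ⊢
      nlinarith

/-- S2c. file SComb.lean -/
theorem model_even (P : Finset ℕ) (g : ℕ → ℝ) (hg : ∀ p ∈ P, 0 ≤ g p ∧ g p ≤ 1) (b : ℕ) :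
    ∏ p ∈ P, (1 - g p) ≤ ∑ S ∈ P.powerset.filter (fun S => S.card ≤ 2 * b), (-1 : ℝ) ^ S.card * ∏ p ∈ S, g p := by
  have h := model_aux P g hg (2 * b + 1)
  have h1 : (-1 : ℝ) ^ (2 * b + 1) = -1 := by
    rw [pow_succ, pow_mul]
    simp
  rw [h1] at h
  have h2 : P.powerset.filter (fun S => S.card < 2 * b + 1) = P.powerset.filter (fun S => S.card ≤ 2 * b) := by
    ext S
    simp only [mem_filter, Nat.lt_succ_iff]
  rw [h2] at h
  linarith

/-- S2d. file SComb.lean -/
theorem esymm_bound (P : Finset ℕ) (g : ℕ → ℝ) (hg : ∀ p ∈ P, 0 ≤ g p) (n : ℕ) (y : ℝ) (hy : 0 < y) :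
    ∑ S ∈ P.powerset.filter (fun S => S.card = n), ∏ p ∈ S, g p ≤ Real.exp (y * ∑ p ∈ P, g p) / y ^ n := by
  rw [le_div_iff₀ (by positivity), sum_mul]
  have h1 : ∑ S ∈ P.powerset.filter (fun S => S.card = n), (∏ p ∈ S, g p) * y ^ n
      = ∑ S ∈ P.powerset.filter (fun S => S.card = n), ∏ p ∈ S, (y * g p) := by
    refine sum_congr rfl fun S hS => ?_
    rw [prod_mul_distrib, prod_const, (mem_filter.1 hS).2]
    ring
  rw [h1]
  have h2 : ∑ S ∈ P.powerset.filter (fun S => S.card = n), ∏ p ∈ S, (y * g p)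
      ≤ ∑ S ∈ P.powerset, ∏ p ∈ S, (y * g p) := by
    refine sum_le_sum_of_subset_of_nonneg (filter_subset _ _) fun S hS _ => ?_
    exact prod_nonneg fun p hp => mul_nonneg hy.le (hg p (mem_powerset.1 hS hp))
  refine h2.trans ?_
  rw [← prod_one_add, mul_sum, Real.exp_sum]
  refine prod_le_prod (fun p hp => ?_) fun p hp => ?_
  · have := mul_nonneg hy.le (hg p hp)
    linarith
  · rw [add_comm]
    exact Real.add_one_le_exp _

end Pool.Agent.Work.MP_f473e4_nt
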