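import Mathlib

set_option autoImplicit false

open Finset

namespace Pool.Agent.Work.MP_f473e4_nt

theorem crt_base (M q a : ℕ) (hq : 0 < q) (ha : a < q) :
    |(((range M).filter (fun m => m % q = a)).card : ℝ) - (M : ℝ) / q| ≤ 1 := by
  have h1 : ((range M).filter (fun m => m % q = a)).card = M.count (· ≡ a [MOD q]) := by
    rw [Nat.count_eq_card_filter_range]
    congr 1
    ext m
    simp [Nat.ModEq, Nat.mod_eq_of_lt ha]
  rw [h1]
  have h2 := Nat.count_modEq_card_eq_ceil M hq a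
  have h3 : ((M.count (· ≡ a [MOD q]) : ℕ) : ℤ) = ⌈((M : ℝ) - (a : ℝ)) / (q : ℝ)⌉ := by
    rw [h2]
    rw [Nat.mod_eq_of_lt ha]
    have : (((M : ℝ) - (a : ℝ)) / (q : ℝ)) = (((((M : ℚ) - (a : ℚ)) / (q : ℚ)) : ℚ) : ℝ) := by
      push_cast
      ring
    rw [this, Rat.ceil_cast]
  have h4 : ((M.count (· ≡ a [MOD q]) : ℕ) : ℝ) = ((⌈((M : ℝ) - (a : ℝ)) / (q : ℝ)⌉ : ℤ) : ℝ) := by
    rw [← h3]
    simp
  rw [h4]
  have hq' : (0 : ℝ) < q := by exact_mod_cast hq
  have h5 := Int.le_ceil (((M : ℝ) - (a : ℝ)) / (q : ℝ))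
  have h6 := Int.ceil_lt_add_one (((M : ℝ) - (a : ℝ)) / (q : ℝ))
  have h7 : ((M : ℝ) - (a : ℝ)) / (q : ℝ) = (M : ℝ) / q - (a : ℝ) / q := by ring
  have h8 : (a : ℝ) / q < 1 := by
    rw [div_lt_one hq']
    exact_mod_cast ha
  have h9 : (0 : ℝ) ≤ (a : ℝ) / q := by positivity
  rw [h7] at h5 h6 ⊢
  rw [abs_le]
  constructor <;> linarith

/-- S3. file SCrt.lean -/
theorem crt_count (M : ℕ) (S : Finset ℕ) (hS : ∀ p ∈ S, p.Prime) (q a : ℕ) (hq : 0 < q) (ha : a < q)
    (hqS : ∀ p ∈ S, Nat.Coprime q p) (A : ℕ → Finset ℕ) (hA : ∀ p, A p ⊆ range p) :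
    |(((range M).filter (fun m => m % q = a ∧ ∀ p ∈ S, m % p ∈ A p)).card : ℝ)
      - (M : ℝ) / q * ∏ p ∈ S, (((A p).card : ℝ) / p)| ≤ ∏ p ∈ S, ((A p).card : ℝ) := by
  induction S using Finset.induction_on generalizing q a with
  | empty => simpa using crt_base M q a hq ha
  | insert p S hpS ih =>
    have hpp : p.Prime := hS p (mem_insert_self _ _)
    have hcop : Nat.Coprime q p := hqS p (mem_insert_self _ _)
    have hqp : 0 < q * p := Nat.mul_pos hq hpp.pos
    -- residues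
    set cr : ℕ → ℕ := fun r => (Nat.chineseRemainder hcop a r : ℕ) with hcr
    have hcrlt : ∀ r, cr r < q * p := fun r =>
      Nat.chineseRemainder_lt_mul hcop a r hq.ne' hpp.ne_zero
    have hcrspec : ∀ r < p, ∀ m, (m % q = a ∧ m % p = r) ↔ m % (q * p) = cr r := by
      intro r hr m
      have hs := (Nat.chineseRemainder hcop a r).2
      constructor
      · rintro ⟨h1, h2⟩
        have h3 : m ≡ a [MOD q] := by rw [Nat.ModEq, h1, Nat.mod_eq_of_lt ha]
        have h4 : m ≡ r [MOD p] := by rw [Nat.ModEq, h2, Nat.mod_eq_of_lt hr]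
        have h5 : m ≡ cr r [MOD (q * p)] := Nat.chineseRemainder_modEq_unique hcop h3 h4
        rw [Nat.ModEq, Nat.mod_eq_of_lt (hcrlt r)] at h5
        exact h5
      · intro h
        have h5 : m ≡ cr r [MOD (q * p)] := by
          rw [Nat.ModEq, h, Nat.mod_eq_of_lt (hcrlt r)]
        have h6 : m ≡ a [MOD q] := (h5.of_mul_right p).trans hs.1
        have h7 : m ≡ r [MOD p] := (h5.of_mul_left q).trans hs.2
        rw [Nat.ModEq, Nat.mod_eq_of_lt ha] at h6
        rw [Nat.ModEq, Nat.mod_eq_of_lt hr] at h7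
        exact ⟨h6, h7⟩
    have hdec : (range M).filter (fun m => m % q = a ∧ ∀ p' ∈ insert p S, m % p' ∈ A p')
        = (A p).biUnion (fun r => (range M).filter
            (fun m => m % (q * p) = cr r ∧ ∀ p' ∈ S, m % p' ∈ A p')) := by
      ext m
      simp only [mem_filter, mem_biUnion, forall_mem_insert, mem_range]
      constructor
      · rintro ⟨h0, h1, h2, h3⟩
        refine ⟨m % p, h2, h0, ?_, h3⟩
        exact (hcrspec (m % p) (Nat.mod_lt _ hpp.pos) m).1 ⟨h1, rfl⟩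
      · rintro ⟨r, hr, h0, h1, h2⟩
        have hrp : r < p := mem_range.1 (hA p hr)
        obtain ⟨h3, h4⟩ := (hcrspec r hrp m).2 h1
        exact ⟨h0, h3, h4 ▸ hr, h2⟩
    have hcard : ((range M).filter (fun m => m % q = a ∧ ∀ p' ∈ insert p S, m % p' ∈ A p')).card
        = ∑ r ∈ A p, ((range M).filter
            (fun m => m % (q * p) = cr r ∧ ∀ p' ∈ S, m % p' ∈ A p')).card := by
      rw [hdec, card_biUnion]
      intro r hr r' hr' hne
      rw [Function.onFun, disjoint_left]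
      intro m hm hm'
      simp only [mem_filter] at hm hm'
      have h1 := (hcrspec r (mem_range.1 (hA p hr)) m).2 hm.2.1
      have h2 := (hcrspec r' (mem_range.1 (hA p hr')) m).2 hm'.2.1
      exact hne (h1.2.symm.trans h2.2)
    have hih : ∀ r ∈ A p, |(((range M).filter
            (fun m => m % (q * p) = cr r ∧ ∀ p' ∈ S, m % p' ∈ A p')).card : ℝ)
          - (M : ℝ) / (q * p : ℕ) * ∏ p' ∈ S, (((A p').card : ℝ) / p')| ≤ ∏ p' ∈ S, ((A p').card : ℝ) := by
      intro r _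
      refine ih (fun p' hp' => hS p' (mem_insert_of_mem hp')) (q * p) (cr r) hqp (hcrlt r) ?_
      intro p' hp'
      refine Nat.Coprime.mul_left (hqS p' (mem_insert_of_mem hp')) ?_
      rw [Nat.coprime_primes hpp (hS p' (mem_insert_of_mem hp'))]
      rintro rfl
      exact hpS hp'
    have hp0 : (p : ℝ) ≠ 0 := by exact_mod_cast hpp.ne_zero
    have hq0 : (q : ℝ) ≠ 0 := by exact_mod_cast hq.ne'
    rw [hcard, prod_insert hpS, prod_insert hpS]
    have h1 : ((∑ r ∈ A p, ((range M).filter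
            (fun m => m % (q * p) = cr r ∧ ∀ p' ∈ S, m % p' ∈ A p')).card : ℕ) : ℝ)
        - (M : ℝ) / q * (((A p).card : ℝ) / p * ∏ p' ∈ S, (((A p').card : ℝ) / p'))
        = ∑ r ∈ A p, ((((range M).filter
            (fun m => m % (q * p) = cr r ∧ ∀ p' ∈ S, m % p' ∈ A p')).card : ℝ)
          - (M : ℝ) / (q * p : ℕ) * ∏ p' ∈ S, (((A p').card : ℝ) / p')) := by
      rw [sum_sub_distrib, sum_const, nsmul_eq_mul]
      push_cast
      field_simp
    rw [h1]
    refine (abs_sum_le_sum_abs _ _).trans ?_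
    refine (sum_le_sum hih).trans ?_
    rw [sum_const, nsmul_eq_mul]

end Pool.Agent.Work.MP_f473e4_nt
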