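import Pool.Agent.Work.MP_f473e4_nt.Core

set_option autoImplicit false

open Finset

namespace Pool.Agent.Work.MP_f473e4_nt

theorem final_run (L : ℕ) (hL : 2 ≤ L) :
    ∃ n k : ℕ, 0 < n ∧ ∀ i < L, (n + i).divisors.card = k := by
  classical
  obtain ⟨C, hC⟩ := sieve_main
  obtain ⟨c, hc0, hrig⟩ := rigid_main L hL
  set b0 : ℕ := (L - 1) * L with hb0
  set e : ℕ := 2 * b0 + 4 with he
  set q : ℕ := e * L + L + 2 with hq
  obtain ⟨N₀, hN₀⟩ := hrig q (by omega)
  obtain ⟨N₁, hN₁⟩ := exists_nat_gt ((512 * L ^ 2 * (q + e) + 8 * L * C) / c : ℝ)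
  set N : ℕ := N₀ + N₁ + L ^ L + 16 * L + 4 with hN
  obtain ⟨T, H₀, κ, τ₀, Δ₀, hTn, hT, hH₀, hpair, hdeg₀, hcard, hΔ₀, hτ, hκ, hpat⟩ :=
    hN₀ N (by omega)
  have hN4 : 4 ≤ N := by omega
  have hN16 : 16 * L ≤ N := by omega
  have hNL : L ^ L ≤ N := by omega
  have hN1 : 1 ≤ N := by omega
  have hNpos : (0 : ℝ) < N := by exact_mod_cast (by omega : 0 < N)
  have hNbig : (512 * L ^ 2 * (q + e) + 8 * L * C : ℝ) < c * N := by
    have h1 : ((512 * L ^ 2 * (q + e) + 8 * L * C) / c : ℝ) < N := by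
      refine hN₁.trans_le ?_
      exact_mod_cast (by omega : N₁ ≤ N)
    rw [div_lt_iff₀ hc0] at h1
    linarith [h1, mul_comm c (N : ℝ)]
  set R : ℕ := N ^ (q + e) with hRdef
  set r : ℕ := N ^ (q + 2 * b0 + 3) with hrdef
  set A : ℕ := N ^ q with hAdef
  set D : ℕ := N ^ (b0 + 2) with hDdef
  set Δ : ℕ := R ^ (L - 1) / (16 * L) with hΔdef
  set b : ℕ := 2 * D * A with hbdef
  set β : ℝ := c / (2 * L * (N : ℝ) ^ b0) with hβdef
  have hLpos : (0 : ℝ) < L := by exact_mod_cast (by omega : 0 < L)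
  have hβ : 0 < β := by positivity
  have hRr : R = N * r := by
    rw [hRdef, hrdef, he, ← pow_succ']
    congr 1
  have hR0 : 0 < R := by positivity
  have hr1 : 1 ≤ r := Nat.one_le_pow _ _ hN1
  have hA1 : 1 ≤ A := Nat.one_le_pow _ _ hN1
  have hAr : A ≤ r := Nat.pow_le_pow_right hN1 (by omega)
  have hR : 2 * (r + A) ≤ R := by
    rw [hRr]
    nlinarith
  have hRbig : 16 * L ≤ R ^ (L - 1) := by
    calc 16 * L ≤ N := hN16
      _ = N ^ 1 := (pow_one N).symm
      _ ≤ N ^ (q + e) := Nat.pow_le_pow_right hN1 (by omega)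
      _ = R ^ 1 := by rw [pow_one]
      _ ≤ R ^ (L - 1) := Nat.pow_le_pow_right hR0 (by omega)
  have hΔ1 : 1 ≤ Δ := by
    rw [hΔdef]
    exact (Nat.one_le_div_iff (by omega)).2 hRbig
  have hΔa : 16 * L * Δ ≤ R ^ (L - 1) := Nat.mul_div_le _ _
  have hΔb : R ^ (L - 1) ≤ 32 * L * Δ := by
    have h1 : R ^ (L - 1) < 16 * L * (Δ + 1) := Nat.lt_mul_div_succ _ (by omega)
    have h2 : 16 * L * (Δ + 1) ≤ 32 * L * Δ := by nlinarith
    omega
  have hΔ₀pos : 0 < Δ₀ := by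
    rcases Nat.eq_zero_or_pos Δ₀ with h | h
    · rw [h] at hΔ₀
      have : 0 < (N ^ (q - 1)) ^ L := by positivity
      omega
    · exact h
  have hΔle : Δ ≤ L * Δ₀ := by
    have h1 : Δ ≤ R ^ (L - 1) := Nat.div_le_self _ _
    have h2 : R ^ (L - 1) * L ^ L ≤ L ^ L * Δ₀ := by
      refine le_trans ?_ hΔ₀
      calc R ^ (L - 1) * L ^ L ≤ R ^ (L - 1) * N := Nat.mul_le_mul_left _ hNL
        _ = N ^ ((q + e) * (L - 1) + 1) := by rw [hRdef, ← pow_mul, pow_succ]
        _ ≤ N ^ ((q - 1) * L) := by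
            apply Nat.pow_le_pow_right hN1
            obtain ⟨l, rfl⟩ : ∃ l, L = l + 1 := ⟨L - 1, by omega⟩
            have hq1 : q - 1 = e * (l + 1) + (l + 1) + 1 := by omega
            rw [hq1, hq]
            simp only [Nat.add_sub_cancel]
            ring_nf
            nlinarith [Nat.zero_le (e * l), Nat.zero_le l]
        _ = (N ^ (q - 1)) ^ L := by rw [pow_mul]
    have h3 : R ^ (L - 1) ≤ Δ₀ := by
      have hLL : 0 < L ^ L := by positivity
      rw [mul_comm] at h2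
      exact Nat.le_of_mul_le_mul_left h2 hLL
    calc Δ ≤ Δ₀ := h1.trans h3
      _ ≤ L * Δ₀ := Nat.le_mul_of_pos_left _ (by omega)
  -- thinning
  set V : ℕ × ℕ → Finset T := fun ℓ => univ.filter (fun t : T => ∃ j < L, ℓ.1 * (ℓ.2 + j) = t) with hV
  obtain ⟨H, hHsub, hHdeg, hHcard⟩ := thinning (T := T) H₀ V L Δ₀ Δ
    (by
      intro ℓ _
      have h1 : (V ℓ).card ≤ ((range L).image (fun j => ℓ.1 * (ℓ.2 + j))).card := by
        refine Finset.card_le_card_of_injOn (fun t => t.1) ?_ ?_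
        · intro t ht
          simp only [hV, Finset.coe_filter, Finset.mem_univ, true_and, Set.mem_setOf_eq] at ht
          obtain ⟨j, hj, hjt⟩ := ht
          simp only [Finset.coe_image, Set.mem_image, Finset.mem_coe, Finset.mem_range]
          exact ⟨j, hj, hjt⟩
        · intro x _ y _ hxy
          exact Subtype.ext hxy
      refine h1.trans ?_
      calc ((range L).image (fun j => ℓ.1 * (ℓ.2 + j))).card ≤ (range L).card := Finset.card_image_le
        _ = L := Finset.card_range L)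
    (by
      intro t
      have := hdeg₀ t.1
      simpa [hV] using this)
    hΔ1 hΔle
  have hH : ∀ ℓ ∈ H, 0 < ℓ.1 ∧ 0 < ℓ.2 ∧ ∀ j < L, ℓ.1 * (ℓ.2 + j) ∈ T :=
    fun ℓ hℓ => hH₀ ℓ (hHsub hℓ)
  have hdeg : ∀ t, (H.filter (fun ℓ => ∃ j < L, ℓ.1 * (ℓ.2 + j) = t)).card ≤ Δ := by
    intro t
    by_cases ht : t ∈ T
    · have := hHdeg ⟨t, ht⟩
      simpa [hV] using this
    · have : H.filter (fun ℓ => ∃ j < L, ℓ.1 * (ℓ.2 + j) = t) = ∅ := by
        apply Finset.filter_eq_empty_iff.2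
        rintro ℓ hℓ ⟨j, hj, hjt⟩
        exact ht (hjt ▸ (hH ℓ hℓ).2.2 j hj)
      rw [this]
      simp
  have hHc : β * Δ * T.card ≤ H.card := by
    have h1 : (H₀.card : ℝ) * Δ ≤ 2 * L * Δ₀ * H.card := by exact_mod_cast hHcard
    have h2 : c * T.card * Δ₀ ≤ H₀.card * (N : ℝ) ^ b0 := hcard
    have hΔr : (0 : ℝ) ≤ Δ := by positivity
    have hΔ₀r : (0 : ℝ) < Δ₀ := by exact_mod_cast hΔ₀pos
    have h3 : c * T.card * Δ₀ * Δ ≤ (2 * L * Δ₀ * H.card) * (N : ℝ) ^ b0 := by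
      calc c * T.card * Δ₀ * Δ ≤ H₀.card * (N : ℝ) ^ b0 * Δ := mul_le_mul_of_nonneg_right h2 hΔr
        _ = H₀.card * Δ * (N : ℝ) ^ b0 := by ring
        _ ≤ _ := mul_le_mul_of_nonneg_right h1 (by positivity)
    have h4 : c * T.card * Δ ≤ 2 * L * H.card * (N : ℝ) ^ b0 := by
      have : (c * T.card * Δ) * Δ₀ ≤ (2 * L * H.card * (N : ℝ) ^ b0) * Δ₀ := by linarith
      exact le_of_mul_le_mul_right this hΔ₀r
    rw [hβdef]
    have h5 : (0 : ℝ) < 2 * L * (N : ℝ) ^ b0 := by positivity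
    rw [div_mul_eq_mul_div, div_mul_eq_mul_div, div_le_iff₀ h5]
    linarith
  refine final_core L hL C hC T H κ τ₀ A D r R Δ b β hTn (fun t ht => (hT t ht).1) hH
    (fun ℓ hℓ ℓ' hℓ' => hpair ℓ (hHsub hℓ) ℓ' (hHsub hℓ')) hdeg hκ hτ
    (fun ℓ hℓ => hpat ℓ (hHsub hℓ)) hR hR0 hΔa hΔb hβ hHc ?_ ?_ ?_ ?_
  · -- hD
    have h1 : Real.log (r + 2) ≤ (q + e) * N := by
      have h2 : ((r : ℝ) + 2) ≤ (N : ℝ) ^ (q + e) := by
        have : r + 2 ≤ N ^ (q + e) := by
          have : N ^ (q + e) = N * r := hRr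
          rw [this]
          nlinarith
        exact_mod_cast this
      calc Real.log (r + 2) ≤ Real.log ((N : ℝ) ^ (q + e)) :=
            Real.log_le_log (by positivity) h2
        _ = ((q + e : ℕ) : ℝ) * Real.log N := by rw [Real.log_pow]
        _ ≤ ((q + e : ℕ) : ℝ) * N := by
            apply mul_le_mul_of_nonneg_left _ (by positivity)
            exact (Real.log_le_sub_one_of_pos hNpos).trans (by linarith)
        _ = (q + e) * N := by push_cast; ring
    have h3 : (D : ℝ) * β = c * (N : ℝ) ^ 2 / (2 * L) := by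
      rw [hDdef, hβdef]
      push_cast
      rw [pow_add]
      have : (N : ℝ) ^ b0 ≠ 0 := by positivity
      field_simp
    rw [h3, lt_div_iff₀ (by positivity)]
    have h4 : (0 : ℝ) ≤ 8 * L * C := by positivity
    have h5 : (512 * L ^ 2 * (q + e) : ℝ) * N < c * N * N := by
      apply mul_lt_mul_of_pos_right _ hNpos
      linarith
    calc 256 * (L : ℝ) * Real.log (r + 2) * (2 * L) ≤ 256 * L * ((q + e) * N) * (2 * L) := by
          gcongr
      _ = 512 * L ^ 2 * (q + e) * N := by ring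
      _ < c * N * N := h5
      _ = c * (N : ℝ) ^ 2 := by ring
  · -- 1 ≤ b
    have hD1 : 1 ≤ D := Nat.one_le_pow _ _ hN1
    rw [hbdef]
    nlinarith
  · -- hb
    have hTc : T.card ≤ 2 ^ A := by
      have : T ⊆ Finset.Icc 1 (2 ^ A) := by
        intro t ht
        have := hT t ht
        simp only [Finset.mem_Icc]
        exact ⟨this.1, this.2⟩
      calc T.card ≤ (Finset.Icc 1 (2 ^ A)).card := Finset.card_le_card this
        _ = 2 ^ A := by simp
    have hD1 : 1 ≤ D := Nat.one_le_pow _ _ hN1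
    calc 2 * T.card ^ D ≤ 2 * (2 ^ A) ^ D := by gcongr
      _ = 2 ^ (A * D + 1) := by rw [← pow_mul, pow_succ]; ring
      _ ≤ 2 ^ b := by
          apply Nat.pow_le_pow_right (by norm_num)
          rw [hbdef]
          nlinarith [Nat.mul_le_mul hA1 hD1]
  · -- hCb
    have h1 : (β / 2 * (r : ℝ)) = c / (4 * L) * (N : ℝ) ^ (q + b0 + 3) := by
      rw [hβdef, hrdef]
      push_cast
      have : (N : ℝ) ^ b0 ≠ 0 := by positivity
      have h2 : (N : ℝ) ^ (q + 2 * b0 + 3) = (N : ℝ) ^ (q + b0 + 3) * (N : ℝ) ^ b0 := by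
        rw [← pow_add]; congr 1; ring
      rw [h2]
      field_simp
      norm_num
    have h2 : (C * b : ℝ) ≤ c / (4 * L) * (N : ℝ) ^ (q + b0 + 3) := by
      have h3 : (b : ℝ) = 2 * (N : ℝ) ^ (q + b0 + 2) := by
        rw [hbdef, hDdef, hAdef]
        push_cast
        rw [mul_assoc, ← pow_add]
        congr 2
        ring
      rw [h3]
      have h4 : (N : ℝ) ^ (q + b0 + 3) = (N : ℝ) ^ (q + b0 + 2) * N := by rw [← pow_succ]
      rw [h4]
      have h5 : (8 * L * C : ℝ) ≤ c * N := by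
        have : (0 : ℝ) ≤ 512 * L ^ 2 * (q + e) := by positivity
        linarith
      have h6 : (0 : ℝ) ≤ (N : ℝ) ^ (q + b0 + 2) := by positivity
      rw [div_mul_eq_mul_div, le_div_iff₀ (by positivity)]
      have h7 := mul_le_mul_of_nonneg_right h5 h6
      linarith
    have h8 : (0 : ℝ) ≤ β / 2 := by positivity
    linarith

end Pool.Agent.Work.MP_f473e4_nt
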