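import Mathlib

set_option autoImplicit false

/-!
# Choice of `θ` by the Chinese remainder theorem
-/

open Finset

namespace Pool.Agent.Work.MP_f473e4_nt

/-- Distinct primes above a bound. -/
theorem exists_primes_above (ι : Type) [Fintype ι] (N : ℕ) :
    ∃ P : ι → ℕ, Function.Injective P ∧ ∀ e, (P e).Prime ∧ N < P e := by
  refine ⟨fun e => Nat.nth Nat.Prime (N + (Fintype.equivFin ι e : ℕ)), ?_, fun e => ⟨?_, ?_⟩⟩
  · intro e e' h
    have h1 := Nat.nth_injective Nat.infinite_setOfPred_prime h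
    have h2 : (Fintype.equivFin ι e : ℕ) = (Fintype.equivFin ι e' : ℕ) := by omega
    exact (Fintype.equivFin ι).injective (Fin.ext h2)
  · exact Nat.nth_mem_of_infinite Nat.infinite_setOfPred_prime _
  · have := Nat.add_two_le_nth_prime (N + (Fintype.equivFin ι e : ℕ))
    show N < Nat.nth Nat.Prime (N + (Fintype.equivFin ι e : ℕ))
    omega

/-- The Chinese remainder theorem for a finite family, with a positive solution. -/
theorem crt_fam {κ : Type} (s : Finset κ) (m a : κ → ℕ) (hm : ∀ i ∈ s, m i ≠ 0)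
    (hc : Set.Pairwise (s : Set κ) (Function.onFun Nat.Coprime m)) :
    ∃ x : ℕ, 0 < x ∧ ∀ i ∈ s, x ≡ a i [MOD m i] := by
  obtain ⟨x, hx⟩ := Nat.chineseRemainderOfFinset a m s hm hc
  refine ⟨x + ∏ i ∈ s, m i, ?_, fun i hi => ?_⟩
  · have : 0 < ∏ i ∈ s, m i := Finset.prod_pos fun i hi => Nat.pos_of_ne_zero (hm i hi)
    omega
  · have h1 : ∏ i ∈ s, m i ≡ 0 [MOD m i] :=
      (Nat.modEq_zero_iff_dvd).mpr (Finset.dvd_prod_of_mem m hi)
    simpa using (hx i hi).add h1

theorem padic_of_modEq {p n d : ℕ} (hp : p.Prime) (h : n ≡ p ^ d [MOD p ^ (d + 1)]) :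
    padicValNat p n = d := by
  have := Fact.mk hp
  have h1 : n % p ^ (d + 1) = p ^ d := by
    rw [h, Nat.mod_eq_of_lt]
    exact Nat.pow_lt_pow_right hp.one_lt (by omega)
  have h2 : n = p ^ d * (p * (n / p ^ (d + 1)) + 1) := by
    conv_lhs => rw [← Nat.div_add_mod n (p ^ (d + 1)), h1]
    ring
  rw [h2, padicValNat.mul (pow_ne_zero _ hp.pos.ne') (by omega), padicValNat.prime_pow,
    padicValNat.eq_zero_of_not_dvd, add_zero]
  intro h3
  have : p ∣ 1 := (Nat.dvd_add_right (Dvd.intro _ rfl)).mp h3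
  exact hp.one_lt.ne' (Nat.dvd_one.mp this)

/-- A2. file ATheta.lean -/
theorem choose_theta (Hh : Finset ℕ) (B W : ℕ) (hW : 0 < W)
    (hWB : ∀ p, p.Prime → p ∣ W → p ≤ B) (hcard : Hh.card ≤ B)
    {ι : Type} [Fintype ι] [DecidableEq ι] (h : ι → ℕ) (hh : ∀ e, h e ∈ Hh)
    (δ : ι → ℕ) (hδ : ∀ e, 1 ≤ δ e) :
    ∃ (θ : ℕ) (P : ι → ℕ), 0 < θ ∧ W ∣ θ ∧ Function.Injective P ∧
      (∀ e, (P e).Prime ∧ B < P e) ∧ (∀ e, padicValNat (P e) (θ + h e) = δ e) ∧
      (∀ q, q.Prime → B < q → ∀ y ∈ Hh, ∀ y' ∈ Hh, q ∣ θ + y → q ∣ θ + y' → y = y') := by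
  -- the product of the differences
  set Pi : ℕ := ∏ z ∈ (Hh ×ˢ Hh).filter (fun z => z.2 < z.1), (z.1 - z.2) with hPi
  have hPi0 : 0 < Pi := by
    refine Finset.prod_pos fun z hz => ?_
    have := (Finset.mem_filter.mp hz).2
    omega
  obtain ⟨P, hPinj, hP⟩ := exists_primes_above ι (B + Pi)
  have hPB : ∀ e, (P e).Prime ∧ B < P e := fun e => ⟨(hP e).1, by have := (hP e).2; omega⟩
  have hPPi : ∀ e, ¬ P e ∣ Pi := fun e hd => by
    have := Nat.le_of_dvd hPi0 hd
    have := (hP e).2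
    omega
  -- residues avoiding `-y`
  have hres : ∀ q : ℕ, q.Prime → B < q → ∃ r : ℕ, ∀ y ∈ Hh, ¬ q ∣ r + y := by
    intro q hq hBq
    have := Fact.mk hq
    by_contra hcon
    push Not at hcon
    have h1 : (Finset.univ : Finset (ZMod q)) ⊆ Hh.image (fun y : ℕ => -(y : ZMod q)) := by
      intro z _
      obtain ⟨y, hy, hd⟩ := hcon z.val
      rw [Finset.mem_image]
      refine ⟨y, hy, ?_⟩
      have h2 : ((z.val + y : ℕ) : ZMod q) = 0 := (ZMod.natCast_eq_zero_iff _ _).mpr hd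
      push_cast at h2
      rw [ZMod.natCast_zmod_val] at h2
      exact (eq_neg_of_add_eq_zero_left h2).symm
    have h2 := Finset.card_le_card h1
    rw [Finset.card_univ, ZMod.card] at h2
    have h3 := Finset.card_image_le (s := Hh) (f := fun y : ℕ => -(y : ZMod q))
    omega
  choose! r hr using hres
  set Q : Finset ℕ := Pi.primeFactors.filter (fun q => B < q) with hQ
  have hQ1 : ∀ q ∈ Q, q.Prime ∧ B < q ∧ q ∣ Pi := by
    intro q hq
    obtain ⟨h1, h2⟩ := Finset.mem_filter.mp hq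
    exact ⟨Nat.prime_of_mem_primeFactors h1, h2, Nat.dvd_of_mem_primeFactors h1⟩
  let m : Option (ℕ ⊕ ι) → ℕ := fun k => match k with
    | none => W
    | some (Sum.inl q) => q
    | some (Sum.inr e) => P e ^ (δ e + 1)
  let a : Option (ℕ ⊕ ι) → ℕ := fun k => match k with
    | none => 0
    | some (Sum.inl q) => r q
    | some (Sum.inr e) => P e ^ δ e + (P e ^ (δ e + 1) * h e - h e)
  let s : Finset (Option (ℕ ⊕ ι)) := Finset.insertNone (Q.disjSum Finset.univ)
  have hWc : ∀ q : ℕ, q.Prime → B < q → Nat.Coprime W q := by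
    intro q hq hBq
    rw [Nat.coprime_comm, hq.coprime_iff_not_dvd]
    intro hd
    have := hWB q hq hd
    omega
  have hqe : ∀ q ∈ Q, ∀ e, Nat.Coprime q (P e) := by
    intro q hq e
    rw [Nat.coprime_primes (hQ1 q hq).1 (hP e).1]
    rintro rfl
    exact hPPi e (hQ1 _ hq).2.2
  have hmem : ∀ q, some (Sum.inl q) ∈ s → q ∈ Q := by
    intro q hq
    have h1 := Finset.some_mem_insertNone.mp hq
    simpa using h1
  have hs1 : ∀ i ∈ s, m i ≠ 0 := by
    rintro (_ | (q | e)) hk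
    · exact hW.ne'
    · exact (hQ1 q (hmem q hk)).1.pos.ne'
    · exact pow_ne_zero _ (hP e).1.pos.ne'
  have hs2 : Set.Pairwise (s : Set (Option (ℕ ⊕ ι))) (Function.onFun Nat.Coprime m) := by
    rintro (_ | (q | e)) hk (_ | (q' | e')) hk' hne
    · exact absurd rfl hne
    · have h1 := hQ1 q' (hmem q' hk')
      exact hWc q' h1.1 h1.2.1
    · exact (hWc (P e') (hP e').1 (hPB e').2).pow_right _
    · have h1 := hQ1 q (hmem q hk)
      exact (hWc q h1.1 h1.2.1).symm
    · have h1 := hQ1 q (hmem q hk)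
      have h2 := hQ1 q' (hmem q' hk')
      refine (Nat.coprime_primes h1.1 h2.1).mpr ?_
      rintro rfl
      exact hne rfl
    · exact (hqe q (hmem q hk) e').pow_right _
    · exact ((hWc (P e) (hP e).1 (hPB e).2).pow_right _).symm
    · exact ((hqe q' (hmem q' hk') e).pow_right _).symm
    · refine Nat.Coprime.pow _ _ ((Nat.coprime_primes (hP e).1 (hP e').1).mpr ?_)
      intro h1
      exact hne (by rw [hPinj h1])
  obtain ⟨θ, hθ0, hθ⟩ := crt_fam s m a hs1 hs2
  refine ⟨θ, P, hθ0, ?_, hPinj, hPB, ?_, ?_⟩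
  · exact (Nat.modEq_zero_iff_dvd).mp (hθ none (by simp [s]))
  · intro e
    have h1 := hθ (some (Sum.inr e)) (by simp [s])
    simp only [m, a] at h1
    apply padic_of_modEq (hP e).1
    have h2 : h e ≤ P e ^ (δ e + 1) * h e :=
      Nat.le_mul_of_pos_left _ (pow_pos (hP e).1.pos _)
    have h3 : θ + h e ≡ P e ^ δ e + (P e ^ (δ e + 1) * h e - h e) + h e
        [MOD P e ^ (δ e + 1)] := h1.add_right _
    have h4 : P e ^ δ e + (P e ^ (δ e + 1) * h e - h e) + h e =
        P e ^ δ e + P e ^ (δ e + 1) * h e := by omega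
    rw [h4] at h3
    refine h3.trans ?_
    have h5 : P e ^ (δ e + 1) * h e ≡ 0 [MOD P e ^ (δ e + 1)] :=
      (Nat.modEq_zero_iff_dvd).mpr (Dvd.intro _ rfl)
    simpa using (Nat.ModEq.refl (P e ^ δ e)).add h5
  · intro q hq hBq y hy y' hy' hd hd'
    by_contra hne
    have hdPi : q ∣ Pi := by
      rcases lt_or_gt_of_ne hne with hlt | hlt
      · have h1 : q ∣ y' - y := by
          have := Nat.dvd_sub hd' hd
          rwa [Nat.add_sub_add_left] at this
        exact h1.trans (Finset.dvd_prod_of_mem (fun z : ℕ × ℕ => z.1 - z.2)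
          (Finset.mem_filter.mpr ⟨Finset.mk_mem_product hy' hy, hlt⟩))
      · have h1 : q ∣ y - y' := by
          have := Nat.dvd_sub hd hd'
          rwa [Nat.add_sub_add_left] at this
        exact h1.trans (Finset.dvd_prod_of_mem (fun z : ℕ × ℕ => z.1 - z.2)
          (Finset.mem_filter.mpr ⟨Finset.mk_mem_product hy hy', hlt⟩))
    have hqQ : q ∈ Q := Finset.mem_filter.mpr
      ⟨Nat.mem_primeFactors.mpr ⟨hq, hdPi, hPi0.ne'⟩, hBq⟩
    have h1 := hθ (some (Sum.inl q)) (by simpa [s] using hqQ)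
    simp only [m, a] at h1
    have h2 : θ + y ≡ r q + y [MOD q] := h1.add_right _
    exact hr q hq hBq y hy ((Nat.modEq_zero_iff_dvd).mp
      (h2.symm.trans ((Nat.modEq_zero_iff_dvd).mpr hd)))

end Pool.Agent.Work.MP_f473e4_nt
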