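import Mathlib
import Pool.Agent.Work.MP_f473e4_nt.ATheta

set_option autoImplicit false

/-!
# The multi-affine structure

`x v = ∏ i, (y i + v i)`, where `W ∣ y i` and every `y i + t` has a private prime factor.
-/

open Finset

namespace Pool.Agent.Work.MP_f473e4_nt

/-- Shifts `y i` such that every number `y i + t` has a private prime factor `P (i, t)`. -/
theorem exists_shifts (D : ℕ) (T : Finset ℕ) (hT : ∀ t ∈ T, 0 < t) (W : ℕ) (hW : 0 < W) :
    ∃ (y : Fin D → ℕ) (P : Fin D × T → ℕ), (∀ e, (P e).Prime) ∧ (∀ i, W ∣ y i) ∧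
      (∀ i (t : T), P (i, t) ∣ y i + t) ∧
      ∀ i (t : T) i' (t' : T), P (i, t) ∣ y i' + t' → i = i' ∧ t = t' := by
  obtain ⟨P, hPinj, hP⟩ := exists_primes_above (Fin D × T) (W + ∑ t ∈ T, t)
  have hPt : ∀ e, ∀ t : T, (t : ℕ) < P e := by
    intro e t
    have h1 := (hP e).2
    have h2 : (t : ℕ) ≤ ∑ t ∈ T, t :=
      Finset.single_le_sum (f := fun t : ℕ => t) (fun _ _ => Nat.zero_le _) t.2
    omega
  have hPW : ∀ e, Nat.Coprime W (P e) := by
    intro e
    rw [Nat.coprime_comm, (hP e).1.coprime_iff_not_dvd]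
    intro hd
    have h1 := Nat.le_of_dvd hW hd
    have h2 := (hP e).2
    omega
  have hex : ∀ i : Fin D, ∃ x : ℕ, W ∣ x ∧ ∀ e : Fin D × T,
      x ≡ (if e.1 = i then P e - e.2 else 0) [MOD P e] := by
    intro i
    let m : Option (Fin D × T) → ℕ := fun k => match k with
      | none => W
      | some e => P e
    let a : Option (Fin D × T) → ℕ := fun k => match k with
      | none => 0
      | some e => if e.1 = i then P e - e.2 else 0
    obtain ⟨x, -, hx⟩ := crt_fam (Finset.univ : Finset (Option (Fin D × T))) m a (by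
      rintro (_ | e) -
      · exact hW.ne'
      · exact (hP e).1.pos.ne') (by
      rintro (_ | e) - (_ | e') - hne
      · exact absurd rfl hne
      · exact hPW e'
      · exact (hPW e).symm
      · refine (Nat.coprime_primes (hP e).1 (hP e').1).mpr ?_
        intro h1
        exact hne (by rw [hPinj h1]))
    exact ⟨x, (Nat.modEq_zero_iff_dvd).mp (hx none (Finset.mem_univ _)),
      fun e => hx (some e) (Finset.mem_univ _)⟩
  choose y hyW hy using hex
  refine ⟨y, P, fun e => (hP e).1, hyW, ?_, ?_⟩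
  · intro i t
    have h1 := hy i (i, t)
    simp only [if_true] at h1
    have h0 := hPt (i, t) t
    have h2 : y i + t ≡ P (i, t) - t + t [MOD P (i, t)] := h1.add_right _
    have h3 : P (i, t) - t + t = P (i, t) := by omega
    rw [h3] at h2
    exact (Nat.modEq_zero_iff_dvd).mp (h2.trans ((Nat.modEq_zero_iff_dvd).mpr dvd_rfl))
  intro i t i' t' hd
  have h1 := hy i' (i, t)
  have h0 := hPt (i, t) t
  have h0' := hPt (i, t) t'
  have ht0 := hT t t.2
  have ht0' := hT t' t'.2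
  have h2 : y i' + t' ≡ 0 [MOD P (i, t)] := (Nat.modEq_zero_iff_dvd).mpr hd
  have h3 : (if i = i' then P (i, t) - t else 0) + (t' : ℕ) ≡ 0 [MOD P (i, t)] :=
    (h1.symm.add_right _).trans h2
  by_cases hi : i = i'
  · refine ⟨hi, ?_⟩
    rw [if_pos hi] at h3
    have h4 : P (i, t) ∣ (P (i, t) - t) + t' := (Nat.modEq_zero_iff_dvd).mp h3
    obtain ⟨c, hc⟩ := h4
    have hc1 : c = 1 := by
      rcases c with _ | _ | c
      · omega
      · rfl
      · exfalso
        have : P (i, t) * 2 ≤ P (i, t) * (c + 1 + 1) := Nat.mul_le_mul_left _ (by omega)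
        omega
    rw [hc1] at hc
    exact Subtype.ext (by omega)
  · rw [if_neg hi, zero_add] at h3
    have h4 := Nat.le_of_dvd ht0' ((Nat.modEq_zero_iff_dvd).mp h3)
    omega

/-- A1. file AAff.lean -/
theorem affine_struct (D : ℕ) (T : Finset ℕ) (hT : ∀ t ∈ T, 0 < t) (W : ℕ)
    (hWT : ∀ v : Fin D → T, ∏ i, (v i : ℕ) < W) :
    ∃ (x : (Fin D → T) → ℕ) (h κ : Fin D → (Fin D → T) → ℕ),
      (∀ i v t, h i (Function.update v i t) = h i v) ∧
      (∀ i v t, κ i (Function.update v i t) = κ i v) ∧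
      (∀ i v, x v = κ i v + h i v * (v i : ℕ)) ∧
      (∀ i v i' v', h i v = h i' v' → i = i' ∧ ∀ j, j ≠ i → v j = v' j) ∧
      (∀ v, x v ≡ ∏ i, (v i : ℕ) [MOD W]) ∧
      (∀ i v, h i v ≡ ∏ j ∈ univ.erase i, (v j : ℕ) [MOD W]) := by
  rcases Nat.eq_zero_or_pos W with hW | hW
  · -- no vertices at all
    have hempty : (Fin D → T) → False := fun v => by
      have := hWT v
      omega
    exact ⟨fun _ => 0, fun _ _ => 0, fun _ _ => 0, fun _ v => (hempty v).elim,
      fun _ v => (hempty v).elim, fun _ v => (hempty v).elim, fun _ v => (hempty v).elim,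
      fun v => (hempty v).elim, fun _ v => (hempty v).elim⟩
  obtain ⟨y, P, hP, hyW, hyd, hyP⟩ := exists_shifts D T hT W hW
  have hinv : ∀ i (v : Fin D → T) t, ∏ j ∈ univ.erase i, (y j + (Function.update v i t j : ℕ)) =
      ∏ j ∈ univ.erase i, (y j + (v j : ℕ)) := by
    intro i v t
    refine Finset.prod_congr rfl fun j hj => ?_
    rw [Function.update_of_ne (Finset.ne_of_mem_erase hj)]
  have hmod : ∀ (s : Finset (Fin D)) (v : Fin D → T),
      ∏ j ∈ s, (y j + (v j : ℕ)) ≡ ∏ j ∈ s, (v j : ℕ) [MOD W] := by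
    intro s v
    rw [← ZMod.natCast_eq_natCast_iff]
    push_cast
    refine Finset.prod_congr rfl fun j _ => ?_
    rw [(ZMod.natCast_eq_zero_iff _ _).mpr (hyW j), zero_add]
  have hkey : ∀ i (v : Fin D → T) i' (v' : Fin D → T),
      ∏ j ∈ univ.erase i, (y j + (v j : ℕ)) = ∏ j ∈ univ.erase i', (y j + (v' j : ℕ)) →
      ∀ j, j ≠ i → j ≠ i' ∧ v j = v' j := by
    intro i v i' v' heq j hj
    have h1 : P (j, v j) ∣ ∏ j ∈ univ.erase i, (y j + (v j : ℕ)) :=
      (hyd j (v j)).trans (Finset.dvd_prod_of_mem (fun j => y j + (v j : ℕ))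
        (Finset.mem_erase.mpr ⟨hj, Finset.mem_univ j⟩))
    rw [heq, (hP _).prime.dvd_finsetProd_iff] at h1
    obtain ⟨l, hl, h2⟩ := h1
    obtain ⟨rfl, h4⟩ := hyP _ _ _ _ h2
    exact ⟨Finset.ne_of_mem_erase hl, h4⟩
  refine ⟨fun v => ∏ j, (y j + (v j : ℕ)), fun i v => ∏ j ∈ univ.erase i, (y j + (v j : ℕ)),
    fun i v => y i * ∏ j ∈ univ.erase i, (y j + (v j : ℕ)), hinv, ?_, ?_, ?_, ?_, ?_⟩
  · intro i v t
    simp only [hinv]
  · intro i v
    show ∏ j, (y j + (v j : ℕ)) = y i * ∏ j ∈ univ.erase i, (y j + (v j : ℕ)) +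
      (∏ j ∈ univ.erase i, (y j + (v j : ℕ))) * (v i : ℕ)
    rw [← Finset.mul_prod_erase univ _ (Finset.mem_univ i)]
    ring
  · intro i v i' v' heq
    have h1 := hkey i v i' v' heq
    refine ⟨?_, fun j hj => (h1 j hj).2⟩
    by_contra hne
    exact (h1 i' (Ne.symm hne)).1 rfl
  · exact fun v => hmod univ v
  · exact fun i v => hmod _ v

end Pool.Agent.Work.MP_f473e4_nt
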