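import Mathlib

set_option autoImplicit false

open Finset

namespace Pool.Agent.Work.MP_f473e4_nt

/-- A3. -/
theorem local_shift (q κ g ts w : ℕ) (hq : q.Prime) (hg : 0 < g) (hts : 0 < ts) (htsq : ts < q) :
    ∃ a : ℕ, ∀ t, 0 < t → t < q →
      padicValNat q (a + κ + g * t) = padicValNat q g + (if t = ts then w else 0) := by
  haveI : Fact q.Prime := ⟨hq⟩
  have hq0 : 0 < q := hq.pos
  set K : ℕ := κ + g * ts with hK
  have hle : K ≤ g * (ts * q ^ w + q ^ (w + 1) * K) := by
    have h1 : 1 ≤ g * q ^ (w + 1) := Nat.one_le_iff_ne_zero.mpr (by positivity)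
    calc K = 1 * K := (one_mul K).symm
      _ ≤ g * q ^ (w + 1) * K := Nat.mul_le_mul_right K h1
      _ ≤ g * (ts * q ^ w) + g * q ^ (w + 1) * K := Nat.le_add_left _ _
      _ = g * (ts * q ^ w + q ^ (w + 1) * K) := by ring
  obtain ⟨a, ha⟩ := Nat.exists_eq_add_of_le hle
  refine ⟨a, fun t ht0 htq => ?_⟩
  have hqw : 1 ≤ q ^ w := Nat.one_le_iff_ne_zero.mpr (by positivity)
  have htsle : ts ≤ ts * q ^ w := Nat.le_mul_of_pos_right _ hqw
  obtain ⟨R, hR⟩ := Nat.exists_eq_add_of_le htsle
  have hM : a + κ + g * t = g * (R + q ^ (w + 1) * K + t) := by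
    have : K + a + g * t = g * (ts * q ^ w + q ^ (w + 1) * K) + g * t := by rw [← ha]
    rw [hR] at this
    have h2 : g * ts + (a + κ + g * t) = g * ts + g * (R + q ^ (w + 1) * K + t) := by
      calc g * ts + (a + κ + g * t) = K + a + g * t := by rw [hK]; ring
        _ = g * (ts + R + q ^ (w + 1) * K) + g * t := this
        _ = g * ts + g * (R + q ^ (w + 1) * K + t) := by ring
    exact Nat.add_left_cancel h2
  rw [hM, padicValNat.mul (by omega) (by omega)]
  congr 1
  split_ifs with h
  · subst h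
    have : R + q ^ (w + 1) * K + t = q ^ w * (t + q * K) := by
      calc R + q ^ (w + 1) * K + t = (t + R) + q ^ (w + 1) * K := by ring
        _ = t * q ^ w + q ^ (w + 1) * K := by rw [← hR]
        _ = q ^ w * (t + q * K) := by ring
    rw [this, padicValNat.mul (by positivity) (by omega), padicValNat.prime_pow,
      padicValNat.eq_zero_of_not_dvd]
    · rfl
    · intro hd
      have : q ∣ t := (Nat.dvd_add_left (Dvd.intro _ rfl)).mp hd
      exact absurd (Nat.le_of_dvd ht0 this) (by omega)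
  · apply padicValNat.eq_zero_of_not_dvd
    intro hd
    rcases Nat.eq_zero_or_pos w with hw | hw
    · subst hw
      simp only [pow_zero, mul_one] at hR
      have hR0 : R = 0 := by omega
      subst hR0
      have : q ∣ t := by
        have h3 : q ∣ q ^ (0 + 1) * K := by
          rw [zero_add, pow_one]; exact Dvd.intro _ rfl
        have h4 : 0 + q ^ (0 + 1) * K + t = q ^ (0 + 1) * K + t := by ring
        rw [h4] at hd
        exact (Nat.dvd_add_right h3).mp hd
      exact absurd (Nat.le_of_dvd ht0 this) (by omega)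
    · have h1 : (q : ℤ) ∣ ((R + q ^ (w + 1) * K + t : ℕ) : ℤ) := by exact_mod_cast hd
      have h2 : (q : ℤ) ∣ ((ts * q ^ w : ℕ) : ℤ) := by
        have : q ∣ ts * q ^ w := Dvd.dvd.mul_left (dvd_pow_self q (by omega)) ts
        exact_mod_cast this
      have h3 : (q : ℤ) ∣ ((q ^ (w + 1) * K : ℕ) : ℤ) := by
        have : q ∣ q ^ (w + 1) * K := Dvd.dvd.mul_right (dvd_pow_self q (by omega)) K
        exact_mod_cast this
      have h4 : ((t : ℤ) - ts) = ((R + q ^ (w + 1) * K + t : ℕ) : ℤ) - ((ts * q ^ w : ℕ) : ℤ)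
          - ((q ^ (w + 1) * K : ℕ) : ℤ) := by
        rw [hR]; push_cast; ring
      have h5 : (q : ℤ) ∣ ((t : ℤ) - ts) := by
        rw [h4]; exact dvd_sub (dvd_sub h1 h2) h3
      have h6 : (t : ℤ) - ts = 0 := by
        apply Int.eq_zero_of_abs_lt_dvd h5
        rw [abs_lt]; constructor <;> omega
      omega

end Pool.Agent.Work.MP_f473e4_nt
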