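import Mathlib
import Pool.Agent.Work.MP_f473e4_nt.AAff
import Pool.Agent.Work.MP_f473e4_nt.ATheta
import Pool.Agent.Work.MP_f473e4_nt.ALocal

/-!
# Valuations: the arithmetic construction (module A4)
-/

set_option autoImplicit false

open Finset

namespace Pool.Agent.Work.MP_f473e4_nt

theorem aval_eq_of_modEq {p E a b : ℕ} (hp : p.Prime) (ha : 0 < a) (hb : 0 < b)
    (h : a ≡ b [MOD p ^ E]) (hE : padicValNat p b < E) : padicValNat p a = padicValNat p b := by
  have := Fact.mk hp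
  apply le_antisymm
  · by_contra hlt
    push Not at hlt
    have h1 : p ^ (padicValNat p b + 1) ∣ a := (padicValNat_dvd_iff_le ha.ne').2 hlt
    have h2 : p ^ (padicValNat p b + 1) ∣ b := ((h.dvd_iff (pow_dvd_pow p hE)).1 h1)
    have h3 := (padicValNat_dvd_iff_le hb.ne').1 h2
    omega
  · rw [← padicValNat_dvd_iff_le ha.ne']
    exact (h.dvd_iff (pow_dvd_pow p hE.le)).2 pow_padicValNat_dvd

theorem aval_lt {p b : ℕ} (hp : p.Prime) (hb : 0 < b) : padicValNat p b < b := by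
  have := Fact.mk hp
  have h1 : p ^ padicValNat p b ≤ b := Nat.le_of_dvd hb pow_padicValNat_dvd
  exact (Nat.lt_pow_self hp.one_lt).trans_le h1

theorem aval_crt (W : ℕ) (hW : 0 < W) (S : Finset ℕ) (hS : ∀ p ∈ S, p.Prime ∧ ¬ p ∣ W)
    (E r : ℕ → ℕ) : ∃ n : ℕ, W ∣ n ∧ ∀ p ∈ S, n ≡ r p [MOD p ^ E p] := by
  have h1 : 1 ∉ S := fun h => Nat.not_prime_one (hS 1 h).1
  obtain ⟨n, hn⟩ := Nat.chineseRemainderOfFinset (fun p => if p = 1 then 0 else r p)
    (fun p => if p = 1 then W else p ^ E p) (insert 1 S) (by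
      intro p hp
      rcases Finset.mem_insert.1 hp with rfl | hp
      · simpa using hW.ne'
      · have : p ≠ 1 := fun h => h1 (h ▸ hp)
        simp only [this, if_false]
        exact pow_ne_zero _ (hS p hp).1.ne_zero) (by
      intro p hp q hq hpq
      have key : ∀ q ∈ S, Nat.Coprime W (q ^ E q) := fun q hq =>
        (Nat.Coprime.pow_left _ (((hS q hq).1.coprime_iff_not_dvd).2 (hS q hq).2)).symm
      rw [Finset.coe_insert, Set.mem_insert_iff, Finset.mem_coe] at hp hq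
      simp only [Function.onFun]
      rcases hp with rfl | hp <;> rcases hq with rfl | hq
      · exact absurd rfl hpq
      · have : q ≠ 1 := fun h => h1 (h ▸ hq)
        simp only [this, if_true, if_false]
        exact key q hq
      · have : p ≠ 1 := fun h => h1 (h ▸ hp)
        simp only [this, if_true, if_false]
        exact (key p hp).symm
      · have h2 : q ≠ 1 := fun h => h1 (h ▸ hq)
        have h3 : p ≠ 1 := fun h => h1 (h ▸ hp)
        simp only [h2, h3, if_false]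
        exact Nat.coprime_pow_primes _ _ (hS p hp).1 (hS q hq).1 hpq)
  refine ⟨n, ?_, ?_⟩
  · have := hn 1 (Finset.mem_insert_self _ _)
    simp only [if_true] at this
    exact (Nat.modEq_zero_iff_dvd).1 this
  · intro p hp
    have h2 : p ≠ 1 := fun h => h1 (h ▸ hp)
    have := hn p (Finset.mem_insert_of_mem hp)
    simpa only [h2, if_false] using this

theorem aval_local {D : ℕ} {T : Finset ℕ} (hT : ∀ t ∈ T, 0 < t) {B' : ℕ}
    (hTB : ∀ t ∈ T, t ≤ B') {f g pr κ : Fin D → (Fin D → T) → ℕ} {x : (Fin D → T) → ℕ}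
    (hg0 : ∀ i v, 0 < g i v)
    (hgu : ∀ i v t, g i (Function.update v i t) = g i v)
    (hκu : ∀ i v t, κ i (Function.update v i t) = κ i v)
    (hx : ∀ i v, x v = κ i v + g i v * (v i : ℕ))
    (hpr : ∀ i v, pr i v ∣ g i v)
    (hprinj : ∀ i v i' v', pr i v = pr i' v' → i = i' ∧ v = v')
    (hfib : ∀ q, q.Prime → B' < q → ∀ i v i' v', q ∣ g i v → q ∣ g i' v' →
      i = i' ∧ ∀ j, j ≠ i → v j = v' j)
    {q : ℕ} (hq : q.Prime) (hqB : B' < q) :
    ∃ a, ∀ i v, q ∣ g i v → padicValNat q (a + x v) = padicValNat q (g i v) +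
      (if q = pr i v then f i v ^ 2 - 1 else 0) := by
  have hupd : ∀ (i : Fin D) (v v' : Fin D → T), (∀ j, j ≠ i → v j = v' j) →
      v' = Function.update v i (v' i) := by
    intro i v v' h
    ext j
    by_cases hj : j = i
    · subst hj; simp
    · rw [Function.update_of_ne hj, h j hj]
  by_cases h1 : ∃ i0 v0, q = pr i0 v0
  · obtain ⟨i0, v0, hq0⟩ := h1
    have hdv : q ∣ g i0 v0 := hq0 ▸ hpr i0 v0
    obtain ⟨a, ha⟩ := local_shift q (κ i0 v0) (g i0 v0) (v0 i0) (f i0 v0 ^ 2 - 1) hq (hg0 _ _)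
      (hT _ (v0 i0).2) (lt_of_le_of_lt (hTB _ (v0 i0).2) hqB)
    refine ⟨a, fun i v hv => ?_⟩
    obtain ⟨rfl, hoff⟩ := hfib q hq hqB i0 v0 i v hdv hv
    have hv' := hupd i0 v0 v hoff
    have hκ : κ i0 v = κ i0 v0 := by rw [hv', hκu]
    have hg : g i0 v = g i0 v0 := by rw [hv', hgu]
    rw [hx i0 v, hκ, hg, ← add_assoc, ha _ (hT _ (v i0).2) (lt_of_le_of_lt (hTB _ (v i0).2) hqB)]
    congr 1
    by_cases hc : (v i0 : ℕ) = (v0 i0 : ℕ)
    · have hvv : v = v0 := by
        rw [hv']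
        have : v i0 = v0 i0 := Subtype.ext hc
        rw [this, Function.update_eq_self]
      rw [if_pos hc, hvv, if_pos hq0]
    · rw [if_neg hc, if_neg]
      intro h
      apply hc
      have := (hprinj _ _ _ _ (h.symm.trans hq0)).2
      rw [this]
  · push Not at h1
    by_cases h2 : ∃ i0 v0, q ∣ g i0 v0
    · obtain ⟨i0, v0, hdv⟩ := h2
      obtain ⟨a, ha⟩ := local_shift q (κ i0 v0) (g i0 v0) 1 0 hq (hg0 _ _)
        Nat.one_pos hq.one_lt
      refine ⟨a, fun i v hv => ?_⟩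
      obtain ⟨rfl, hoff⟩ := hfib q hq hqB i0 v0 i v hdv hv
      have hv' := hupd i0 v0 v hoff
      have hκ : κ i0 v = κ i0 v0 := by rw [hv', hκu]
      have hg : g i0 v = g i0 v0 := by rw [hv', hgu]
      rw [hx i0 v, hκ, hg, ← add_assoc,
        ha _ (hT _ (v i0).2) (lt_of_le_of_lt (hTB _ (v i0).2) hqB), if_neg (h1 i0 v)]
      simp
    · push Not at h2
      exact ⟨0, fun i v hv => absurd hv (h2 i v)⟩

/-- Injective choice of primes above a bound. -/
theorem exists_free_primes_above (N : ℕ) : ∃ fr : ℕ → ℕ, Function.Injective fr ∧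
    ∀ y, (fr y).Prime ∧ N < fr y := by
  have hinf : {p : ℕ | p.Prime ∧ N < p}.Infinite := by
    refine Set.infinite_of_not_bddAbove ?_
    rintro ⟨M, hM⟩
    obtain ⟨p, hp, hpp⟩ := Nat.exists_infinite_primes (max M N + 1)
    have h1 := le_max_left M N
    have h2 := le_max_right M N
    have := hM ⟨hpp, by omega⟩
    omega
  refine ⟨fun n => (Set.Infinite.natEmbedding _ hinf n : ℕ), ?_, ?_⟩
  · intro a b hab
    exact (Set.Infinite.natEmbedding _ hinf).injective (Subtype.ext hab)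
  · intro y
    exact (Set.Infinite.natEmbedding _ hinf y).2

/-- A4 -/
theorem val_main (D : ℕ) (T : Finset ℕ) (hT : ∀ t ∈ T, 0 < t) (hTn : T.Nonempty) (B : ℕ)
    (f : Fin D → (Fin D → T) → ℕ) (hf : ∀ i v, 0 < f i v) :
    ∃ (B' : ℕ) (F : (Fin D → T) → ℕ) (g pr : Fin D → (Fin D → T) → ℕ) (P : Finset ℕ) (Γ : ℕ),
      B ≤ B' ∧ (∀ t ∈ T, t ≤ B') ∧ 0 < Γ ∧ (∀ v, 0 < F v) ∧ (∀ i v, 0 < g i v) ∧
      (∀ i v t, g i (Function.update v i t) = g i v) ∧
      (∀ i v t, (F (Function.update v i t) : ℤ) - F v = g i v * (((t : ℕ) : ℤ) - ((v i : ℕ) : ℤ))) ∧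
      (∀ p ∈ P, p.Prime) ∧ (∀ p, p.Prime → p ≤ B' → p ∈ P) ∧
      (∀ i v p, p.Prime → p ∣ g i v → p ∈ P) ∧
      (∀ p, p.Prime → p ≤ B' → ∀ v, padicValNat p (F v) = ∑ i, padicValNat p (v i : ℕ)) ∧
      (∀ p, p.Prime → p ≤ B' → ∀ i v,
        padicValNat p (g i v) = ∑ j ∈ univ.erase i, padicValNat p (v j : ℕ)) ∧
      (∀ i v, pr i v ∈ P ∧ B' < pr i v ∧ padicValNat (pr i v) (g i v) = f i v) ∧
      (∀ i v, ∀ p ∈ P, B' < p → p ∣ g i v →
        padicValNat p (F v) = padicValNat p (g i v) + (if p = pr i v then (f i v) ^ 2 - 1 else 0)) ∧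
      (∀ v, ∏ p ∈ P.filter (fun p => B' < p), (padicValNat p (F v) + 1) = Γ) := by
  classical
  obtain ⟨B', hB'⟩ : ∃ B' : ℕ, B' = B + ∑ t ∈ T, t + ∑ v : Fin D → T, ∏ i, (v i : ℕ) +
    Fintype.card (Fin D × (Fin D → T)) + 2 := ⟨_, rfl⟩
  have hBB : B ≤ B' := by omega
  have hTB : ∀ t ∈ T, t ≤ B' := fun t ht => by
    have := Finset.single_le_sum (f := fun t => t) (fun _ _ => Nat.zero_le _) ht
    omega
  have hprodB : ∀ v : Fin D → T, ∏ i, (v i : ℕ) ≤ B' := fun v => by
    have := Finset.single_le_sum (f := fun v : Fin D → T => ∏ i, (v i : ℕ))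
      (fun _ _ => Nat.zero_le _) (mem_univ v)
    omega
  have hcardB : Fintype.card (Fin D × (Fin D → T)) ≤ B' := by omega
  have hB2 : 2 ≤ B' := by omega
  obtain ⟨W, hWdef⟩ : ∃ W : ℕ, W = B'.factorial ^ (B' + 1) := ⟨_, rfl⟩
  have hW0 : 0 < W := by rw [hWdef]; positivity
  have hWgt : B' + 1 < W := by
    rw [hWdef]
    have h1 : 2 ≤ B'.factorial := hB2.trans (Nat.self_le_factorial B')
    exact Nat.lt_pow_self (by omega)
  have hWlt : ∀ v : Fin D → T, ∏ i, (v i : ℕ) < W := fun v => by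
    have := hprodB v
    omega
  have hWp : ∀ p, p.Prime → p ∣ W → p ≤ B' := by
    intro p hp hpW
    rw [hWdef] at hpW
    exact (hp.dvd_factorial).1 (hp.dvd_of_dvd_pow hpW)
  have hpW : ∀ p, p.Prime → p ≤ B' → p ^ (B' + 1) ∣ W := by
    intro p hp hpB
    rw [hWdef]
    exact pow_dvd_pow_of_dvd ((hp.dvd_factorial).2 hpB) _
  obtain ⟨x0, h, κ0, hhu, hκ0u, hx0, hinj, hx0W, hhW⟩ := affine_struct D T hT W hWlt
  obtain ⟨θ, P0, hθ0, hWθ, hP0inj, hP0, hP0val, hsep⟩ := choose_theta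
    (Finset.univ.image (fun e : Fin D × (Fin D → T) => h e.1 e.2)) B' W hW0 hWp
    (Finset.card_image_le.trans hcardB) (ι := Fin D × (Fin D → T)) (fun e => h e.1 e.2)
    (fun e => Finset.mem_image_of_mem _ (mem_univ e)) (fun e => f e.1 e.2) (fun e => hf _ _)
  have hmemH : ∀ i v, h i v ∈ Finset.univ.image (fun e : Fin D × (Fin D → T) => h e.1 e.2) :=
    fun i v => Finset.mem_image.2 ⟨(i, v), mem_univ _, rfl⟩
  obtain ⟨g, hgdef⟩ : ∃ g : Fin D → (Fin D → T) → ℕ, ∀ i v, g i v = θ + h i v := ⟨_, fun _ _ => rfl⟩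
  obtain ⟨pr, hprdef⟩ : ∃ pr : Fin D → (Fin D → T) → ℕ, ∀ i v, pr i v = P0 (i, v) :=
    ⟨_, fun _ _ => rfl⟩
  obtain ⟨κ, hκdef⟩ : ∃ κ : Fin D → (Fin D → T) → ℕ, ∀ i v, κ i v = κ0 i v +
    θ * ∑ j ∈ univ.erase i, (v j : ℕ) + W := ⟨_, fun _ _ => rfl⟩
  obtain ⟨x, hxdef⟩ : ∃ x : (Fin D → T) → ℕ, ∀ v, x v = x0 v + θ * ∑ j, (v j : ℕ) + W :=
    ⟨_, fun _ => rfl⟩
  have hg0 : ∀ i v, 0 < g i v := fun i v => by rw [hgdef]; omega
  have hgu : ∀ i v t, g i (Function.update v i t) = g i v := fun i v t => by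
    rw [hgdef, hgdef, hhu]
  have hκu : ∀ i v t, κ i (Function.update v i t) = κ i v := fun i v t => by
    rw [hκdef, hκdef, hκ0u]
    congr 3
    refine Finset.sum_congr rfl fun j hj => ?_
    rw [Function.update_of_ne (Finset.ne_of_mem_erase hj)]
  have hx : ∀ i v, x v = κ i v + g i v * (v i : ℕ) := by
    intro i v
    have := Finset.add_sum_erase univ (fun j => (v j : ℕ)) (mem_univ i)
    rw [hxdef, hκdef, hgdef, hx0 i v, ← this]
    ring
  have hxpos : ∀ v, 0 < x v := fun v => by rw [hxdef]; omega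
  have hprval : ∀ i v, padicValNat (pr i v) (g i v) = f i v := fun i v => by
    rw [hprdef, hgdef]; exact hP0val (i, v)
  have hprP : ∀ i v, (pr i v).Prime ∧ B' < pr i v := fun i v => by
    rw [hprdef]; exact hP0 (i, v)
  have hprd : ∀ i v, pr i v ∣ g i v := fun i v => by
    apply dvd_of_one_le_padicValNat
    rw [hprval]
    exact hf i v
  have hprinj : ∀ i v i' v', pr i v = pr i' v' → i = i' ∧ v = v' := by
    intro i v i' v' hh
    rw [hprdef, hprdef] at hh
    have := hP0inj hh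
    exact ⟨congrArg Prod.fst this, congrArg Prod.snd this⟩
  have hfib : ∀ q, q.Prime → B' < q → ∀ i v i' v', q ∣ g i v → q ∣ g i' v' →
      i = i' ∧ ∀ j, j ≠ i → v j = v' j := by
    intro q hq hqB i v i' v' h1 h2
    rw [hgdef] at h1 h2
    exact hinj i v i' v' (hsep q hq hqB _ (hmemH i v) _ (hmemH i' v') h1 h2)
  have hloc : ∀ q, ∃ a, q.Prime → B' < q → ∀ i v, q ∣ g i v → padicValNat q (a + x v) =
      padicValNat q (g i v) + (if q = pr i v then f i v ^ 2 - 1 else 0) := by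
    intro q
    by_cases hq : q.Prime ∧ B' < q
    · obtain ⟨a, ha⟩ := aval_local (f := f) hT hTB hg0 hgu hκu hx hprd hprinj hfib hq.1 hq.2
      exact ⟨a, fun _ _ => ha⟩
    · exact ⟨0, fun h1 h2 => absurd ⟨h1, h2⟩ hq⟩
  choose a ha using hloc
  -- the primes dividing some `g i v`
  obtain ⟨QQ, hQQ⟩ : ∃ QQ : Finset ℕ, ∀ q, q ∈ QQ ↔ (q.Prime ∧ B' < q ∧ ∃ i v, q ∣ g i v) := by
    refine ⟨((univ : Finset (Fin D × (Fin D → T))).biUnion
      (fun e => (g e.1 e.2).primeFactors)).filter (fun q => B' < q), fun q => ?_⟩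
    simp only [Finset.mem_filter, Finset.mem_biUnion, mem_univ, true_and, Nat.mem_primeFactors,
      Prod.exists]
    constructor
    · rintro ⟨⟨i, v, h1, h2, h3⟩, h4⟩
      exact ⟨h1, h4, i, v, h2⟩
    · rintro ⟨h1, h4, i, v, h2⟩
      exact ⟨⟨i, v, h1, h2, (hg0 i v).ne'⟩, h4⟩
  -- free primes
  obtain ⟨X0, hX0⟩ : ∃ X0 : Finset ℕ, X0 = univ.image x := ⟨_, rfl⟩
  obtain ⟨N0, hN0⟩ : ∃ N0 : ℕ, N0 = B' + ∑ q ∈ QQ, q + ∑ y ∈ X0, y := ⟨_, rfl⟩
  obtain ⟨fr, hfrinj, hfr⟩ := exists_free_primes_above N0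
  have hfrB : ∀ y, B' < fr y := fun y => by have := (hfr y).2; omega
  have hfrQ : ∀ y, fr y ∉ QQ := fun y hy => by
    have h1 := (hfr y).2
    have h2 := Finset.single_le_sum (f := fun t => t) (fun _ _ => Nat.zero_le _) hy
    omega
  have hfrX : ∀ y, ∀ z ∈ X0, z < fr y := fun y z hz => by
    have h1 := (hfr y).2
    have h2 := Finset.single_le_sum (f := fun t => t) (fun _ _ => Nat.zero_le _) hz
    omega
  obtain ⟨G, hG⟩ : ∃ G : ℕ → ℕ, ∀ y, G y = ∏ q ∈ QQ, (padicValNat q (a q + y) + 1) :=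
    ⟨_, fun _ => rfl⟩
  have hG0 : ∀ y, 0 < G y := fun y => by
    rw [hG]
    exact Finset.prod_pos fun q _ => Nat.succ_pos _
  obtain ⟨e, he⟩ : ∃ e : ℕ → ℕ, ∀ y, e y = 2 * ∏ z ∈ X0.erase y, G z - 1 := ⟨_, fun _ => rfl⟩
  have he1 : ∀ y, e y + 1 = 2 * ∏ z ∈ X0.erase y, G z := fun y => by
    have : 0 < ∏ z ∈ X0.erase y, G z := Finset.prod_pos fun z _ => hG0 z
    rw [he]
    omega
  have hepos : ∀ y, 1 ≤ e y := fun y => by
    have : 0 < ∏ z ∈ X0.erase y, G z := Finset.prod_pos fun z _ => hG0 z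
    rw [he]
    omega
  -- the exponents for QQ
  obtain ⟨E, hE⟩ : ∃ E : ℕ → ℕ, ∀ q v, a q + x v < E q := by
    refine ⟨fun q => a q + ∑ v, x v + 1, fun q v => ?_⟩
    have h2 := Finset.single_le_sum (f := x) (fun _ _ => Nat.zero_le _) (mem_univ v)
    change a q + x v < a q + ∑ v, x v + 1
    omega
  obtain ⟨S, hS⟩ : ∃ S : Finset ℕ, S = QQ ∪ X0.image fr := ⟨_, rfl⟩
  have hSp : ∀ p ∈ S, p.Prime ∧ ¬ p ∣ W := by
    intro p hp
    rw [hS, Finset.mem_union, Finset.mem_image] at hp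
    rcases hp with hp | ⟨y, _, rfl⟩
    · have h1 := (hQQ p).1 hp
      refine ⟨h1.1, fun h2 => ?_⟩
      have := hWp p h1.1 h2
      omega
    · refine ⟨(hfr y).1, fun h2 => ?_⟩
      have := hWp _ (hfr y).1 h2
      have := hfrB y
      omega
  have hnex : ∃ n : ℕ, W ∣ n ∧ (∀ q ∈ QQ, n ≡ a q [MOD q ^ E q]) ∧
      ∀ y ∈ X0, n ≡ fr y ^ e y + y * (fr y ^ (e y + 1) - 1) [MOD fr y ^ (e y + 1)] := by
    let y' : ℕ → ℕ := Function.invFun fr
    have hy' : ∀ y, y' (fr y) = y := fun y => Function.leftInverse_invFun hfrinj y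
    obtain ⟨n, hn1, hn2⟩ := aval_crt W hW0 S hSp
      (fun p => if p ∈ QQ then E p else e (y' p) + 1)
      (fun p => if p ∈ QQ then a p else p ^ e (y' p) + y' p * (p ^ (e (y' p) + 1) - 1))
    refine ⟨n, hn1, ?_, ?_⟩
    · intro q hq
      have := hn2 q (by rw [hS]; exact Finset.mem_union_left _ hq)
      simpa only [hq, if_true] using this
    · intro y hy
      have := hn2 (fr y) (by rw [hS]; exact Finset.mem_union_right _ (mem_image_of_mem _ hy))
      simpa only [hfrQ y, if_false, hy'] using this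
  obtain ⟨n, hnW, hnQ, hnfr⟩ := hnex
  have hxX0 : ∀ v, x v ∈ X0 := fun v => by rw [hX0]; exact mem_image_of_mem _ (mem_univ v)
  -- valuations of `F v = n + x v`
  have hvalQ : ∀ q ∈ QQ, ∀ v, padicValNat q (n + x v) = padicValNat q (a q + x v) := by
    intro q hq v
    have hqp := ((hQQ q).1 hq).1
    have h0 := hxpos v
    apply aval_eq_of_modEq hqp (by omega) (by omega) ((hnQ q hq).add_right _)
    have h1 := aval_lt (b := a q + x v) hqp (by omega)
    exact h1.trans (hE q v)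
  have hvalfr : ∀ y ∈ X0, ∀ v, padicValNat (fr y) (n + x v) = if y = x v then e y else 0 := by
    intro y hy v
    have hp := (hfr y).1
    have := Fact.mk hp
    have hpow : 0 < fr y ^ (e y + 1) := pow_pos hp.pos _
    have hsum : fr y ^ e y + y * (fr y ^ (e y + 1) - 1) + y = fr y ^ e y + fr y ^ (e y + 1) * y := by
      have : y * (fr y ^ (e y + 1) - 1) + y = fr y ^ (e y + 1) * y := by
        rw [Nat.mul_sub, mul_one, Nat.sub_add_cancel (Nat.le_mul_of_pos_right _ hpow), mul_comm]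
      rw [add_assoc, this]
    have hny : n + y ≡ fr y ^ e y [MOD fr y ^ (e y + 1)] := by
      have h1 := (hnfr y hy).add_right y
      rw [hsum] at h1
      refine h1.trans ?_
      unfold Nat.ModEq
      rw [Nat.add_mul_mod_self_left]
    split_ifs with hc
    · rw [← hc]
      have h1 : padicValNat (fr y) (fr y ^ e y) = e y := padicValNat.prime_pow _
      have h2 : 0 < y := by rw [hc]; exact hxpos v
      rw [aval_eq_of_modEq hp (by omega) (pow_pos hp.pos _) hny (by rw [h1]; omega), h1]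
    · apply padicValNat.eq_zero_of_not_dvd
      intro hdvd
      have h1 : fr y ∣ n + y := by
        have h2 : fr y ∣ fr y ^ (e y + 1) := dvd_pow_self _ (Nat.succ_ne_zero _)
        exact (hny.dvd_iff h2).2 (dvd_pow_self _ (by have := hepos y; omega))
      have h3 : (fr y : ℤ) ∣ ((x v : ℤ) - y) := by
        have e1 : ((x v : ℤ) - y) = ((n + x v : ℕ) : ℤ) - ((n + y : ℕ) : ℤ) := by
          push_cast; ring
        rw [e1]
        exact dvd_sub (Int.natCast_dvd_natCast.2 hdvd) (Int.natCast_dvd_natCast.2 h1)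
      have h4 := hfrX y _ (hxX0 v)
      have h5 := hfrX y _ hy
      have h6 : (x v : ℤ) - y = 0 := by
        apply Int.eq_zero_of_abs_lt_dvd h3
        rw [abs_lt]
        constructor <;> omega
      omega
  have hmodF : ∀ v, n + x v ≡ ∏ i, (v i : ℕ) [MOD W] := by
    intro v
    have h1 : n ≡ 0 [MOD W] := (Nat.modEq_zero_iff_dvd).2 hnW
    have h2 : x v ≡ ∏ i, (v i : ℕ) [MOD W] := by
      rw [hxdef]
      have h3 : θ * ∑ j, (v j : ℕ) ≡ 0 [MOD W] :=
        (Nat.modEq_zero_iff_dvd).2 (dvd_mul_of_dvd_left hWθ _)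
      have h4 : W ≡ 0 [MOD W] := (Nat.modEq_zero_iff_dvd).2 dvd_rfl
      have := ((hx0W v).add h3).add h4
      simpa using this
    have := h1.add h2
    simpa using this
  have hmodg : ∀ i v, g i v ≡ ∏ j ∈ univ.erase i, (v j : ℕ) [MOD W] := by
    intro i v
    rw [hgdef]
    have h3 : θ ≡ 0 [MOD W] := (Nat.modEq_zero_iff_dvd).2 hWθ
    have := h3.add (hhW i v)
    simpa using this
  have hprodpos : ∀ (s : Finset (Fin D)) (v : Fin D → T), 0 < ∏ j ∈ s, (v j : ℕ) := fun s v =>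
    Finset.prod_pos fun j _ => hT _ (v j).2
  have hprodval : ∀ p, p.Prime → ∀ (s : Finset (Fin D)) (v : Fin D → T),
      padicValNat p (∏ j ∈ s, (v j : ℕ)) = ∑ j ∈ s, padicValNat p (v j : ℕ) := by
    intro p hp s v
    have := Fact.mk hp
    induction s using Finset.induction_on with
    | empty => simp
    | insert i s hi ih =>
      rw [Finset.prod_insert hi, Finset.sum_insert hi,
        padicValNat.mul (hT _ (v i).2).ne' (hprodpos s v).ne', ih]
  have hprodle : ∀ (s : Finset (Fin D)) (v : Fin D → T), ∏ j ∈ s, (v j : ℕ) ≤ B' := by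
    intro s v
    refine le_trans ?_ (hprodB v)
    exact Nat.le_of_dvd (hprodpos univ v) (Finset.prod_dvd_prod_of_subset _ _ _ (subset_univ s))
  have hvalsmall : ∀ p, p.Prime → p ≤ B' → ∀ (s : Finset (Fin D)) (v : Fin D → T) (b : ℕ),
      0 < b → b ≡ ∏ j ∈ s, (v j : ℕ) [MOD W] → padicValNat p b = ∑ j ∈ s, padicValNat p (v j : ℕ) := by
    intro p hp hpB s v b hb hmod
    rw [← hprodval p hp]
    refine aval_eq_of_modEq (E := B' + 1) hp hb (hprodpos s v) (hmod.of_dvd (hpW p hp hpB)) ?_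
    have h1 := aval_lt hp (hprodpos s v)
    have h2 := hprodle s v
    omega
  refine ⟨B', fun v => n + x v, g, pr, (range (B' + 1)).filter Nat.Prime ∪ S,
    2 * ∏ y ∈ X0, G y, hBB, hTB, ?_, ?_, hg0, hgu, ?_, ?_, ?_, ?_, ?_, ?_, ?_, ?_, ?_⟩
  · exact Nat.mul_pos two_pos (Finset.prod_pos fun z _ => hG0 z)
  · intro v
    have := hxpos v
    simp only
    omega
  · intro i v t
    have e1 := hx i (Function.update v i t)
    rw [hκu, hgu, Function.update_self] at e1
    simp only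
    rw [e1, hx i v]
    push_cast
    ring
  · intro p hp
    rcases Finset.mem_union.1 hp with hp | hp
    · exact (Finset.mem_filter.1 hp).2
    · exact (hSp p hp).1
  · intro p hp hpB
    exact Finset.mem_union_left _ (Finset.mem_filter.2 ⟨Finset.mem_range.2 (by omega), hp⟩)
  · intro i v p hp hpg
    by_cases hpB : p ≤ B'
    · exact Finset.mem_union_left _ (Finset.mem_filter.2 ⟨Finset.mem_range.2 (by omega), hp⟩)
    · apply Finset.mem_union_right
      rw [hS]
      exact Finset.mem_union_left _ ((hQQ p).2 ⟨hp, by omega, i, v, hpg⟩)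
  · intro p hp hpB v
    have := hxpos v
    exact hvalsmall p hp hpB univ v (n + x v) (by omega) (hmodF v)
  · intro p hp hpB i v
    exact hvalsmall p hp hpB (univ.erase i) v _ (hg0 i v) (hmodg i v)
  · intro i v
    refine ⟨?_, (hprP i v).2, hprval i v⟩
    apply Finset.mem_union_right
    rw [hS]
    exact Finset.mem_union_left _ ((hQQ _).2 ⟨(hprP i v).1, (hprP i v).2, i, v, hprd i v⟩)
  · intro i v p hp hpB hpg
    have hpp : p.Prime := by
      rcases Finset.mem_union.1 hp with hp | hp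
      · exact (Finset.mem_filter.1 hp).2
      · exact (hSp p hp).1
    have hpQ : p ∈ QQ := (hQQ p).2 ⟨hpp, hpB, i, v, hpg⟩
    simp only
    rw [hvalQ p hpQ v, ha p hpp hpB i v hpg]
  · intro v
    have hfilter : ((range (B' + 1)).filter Nat.Prime ∪ S).filter (fun p => B' < p) =
        QQ ∪ X0.image fr := by
      ext p
      rw [Finset.mem_filter, Finset.mem_union, Finset.mem_filter, Finset.mem_range, hS]
      constructor
      · rintro ⟨h1 | h1, h2⟩
        · omega
        · exact h1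
      · intro h1
        refine ⟨Or.inr h1, ?_⟩
        rcases Finset.mem_union.1 h1 with h2 | h2
        · exact ((hQQ p).1 h2).2.1
        · obtain ⟨y, _, rfl⟩ := Finset.mem_image.1 h2
          exact hfrB y
    have hdisj : Disjoint QQ (X0.image fr) := by
      rw [Finset.disjoint_left]
      intro p h1 h2
      obtain ⟨y, _, rfl⟩ := Finset.mem_image.1 h2
      exact hfrQ y h1
    rw [hfilter, Finset.prod_union hdisj, Finset.prod_image (fun y _ z _ hyz => hfrinj hyz)]
    have h1 : ∏ q ∈ QQ, (padicValNat q (n + x v) + 1) = G (x v) := by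
      rw [hG]
      exact Finset.prod_congr rfl fun q hq => by rw [hvalQ q hq v]
    have h2 : ∏ y ∈ X0, (padicValNat (fr y) (n + x v) + 1) = e (x v) + 1 := by
      rw [Finset.prod_eq_single (x v)]
      · rw [hvalfr _ (hxX0 v) v, if_pos rfl]
      · intro y hy hne
        simp [hvalfr y hy v, hne]
      · intro hne
        exact absurd (hxX0 v) hne
    simp only
    rw [h1, h2, he1]
    have h3 := Finset.mul_prod_erase X0 G (hxX0 v)
    rw [← h3]
    ring

end Pool.Agent.Work.MP_f473e4_nt
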