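import Mathlib
import Pool.Agent.Work.MP_f473e4_nt.AVal

set_option autoImplicit false

open Finset

namespace Pool.Agent.Work.MP_f473e4_nt

/-! ### Products of prime powers -/

theorem val_prod_pow (P : Finset ℕ) (hP : ∀ p ∈ P, p.Prime) (e : ℕ → ℕ) (p : ℕ) (hp : p.Prime) :
    padicValNat p (∏ q ∈ P, q ^ e q) = if p ∈ P then e p else 0 := by
  have : Fact p.Prime := ⟨hp⟩
  induction P using Finset.induction_on with
  | empty => simp
  | insert a s ha ih =>
    have hs : ∀ p ∈ s, p.Prime := fun q hq => hP q (Finset.mem_insert_of_mem hq)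
    have hap : a.Prime := hP a (Finset.mem_insert_self _ _)
    have hne : (∏ q ∈ s, q ^ e q) ≠ 0 :=
      Finset.prod_ne_zero_iff.mpr fun q hq => pow_ne_zero _ (hs q hq).pos.ne'
    rw [Finset.prod_insert ha, padicValNat.mul (pow_ne_zero _ hap.pos.ne') hne, ih hs]
    by_cases h : p = a
    · subst h
      rw [if_neg ha, padicValNat.prime_pow]
      simp
    · have : Fact a.Prime := ⟨hap⟩
      rw [padicValNat.pow, padicValNat_primes h, mul_zero, zero_add]
      simp [h]

theorem card_div_prod_pow (P : Finset ℕ) (hP : ∀ p ∈ P, p.Prime) (e : ℕ → ℕ) :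
    (Nat.divisors (∏ q ∈ P, q ^ e q)).card = ∏ q ∈ P, (e q + 1) := by
  induction P using Finset.induction_on with
  | empty => simp
  | insert a s ha ih =>
    have hs : ∀ p ∈ s, p.Prime := fun q hq => hP q (Finset.mem_insert_of_mem hq)
    have hap : a.Prime := hP a (Finset.mem_insert_self _ _)
    have hcop : Nat.Coprime (a ^ e a) (∏ q ∈ s, q ^ e q) := by
      apply Nat.Coprime.prod_right
      intro q hq
      apply Nat.Coprime.pow
      exact (Nat.coprime_primes hap (hs q hq)).mpr (fun h => ha (h ▸ hq))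
    rw [Finset.prod_insert ha, Finset.prod_insert ha, hcop.card_divisors_mul, ih hs,
      Nat.divisors_prime_pow hap]
    simp

theorem eq_prod_pow (P : Finset ℕ) (hP : ∀ p ∈ P, p.Prime) (n : ℕ) (hn : 0 < n)
    (h : ∀ p, p.Prime → p ∣ n → p ∈ P) : ∏ p ∈ P, p ^ padicValNat p n = n := by
  have hne : (∏ q ∈ P, q ^ padicValNat q n) ≠ 0 :=
    Finset.prod_ne_zero_iff.mpr fun q hq => pow_ne_zero _ (hP q hq).pos.ne'
  apply Nat.eq_of_factorization_eq hne hn.ne'
  intro p
  by_cases hp : p.Prime
  · rw [Nat.factorization_def _ hp, Nat.factorization_def _ hp, val_prod_pow P hP _ p hp]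
    split_ifs with hpP
    · rfl
    · symm
      apply padicValNat.eq_zero_of_not_dvd
      exact fun hd => hpP (h p hp hd)
  · rw [Nat.factorization_eq_zero_of_not_prime _ hp, Nat.factorization_eq_zero_of_not_prime _ hp]

theorem card_div_eq (P : Finset ℕ) (hP : ∀ p ∈ P, p.Prime) (n : ℕ) (hn : 0 < n)
    (h : ∀ p, p.Prime → p ∣ n → p ∈ P) :
    (Nat.divisors n).card = ∏ p ∈ P, (padicValNat p n + 1) := by
  conv_lhs => rw [← eq_prod_pow P hP n hn h]
  exact card_div_prod_pow P hP _

theorem prod_pow_dvd (P : Finset ℕ) (e e' : ℕ → ℕ) (h : ∀ p ∈ P, e p ≤ e' p) :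
    ∏ p ∈ P, p ^ e p ∣ ∏ p ∈ P, p ^ e' p :=
  Finset.prod_dvd_prod_of_dvd _ _ fun p hp => pow_dvd_pow p (h p hp)

/-- A5. file Arith.lean (uses A4) -/
theorem arith_main (D : ℕ) (T : Finset ℕ) (hT : ∀ t ∈ T, 0 < t) (hTn : T.Nonempty) (B : ℕ)
    (f : Fin D → (Fin D → T) → ℕ) (hf : ∀ i v, 0 < f i v) :
    ∃ (Q Γ : ℕ) (F : (Fin D → T) → ℕ) (g E : Fin D → (Fin D → T) → ℕ) (α β : (Fin D → T) → ℕ),
      0 < Γ ∧ (∀ v, 0 < F v) ∧ (∀ i v, 0 < g i v) ∧ (∀ i v, 0 < E i v) ∧
      (∀ i v t, g i (Function.update v i t) = g i v) ∧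
      (∀ i v t, E i (Function.update v i t) = E i v) ∧
      (∀ i v t, (F (Function.update v i t) : ℤ) - F v = g i v * (((t : ℕ) : ℤ) - ((v i : ℕ) : ℤ))) ∧
      (∀ i v s, s ∣ (v i : ℕ) → s * g i v ∣ F v ∧ s * g i v ∣ Q) ∧
      (∀ i v s m, s ∣ (v i : ℕ) →
        E i v * (Nat.divisors ((Q * m + F v) / (s * g i v))).card
          = Γ * (Nat.divisors ((v i : ℕ) / s)).card * f i v * (Nat.divisors (α v * m + β v)).card) ∧
      (∀ v, 0 < α v) ∧ (∀ v, Nat.Coprime (α v) (β v)) ∧
      (∀ v w p, p.Prime → p ∣ α v → p ∣ α w) ∧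
      (∀ v p, p.Prime → p ≤ B → p ∣ α v) := by
  obtain ⟨B', F, g, pr, P, Γ, hBB', hTB', hΓ, hF, hg, hgu, hFu, hPp, hPB, hgP, hFv, hgv, hpr,
    hFg, hΓv⟩ := val_main D T hT hTn B f hf
  have hfact : ∀ p ∈ P, Fact p.Prime := fun p hp => ⟨hPp p hp⟩
  -- the exponent K
  set K : ℕ := 1 + ∑ v, ∑ p ∈ P, padicValNat p (F v) with hK
  have hKlt : ∀ v, ∀ p ∈ P, padicValNat p (F v) < K := by
    intro v p hp
    have h1 : padicValNat p (F v) ≤ ∑ q ∈ P, padicValNat q (F v) :=
      Finset.single_le_sum (f := fun q => padicValNat q (F v)) (fun _ _ => Nat.zero_le _) hp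
    have h2 : ∑ q ∈ P, padicValNat q (F v) ≤ ∑ v, ∑ q ∈ P, padicValNat q (F v) :=
      Finset.single_le_sum (f := fun v => ∑ q ∈ P, padicValNat q (F v))
        (fun _ _ => Nat.zero_le _) (Finset.mem_univ v)
    omega
  set G : (Fin D → T) → ℕ := fun v => ∏ p ∈ P, p ^ padicValNat p (F v) with hG
  set Q : ℕ := ∏ p ∈ P, p ^ K with hQ
  set α : (Fin D → T) → ℕ := fun v => ∏ p ∈ P, p ^ (K - padicValNat p (F v)) with hα
  have hprodpos : ∀ e : ℕ → ℕ, 0 < ∏ p ∈ P, p ^ e p := fun e =>
    Finset.prod_pos fun p hp => pow_pos (hPp p hp).pos _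
  have hGpos : ∀ v, 0 < G v := fun v => hprodpos _
  have hαpos : ∀ v, 0 < α v := fun v => hprodpos (fun p => K - padicValNat p (F v))
  have hQG : ∀ v, Q = G v * α v := by
    intro v
    rw [hQ, hG, hα]
    simp only
    rw [← Finset.prod_mul_distrib]
    apply Finset.prod_congr rfl
    intro p hp
    rw [← pow_add]
    congr 1
    have := hKlt v p hp
    omega
  have hGF : ∀ v, G v ∣ F v := by
    intro v
    rw [← Nat.factorization_le_iff_dvd (hGpos v).ne' (hF v).ne']
    intro p
    by_cases hp : p.Prime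
    · rw [Nat.factorization_def _ hp, Nat.factorization_def _ hp, hG]
      simp only
      rw [val_prod_pow P hPp _ p hp]
      split_ifs
      · exact le_rfl
      · exact Nat.zero_le _
    · rw [Nat.factorization_eq_zero_of_not_prime _ hp]
      exact Nat.zero_le _
  have hβex : ∀ v, ∃ b, F v = G v * b := fun v => hGF v
  choose β hβ using hβex
  have hβpos : ∀ v, 0 < β v := by
    intro v
    rcases Nat.eq_zero_or_pos (β v) with h | h
    · exfalso
      have h1 := hβ v
      rw [h, mul_zero] at h1
      exact absurd h1 (hF v).ne'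
    · exact h
  have hαdvd : ∀ v, ∀ p ∈ P, p ∣ α v := by
    intro v p hp
    have h1 : p ^ (K - padicValNat p (F v)) ∣ α v :=
      Finset.dvd_prod_of_mem (fun p => p ^ (K - padicValNat p (F v))) hp
    refine dvd_trans (dvd_pow_self p ?_) h1
    have := hKlt v p hp
    omega
  have hβnd : ∀ v, ∀ p ∈ P, ¬ p ∣ β v := by
    intro v p hp hd
    have := hfact p hp
    have h1 : padicValNat p (F v) = padicValNat p (G v) + padicValNat p (β v) := by
      rw [hβ v, padicValNat.mul (hGpos v).ne' (hβpos v).ne']
    have h2 : padicValNat p (G v) = padicValNat p (F v) := by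
      have := val_prod_pow P hPp (fun p => padicValNat p (F v)) p (hPp p hp)
      rw [if_pos hp] at this
      exact this
    have h3 : padicValNat p (β v) ≠ 0 := by
      have := (dvd_iff_padicValNat_ne_zero (hβpos v).ne').mp hd
      exact this
    omega
  have hnd : ∀ v m, ∀ p ∈ P, ¬ p ∣ α v * m + β v := by
    intro v m p hp hd
    exact hβnd v p hp ((Nat.dvd_add_right ((hαdvd v p hp).mul_right m)).mp hd)
  have hcop : ∀ v m (e : ℕ → ℕ), Nat.Coprime (∏ p ∈ P, p ^ e p) (α v * m + β v) := by
    intro v m e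
    apply Nat.Coprime.prod_left
    intro p hp
    apply Nat.Coprime.pow_left
    exact (Nat.Prime.coprime_iff_not_dvd (hPp p hp)).mpr (hnd v m p hp)
  -- the divisor `s * g i v`
  have hprimes : ∀ i (v : Fin D → T) s, s ∣ (v i : ℕ) → ∀ p, p.Prime → p ∣ s → p ≤ B' := by
    intro i v s hs p hp hps
    have h1 : (v i : ℕ) ≤ B' := hTB' _ (v i).2
    exact (Nat.le_of_dvd (hT _ (v i).2) (hps.trans hs)).trans h1
  have hspos : ∀ i (v : Fin D → T) s, s ∣ (v i : ℕ) → 0 < s := by
    intro i v s hs
    exact Nat.pos_of_dvd_of_pos hs (hT _ (v i).2)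
  have hval : ∀ i (v : Fin D → T) s, s ∣ (v i : ℕ) → ∀ p ∈ P,
      padicValNat p s + padicValNat p (g i v) ≤ padicValNat p (F v) := by
    intro i v s hs p hp
    have := hfact p hp
    by_cases hpB : p ≤ B'
    · rw [hFv p (hPp p hp) hpB v, hgv p (hPp p hp) hpB i v,
        ← Finset.add_sum_erase univ _ (Finset.mem_univ i)]
      exact Nat.add_le_add_right
        (padicValNat_dvd_iff_le (hT _ (v i).2).ne' |>.mp (pow_padicValNat_dvd.trans hs)) _
    · have h0 : padicValNat p s = 0 := by
        apply padicValNat.eq_zero_of_not_dvd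
        exact fun hd => hpB (hprimes i v s hs p (hPp p hp) hd)
      rw [h0, zero_add]
      by_cases hd : p ∣ g i v
      · rw [hFg i v p hp (by omega) hd]
        exact Nat.le_add_right _ _
      · rw [padicValNat.eq_zero_of_not_dvd hd]
        exact Nat.zero_le _
  have hDeq : ∀ i (v : Fin D → T) s, s ∣ (v i : ℕ) →
      s * g i v = ∏ p ∈ P, p ^ (padicValNat p s + padicValNat p (g i v)) := by
    intro i v s hs
    have h1 := eq_prod_pow P hPp s (hspos i v s hs)
      (fun p hp hd => hPB p hp (hprimes i v s hs p hp hd))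
    have h2 := eq_prod_pow P hPp (g i v) (hg i v) (fun p hp hd => hgP i v p hp hd)
    conv_lhs => rw [← h1, ← h2]
    rw [← Finset.prod_mul_distrib]
    exact Finset.prod_congr rfl fun p _ => (pow_add _ _ _).symm
  refine ⟨Q, Γ, F, g, fun i v => ∏ p ∈ P.filter (fun p => B' < p), (padicValNat p (g i v) + 1),
    α, β, hΓ, hF, hg, ?_, hgu, ?_, hFu, ?_, ?_, hαpos, ?_, ?_, ?_⟩
  · intro i v
    exact Finset.prod_pos fun p _ => Nat.succ_pos _
  · intro i v t
    simp only [hgu]
  · intro i v s hs
    have h1 : s * g i v ∣ G v := by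
      rw [hDeq i v s hs]
      exact prod_pow_dvd P _ _ (hval i v s hs)
    refine ⟨h1.trans (hGF v), h1.trans ?_⟩
    exact Dvd.intro _ (hQG v).symm
  · intro i v s m hs
    have hDpos : 0 < s * g i v := Nat.mul_pos (hspos i v s hs) (hg i v)
    have hGD : G v = (s * g i v) *
        ∏ p ∈ P, p ^ (padicValNat p (F v) - (padicValNat p s + padicValNat p (g i v))) := by
      rw [hDeq i v s hs, ← Finset.prod_mul_distrib]
      apply Finset.prod_congr rfl
      intro p hp
      rw [← pow_add]
      congr 1
      have := hval i v s hs p hp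
      omega
    have hdiv : (Q * m + F v) / (s * g i v) =
        (∏ p ∈ P, p ^ (padicValNat p (F v) - (padicValNat p s + padicValNat p (g i v)))) *
          (α v * m + β v) := by
      apply Nat.div_eq_of_eq_mul_right hDpos
      calc Q * m + F v = G v * (α v * m + β v) := by
            rw [hβ v, hQG v]; ring
        _ = _ := by rw [hGD]; ring
    rw [hdiv, (hcop v m _).card_divisors_mul, card_div_prod_pow P hPp]
    have hE : (∏ p ∈ P.filter (fun p => B' < p), (padicValNat p (g i v) + 1)) *
        ∏ p ∈ P, (padicValNat p (F v) - (padicValNat p s + padicValNat p (g i v)) + 1)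
        = Γ * (Nat.divisors ((v i : ℕ) / s)).card * f i v := by
      rw [← Finset.prod_filter_mul_prod_filter_not P (fun p => B' < p)
        (fun p => padicValNat p (F v) - (padicValNat p s + padicValNat p (g i v)) + 1),
        ← mul_assoc, ← Finset.prod_mul_distrib]
      have hA : ∏ p ∈ P.filter (fun p => B' < p), ((padicValNat p (g i v) + 1) *
          (padicValNat p (F v) - (padicValNat p s + padicValNat p (g i v)) + 1))
          = Γ * f i v := by
        rw [← hΓv v]
        have h1 : ∀ p ∈ P.filter (fun p => B' < p), ((padicValNat p (g i v) + 1) *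
          (padicValNat p (F v) - (padicValNat p s + padicValNat p (g i v)) + 1))
          = (padicValNat p (F v) + 1) * (if p = pr i v then f i v else 1) := by
          intro p hp
          rw [Finset.mem_filter] at hp
          have := hfact p hp.1
          have h0 : padicValNat p s = 0 := by
            apply padicValNat.eq_zero_of_not_dvd
            exact fun hd => absurd (hprimes i v s hs p (hPp p hp.1) hd) (by omega)
          rw [h0, zero_add]
          by_cases hd : p ∣ g i v
          · rw [hFg i v p hp.1 hp.2 hd]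
            by_cases hpp : p = pr i v
            · subst hpp
              rw [(hpr i v).2.2]
              simp only [if_true]
              have hf0 := hf i v
              obtain ⟨k, hk⟩ : ∃ k, f i v = k + 1 := ⟨f i v - 1, by omega⟩
              rw [hk]
              have h5 : (k + 1) ^ 2 - 1 = k * k + 2 * k := by
                have : (k + 1) ^ 2 = k * k + 2 * k + 1 := by ring
                omega
              rw [h5, Nat.add_sub_cancel_left]
              ring
            · simp [hpp]
          · have hpp : p ≠ pr i v := by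
              intro h
              have h1 := (hpr i v).2.2
              rw [← h, padicValNat.eq_zero_of_not_dvd hd] at h1
              exact absurd h1.symm (hf i v).ne'
            rw [padicValNat.eq_zero_of_not_dvd hd]
            simp [hpp]
        rw [Finset.prod_congr rfl h1, Finset.prod_mul_distrib, Finset.prod_ite_eq',
          if_pos (Finset.mem_filter.mpr ⟨(hpr i v).1, (hpr i v).2.1⟩)]
      have hBp : ∏ p ∈ P.filter (fun p => ¬ B' < p),
          (padicValNat p (F v) - (padicValNat p s + padicValNat p (g i v)) + 1)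
          = (Nat.divisors ((v i : ℕ) / s)).card := by
        obtain ⟨u, hu⟩ := hs
        have hs' : s ∣ (v i : ℕ) := ⟨u, hu⟩
        have hs0 := hspos i v s hs'
        have hvi := hT _ (v i).2
        have hu0 : 0 < u := by
          rcases Nat.eq_zero_or_pos u with h | h
          · subst h; rw [mul_zero] at hu; omega
          · exact h
        have hquot : (v i : ℕ) / s = u := by rw [hu]; exact Nat.mul_div_cancel_left u hs0
        rw [hquot, card_div_eq (P.filter (fun p => ¬ B' < p))
          (fun p hp => hPp p (Finset.mem_filter.mp hp).1) u hu0 ?_]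
        · apply Finset.prod_congr rfl
          intro p hp
          rw [Finset.mem_filter] at hp
          have := hfact p hp.1
          have hpB : p ≤ B' := by omega
          rw [hFv p (hPp p hp.1) hpB v, hgv p (hPp p hp.1) hpB i v,
            ← Finset.add_sum_erase univ _ (Finset.mem_univ i), hu,
            padicValNat.mul hs0.ne' hu0.ne']
          omega
        · intro p hp hd
          have hp' : p ≤ B' := hprimes i v u ⟨s, by rw [hu]; ring⟩ p hp hd
          exact Finset.mem_filter.mpr ⟨hPB p hp hp', by omega⟩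
      rw [hA, hBp]
      ring
    rw [← mul_assoc, hE]
  · intro v
    have h := hcop v 0 (fun p => K - padicValNat p (F v))
    rw [mul_zero, zero_add] at h
    exact h
  · intro v w p hp hd
    apply hαdvd w p
    obtain ⟨q, hq, hpq⟩ := (hp.prime.dvd_finsetProd_iff _).mp hd
    have : p = q := (Nat.prime_dvd_prime_iff_eq hp (hPp q hq)).mp (hp.dvd_of_dvd_pow hpq)
    exact this ▸ hq
  · intro v p hp hpB
    exact hαdvd v p (hPB p hp (hpB.trans hBB'))

end Pool.Agent.Work.MP_f473e4_nt
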