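import Mathlib

set_option autoImplicit false

open Finset

namespace Pool.Agent.Work.MP_f473e4_nt

namespace Lll

variable {T : Type} [Fintype T] [DecidableEq T] {R : ℕ}

/-- number of functions with a property -/
noncomputable def cnt (U : (T → Fin R) → Prop) : ℕ :=
  (@Finset.filter _ U (Classical.decPred U) univ).card

theorem cnt_eq (U : (T → Fin R) → Prop) [DecidablePred U] : cnt U = (univ.filter U).card := by
  unfold cnt
  congr!

theorem cnt_mono (U V : (T → Fin R) → Prop) (h : ∀ γ, U γ → V γ) : cnt U ≤ cnt V := by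
  classical
  rw [cnt_eq, cnt_eq]
  exact Finset.card_le_card (fun γ hγ => by
    simp only [Finset.mem_filter, Finset.mem_univ, true_and] at hγ ⊢
    exact h γ hγ)

theorem cnt_le_all (U : (T → Fin R) → Prop) : cnt U ≤ R ^ Fintype.card T := by
  classical
  rw [cnt_eq]
  calc _ ≤ (Finset.univ : Finset (T → Fin R)).card := Finset.card_le_card (Finset.filter_subset _ _)
    _ = _ := by rw [Finset.card_univ, Fintype.card_fun, Fintype.card_fin]

theorem cnt_union {Λ : Type} (U V : (T → Fin R) → Prop) (S : Finset Λ) (W : Λ → (T → Fin R) → Prop)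
    (h : ∀ γ, U γ → V γ ∨ ∃ x ∈ S, W x γ) : cnt U ≤ cnt V + ∑ x ∈ S, cnt (W x) := by
  classical
  have h1 : univ.filter U ⊆ univ.filter V ∪ S.biUnion (fun x => univ.filter (W x)) := by
    intro γ hγ
    rcases h γ (Finset.mem_filter.1 hγ).2 with h | ⟨x, hx, hW⟩
    · exact Finset.mem_union_left _ (Finset.mem_filter.2 ⟨Finset.mem_univ _, h⟩)
    · exact Finset.mem_union_right _ (Finset.mem_biUnion.2
        ⟨x, hx, Finset.mem_filter.2 ⟨Finset.mem_univ _, hW⟩⟩)
  have h2 := (Finset.card_le_card h1).trans ((Finset.card_union_le _ _).trans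
    (Nat.add_le_add_left Finset.card_biUnion_le _))
  rw [cnt_eq U, cnt_eq V]
  refine h2.trans (Nat.add_le_add_left (Finset.sum_le_sum (fun x _ => ?_)) _)
  rw [cnt_eq (W x)]

theorem cnt_disj (U V W : (T → Fin R) → Prop) (h : ∀ γ, U γ → V γ → False) (hU : ∀ γ, U γ → W γ)
    (hV : ∀ γ, V γ → W γ) : cnt U + cnt V ≤ cnt W := by
  classical
  rw [cnt_eq U, cnt_eq V, cnt_eq W]
  have h3 : Disjoint (univ.filter U) (univ.filter V) := by
    rw [Finset.disjoint_left]
    intro γ h4 h5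
    exact h γ (Finset.mem_filter.1 h4).2 (Finset.mem_filter.1 h5).2
  rw [← Finset.card_union_of_disjoint h3]
  refine Finset.card_le_card ?_
  intro γ hγ
  rcases Finset.mem_union.1 hγ with h | h
  · exact Finset.mem_filter.2 ⟨Finset.mem_univ _, hU γ (Finset.mem_filter.1 h).2⟩
  · exact Finset.mem_filter.2 ⟨Finset.mem_univ _, hV γ (Finset.mem_filter.1 h).2⟩

/-- independence of two predicates depending on complementary coordinates -/
theorem indep (I : Set T) (U V : (T → Fin R) → Prop)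
    (hU : ∀ γ γ' : T → Fin R, (∀ t ∈ I, γ t = γ' t) → (U γ → U γ'))
    (hV : ∀ γ γ' : T → Fin R, (∀ t, t ∉ I → γ t = γ' t) → (V γ → V γ')) :
    cnt (fun γ => U γ ∧ V γ) * R ^ Fintype.card T = cnt U * cnt V := by
  classical
  rw [cnt_eq (fun γ => U γ ∧ V γ), cnt_eq U, cnt_eq V]
  have hall : (Finset.univ : Finset (T → Fin R)).card = R ^ Fintype.card T := by
    rw [Finset.card_univ, Fintype.card_fun, Fintype.card_fin]
  rw [← hall, ← Finset.card_product, ← Finset.card_product]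
  set mrg : (T → Fin R) → (T → Fin R) → (T → Fin R) := fun x y t => if t ∈ I then x t else y t with hmrg
  refine Finset.card_nbij' (fun p => (mrg p.1 p.2, mrg p.2 p.1)) (fun p => (mrg p.1 p.2, mrg p.2 p.1))
    ?_ ?_ ?_ ?_
  · rintro ⟨x, y⟩ h
    simp only [Finset.coe_product, Set.mem_prod, Finset.mem_coe, Finset.mem_filter, Finset.mem_univ,
      true_and, and_true] at h ⊢
    refine ⟨hU x _ (fun t ht => by simp [hmrg, ht]) h.1, hV x _ (fun t ht => by simp [hmrg, ht]) h.2⟩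
  · rintro ⟨x, y⟩ h
    simp only [Finset.coe_product, Set.mem_prod, Finset.mem_coe, Finset.mem_filter, Finset.mem_univ,
      true_and, and_true] at h ⊢
    refine ⟨hU x _ (fun t ht => by simp [hmrg, ht]) h.1, hV y _ (fun t ht => by simp [hmrg, ht]) h.2⟩
  · rintro ⟨x, y⟩ _
    ext t <;> by_cases ht : t ∈ I <;> simp [hmrg, ht]
  · rintro ⟨x, y⟩ _
    ext t <;> by_cases ht : t ∈ I <;> simp [hmrg, ht]

/-- a set of functions determined by the coordinates outside `D` -/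
theorem cnt_det (D : Finset T) (U : (T → Fin R) → Prop)
    (h : ∀ γ, U γ → ∀ γ', U γ' → (∀ t, t ∉ D → γ t = γ' t) → γ = γ') :
    cnt U * R ^ D.card ≤ R ^ Fintype.card T := by
  classical
  rw [cnt_eq U]
  have h1 : (univ.filter U).card ≤ R ^ (Fintype.card T - D.card) := by
    have h2 : (univ.filter U).card ≤ (Finset.univ : Finset ({t // t ∉ D} → Fin R)).card := by
      refine Finset.card_le_card_of_injOn (fun γ t => γ t.1) (fun _ _ => Finset.mem_coe.2 (Finset.mem_univ _)) ?_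
      intro γ hγ γ' hγ' heq
      have e1 := (Finset.mem_filter.1 (Finset.mem_coe.1 hγ)).2
      have e2 := (Finset.mem_filter.1 (Finset.mem_coe.1 hγ')).2
      exact h γ e1 γ' e2 (fun t ht => congrFun heq ⟨t, ht⟩)
    refine h2.trans (le_of_eq ?_)
    rw [Finset.card_univ, Fintype.card_fun, Fintype.card_fin]
    congr 1
    rw [Fintype.card_subtype_compl]
    simp
  have hD : D.card ≤ Fintype.card T := Finset.card_le_univ D
  calc _ ≤ R ^ (Fintype.card T - D.card) * R ^ D.card := Nat.mul_le_mul_right _ h1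
    _ = R ^ Fintype.card T := by rw [← pow_add, Nat.sub_add_cancel hD]

end Lll

open Lll

/-- P1. -/
theorem lll_count (L R Δ A : ℕ) (hL : 2 ≤ L) {T Λ : Type} [Fintype T] [DecidableEq T]
    [DecidableEq Λ] (H : Finset Λ) (ln : Λ → Fin L → T) (a : Λ → Fin L → ℕ)
    (hinj : ∀ ℓ ∈ H, Function.Injective (ln ℓ))
    (hpair : ∀ ℓ ∈ H, ∀ ℓ' ∈ H, ℓ ≠ ℓ' → ∀ j₁ j₂ j₁' j₂',
      ln ℓ j₁ = ln ℓ' j₁' → ln ℓ j₂ = ln ℓ' j₂' → j₁ = j₂)
    (hdeg : ∀ t, (H.filter (fun ℓ => ∃ j, ln ℓ j = t)).card ≤ Δ)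
    (ha : ∀ ℓ ∈ H, ∀ j, a ℓ j ≤ A) (hR : 2 * A ≤ R) (hR0 : 0 < R)
    (hΔ : 16 * L * Δ ≤ R ^ (L - 1)) :
    ((univ.filter (fun γ : T → Fin R => ∀ ℓ ∈ H, ¬ (∀ j j' : Fin L,
        (γ (ln ℓ j) : ℕ) + a ℓ j = (γ (ln ℓ j') : ℕ) + a ℓ j'))).card : ℝ)
      ≤ (1 - 1 / (4 * (R : ℝ) ^ (L - 1))) ^ H.card * (R : ℝ) ^ Fintype.card T := by
  classical
  set Ev : Λ → (T → Fin R) → Prop := fun ℓ γ => ∀ j j' : Fin L,
        (γ (ln ℓ j) : ℕ) + a ℓ j = (γ (ln ℓ j') : ℕ) + a ℓ j' with hEv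
  set av : Finset Λ → (T → Fin R) → Prop := fun S γ => ∀ ℓ ∈ S, ¬ Ev ℓ γ with hav
  -- real counts
  set cn : ((T → Fin R) → Prop) → ℝ := fun U => (cnt U : ℝ) with hcn
  set Tt : ℝ := (R : ℝ) ^ Fintype.card T with hTt
  have hRr : (0 : ℝ) < R := by exact_mod_cast hR0
  have hTt0 : 0 < Tt := by positivity
  set p : ℝ := 1 / (R : ℝ) ^ (L - 1) with hp
  have hp0 : 0 < p := by positivity
  have hcn0 : ∀ U, 0 ≤ cn U := fun U => by positivity
  have hmono : ∀ U V : (T → Fin R) → Prop, (∀ γ, U γ → V γ) → cn U ≤ cn V := by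
    intro U V h
    simp only [hcn]
    exact_mod_cast cnt_mono U V h
  have hLΔp : (L : ℝ) * Δ * p ≤ 1 / 16 := by
    have h1 : (16 * L * Δ : ℝ) ≤ (R : ℝ) ^ (L - 1) := by exact_mod_cast hΔ
    rw [hp, mul_one_div, div_le_div_iff₀ (by positivity) (by norm_num)]
    linarith
  let j0 : Fin L := ⟨0, by omega⟩
  -- F1 upper
  have hF1u : ∀ ℓ ∈ H, cn (Ev ℓ) ≤ p * Tt := by
    intro ℓ hℓ
    set D : Finset T := (univ.erase j0).image (ln ℓ) with hD
    have hDc : D.card = L - 1 := by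
      rw [hD, Finset.card_image_of_injective _ (hinj ℓ hℓ), Finset.card_erase_of_mem (Finset.mem_univ _)]
      simp
    have h1 := cnt_det D (Ev ℓ) (by
      intro γ e1 γ' e2 hag
      have h0 : γ (ln ℓ j0) = γ' (ln ℓ j0) := by
        apply hag
        rw [hD]
        simp only [Finset.mem_image, Finset.mem_erase, Finset.mem_univ, and_true, not_exists, not_and]
        intro j hj hjj
        exact hj (hinj ℓ hℓ hjj)
      funext t
      by_cases ht : t ∈ D
      · obtain ⟨j, _, rfl⟩ := Finset.mem_image.1 ht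
        have a1 := e1 j j0
        have a2 := e2 j j0
        rw [h0] at a1
        exact Fin.ext (by omega)
      · exact hag t ht)
    rw [hDc] at h1
    have h2 : cn (Ev ℓ) * (R : ℝ) ^ (L - 1) ≤ Tt := by
      simp only [hcn, hTt]
      exact_mod_cast h1
    rw [hp, one_div, inv_mul_eq_div, le_div_iff₀ (by positivity)]
    exact h2
  -- F1 lower
  have hF1l : ∀ ℓ ∈ H, p / 2 * Tt ≤ cn (Ev ℓ) := by
    intro ℓ hℓ
    set Im : Finset T := univ.image (ln ℓ) with hIm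
    have hImc : Im.card = L := by
      rw [hIm, Finset.card_image_of_injective _ (hinj ℓ hℓ)]; simp
    have hLT : L ≤ Fintype.card T := by rw [← hImc]; exact Finset.card_le_univ _
    -- injection
    have hinv : ∀ t ∈ Im, ∃ j, ln ℓ j = t := by
      intro t ht
      obtain ⟨j, _, hj⟩ := Finset.mem_image.1 ht
      exact ⟨j, hj⟩
    haveI : Nonempty (Fin L) := ⟨j0⟩
    choose! inv hinv' using hinv
    have hinvl : ∀ j, inv (ln ℓ j) = j := fun j =>
      hinj ℓ hℓ (hinv' _ (Finset.mem_image_of_mem _ (Finset.mem_univ j)))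
    set Φ : ℕ × ({t // t ∉ Im} → Fin R) → (T → Fin R) := fun x t =>
      if ht : t ∈ Im then ⟨(x.1 - a ℓ (inv t)) % R, Nat.mod_lt _ hR0⟩ else x.2 ⟨t, ht⟩ with hΦ
    have h1 : ((Finset.Ico A R) ×ˢ (Finset.univ : Finset ({t // t ∉ Im} → Fin R))).card
        ≤ (univ.filter (Ev ℓ)).card := by
      refine Finset.card_le_card_of_injOn Φ ?_ ?_
      · rintro ⟨C, ρ⟩ hx
        simp only [Finset.coe_product, Set.mem_prod, Finset.mem_coe, Finset.mem_Ico, Finset.mem_univ,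
          and_true] at hx
        simp only [Finset.coe_filter, Finset.mem_univ, true_and]
        have hval : ∀ j, ((Φ (C, ρ) (ln ℓ j) : Fin R) : ℕ) = C - a ℓ j := by
          intro j
          have hm : ln ℓ j ∈ Im := Finset.mem_image_of_mem _ (Finset.mem_univ j)
          simp only [hΦ, hm, dif_pos, hinvl]
          exact Nat.mod_eq_of_lt (by omega)
        show Ev ℓ (Φ (C, ρ))
        intro j j'
        rw [hval, hval]
        have := ha ℓ hℓ j
        have := ha ℓ hℓ j'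
        omega
      · rintro ⟨C, ρ⟩ hx ⟨C', ρ'⟩ hx' heq
        simp only [Finset.coe_product, Set.mem_prod, Finset.mem_coe, Finset.mem_Ico, Finset.mem_univ,
          and_true] at hx hx'
        have hval : ∀ j, ((Φ (C, ρ) (ln ℓ j) : Fin R) : ℕ) = C - a ℓ j := by
          intro j
          have hm : ln ℓ j ∈ Im := Finset.mem_image_of_mem _ (Finset.mem_univ j)
          simp only [hΦ, hm, dif_pos, hinvl]
          exact Nat.mod_eq_of_lt (by omega)
        have hval' : ∀ j, ((Φ (C', ρ') (ln ℓ j) : Fin R) : ℕ) = C' - a ℓ j := by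
          intro j
          have hm : ln ℓ j ∈ Im := Finset.mem_image_of_mem _ (Finset.mem_univ j)
          simp only [hΦ, hm, dif_pos, hinvl]
          exact Nat.mod_eq_of_lt (by omega)
        have hCC : C = C' := by
          have h2 := hval j0
          rw [heq, hval' j0] at h2
          have := ha ℓ hℓ j0
          omega
        have hρ : ρ = ρ' := by
          funext t
          have h3 := congrFun heq t.1
          simp only [hΦ, t.2, dif_neg, not_false_iff] at h3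
          exact h3
        rw [hCC, hρ]
    rw [Finset.card_product, Nat.card_Ico, Finset.card_univ, Fintype.card_fun, Fintype.card_fin] at h1
    have h2 : Fintype.card {t // t ∉ Im} = Fintype.card T - L := by
      rw [Fintype.card_subtype_compl]
      simp [hImc]
    rw [h2] at h1
    have h3 : R * R ^ (Fintype.card T - L) ≤ 2 * (univ.filter (Ev ℓ)).card := by
      have : R ≤ 2 * (R - A) := by omega
      calc R * R ^ (Fintype.card T - L) ≤ (2 * (R - A)) * R ^ (Fintype.card T - L) :=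
            Nat.mul_le_mul_right _ this
        _ = 2 * ((R - A) * R ^ (Fintype.card T - L)) := by ring
        _ ≤ _ := Nat.mul_le_mul_left _ h1
    rw [← cnt_eq (Ev ℓ)] at h3
    have h4 : (R : ℝ) * (R : ℝ) ^ (Fintype.card T - L) ≤ 2 * cn (Ev ℓ) := by
      simp only [hcn]
      exact_mod_cast h3
    have h5 : Tt = ((R : ℝ) * (R : ℝ) ^ (Fintype.card T - L)) * (R : ℝ) ^ (L - 1) := by
      rw [hTt, ← pow_succ', ← pow_add]
      congr 1
      omega
    rw [h5, hp]
    have h6 : (R : ℝ) ^ (L - 1) ≠ 0 := by positivity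
    have h7 : 1 / (R : ℝ) ^ (L - 1) / 2 * ((R : ℝ) * (R : ℝ) ^ (Fintype.card T - L) * (R : ℝ) ^ (L - 1))
        = ((R : ℝ) * (R : ℝ) ^ (Fintype.card T - L)) / 2 := by
      field_simp
    rw [h7]
    linarith
  -- F2
  have hF2 : ∀ ℓ ∈ H, ∀ ℓ' ∈ H, ℓ ≠ ℓ' → cn (fun γ => Ev ℓ γ ∧ Ev ℓ' γ) ≤ p ^ 2 * Tt := by
    intro ℓ hℓ ℓ' hℓ' hne
    obtain ⟨i, i', hii⟩ : ∃ i i' : Fin L, ∀ j j', ln ℓ j = ln ℓ' j' → j = i ∧ j' = i' := by
      by_cases hsh : ∃ i i', ln ℓ i = ln ℓ' i'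
      · obtain ⟨i, i', h⟩ := hsh
        refine ⟨i, i', fun j j' hjj => ⟨hpair ℓ hℓ ℓ' hℓ' hne _ _ _ _ hjj h, ?_⟩⟩
        exact hpair ℓ' hℓ' ℓ hℓ hne.symm _ _ _ _ hjj.symm h.symm
      · exact ⟨j0, j0, fun j j' hjj => (hsh ⟨j, j', hjj⟩).elim⟩
    set D1 : Finset T := (univ.erase i).image (ln ℓ) with hD1
    set D2 : Finset T := (univ.erase i').image (ln ℓ') with hD2
    have hdisj : Disjoint D1 D2 := by
      rw [Finset.disjoint_left]
      intro t h1 h2
      obtain ⟨j, hj, rfl⟩ := Finset.mem_image.1 h1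
      obtain ⟨j', _, hjj⟩ := Finset.mem_image.1 h2
      exact (Finset.mem_erase.1 hj).1 (hii j j' hjj.symm).1
    have hDc : (D1 ∪ D2).card = (L - 1) + (L - 1) := by
      rw [Finset.card_union_of_disjoint hdisj, hD1, hD2, Finset.card_image_of_injective _ (hinj ℓ hℓ),
        Finset.card_image_of_injective _ (hinj ℓ' hℓ'), Finset.card_erase_of_mem (Finset.mem_univ _),
        Finset.card_erase_of_mem (Finset.mem_univ _)]
      simp
    have h1 := cnt_det (D1 ∪ D2) (fun γ => Ev ℓ γ ∧ Ev ℓ' γ) (by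
      rintro γ ⟨e1, f1⟩ γ' ⟨e2, f2⟩ hag
      have h0 : γ (ln ℓ i) = γ' (ln ℓ i) := by
        apply hag
        rw [Finset.mem_union, not_or]
        constructor
        · rw [hD1]
          simp only [Finset.mem_image, Finset.mem_erase, Finset.mem_univ, and_true, not_exists, not_and]
          intro j hj hjj
          exact hj (hinj ℓ hℓ hjj)
        · rw [hD2]
          simp only [Finset.mem_image, Finset.mem_erase, Finset.mem_univ, and_true, not_exists, not_and]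
          intro j hj hjj
          exact hj (hii i j hjj.symm).2
      have h0' : γ (ln ℓ' i') = γ' (ln ℓ' i') := by
        apply hag
        rw [Finset.mem_union, not_or]
        constructor
        · rw [hD1]
          simp only [Finset.mem_image, Finset.mem_erase, Finset.mem_univ, and_true, not_exists, not_and]
          intro j hj hjj
          exact hj (hii j i' hjj).1
        · rw [hD2]
          simp only [Finset.mem_image, Finset.mem_erase, Finset.mem_univ, and_true, not_exists, not_and]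
          intro j hj hjj
          exact hj (hinj ℓ' hℓ' hjj)
      funext t
      by_cases ht : t ∈ D1 ∪ D2
      · rcases Finset.mem_union.1 ht with ht | ht
        · obtain ⟨j, _, rfl⟩ := Finset.mem_image.1 ht
          have a1 := e1 j i
          have a2 := e2 j i
          rw [h0] at a1
          exact Fin.ext (by omega)
        · obtain ⟨j, _, rfl⟩ := Finset.mem_image.1 ht
          have a1 := f1 j i'
          have a2 := f2 j i'
          rw [h0'] at a1
          exact Fin.ext (by omega)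
      · exact hag t ht)
    rw [hDc, pow_add] at h1
    have h2 : cn (fun γ => Ev ℓ γ ∧ Ev ℓ' γ) * ((R : ℝ) ^ (L - 1) * (R : ℝ) ^ (L - 1)) ≤ Tt := by
      simp only [hcn, hTt]
      exact_mod_cast h1
    have h3 : p ^ 2 * Tt = Tt / ((R : ℝ) ^ (L - 1) * (R : ℝ) ^ (L - 1)) := by
      rw [hp]; field_simp
    rw [h3, le_div_iff₀ (by positivity)]
    exact h2
  -- independence with a set of lines not meeting ℓ
  set meets : Λ → Λ → Prop := fun ℓ ℓ' => ∃ j j', ln ℓ j = ln ℓ' j' with hmeets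
  have hEvdep : ∀ (ℓ : Λ) (γ γ' : T → Fin R), (∀ j, γ (ln ℓ j) = γ' (ln ℓ j)) → Ev ℓ γ → Ev ℓ γ' := by
    intro ℓ γ γ' h hE j j'
    rw [← h j, ← h j']
    exact hE j j'
  have hind1 : ∀ (ℓ : Λ) (S : Finset Λ), (∀ ℓ' ∈ S, ¬ meets ℓ ℓ') →
      cn (fun γ => Ev ℓ γ ∧ av S γ) * Tt = cn (Ev ℓ) * cn (av S) := by
    intro ℓ S hS
    have h1 := indep (R := R) (Set.range (ln ℓ)) (Ev ℓ) (av S)
      (fun γ γ' h => hEvdep ℓ γ γ' (fun j => h _ ⟨j, rfl⟩))
      (by
        intro γ γ' h hA ℓ' hℓ' hE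
        refine hA ℓ' hℓ' (hEvdep ℓ' γ' γ (fun j => ?_) hE)
        refine (h _ ?_).symm
        rintro ⟨j', hj'⟩
        exact hS ℓ' hℓ' ⟨j', j, hj'⟩)
    simp only [hcn, hTt]
    exact_mod_cast h1
  have hind2 : ∀ (ℓ ℓ' : Λ) (S : Finset Λ), (∀ ℓ'' ∈ S, ¬ meets ℓ ℓ'' ∧ ¬ meets ℓ' ℓ'') →
      cn (fun γ => (Ev ℓ γ ∧ Ev ℓ' γ) ∧ av S γ) * Tt = cn (fun γ => Ev ℓ γ ∧ Ev ℓ' γ) * cn (av S) := by
    intro ℓ ℓ' S hS
    have h1 := indep (R := R) (Set.range (ln ℓ) ∪ Set.range (ln ℓ')) (fun γ => Ev ℓ γ ∧ Ev ℓ' γ) (av S)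
      (fun γ γ' h hE => ⟨hEvdep ℓ γ γ' (fun j => h _ (Or.inl ⟨j, rfl⟩)) hE.1,
        hEvdep ℓ' γ γ' (fun j => h _ (Or.inr ⟨j, rfl⟩)) hE.2⟩)
      (by
        intro γ γ' h hA ℓ'' hℓ'' hE
        refine hA ℓ'' hℓ'' (hEvdep ℓ'' γ' γ (fun j => ?_) hE)
        refine (h _ ?_).symm
        rintro (⟨j', hj'⟩ | ⟨j', hj'⟩)
        · exact (hS ℓ'' hℓ'').1 ⟨j', j, hj'⟩
        · exact (hS ℓ'' hℓ'').2 ⟨j', j, hj'⟩)
    simp only [hcn, hTt]
    exact_mod_cast h1
  -- union bound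
  have hub : ∀ S S1 : Finset Λ, S1 ⊆ S →
      cn (av S1) - ∑ ℓ' ∈ S \ S1, cn (fun γ => Ev ℓ' γ ∧ av S1 γ) ≤ cn (av S) := by
    intro S S1 hsub
    have h2 := cnt_union (av S1) (av S) (S \ S1) (fun ℓ' γ => Ev ℓ' γ ∧ av S1 γ) (by
      intro γ hγ1
      by_cases h : av S γ
      · exact Or.inl h
      · simp only [hav] at h
        push Not at h
        obtain ⟨ℓ', hℓ', hE⟩ := h
        exact Or.inr ⟨ℓ', Finset.mem_sdiff.2 ⟨hℓ', fun h1 => hγ1 ℓ' h1 hE⟩, hE, hγ1⟩)
    have h3 : cn (av S1) ≤ cn (av S) + ∑ ℓ' ∈ S \ S1, cn (fun γ => Ev ℓ' γ ∧ av S1 γ) := by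
      simp only [hcn]
      exact_mod_cast h2
    linarith
  have hnbr : ∀ ℓ ∈ H, ∀ S ⊆ H, ((S.filter (fun ℓ' => meets ℓ ℓ')).card : ℝ) ≤ L * Δ := by
    intro ℓ _ S hS
    have h1 : S.filter (fun ℓ' => meets ℓ ℓ') ⊆
        (univ : Finset (Fin L)).biUnion (fun j => H.filter (fun ℓ' => ∃ j', ln ℓ' j' = ln ℓ j)) := by
      intro ℓ' hℓ'
      obtain ⟨h1, j, j', hjj⟩ := Finset.mem_filter.1 hℓ'
      exact Finset.mem_biUnion.2 ⟨j, Finset.mem_univ _, Finset.mem_filter.2 ⟨hS h1, j', hjj.symm⟩⟩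
    have h2 : (S.filter (fun ℓ' => meets ℓ ℓ')).card ≤ L * Δ := by
      calc _ ≤ _ := Finset.card_le_card h1
        _ ≤ (univ : Finset (Fin L)).card * Δ := Finset.card_biUnion_le_card_mul _ _ _ (fun j _ => hdeg _)
        _ = L * Δ := by simp
    exact_mod_cast h2
  -- Claim 1
  have claim1 : ∀ n : ℕ, ∀ S ⊆ H, S.card = n → ∀ ℓ ∈ H, ℓ ∉ S →
      cn (fun γ => Ev ℓ γ ∧ av S γ) ≤ 2 * p * cn (av S) := by
    intro n
    induction n using Nat.strong_induction_on with
    | _ n ih =>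
      intro S hS hSn ℓ hℓ hℓS
      set S1 : Finset Λ := S.filter (fun ℓ' => ¬ meets ℓ ℓ') with hS1
      have hS1S : S1 ⊆ S := Finset.filter_subset _ _
      have hS2 : S \ S1 = S.filter (fun ℓ' => meets ℓ ℓ') := by
        ext x
        simp only [hS1, Finset.mem_sdiff, Finset.mem_filter, not_and, not_not]
        tauto
      have e1 : cn (fun γ => Ev ℓ γ ∧ av S γ) ≤ cn (fun γ => Ev ℓ γ ∧ av S1 γ) :=
        hmono _ _ (fun γ h => ⟨h.1, fun ℓ' h' => h.2 ℓ' (hS1S h')⟩)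
      have e2 : cn (fun γ => Ev ℓ γ ∧ av S1 γ) ≤ p * cn (av S1) := by
        have h1 := hind1 ℓ S1 (fun ℓ' h' => (Finset.mem_filter.1 h').2)
        have h2 : cn (fun γ => Ev ℓ γ ∧ av S1 γ) * Tt ≤ (p * cn (av S1)) * Tt := by
          rw [h1]
          calc cn (Ev ℓ) * cn (av S1) ≤ (p * Tt) * cn (av S1) :=
                mul_le_mul_of_nonneg_right (hF1u ℓ hℓ) (hcn0 _)
            _ = _ := by ring
        exact le_of_mul_le_mul_right h2 hTt0
      have e3 : cn (av S1) ≤ 2 * cn (av S) := by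
        by_cases hemp : S \ S1 = ∅
        · have : S1 = S := Finset.Subset.antisymm hS1S (Finset.sdiff_eq_empty_iff_subset.1 hemp)
          rw [this]
          linarith [hcn0 (av S)]
        · have hlt : S1.card < n := by
            rw [← hSn]
            apply Finset.card_lt_card
            refine ⟨hS1S, fun h => hemp (Finset.sdiff_eq_empty_iff_subset.2 h)⟩
          have h1 := hub S S1 hS1S
          have h2 : ∑ ℓ' ∈ S \ S1, cn (fun γ => Ev ℓ' γ ∧ av S1 γ) ≤
              ∑ ℓ' ∈ S \ S1, (2 * p * cn (av S1)) := by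
            apply Finset.sum_le_sum
            intro ℓ' hℓ'
            obtain ⟨h3, h4⟩ := Finset.mem_sdiff.1 hℓ'
            exact ih S1.card hlt S1 (hS1S.trans hS) rfl ℓ' (hS h3) h4
          rw [Finset.sum_const, nsmul_eq_mul, hS2] at h2
          have h3 : ((S.filter (fun ℓ' => meets ℓ ℓ')).card : ℝ) * (2 * p * cn (av S1)) ≤
              (L * Δ) * (2 * p * cn (av S1)) :=
            mul_le_mul_of_nonneg_right (hnbr ℓ hℓ S hS)
              (mul_nonneg (mul_nonneg (by norm_num) hp0.le) (hcn0 _))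
          have h4 : (L * Δ : ℝ) * (2 * p * cn (av S1)) ≤ 1 / 8 * cn (av S1) := by
            have := mul_le_mul_of_nonneg_right hLΔp (hcn0 (av S1))
            nlinarith
          rw [← hS2] at h2 h3
          have := hcn0 (av S1)
          linarith
      calc cn (fun γ => Ev ℓ γ ∧ av S γ) ≤ p * cn (av S1) := e1.trans e2
        _ ≤ p * (2 * cn (av S)) := mul_le_mul_of_nonneg_left e3 hp0.le
        _ = _ := by ring
  -- Claim 2
  have claim2 : ∀ S ⊆ H, ∀ ℓ ∈ H, ℓ ∉ S →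
      p / 4 * cn (av S) ≤ cn (fun γ => Ev ℓ γ ∧ av S γ) := by
    intro S hS ℓ hℓ hℓS
    set S1 : Finset Λ := S.filter (fun ℓ' => ¬ meets ℓ ℓ') with hS1
    have hS1S : S1 ⊆ S := Finset.filter_subset _ _
    have hS2 : S \ S1 = S.filter (fun ℓ' => meets ℓ ℓ') := by
      ext x
      simp only [hS1, Finset.mem_sdiff, Finset.mem_filter, not_and, not_not]
      tauto
    -- first: av S ⊆ av S1
    have e0 : cn (av S) ≤ cn (av S1) := hmono _ _ (fun γ h ℓ' h' => h ℓ' (hS1S h'))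
    have e1 : p / 2 * cn (av S1) ≤ cn (fun γ => Ev ℓ γ ∧ av S1 γ) := by
      have h1 := hind1 ℓ S1 (fun ℓ' h' => (Finset.mem_filter.1 h').2)
      have h2 : (p / 2 * cn (av S1)) * Tt ≤ cn (fun γ => Ev ℓ γ ∧ av S1 γ) * Tt := by
        rw [h1]
        calc (p / 2 * cn (av S1)) * Tt = (p / 2 * Tt) * cn (av S1) := by ring
          _ ≤ _ := mul_le_mul_of_nonneg_right (hF1l ℓ hℓ) (hcn0 _)
      exact le_of_mul_le_mul_right h2 hTt0
    have e2 : ∀ ℓ' ∈ S \ S1, cn (fun γ => (Ev ℓ γ ∧ Ev ℓ' γ) ∧ av S1 γ) ≤ p ^ 2 * (8 / 7) * cn (av S1) := by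
      intro ℓ' hℓ'
      obtain ⟨h1, h2⟩ := Finset.mem_sdiff.1 hℓ'
      have hℓ'H := hS h1
      have hne : ℓ ≠ ℓ' := fun h => hℓS (h ▸ h1)
      set S3 : Finset Λ := S1.filter (fun ℓ'' => ¬ meets ℓ' ℓ'') with hS3
      have hS3S : S3 ⊆ S1 := Finset.filter_subset _ _
      have hS4 : S1 \ S3 = S1.filter (fun ℓ'' => meets ℓ' ℓ'') := by
        ext x
        simp only [hS3, Finset.mem_sdiff, Finset.mem_filter, not_and, not_not]
        tauto
      have f1 : cn (fun γ => (Ev ℓ γ ∧ Ev ℓ' γ) ∧ av S1 γ) ≤ cn (fun γ => (Ev ℓ γ ∧ Ev ℓ' γ) ∧ av S3 γ) :=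
        hmono _ _ (fun γ h => ⟨h.1, fun ℓ' h' => h.2 ℓ' (hS3S h')⟩)
      have f2 : cn (fun γ => (Ev ℓ γ ∧ Ev ℓ' γ) ∧ av S3 γ) ≤ p ^ 2 * cn (av S3) := by
        have h3 := hind2 ℓ ℓ' S3 (fun ℓ'' h'' =>
          ⟨(Finset.mem_filter.1 (hS3S h'')).2, (Finset.mem_filter.1 h'').2⟩)
        have h4 : cn (fun γ => (Ev ℓ γ ∧ Ev ℓ' γ) ∧ av S3 γ) * Tt ≤ (p ^ 2 * cn (av S3)) * Tt := by
          rw [h3]
          calc cn (fun γ => Ev ℓ γ ∧ Ev ℓ' γ) * cn (av S3) ≤ (p ^ 2 * Tt) * cn (av S3) :=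
                mul_le_mul_of_nonneg_right (hF2 ℓ hℓ ℓ' hℓ'H hne) (hcn0 _)
            _ = _ := by ring
        exact le_of_mul_le_mul_right h4 hTt0
      have f3 : cn (av S3) ≤ 8 / 7 * cn (av S1) := by
        have h3 := hub S1 S3 hS3S
        have h4 : ∑ ℓ'' ∈ S1 \ S3, cn (fun γ => Ev ℓ'' γ ∧ av S3 γ) ≤
            ∑ ℓ'' ∈ S1 \ S3, (2 * p * cn (av S3)) := by
          apply Finset.sum_le_sum
          intro ℓ'' hℓ''
          obtain ⟨h5, h6⟩ := Finset.mem_sdiff.1 hℓ''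
          exact claim1 S3.card S3 (hS3S.trans (hS1S.trans hS)) rfl ℓ'' (hS (hS1S h5)) h6
        rw [Finset.sum_const, nsmul_eq_mul, hS4] at h4
        have h5 : ((S1.filter (fun ℓ'' => meets ℓ' ℓ'')).card : ℝ) * (2 * p * cn (av S3)) ≤
            (L * Δ) * (2 * p * cn (av S3)) :=
          mul_le_mul_of_nonneg_right (hnbr ℓ' hℓ'H S1 (hS1S.trans hS))
            (mul_nonneg (mul_nonneg (by norm_num) hp0.le) (hcn0 _))
        have h6 : (L * Δ : ℝ) * (2 * p * cn (av S3)) ≤ 1 / 8 * cn (av S3) := by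
          have := mul_le_mul_of_nonneg_right hLΔp (hcn0 (av S3))
          nlinarith
        rw [← hS4] at h4 h5
        linarith
      calc cn (fun γ => (Ev ℓ γ ∧ Ev ℓ' γ) ∧ av S1 γ) ≤ p ^ 2 * cn (av S3) := f1.trans f2
        _ ≤ p ^ 2 * (8 / 7 * cn (av S1)) := mul_le_mul_of_nonneg_left f3 (by positivity)
        _ = _ := by ring
    -- union bound inside Ev ℓ
    have e3 : cn (fun γ => Ev ℓ γ ∧ av S1 γ) ≤ cn (fun γ => Ev ℓ γ ∧ av S γ) +
        ∑ ℓ' ∈ S \ S1, cn (fun γ => (Ev ℓ γ ∧ Ev ℓ' γ) ∧ av S1 γ) := by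
      have h2 := cnt_union (fun γ => Ev ℓ γ ∧ av S1 γ) (fun γ => Ev ℓ γ ∧ av S γ) (S \ S1)
        (fun ℓ' γ => (Ev ℓ γ ∧ Ev ℓ' γ) ∧ av S1 γ) (by
        rintro γ ⟨hE, hγ1⟩
        by_cases h : av S γ
        · exact Or.inl ⟨hE, h⟩
        · simp only [hav] at h
          push Not at h
          obtain ⟨ℓ', hℓ', hE'⟩ := h
          exact Or.inr ⟨ℓ', Finset.mem_sdiff.2 ⟨hℓ', fun h1 => hγ1 ℓ' h1 hE'⟩, ⟨hE, hE'⟩, hγ1⟩)
      simp only [hcn]
      exact_mod_cast h2
    have e4 : ∑ ℓ' ∈ S \ S1, cn (fun γ => (Ev ℓ γ ∧ Ev ℓ' γ) ∧ av S1 γ) ≤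
        (L * Δ) * (p ^ 2 * (8 / 7) * cn (av S1)) := by
      calc _ ≤ ∑ ℓ' ∈ S \ S1, (p ^ 2 * (8 / 7) * cn (av S1)) := Finset.sum_le_sum e2
        _ = ((S \ S1).card : ℝ) * (p ^ 2 * (8 / 7) * cn (av S1)) := by
            rw [Finset.sum_const, nsmul_eq_mul]
        _ ≤ _ := by
            rw [hS2]
            exact mul_le_mul_of_nonneg_right (hnbr ℓ hℓ S hS) (mul_nonneg (by positivity) (hcn0 _))
    have e5 : (L * Δ : ℝ) * (p ^ 2 * (8 / 7) * cn (av S1)) ≤ 1 / 16 * (p * (8 / 7) * cn (av S1)) := by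
      have h1 : (L * Δ : ℝ) * (p ^ 2 * (8 / 7) * cn (av S1)) = (L * Δ * p) * (p * (8 / 7) * cn (av S1)) := by
        ring
      rw [h1]
      exact mul_le_mul_of_nonneg_right hLΔp (mul_nonneg (by positivity) (hcn0 _))
    have e6 : 0 ≤ p * cn (av S1) := mul_nonneg hp0.le (hcn0 _)
    have e7 : p * cn (av S) ≤ p * cn (av S1) := mul_le_mul_of_nonneg_left e0 hp0.le
    nlinarith
  -- induction over H
  have main : ∀ S ⊆ H, cn (av S) ≤ (1 - p / 4) ^ S.card * Tt := by
    intro S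
    induction S using Finset.induction_on with
    | empty =>
      intro _
      simp only [Finset.card_empty, pow_zero, one_mul]
      simp only [hcn, hTt]
      exact_mod_cast cnt_le_all (av ∅)
    | insert ℓ S hℓS ih =>
      intro hsub
      have hSH : S ⊆ H := (Finset.subset_insert _ _).trans hsub
      have hℓH : ℓ ∈ H := hsub (Finset.mem_insert_self _ _)
      have h1 := claim2 S hSH ℓ hℓH hℓS
      have h2 : cn (av (insert ℓ S)) + cn (fun γ => Ev ℓ γ ∧ av S γ) ≤ cn (av S) := by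
        have h5 := cnt_disj (av (insert ℓ S)) (fun γ => Ev ℓ γ ∧ av S γ) (av S)
          (fun γ h4 h5 => h4 ℓ (Finset.mem_insert_self _ _) h5.1)
          (fun γ h ℓ' h' => h ℓ' (Finset.mem_insert_of_mem h')) (fun γ h => h.2)
        simp only [hcn]
        exact_mod_cast h5
      have hp1 : p ≤ 1 := by
        rw [hp, div_le_one (by positivity)]
        exact one_le_pow₀ (by exact_mod_cast hR0)
      rw [Finset.card_insert_of_notMem hℓS, pow_succ]
      have h6 : cn (av (insert ℓ S)) ≤ (1 - p / 4) * cn (av S) := by linarith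
      calc cn (av (insert ℓ S)) ≤ (1 - p / 4) * cn (av S) := h6
        _ ≤ (1 - p / 4) * ((1 - p / 4) ^ S.card * Tt) :=
            mul_le_mul_of_nonneg_left (ih hSH) (by linarith)
        _ = _ := by ring
  have hfin := main H (Finset.Subset.refl _)
  have hpe : p / 4 = 1 / (4 * (R : ℝ) ^ (L - 1)) := by
    rw [hp, div_div, mul_comm]
  rw [hpe] at hfin
  simp only [hcn] at hfin
  rw [cnt_eq] at hfin
  exact hfin

end Pool.Agent.Work.MP_f473e4_nt
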