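import Mathlib
import Pool.Agent.Work.MP_f473e4_nt.PLll

set_option autoImplicit false

open Finset

namespace Pool.Agent.Work.MP_f473e4_nt

/-! ### Inserting a coordinate -/

/-- The point of `T^D` with coordinate `t` at `i` and the other coordinates given by `w`. -/
def ins {D : ℕ} {T : Type} (i : Fin D) (w : {j : Fin D // j ≠ i} → T) (t : T) : Fin D → T :=
  fun j => if h : j = i then t else w ⟨j, h⟩

theorem ins_update {D : ℕ} {T : Type} (i : Fin D) (w : {j : Fin D // j ≠ i} → T) (t t' : T) :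
    Function.update (ins i w t) i t' = ins i w t' := by
  funext j
  by_cases h : j = i
  · subst h; simp [ins]
  · simp [ins, h]

theorem ins_restrict {D : ℕ} {T : Type} (i : Fin D) (v : Fin D → T) :
    ins i (fun j => v j.1) (v i) = v := by
  funext j
  by_cases h : j = i
  · subst h; simp [ins]
  · simp [ins, h]

/-- `(w, t) ↦ ins i w t` as an equivalence. -/
def insEquiv {D : ℕ} {T : Type} (i : Fin D) :
    ({j : Fin D // j ≠ i} → T) × T ≃ (Fin D → T) where
  toFun x := ins i x.1 x.2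
  invFun v := (fun j => v j.1, v i)
  left_inv x := by
    refine Prod.ext ?_ ?_
    · funext j
      simp [ins, j.2]
    · simp [ins]
  right_inv v := ins_restrict i v

theorem sum_ins {D : ℕ} {T : Type} [Fintype T] (i : Fin D) (g : (Fin D → T) → ℕ) :
    ∑ w : {j : Fin D // j ≠ i} → T, ∑ t : T, g (ins i w t) = ∑ v, g v := by
  rw [← Fintype.sum_prod_type' (f := fun w t => g (ins i w t))]
  exact Fintype.sum_equiv (insEquiv i) _ _ (fun x => rfl)

theorem card_fibres {D : ℕ} {T : Type} [Fintype T] (i : Fin D) :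
    Fintype.card ({j : Fin D // j ≠ i} → T) * Fintype.card T = Fintype.card (Fin D → T) := by
  classical
  rw [← Fintype.card_prod]
  exact Fintype.card_congr (insEquiv i)

section

open Classical in
/-- The colourings `γ` which leave no balanced line, for the vertex weights `d`. -/
noncomputable def failSet (L D r R : ℕ) {T Λ : Type} [Fintype T] (H : Finset Λ)
    (ln : Λ → Fin L → T) (a : Λ → Fin L → ℕ) (d : (Fin D → T) → ℕ) :
    Finset (Fin D → (Fin D → T) → Fin R) :=
  univ.filter fun γ => ∀ i v, ∀ ℓ ∈ H, (∀ j, d (Function.update v i (ln ℓ j)) ≤ r) →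
    ¬ ∀ j j', d (Function.update v i (ln ℓ j)) + γ i (Function.update v i (ln ℓ j)) + a ℓ j
      = d (Function.update v i (ln ℓ j')) + γ i (Function.update v i (ln ℓ j')) + a ℓ j'

theorem not_mem_failSet (L D r R : ℕ) {T Λ : Type} [Fintype T] (H : Finset Λ)
    (ln : Λ → Fin L → T) (a : Λ → Fin L → ℕ) (d : (Fin D → T) → ℕ)
    (γ : Fin D → (Fin D → T) → Fin R) (h : γ ∉ failSet L D r R H ln a d) :
    ∃ i v, ∃ ℓ ∈ H, (∀ j, d (Function.update v i (ln ℓ j)) ≤ r) ∧
    ∀ j j', d (Function.update v i (ln ℓ j)) + γ i (Function.update v i (ln ℓ j)) + a ℓ j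
      = d (Function.update v i (ln ℓ j')) + γ i (Function.update v i (ln ℓ j')) + a ℓ j' := by
  by_contra hcon
  apply h
  unfold failSet
  rw [Finset.mem_filter]
  refine ⟨by simp, ?_⟩
  intro i v ℓ hℓ h1 h2
  exact hcon ⟨i, v, ℓ, hℓ, h1, h2⟩

open Classical in
/-- Number of surviving lines in the fibre `(i, w)`. -/
noncomputable def surv (L D r : ℕ) {T Λ : Type} (H : Finset Λ)
    (ln : Λ → Fin L → T) (d : (Fin D → T) → ℕ) (i : Fin D) (w : {j : Fin D // j ≠ i} → T) :
    Finset Λ :=
  H.filter fun ℓ => ∀ j, d (ins i w (ln ℓ j)) ≤ r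

theorem surv_count (L D r Δ : ℕ) {T Λ : Type} [Fintype T] [DecidableEq T] [DecidableEq Λ]
    (H : Finset Λ) (ln : Λ → Fin L → T) (d : (Fin D → T) → ℕ)
    (hdeg : ∀ t, (H.filter (fun ℓ => ∃ j, ln ℓ j = t)).card ≤ Δ)
    (i : Fin D) (w : {j : Fin D // j ≠ i} → T) :
    H.card ≤ (surv L D r H ln d i w).card +
      Δ * ∑ t : T, (if r < d (ins i w t) then 1 else 0) := by
  classical
  have h1 : H.card = (surv L D r H ln d i w).card +
      (H.filter fun ℓ => ¬ ∀ j, d (ins i w (ln ℓ j)) ≤ r).card := by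
    unfold surv
    rw [Finset.card_filter_add_card_filter_not]
  have h2 : (H.filter fun ℓ => ¬ ∀ j, d (ins i w (ln ℓ j)) ≤ r) ⊆
      (univ.filter fun t : T => r < d (ins i w t)).biUnion
        (fun t => H.filter (fun ℓ => ∃ j, ln ℓ j = t)) := by
    intro ℓ hℓ
    rw [Finset.mem_filter] at hℓ
    obtain ⟨hℓH, hℓ⟩ := hℓ
    push Not at hℓ
    obtain ⟨j, hj⟩ := hℓ
    rw [Finset.mem_biUnion]
    exact ⟨ln ℓ j, Finset.mem_filter.mpr ⟨Finset.mem_univ _, hj⟩,
      Finset.mem_filter.mpr ⟨hℓH, j, rfl⟩⟩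
  have h3 : (H.filter fun ℓ => ¬ ∀ j, d (ins i w (ln ℓ j)) ≤ r).card ≤
      (univ.filter fun t : T => r < d (ins i w t)).card * Δ := by
    refine (Finset.card_le_card h2).trans (Finset.card_biUnion_le_card_mul _ _ _ ?_)
    intro t _
    exact hdeg t
  have h4 : (univ.filter fun t : T => r < d (ins i w t)).card
      = ∑ t : T, if r < d (ins i w t) then 1 else 0 := Finset.card_filter _ _
  rw [h1, ← h4, Nat.mul_comm Δ]
  exact Nat.add_le_add_left h3 _

theorem surv_sum (L D r Δ : ℕ) {T Λ : Type} [Fintype T] [DecidableEq T] [DecidableEq Λ]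
    (H : Finset Λ) (ln : Λ → Fin L → T) (d : (Fin D → T) → ℕ)
    (hdeg : ∀ t, (H.filter (fun ℓ => ∃ j, ln ℓ j = t)).card ≤ Δ) (i : Fin D) :
    Fintype.card ({j : Fin D // j ≠ i} → T) * H.card ≤
      ∑ w, (surv L D r H ln d i w).card + Δ * (univ.filter fun v => r < d v).card := by
  classical
  have h1 : ∑ w : {j : Fin D // j ≠ i} → T, H.card ≤
      ∑ w : {j : Fin D // j ≠ i} → T, ((surv L D r H ln d i w).card +
      Δ * ∑ t : T, (if r < d (ins i w t) then 1 else 0)) :=
    Finset.sum_le_sum fun w _ => surv_count L D r Δ H ln d hdeg i w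
  rw [Finset.sum_const, Finset.sum_add_distrib, ← Finset.mul_sum,
    sum_ins i (fun v => if r < d v then 1 else 0), Finset.card_univ, smul_eq_mul] at h1
  rw [Finset.card_filter]
  exact h1

theorem failSet_card (L D r R Δ A : ℕ) (hL : 2 ≤ L) {T Λ : Type} [Fintype T] [DecidableEq T]
    [DecidableEq Λ] (H : Finset Λ) (ln : Λ → Fin L → T) (a : Λ → Fin L → ℕ)
    (hinj : ∀ ℓ ∈ H, Function.Injective (ln ℓ))
    (hpair : ∀ ℓ ∈ H, ∀ ℓ' ∈ H, ℓ ≠ ℓ' → ∀ j₁ j₂ j₁' j₂',
      ln ℓ j₁ = ln ℓ' j₁' → ln ℓ j₂ = ln ℓ' j₂' → j₁ = j₂)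
    (hdeg : ∀ t, (H.filter (fun ℓ => ∃ j, ln ℓ j = t)).card ≤ Δ)
    (ha : ∀ ℓ ∈ H, ∀ j, a ℓ j ≤ A) (hR : 2 * (r + A) ≤ R) (hR0 : 0 < R)
    (hΔ : 16 * L * Δ ≤ R ^ (L - 1)) (d : (Fin D → T) → ℕ) :
    ((failSet L D r R H ln a d).card : ℝ) ≤
      (1 - 1 / (4 * (R : ℝ) ^ (L - 1))) ^ (∑ i, ∑ w, (surv L D r H ln d i w).card) *
        Fintype.card (Fin D → (Fin D → T) → Fin R) := by
  classical
  -- the fibrewise failing sets
  set S : (i : Fin D) → ({j : Fin D // j ≠ i} → T) → Finset (T → Fin R) := fun i w =>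
    univ.filter fun γ : T → Fin R => ∀ ℓ ∈ surv L D r H ln d i w, ¬ ∀ j j' : Fin L,
      (γ (ln ℓ j) : ℕ) + (a ℓ j + d (ins i w (ln ℓ j)))
        = (γ (ln ℓ j') : ℕ) + (a ℓ j' + d (ins i w (ln ℓ j'))) with hS
  have hsub : ∀ i w, surv L D r H ln d i w ⊆ H := fun i w => Finset.filter_subset _ _
  have hScard : ∀ i w, ((S i w).card : ℝ) ≤
      (1 - 1 / (4 * (R : ℝ) ^ (L - 1))) ^ (surv L D r H ln d i w).card *
        (R : ℝ) ^ Fintype.card T := by
    intro i w
    have h := lll_count L R Δ (r + A) hL (surv L D r H ln d i w) ln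
      (fun ℓ j => if ℓ ∈ surv L D r H ln d i w then a ℓ j + d (ins i w (ln ℓ j)) else 0)
      (fun ℓ hℓ => hinj ℓ (hsub i w hℓ))
      (fun ℓ hℓ ℓ' hℓ' => hpair ℓ (hsub i w hℓ) ℓ' (hsub i w hℓ'))
      (fun t => (Finset.card_le_card (Finset.filter_subset_filter _ (hsub i w))).trans (hdeg t))
      (fun ℓ hℓ j => ?_) hR hR0 hΔ
    · refine le_trans (le_of_eq ?_) h
      congr 1
      rw [hS]
      simp only
      congr 1
      ext γ
      simp only [Finset.mem_filter, Finset.mem_univ, true_and]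
      constructor
      · intro hγ ℓ hℓ
        simp only [hℓ, if_true]
        exact hγ ℓ hℓ
      · intro hγ ℓ hℓ
        have := hγ ℓ hℓ
        simp only [hℓ, if_true] at this
        exact this
    · simp only [hℓ, if_true]
      have h1 := ha ℓ (hsub i w hℓ) j
      have h2 : d (ins i w (ln ℓ j)) ≤ r := (Finset.mem_filter.mp hℓ).2 j
      omega
  -- the injection
  set φ : (Fin D → (Fin D → T) → Fin R) →
      ((i : Fin D) → ({j : Fin D // j ≠ i} → T) → (T → Fin R)) :=
    fun γ i w t => γ i (ins i w t) with hφ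
  have hφinj : Function.Injective φ := by
    intro γ γ' h
    funext i v
    have h1 : φ γ i (fun j => v j.1) (v i) = φ γ' i (fun j => v j.1) (v i) := by rw [h]
    simp only [hφ, ins_restrict] at h1
    exact h1
  have hmaps : ∀ γ ∈ failSet L D r R H ln a d,
      φ γ ∈ Fintype.piFinset (fun i => Fintype.piFinset (fun w => S i w)) := by
    intro γ hγ
    rw [Fintype.mem_piFinset]
    intro i
    rw [Fintype.mem_piFinset]
    intro w
    rw [hS]
    simp only [Finset.mem_filter, Finset.mem_univ, true_and]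
    intro ℓ hℓ hbal
    unfold failSet at hγ
    rw [Finset.mem_filter] at hγ
    by_cases hT : Nonempty T
    · obtain ⟨t0⟩ := hT
      refine hγ.2 i (ins i w t0) ℓ (hsub i w hℓ) ?_ ?_
      · intro j
        rw [ins_update]
        exact (Finset.mem_filter.mp hℓ).2 j
      · intro j j'
        rw [ins_update, ins_update]
        have := hbal j j'
        simp only [hφ] at this
        omega
    · exact hT ⟨ln ℓ ⟨0, by omega⟩⟩
  have hcard : (failSet L D r R H ln a d).card ≤
      ∏ i, ∏ w, (S i w).card := by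
    calc (failSet L D r R H ln a d).card
        ≤ (Fintype.piFinset (fun i => Fintype.piFinset (fun w => S i w))).card :=
          Finset.card_le_card_of_injOn φ hmaps (hφinj.injOn)
      _ = _ := by
        rw [Fintype.card_piFinset]
        exact Finset.prod_congr rfl fun i _ => Fintype.card_piFinset _
  calc ((failSet L D r R H ln a d).card : ℝ)
      ≤ ((∏ i, ∏ w, (S i w).card : ℕ) : ℝ) := by exact_mod_cast hcard
    _ = ∏ i, ∏ w, ((S i w).card : ℝ) := by push_cast; rfl
    _ ≤ ∏ i : Fin D, ∏ w, ((1 - 1 / (4 * (R : ℝ) ^ (L - 1))) ^ (surv L D r H ln d i w).card *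
        (R : ℝ) ^ Fintype.card T) := by
      apply Finset.prod_le_prod
      · intro i _
        exact Finset.prod_nonneg fun w _ => Nat.cast_nonneg _
      · intro i _
        apply Finset.prod_le_prod
        · intro w _; exact Nat.cast_nonneg _
        · intro w _; exact hScard i w
    _ = (1 - 1 / (4 * (R : ℝ) ^ (L - 1))) ^ (∑ i, ∑ w, (surv L D r H ln d i w).card) *
        ∏ i : Fin D, ∏ _w : {j : Fin D // j ≠ i} → T, (R : ℝ) ^ Fintype.card T := by
      rw [← Finset.prod_pow_eq_pow_sum]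
      simp_rw [Finset.prod_mul_distrib, ← Finset.prod_pow_eq_pow_sum]
    _ = _ := by
      congr 1
      have h1 : ∀ i : Fin D, ∏ _w : {j : Fin D // j ≠ i} → T, (R : ℝ) ^ Fintype.card T
          = (R : ℝ) ^ Fintype.card (Fin D → T) := by
        intro i
        rw [Finset.prod_const, Finset.card_univ, ← pow_mul, mul_comm (Fintype.card T),
          card_fibres]
      simp_rw [h1]
      rw [Finset.prod_const, Finset.card_univ, Fintype.card_fun, Fintype.card_fun]
      simp

end

/-- P2. file Prob.lean (uses P1) -/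
theorem prob_main (L D r R Δ A : ℕ) (hL : 2 ≤ L) {T Λ : Type} [Fintype T] [DecidableEq T]
    [Nonempty T] [DecidableEq Λ] (H : Finset Λ) (ln : Λ → Fin L → T) (a : Λ → Fin L → ℕ)
    (hinj : ∀ ℓ ∈ H, Function.Injective (ln ℓ))
    (hpair : ∀ ℓ ∈ H, ∀ ℓ' ∈ H, ℓ ≠ ℓ' → ∀ j₁ j₂ j₁' j₂',
      ln ℓ j₁ = ln ℓ' j₁' → ln ℓ j₂ = ln ℓ' j₂' → j₁ = j₂)
    (hdeg : ∀ t, (H.filter (fun ℓ => ∃ j, ln ℓ j = t)).card ≤ Δ)
    (ha : ∀ ℓ ∈ H, ∀ j, a ℓ j ≤ A) (hR : 2 * (r + A) ≤ R) (hR0 : 0 < R)
    (hΔ : 16 * L * Δ ≤ R ^ (L - 1)) (hΔ' : R ^ (L - 1) ≤ 32 * L * Δ) (β : ℝ) (hβ : 0 < β)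
    (hH : β * Δ * Fintype.card T ≤ H.card)
    (hD : 256 * L * Real.log (r + 2) < D * β) :
    ∃ γ : Fin D → (Fin D → T) → Fin R, ∀ c : (Fin D → T) → ℕ,
      ((univ.filter (fun v => r < c v)).card : ℝ) ≤ β / 2 * Fintype.card (Fin D → T) →
      ∃ i v, ∃ ℓ ∈ H, ∀ j j',
        c (Function.update v i (ln ℓ j)) + γ i (Function.update v i (ln ℓ j)) + a ℓ j
        = c (Function.update v i (ln ℓ j')) + γ i (Function.update v i (ln ℓ j')) + a ℓ j' := by
  classical
  have hRpos : (0 : ℝ) < (R : ℝ) ^ (L - 1) := by positivity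
  have hR1 : (1 : ℝ) ≤ (R : ℝ) ^ (L - 1) := by
    have : (1 : ℝ) ≤ R := by exact_mod_cast hR0
    exact one_le_pow₀ this
  have hΔpos : 0 < Δ := by
    rcases Nat.eq_zero_or_pos Δ with h | h
    · subst h
      have : 0 < R ^ (L - 1) := by positivity
      simp at hΔ'
      omega
    · exact h
  have hLpos : (0 : ℝ) < L := by exact_mod_cast (by omega : 0 < L)
  set n : ℕ := Fintype.card (Fin D → T) with hn
  have hnpos : 0 < n := Fintype.card_pos
  set x : ℝ := 1 / (4 * (R : ℝ) ^ (L - 1)) with hx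
  have hx0 : 0 < x := by positivity
  have hx1 : x ≤ 1 := by
    rw [hx, div_le_one (by positivity)]
    linarith
  -- the bound for one class
  have key : ∀ d : (Fin D → T) → ℕ,
      ((univ.filter (fun v => r < d v)).card : ℝ) ≤ β / 2 * n →
      ((failSet L D r R H ln a d).card : ℝ) ≤
        Real.exp (-(D * β / (256 * L)) * n) * Fintype.card (Fin D → (Fin D → T) → Fin R) := by
    intro d hd
    refine (failSet_card L D r R Δ A hL H ln a hinj hpair hdeg ha hR hR0 hΔ d).trans ?_
    apply mul_le_mul_of_nonneg_right _ (Nat.cast_nonneg _)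
    have hsum : D * β * Δ * n / 2 ≤ ((∑ i, ∑ w, (surv L D r H ln d i w).card : ℕ) : ℝ) := by
      have h1 : ∀ i : Fin D, β * Δ * n / 2 ≤ ((∑ w, (surv L D r H ln d i w).card : ℕ) : ℝ) := by
        intro i
        have h2 := surv_sum L D r Δ H ln d hdeg i
        have h3 : (Fintype.card ({j : Fin D // j ≠ i} → T) : ℝ) * H.card ≤
          ((∑ w, (surv L D r H ln d i w).card : ℕ) : ℝ) +
            Δ * ((univ.filter fun v => r < d v).card : ℝ) := by exact_mod_cast h2
        have h4 : (Fintype.card ({j : Fin D // j ≠ i} → T) : ℝ) * Fintype.card T = n := by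
          rw [hn]; exact_mod_cast card_fibres (T := T) i
        have h5 : (Fintype.card ({j : Fin D // j ≠ i} → T) : ℝ) * (β * Δ * Fintype.card T) ≤
            (Fintype.card ({j : Fin D // j ≠ i} → T) : ℝ) * H.card :=
          mul_le_mul_of_nonneg_left hH (Nat.cast_nonneg _)
        have h6 : (Fintype.card ({j : Fin D // j ≠ i} → T) : ℝ) * (β * Δ * Fintype.card T)
            = β * Δ * n := by rw [← h4]; ring
        have h7 : (Δ : ℝ) * ((univ.filter fun v => r < d v).card : ℝ) ≤ Δ * (β / 2 * n) :=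
          mul_le_mul_of_nonneg_left hd (Nat.cast_nonneg _)
        linarith
      have h8 : ∑ _i : Fin D, (β * Δ * n / 2) ≤
          ∑ i : Fin D, ((∑ w, (surv L D r H ln d i w).card : ℕ) : ℝ) :=
        Finset.sum_le_sum fun i _ => h1 i
      rw [Finset.sum_const, Finset.card_univ, Fintype.card_fin, nsmul_eq_mul] at h8
      push_cast at h8 ⊢
      linarith
    set N : ℕ := ∑ i, ∑ w, (surv L D r H ln d i w).card with hN
    have h9 : (1 - x) ^ N ≤ Real.exp (-x * N) := by
      have h10 : 1 - x ≤ Real.exp (-x) := by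
        have := Real.add_one_le_exp (-x)
        linarith
      calc (1 - x) ^ N ≤ (Real.exp (-x)) ^ N := pow_le_pow_left₀ (by linarith) h10 N
        _ = Real.exp (-x * N) := by
          rw [← Real.exp_nat_mul]
          congr 1
          ring
    refine h9.trans (Real.exp_le_exp.mpr ?_)
    have h11 : D * β / (256 * L) * n ≤ x * N := by
      have h12 : x * (D * β * Δ * n / 2) ≤ x * N := mul_le_mul_of_nonneg_left hsum hx0.le
      refine le_trans ?_ h12
      have h13 : (R : ℝ) ^ (L - 1) ≤ 32 * L * Δ := by exact_mod_cast hΔ'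
      have h14 : D * β / (256 * L) * n = 1 / (4 * (32 * L * Δ)) * (D * β * Δ * n / 2) := by
        have : (Δ : ℝ) ≠ 0 := by exact_mod_cast hΔpos.ne'
        field_simp
        ring
      rw [h14, hx]
      apply mul_le_mul_of_nonneg_right _ (by positivity)
      apply one_div_le_one_div_of_le (by positivity)
      linarith
    linarith
  -- union bound
  set good : Finset ((Fin D → T) → Fin (r + 2)) := univ.filter fun d =>
    ((univ.filter (fun v => r < (d v : ℕ))).card : ℝ) ≤ β / 2 * n with hgood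
  have hΩpos : 0 < Fintype.card (Fin D → (Fin D → T) → Fin R) := by
    have : Nonempty (Fin R) := ⟨⟨0, hR0⟩⟩
    exact Fintype.card_pos
  have hunion : ((good.biUnion fun d => failSet L D r R H ln a (fun v => (d v : ℕ))).card : ℝ)
      < Fintype.card (Fin D → (Fin D → T) → Fin R) := by
    have h1 : ((good.biUnion fun d => failSet L D r R H ln a (fun v => (d v : ℕ))).card : ℝ)
        ≤ ∑ d ∈ good, ((failSet L D r R H ln a (fun v => (d v : ℕ))).card : ℝ) := by
      exact_mod_cast Finset.card_biUnion_le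
    have h2 : ∑ d ∈ good, ((failSet L D r R H ln a (fun v => (d v : ℕ))).card : ℝ) ≤
        ∑ _d ∈ good, Real.exp (-(D * β / (256 * L)) * n) *
          Fintype.card (Fin D → (Fin D → T) → Fin R) := by
      apply Finset.sum_le_sum
      intro d hd
      exact key _ (Finset.mem_filter.mp hd).2
    rw [Finset.sum_const, nsmul_eq_mul] at h2
    have h3 : (good.card : ℝ) ≤ ((r : ℝ) + 2) ^ n := by
      have h4 : good.card ≤ (r + 2) ^ n := by
        refine (Finset.card_le_univ _).trans ?_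
        rw [Fintype.card_fun, Fintype.card_fin]
      exact_mod_cast h4
    have h5 : ((r : ℝ) + 2) ^ n * Real.exp (-(D * β / (256 * L)) * n) < 1 := by
      have h6 : ((r : ℝ) + 2) ^ n = Real.exp (Real.log (r + 2) * n) := by
        rw [mul_comm, Real.exp_nat_mul, Real.exp_log (by positivity)]
      rw [h6, ← Real.exp_add, ← Real.exp_zero]
      apply Real.exp_lt_exp.mpr
      have h7 : Real.log (r + 2) < D * β / (256 * L) := by
        rw [lt_div_iff₀ (by positivity)]
        linarith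
      have h8 : (0 : ℝ) < n := by exact_mod_cast hnpos
      nlinarith
    calc ((good.biUnion fun d => failSet L D r R H ln a (fun v => (d v : ℕ))).card : ℝ)
        ≤ (good.card : ℝ) * (Real.exp (-(D * β / (256 * L)) * n) *
          Fintype.card (Fin D → (Fin D → T) → Fin R)) := h1.trans h2
      _ ≤ ((r : ℝ) + 2) ^ n * (Real.exp (-(D * β / (256 * L)) * n) *
          Fintype.card (Fin D → (Fin D → T) → Fin R)) :=
        mul_le_mul_of_nonneg_right h3 (by positivity)
      _ = (((r : ℝ) + 2) ^ n * Real.exp (-(D * β / (256 * L)) * n)) *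
          Fintype.card (Fin D → (Fin D → T) → Fin R) := by ring
      _ < 1 * Fintype.card (Fin D → (Fin D → T) → Fin R) :=
        mul_lt_mul_of_pos_right h5 (by exact_mod_cast hΩpos)
      _ = _ := one_mul _
  have hex : ∃ γ : Fin D → (Fin D → T) → Fin R,
      γ ∉ good.biUnion fun d => failSet L D r R H ln a (fun v => (d v : ℕ)) := by
    by_contra hcon
    push Not at hcon
    have : (good.biUnion fun d => failSet L D r R H ln a (fun v => (d v : ℕ))) = univ :=
      Finset.eq_univ_of_forall hcon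
    rw [this, Finset.card_univ] at hunion
    exact lt_irrefl _ hunion
  obtain ⟨γ, hγ⟩ := hex
  refine ⟨γ, fun c hc => ?_⟩
  -- the truncated weight
  set d : (Fin D → T) → Fin (r + 2) := fun v => ⟨min (c v) (r + 1), by omega⟩ with hd
  have hdc : ∀ v, (r < (d v : ℕ) ↔ r < c v) := by
    intro v
    simp only [hd]
    omega
  have hdg : d ∈ good := by
    rw [hgood, Finset.mem_filter]
    refine ⟨Finset.mem_univ _, ?_⟩
    have : (univ.filter (fun v => r < (d v : ℕ))) = univ.filter (fun v => r < c v) :=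
      Finset.filter_congr fun v _ => hdc v
    rw [this]
    exact hc
  have hnf : γ ∉ failSet L D r R H ln a (fun v => (d v : ℕ)) := by
    intro h
    exact hγ (Finset.mem_biUnion.mpr ⟨d, hdg, h⟩)
  obtain ⟨i, v, ℓ, hℓ, hle, hbal⟩ := not_mem_failSet L D r R H ln a _ γ hnf
  refine ⟨i, v, ℓ, hℓ, fun j j' => ?_⟩
  have hcd : ∀ j, (d (Function.update v i (ln ℓ j)) : ℕ) = c (Function.update v i (ln ℓ j)) := by
    intro j
    have h1 := hle j
    simp only [hd] at h1 ⊢
    omega
  have h2 := hbal j j'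
  rw [hcd, hcd] at h2
  exact h2

end Pool.Agent.Work.MP_f473e4_nt
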