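import Mathlib

set_option autoImplicit false

open Finset

namespace Pool.Agent.Work.MP_f473e4_nt

/-- Disjoint blocks of a given size inside a finite set. -/
theorem blocks_exist (S : Finset ℕ) (d k : ℕ) (hk : k * d ≤ S.card) :
    ∃ D : ℕ → Finset ℕ, (∀ i < k, D i ⊆ S) ∧ (∀ i < k, (D i).card = d) ∧
      ∀ i < k, ∀ i' < k, i ≠ i' → Disjoint (D i) (D i') := by
  induction k with
  | zero => exact ⟨fun _ => ∅, by simp, by simp, by simp⟩
  | succ k ih =>
    obtain ⟨D, h1, h2, h3⟩ := ih (by nlinarith)
    set Un := (range k).biUnion D with hUn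
    have hUnS : Un ⊆ S := by
      intro x hx
      simp only [hUn, mem_biUnion, mem_range] at hx
      obtain ⟨i, hi, hx⟩ := hx
      exact h1 i hi hx
    have hUc : Un.card ≤ k * d := by
      calc Un.card ≤ ∑ i ∈ range k, (D i).card := card_biUnion_le
        _ = ∑ i ∈ range k, d := sum_congr rfl (fun i hi => h2 i (mem_range.1 hi))
        _ = k * d := by simp
    have hc : d ≤ (S \ Un).card := by
      rw [card_sdiff_of_subset hUnS]
      have : (k + 1) * d = k * d + d := by ring
      omega
    obtain ⟨E, hE, hEc⟩ := exists_subset_card_eq hc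
    refine ⟨fun i => if i = k then E else D i, ?_, ?_, ?_⟩
    · intro i hi
      by_cases hik : i = k
      · simp only [hik, if_true]
        exact hE.trans sdiff_subset
      · simp only [hik, if_false]
        exact h1 i (by omega)
    · intro i hi
      by_cases hik : i = k
      · simp only [hik, if_true]
        exact hEc
      · simp only [hik, if_false]
        exact h2 i (by omega)
    · have key : ∀ i < k, Disjoint (D i) E := by
        intro i hi
        rw [Finset.disjoint_left]
        intro x hx hxE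
        have := hE hxE
        simp only [mem_sdiff, hUn, mem_biUnion, mem_range, not_exists, not_and] at this
        exact this.2 i hi hx
      intro i hi i' hi' hne
      by_cases hik : i = k
      · have hik' : i' ≠ k := by omega
        simp only [hik, hik', if_true, if_false]
        exact (key i' (by omega)).symm
      · by_cases hik' : i' = k
        · simp only [hik, hik', if_true, if_false]
          exact key i (by omega)
        · simp only [hik, hik', if_false]
          exact h3 i (by omega) i' (by omega) hne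

/-- R3. number of configurations -/
theorem config_count (L h : ℕ) (hL : 2 ≤ L) (hh : L * L ≤ h) (P1 : Finset ℕ) (hcard : P1.card = 2 * h) :
    (2 * h).choose h * h.choose L * ((h / L).choose L) ^ (L - 1) ≤
      ((P1.powersetCard (h - L) ×ˢ Fintype.piFinset (fun _ : Fin L => P1.powersetCard L)).filter
        (fun x => (∀ j, Disjoint x.1 (x.2 j)) ∧ ∀ j j', j ≠ j' → Disjoint (x.2 j) (x.2 j'))).card := by
  obtain ⟨k, rfl⟩ : ∃ k, L = k + 1 := ⟨L - 1, by omega⟩
  have hex : ∀ B : Finset ℕ, ∃ D : ℕ → Finset ℕ, B ∈ P1.powersetCard h →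
      (∀ i < k, D i ⊆ P1 \ B) ∧ (∀ i < k, (D i).card = h / (k + 1)) ∧
      ∀ i < k, ∀ i' < k, i ≠ i' → Disjoint (D i) (D i') := by
    intro B
    by_cases hB : B ∈ P1.powersetCard h
    · rw [mem_powersetCard] at hB
      have hc : k * (h / (k + 1)) ≤ (P1 \ B).card := by
        rw [card_sdiff_of_subset hB.1, hB.2, hcard]
        have h1 : (k + 1) * (h / (k + 1)) ≤ h := Nat.mul_div_le _ _
        generalize h / (k + 1) = d at h1 ⊢
        have h2 : (k + 1) * d = k * d + d := by ring
        generalize k * d = e at h2 ⊢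
        omega
      obtain ⟨D, h1, h2, h3⟩ := blocks_exist (P1 \ B) (h / (k + 1)) k hc
      exact ⟨D, fun _ => ⟨h1, h2, h3⟩⟩
    · exact ⟨fun _ => ∅, fun h => absurd h hB⟩
  choose D hD using hex
  have hLh : k + 1 ≤ h := by nlinarith
  set S : Finset (Σ _ : Finset ℕ, Finset ℕ × (Fin k → Finset ℕ)) :=
    (P1.powersetCard h).sigma (fun B => (B.powersetCard (k + 1)) ×ˢ
      Fintype.piFinset (fun j : Fin k => (D B j).powersetCard (k + 1))) with hS
  have hScard : S.card = (2 * h).choose h * h.choose (k + 1) * ((h / (k + 1)).choose (k + 1)) ^ k := by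
    rw [hS, card_sigma]
    have : ∀ B ∈ P1.powersetCard h, ((B.powersetCard (k + 1)) ×ˢ
      Fintype.piFinset (fun j : Fin k => (D B j).powersetCard (k + 1))).card
        = h.choose (k + 1) * ((h / (k + 1)).choose (k + 1)) ^ k := by
      intro B hB
      obtain ⟨-, h2, -⟩ := hD B hB
      rw [card_product, Fintype.card_piFinset, card_powersetCard, (mem_powersetCard.1 hB).2]
      congr 1
      rw [prod_congr rfl (g := fun _ => (h / (k + 1)).choose (k + 1))]
      · simp
      · intro j _
        rw [card_powersetCard, h2 j j.2]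
    rw [sum_congr rfl this, sum_const, card_powersetCard, hcard, smul_eq_mul, mul_assoc]
  have hkk : k + 1 - 1 = k := by omega
  rw [hkk, ← hScard]
  apply card_le_card_of_injOn (fun x => (x.1 \ x.2.1, Fin.cons x.2.1 x.2.2))
  · intro x hx
    rw [mem_coe, hS, mem_sigma, mem_product, Fintype.mem_piFinset] at hx
    obtain ⟨hB, hC0, hC⟩ := hx
    obtain ⟨hD1, hD2, hD3⟩ := hD x.1 hB
    rw [mem_powersetCard] at hB hC0
    have hCj : ∀ j : Fin k, x.2.2 j ⊆ D x.1 j := fun j => (mem_powersetCard.1 (hC j)).1
    have hCj' : ∀ j : Fin k, x.2.2 j ⊆ P1 \ x.1 := fun j => (hCj j).trans (hD1 j j.2)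
    have hdB : ∀ j : Fin k, Disjoint x.1 (x.2.2 j) := by
      intro j
      exact disjoint_sdiff.mono_right (hCj' j)
    rw [mem_coe, mem_filter, mem_product, Fintype.mem_piFinset]
    refine ⟨⟨?_, ?_⟩, ?_, ?_⟩
    · show x.1 \ x.2.1 ∈ _
      rw [mem_powersetCard]
      refine ⟨sdiff_subset.trans hB.1, ?_⟩
      rw [card_sdiff_of_subset hC0.1, hB.2, hC0.2]
    · intro j
      show (Fin.cons x.2.1 x.2.2 : Fin (k + 1) → Finset ℕ) j ∈ _
      refine Fin.cases ?_ (fun i => ?_) j
      · rw [Fin.cons_zero, mem_powersetCard]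
        exact ⟨hC0.1.trans hB.1, hC0.2⟩
      · rw [Fin.cons_succ, mem_powersetCard]
        exact ⟨(hCj' i).trans sdiff_subset, (mem_powersetCard.1 (hC i)).2⟩
    · intro j
      show Disjoint (x.1 \ x.2.1) ((Fin.cons x.2.1 x.2.2 : Fin (k + 1) → Finset ℕ) j)
      refine Fin.cases ?_ (fun i => ?_) j
      · rw [Fin.cons_zero]
        exact sdiff_disjoint
      · rw [Fin.cons_succ]
        exact (hdB i).mono_left sdiff_subset
    · intro j j' hne
      show Disjoint ((Fin.cons x.2.1 x.2.2 : Fin (k + 1) → Finset ℕ) j)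
        ((Fin.cons x.2.1 x.2.2 : Fin (k + 1) → Finset ℕ) j')
      revert hne
      refine Fin.cases ?_ (fun i => ?_) j
      · refine Fin.cases ?_ (fun i' => ?_) j'
        · intro hne
          exact absurd rfl hne
        · intro _
          rw [Fin.cons_zero, Fin.cons_succ]
          exact (hdB i').mono_left hC0.1
      · refine Fin.cases ?_ (fun i' => ?_) j'
        · intro _
          rw [Fin.cons_zero, Fin.cons_succ]
          exact ((hdB i).mono_left hC0.1).symm
        · intro hne
          rw [Fin.cons_succ, Fin.cons_succ]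
          refine (hD3 i i.2 i' i'.2 ?_).mono (hCj i) (hCj i')
          intro heq
          exact hne (by rw [Fin.ext heq])
  · intro x hx y hy hxy
    rw [mem_coe, hS, mem_sigma, mem_product, mem_powersetCard, mem_powersetCard] at hx hy
    have h1 : x.1 \ x.2.1 = y.1 \ y.2.1 := congrArg Prod.fst hxy
    have h2 : (Fin.cons x.2.1 x.2.2 : Fin (k + 1) → Finset ℕ) = Fin.cons y.2.1 y.2.2 :=
      congrArg Prod.snd hxy
    have h3 := Fin.cons_inj.1 h2
    obtain ⟨B, C0, C⟩ := x
    obtain ⟨B', C0', C'⟩ := y
    simp only at h1 h3 hx hy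
    obtain ⟨h4, h5⟩ := h3
    subst h4 h5
    have hB : B = B' := by
      rw [← sdiff_union_of_subset hx.2.1.1, h1, sdiff_union_of_subset hy.2.1.1]
    subst hB
    rfl

end Pool.Agent.Work.MP_f473e4_nt
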