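import Mathlib

set_option autoImplicit false

open Finset

namespace Pool.Agent.Work.MP_f473e4_nt

def Lam (L : ℕ) : ℕ := ((4 * L).factorial) ^ L

def goodSet (L U : ℕ) (P1 : Finset ℕ) (C : Fin L → Finset ℕ) : Finset ℕ :=
  open Classical in
  (Icc 1 U).filter (fun u => u % Lam L = 1 ∧ (∀ j : Fin L, ∀ p ∈ P1, (p ∣ u + (j : ℕ) ↔ p ∈ C j)) ∧
     ∀ j : Fin L, Squarefree ((u + (j : ℕ)) / (1 + (j : ℕ))))

/-- A set of naturals in `[1, U]`, all congruent modulo `n`, has at most `U / n + 1` elements. -/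
theorem card_cong_le (U n : ℕ) (hn : 0 < n) (S : Finset ℕ) (hS : S ⊆ Icc 1 U)
    (hc : ∀ u ∈ S, ∀ u' ∈ S, u ≤ u' → n ∣ u' - u) : (S.card : ℝ) ≤ (U : ℝ) / n + 1 := by
  have h1 : S.card ≤ (range (U / n + 1)).card := by
    apply card_le_card_of_injOn (fun u => u / n)
    · intro u hu
      have := mem_Icc.1 (hS hu)
      simp only [coe_range, Set.mem_Iio]
      exact Nat.lt_succ_of_le (Nat.div_le_div_right this.2)
    · have key : ∀ u ∈ S, ∀ u' ∈ S, u ≤ u' → u / n = u' / n → u = u' := by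
        intro u hu u' hu' hle heq
        obtain ⟨c, hc'⟩ := hc u hu u' hu' hle
        have h2 : u' = u + n * c := by omega
        rw [h2, Nat.add_mul_div_left _ _ hn] at heq
        have : c = 0 := by omega
        rw [h2, this]
        simp
      intro u hu u' hu' heq
      rcases le_total u u' with h | h
      · exact key u hu u' hu' h heq
      · exact (key u' hu' u hu h heq.symm).symm
  rw [card_range] at h1
  have h2 : ((U / n : ℕ) : ℝ) ≤ (U : ℝ) / n := Nat.cast_div_le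
  have h3 : (S.card : ℝ) ≤ ((U / n : ℕ) : ℝ) + 1 := by exact_mod_cast h1
  linarith

/-- Lower bound for a full residue class. -/
theorem card_class_ge (U n r : ℕ) (hn : 0 < n) (S : Finset ℕ)
    (hr : r < n) (hS : ∀ k, r + n * k ≤ U → r + n * k ∈ S) :
    (U : ℝ) / n - 1 ≤ S.card := by
  have h1 : (range (U / n)).card ≤ S.card := by
    apply card_le_card_of_injOn (fun k => r + n * k)
    · intro k hk
      simp only [coe_range, Set.mem_Iio] at hk
      apply hS
      have h2 : n * (k + 1) ≤ U := (Nat.mul_le_mul_left n hk).trans (Nat.mul_div_le U n)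
      nlinarith
    · intro k _ k' _ h
      have : n * k = n * k' := by
        simp only at h
        omega
      exact Nat.eq_of_mul_eq_mul_left hn this
  rw [card_range] at h1
  have h2 : (U : ℝ) / n < ((U / n : ℕ) : ℝ) + 1 := by
    rw [div_lt_iff₀ (by exact_mod_cast hn)]
    have : U < (U / n + 1) * n := by
      rw [mul_comm]
      exact Nat.lt_mul_div_succ U hn
    exact_mod_cast this
  have h3 : ((U / n : ℕ) : ℝ) ≤ S.card := by exact_mod_cast h1
  linarith

/-- The primes used are coprime to `Lam L`. -/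
theorem coprime_Lam (L p : ℕ) (hp : p.Prime) (h : 4 * L < p) : Nat.Coprime (Lam L) p := by
  unfold Lam
  apply Nat.Coprime.pow_left
  rw [Nat.coprime_comm, hp.coprime_iff_not_dvd, hp.dvd_factorial]
  omega

theorem Lam_pos (L : ℕ) : 0 < Lam L := by
  unfold Lam
  exact pow_pos (Nat.factorial_pos _) _

theorem mul_dvd_Lam (L a b : ℕ) (hL : 2 ≤ L) (ha : 0 < a) (ha' : a ≤ 4 * L) (hb : 0 < b)
    (hb' : b ≤ 4 * L) : a * b ∣ Lam L := by
  unfold Lam
  have h1 : a ∣ (4 * L).factorial := Nat.dvd_factorial ha ha'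
  have h2 : b ∣ (4 * L).factorial := Nat.dvd_factorial hb hb'
  calc a * b ∣ (4 * L).factorial * (4 * L).factorial := mul_dvd_mul h1 h2
    _ = (4 * L).factorial ^ 2 := by ring
    _ ∣ (4 * L).factorial ^ L := pow_dvd_pow _ hL

theorem one_lt_Lam (L : ℕ) (hL : 2 ≤ L) : 1 < Lam L := by
  have h := Nat.le_of_dvd (Lam_pos L) (mul_dvd_Lam L 2 1 hL (by omega) (by omega) (by omega) (by omega))
  omega

/-- existence of the residue class -/
theorem class_exists (L : ℕ) (hL : 2 ≤ L) (C : Fin L → Finset ℕ)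
    (hC : ∀ j, ∀ p ∈ C j, p.Prime ∧ 4 * L < p)
    (hCd : ∀ j j', j ≠ j' → Disjoint (C j) (C j')) :
    ∃ r : ℕ, r < Lam L * ∏ p ∈ univ.biUnion C, p ∧ r % Lam L = 1 ∧
      ∀ j, ∀ p ∈ C j, p ∣ r + (j : ℕ) := by
  set S := univ.biUnion C with hS
  have : Nonempty (Fin L) := ⟨⟨0, by omega⟩⟩
  have hSp : ∀ p ∈ S, p.Prime ∧ 4 * L < p := by
    intro p hp
    rw [hS, mem_biUnion] at hp
    obtain ⟨j, _, hj⟩ := hp
    exact hC j p hj
  have hex : ∀ p, ∃ j : Fin L, p ∈ S → p ∈ C j := by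
    intro p
    by_cases hp : p ∈ S
    · have h := hp
      rw [hS, mem_biUnion] at h
      obtain ⟨j, _, hj⟩ := h
      exact ⟨j, fun _ => hj⟩
    · exact ⟨Classical.arbitrary _, fun h => absurd h hp⟩
  choose jj hjj using hex
  have hjjC : ∀ j, ∀ p ∈ C j, jj p = j := by
    intro j p hp
    by_contra hne
    have hpS : p ∈ S := by
      rw [hS, mem_biUnion]
      exact ⟨j, mem_univ _, hp⟩
    exact Finset.disjoint_left.1 (hCd _ _ hne) (hjj p hpS) hp
  have hne0 : ∀ i ∈ S, (id i : ℕ) ≠ 0 := fun i hi => (hSp i hi).1.ne_zero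
  have hpw : (S : Set ℕ).Pairwise (Function.onFun Nat.Coprime id) := by
    intro p hp q hq hne
    exact (Nat.coprime_primes (hSp p hp).1 (hSp q hq).1).2 hne
  obtain ⟨k, hk⟩ := Nat.chineseRemainderOfFinset (fun p => p - (jj p : ℕ)) id S hne0 hpw
  have hcop : Nat.Coprime (Lam L) (∏ p ∈ S, p) :=
    Nat.Coprime.prod_right (fun p hp => coprime_Lam L p (hSp p hp).1 (hSp p hp).2)
  obtain ⟨r, hr1, hr2⟩ := Nat.chineseRemainder hcop 1 k
  have hQ : 0 < ∏ p ∈ S, p := prod_pos (fun p hp => (hSp p hp).1.pos)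
  have hm0 : 0 < Lam L * ∏ p ∈ S, p := Nat.mul_pos (Lam_pos L) hQ
  refine ⟨r % (Lam L * ∏ p ∈ S, p), Nat.mod_lt _ hm0, ?_, ?_⟩
  · rw [Nat.mod_mul_right_mod]
    have : r % Lam L = 1 % Lam L := hr1
    rw [this, Nat.mod_eq_of_lt (one_lt_Lam L hL)]
  · intro j p hp
    have hpS : p ∈ S := by
      rw [hS, mem_biUnion]
      exact ⟨j, mem_univ _, hp⟩
    have hpQ : p ∣ Lam L * ∏ p ∈ S, p := (dvd_prod_of_mem _ hpS).mul_left _
    have h1 : r % (Lam L * ∏ p ∈ S, p) ≡ r [MOD p] := by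
      have : r % (Lam L * ∏ p ∈ S, p) ≡ r [MOD (Lam L * ∏ p ∈ S, p)] := Nat.mod_modEq _ _
      exact this.of_dvd hpQ
    have h2 : r ≡ k [MOD p] := hr2.of_dvd (dvd_prod_of_mem _ hpS)
    have h3 : k ≡ p - (jj p : ℕ) [MOD p] := hk p hpS
    rw [hjjC j p hp] at h3
    have h4 : r % (Lam L * ∏ p ∈ S, p) + (j : ℕ) ≡ p - (j : ℕ) + (j : ℕ) [MOD p] :=
      ((h1.trans h2).trans h3).add_right _
    have hjp : (j : ℕ) ≤ p := by
      have := (hSp p hpS).2
      have := j.2
      omega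
    rw [Nat.sub_add_cancel hjp] at h4
    have h5 : p ≡ 0 [MOD p] := by
      simp [Nat.ModEq]
    exact (Nat.modEq_zero_iff_dvd).1 (h4.trans h5)

/-- R2 -/
theorem goodSet_card (L Y h : ℕ) (hL : 2 ≤ L) (P1 : Finset ℕ)
    (hP1 : ∀ p ∈ P1, p.Prime ∧ Y < p ∧ p ≤ 4 * Y) (hcard : P1.card ≤ 2 * h)
    (hY : 16 * L * (2 * h + L) ≤ Y) (C : Fin L → Finset ℕ) (hC : ∀ j, C j ⊆ P1)
    (hCd : ∀ j j', j ≠ j' → Disjoint (C j) (C j')) (hCc : ∀ j, (C j).card = L) :
    (Lam L * (4 * Y) ^ (L * L)) ^ 3 ≤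
      2 * (goodSet L ((Lam L * (4 * Y) ^ (L * L)) ^ 4) P1 C).card := by
  classical
  set m := Lam L * (4 * Y) ^ (L * L) with hm
  set U := m ^ 4 with hU
  have hYL : 16 * (L * L) ≤ Y := by nlinarith
  have hYL' : 16 * L * (2 * h) + 16 * (L * L) ≤ Y := by nlinarith
  have hLY : 4 * L < Y := by nlinarith
  have hYpos : 0 < Y := by omega
  have hP4 : ∀ p ∈ P1, 4 * L < p := fun p hp => hLY.trans (hP1 p hp).2.1
  set S := univ.biUnion C with hS
  have hmemS : ∀ j, ∀ p ∈ C j, p ∈ S := by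
    intro j p hp
    rw [hS, mem_biUnion]
    exact ⟨j, mem_univ _, hp⟩
  have hSP : S ⊆ P1 := by
    intro p hp
    rw [hS, mem_biUnion] at hp
    obtain ⟨j, _, hj⟩ := hp
    exact hC j hj
  have hScard : S.card = L * L := by
    rw [hS, card_biUnion (fun j _ j' _ hne => hCd j j' hne), sum_congr rfl (fun j _ => hCc j)]
    simp
  set Q := ∏ p ∈ S, p with hQ
  have hQpos : 0 < Q := prod_pos (fun p hp => (hP1 p (hSP hp)).1.pos)
  have hQle : Q ≤ (4 * Y) ^ (L * L) := by
    rw [← hScard, hQ]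
    exact prod_le_pow_card _ _ _ (fun p hp => (hP1 p (hSP hp)).2.2)
  set m0 := Lam L * Q with hm0
  have hm0pos : 0 < m0 := Nat.mul_pos (Lam_pos L) hQpos
  have hm0m : m0 ≤ m := Nat.mul_le_mul_left _ hQle
  have hcopLQ : Nat.Coprime (Lam L) Q :=
    Nat.Coprime.prod_right (fun p hp => coprime_Lam L p (hP1 p (hSP hp)).1 (hP4 p (hSP hp)))
  obtain ⟨r, hrlt, hr1, hrC⟩ := class_exists L hL C
    (fun j p hp => ⟨(hP1 p (hC j hp)).1, hP4 p (hC j hp)⟩) hCd
  -- the base set
  set Base := (Icc 1 U).filter (fun u => u % Lam L = 1 ∧ ∀ j, ∀ p ∈ C j, p ∣ u + (j : ℕ)) with hBase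
  have hBaseIcc : Base ⊆ Icc 1 U := filter_subset _ _
  have hrpos : 1 ≤ r := by
    rcases Nat.eq_zero_or_pos r with h0 | h0
    · rw [h0] at hr1
      simp at hr1
    · exact h0
  have hBasege : (U : ℝ) / m0 - 1 ≤ Base.card := by
    apply card_class_ge U m0 r hm0pos Base hrlt
    intro k hk
    rw [hBase, mem_filter, mem_Icc]
    refine ⟨⟨by omega, hk⟩, ?_, ?_⟩
    · rw [hm0, mul_assoc, Nat.add_mul_mod_self_left, hr1]
    · intro j p hp
      have h1 : p ∣ m0 * k := ((dvd_prod_of_mem _ (hmemS j p hp)).mul_left _).mul_right _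
      have h2 : r + m0 * k + (j : ℕ) = (r + (j : ℕ)) + m0 * k := by ring
      rw [h2]
      exact dvd_add (hrC j p hp) h1
  -- congruences inside the base set
  have hcongL : ∀ u ∈ Base, ∀ u' ∈ Base, u ≤ u' → Lam L ∣ u' - u := by
    intro u hu u' hu' hle
    rw [hBase, mem_filter] at hu hu'
    have : u ≡ u' [MOD Lam L] := by
      unfold Nat.ModEq
      rw [hu.2.1, hu'.2.1]
    exact (Nat.modEq_iff_dvd' hle).1 this
  have hcongp : ∀ u ∈ Base, ∀ u' ∈ Base, u ≤ u' → ∀ p ∈ S, p ∣ u' - u := by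
    intro u hu u' hu' hle p hp
    rw [hBase, mem_filter] at hu hu'
    rw [hS, mem_biUnion] at hp
    obtain ⟨j, _, hj⟩ := hp
    have h1 := hu.2.2 j p hj
    have h2 := hu'.2.2 j p hj
    have h3 := Nat.dvd_sub h2 h1
    rwa [show u' + (j : ℕ) - (u + (j : ℕ)) = u' - u by omega] at h3
  have hcong : ∀ u ∈ Base, ∀ u' ∈ Base, u ≤ u' → m0 ∣ u' - u := by
    intro u hu u' hu' hle
    apply Nat.Coprime.mul_dvd_of_dvd_of_dvd hcopLQ (hcongL u hu u' hu' hle)
    apply Finset.prod_primes_dvd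
    · intro p hp
      exact (hP1 p (hSP hp)).1.prime
    · intro p hp
      exact hcongp u hu u' hu' hle p hp
  -- choice of the index of p in S
  have : Nonempty (Fin L) := ⟨⟨0, by omega⟩⟩
  have hex : ∀ p, ∃ j : Fin L, p ∈ S → p ∈ C j := by
    intro p
    by_cases hp : p ∈ S
    · have h := hp
      rw [hS, mem_biUnion] at h
      obtain ⟨j, _, hj⟩ := h
      exact ⟨j, fun _ => hj⟩
    · exact ⟨Classical.arbitrary _, fun h => absurd h hp⟩
  choose jj hjj using hex
  -- bad sets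
  set BadA : ℕ × Fin L → Finset ℕ := fun x => Base.filter (fun u => x.1 ∣ u + (x.2 : ℕ)) with hBadA
  set BadB : ℕ → Finset ℕ := fun p => Base.filter (fun u => p ^ 2 ∣ u + (jj p : ℕ)) with hBadB
  set BadC : ℕ × Fin L → Finset ℕ := fun x => Base.filter (fun u => x.1 ^ 2 ∣ u + (x.2 : ℕ)) with hBadC
  set IA : Finset (ℕ × Fin L) := (P1 \ S) ×ˢ univ with hIA
  set X := m ^ 2 + 1 with hX
  set IC : Finset (ℕ × Fin L) := (((Ioc (4 * L) X).filter Nat.Prime) \ S) ×ˢ univ with hIC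
  have hcover : Base ⊆ goodSet L U P1 C ∪ (IA.biUnion BadA ∪ (S.biUnion BadB ∪ IC.biUnion BadC)) := by
    intro u hu
    by_contra hnot
    simp only [mem_union, not_or] at hnot
    obtain ⟨hg, ha, hb, hc⟩ := hnot
    apply hg
    have hu' := hu
    rw [hBase, mem_filter, mem_Icc] at hu'
    obtain ⟨⟨hu1, huU⟩, humod, hup⟩ := hu'
    have hsame : ∀ j j' : Fin L, ∀ p ∈ C j', p ∣ u + (j : ℕ) → j = j' := by
      intro j j' p hp hd
      have h1 := hup j' p hp
      have hpL : 4 * L < p := hP4 p (hC j' hp)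
      have hj := j.2
      have hj' := j'.2
      apply Fin.ext
      rcases le_total (j : ℕ) (j' : ℕ) with hle | hle
      · have h2 := Nat.dvd_sub h1 hd
        rw [show u + (j' : ℕ) - (u + (j : ℕ)) = (j' : ℕ) - (j : ℕ) by omega] at h2
        have h3 := Nat.eq_zero_of_dvd_of_lt h2 (by omega)
        omega
      · have h2 := Nat.dvd_sub hd h1
        rw [show u + (j : ℕ) - (u + (j' : ℕ)) = (j : ℕ) - (j' : ℕ) by omega] at h2
        have h3 := Nat.eq_zero_of_dvd_of_lt h2 (by omega)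
        omega
    unfold goodSet
    rw [mem_filter, mem_Icc]
    refine ⟨⟨hu1, huU⟩, humod, ?_, ?_⟩
    · intro j p hp
      refine ⟨fun hd => ?_, fun hd => hup j p hd⟩
      by_cases hpS : p ∈ S
      · have h1 := hjj p hpS
        rw [hsame j (jj p) p h1 hd]
        exact h1
      · exfalso
        apply ha
        rw [mem_biUnion]
        refine ⟨(p, j), ?_, ?_⟩
        · rw [hIA, mem_product, mem_sdiff]
          exact ⟨⟨hp, hpS⟩, mem_univ _⟩
        · rw [hBadA]
          exact mem_filter.2 ⟨hu, hd⟩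
    · intro j
      have hjL := j.2
      -- structure of u + j
      have hujdvd : (1 + (j : ℕ)) ∣ u + (j : ℕ) := by
        have h1 : (1 + (j : ℕ)) * 1 ∣ Lam L := mul_dvd_Lam L _ 1 hL (by omega) (by omega) (by omega) (by omega)
        have h2 : u = Lam L * (u / Lam L) + 1 := by
          conv_lhs => rw [← Nat.div_add_mod u (Lam L), humod]
        rw [h2, add_assoc]
        exact dvd_add (((dvd_mul_right _ _).trans h1).mul_right _) (dvd_refl _)
      rw [Nat.squarefree_iff_prime_squarefree]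
      intro q hq hqq
      have hqd : (1 + (j : ℕ)) * (q * q) ∣ u + (j : ℕ) := by
        obtain ⟨c, hc'⟩ := hujdvd
        rw [hc', Nat.mul_div_cancel_left _ (by omega : 0 < 1 + (j : ℕ))] at hqq
        rw [hc']
        exact mul_dvd_mul_left _ hqq
      have hq2 : q ^ 2 ∣ u + (j : ℕ) := by
        rw [pow_two]
        exact (dvd_mul_left _ _).trans hqd
      by_cases hq4 : q ≤ 4 * L
      · have h1 : (1 + (j : ℕ)) * q ∣ Lam L := mul_dvd_Lam L _ q hL (by omega) (by omega) hq.pos hq4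
        have h2 : (1 + (j : ℕ)) * q ∣ u + (j : ℕ) := by
          refine Dvd.dvd.trans ?_ hqd
          exact mul_dvd_mul_left _ (dvd_mul_right _ _)
        have h3 : u = Lam L * (u / Lam L) + 1 := by
          conv_lhs => rw [← Nat.div_add_mod u (Lam L), humod]
        rw [h3, add_assoc] at h2
        have h4 : (1 + (j : ℕ)) * q ∣ 1 + (j : ℕ) := (Nat.dvd_add_right (h1.mul_right _)).1 h2
        have h5 := Nat.le_of_dvd (by omega) h4
        have h6 := hq.two_le
        nlinarith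
      · by_cases hqS : q ∈ S
        · apply hb
          rw [mem_biUnion]
          refine ⟨q, hqS, ?_⟩
          have h1 := hjj q hqS
          have h2 : j = jj q := hsame j (jj q) q h1 (by
            refine Dvd.dvd.trans ?_ hq2
            exact dvd_pow_self _ (by norm_num))
          rw [hBadB]
          refine mem_filter.2 ⟨hu, ?_⟩
          rw [← h2]
          exact hq2
        · apply hc
          rw [mem_biUnion]
          refine ⟨(q, j), ?_, ?_⟩
          · rw [hIC, mem_product, mem_sdiff, mem_filter, mem_Ioc]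
            refine ⟨⟨⟨⟨by omega, ?_⟩, hq⟩, hqS⟩, mem_univ _⟩
            by_contra hqX
            have h1 := Nat.le_of_dvd (by omega) hq2
            have hq3 : m ^ 2 + 2 ≤ q := by omega
            have h2 : (m ^ 2 + 2) ^ 2 ≤ q ^ 2 := Nat.pow_le_pow_left hq3 2
            have h3 : q ^ 2 ≤ m ^ 4 + L := by omega
            have h4 : L ≤ m := by
              have : 1 ≤ Lam L := Lam_pos L
              have h5 : (4 * Y) ^ 1 ≤ (4 * Y) ^ (L * L) := Nat.pow_le_pow_right (by omega) (by nlinarith)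
              rw [hm]
              nlinarith
            nlinarith
          · rw [hBadC]
            exact mem_filter.2 ⟨hu, hq2⟩
  -- sizes
  have hA1 : ∀ x ∈ IA, ((BadA x).card : ℝ) ≤ (U : ℝ) / m0 / Y + 1 := by
    intro x hx
    rw [hIA, mem_product, mem_sdiff] at hx
    have hxp := hP1 x.1 hx.1.1
    have hcop : Nat.Coprime m0 x.1 := by
      rw [hm0]
      refine Nat.Coprime.mul_left (coprime_Lam L x.1 hxp.1 (hP4 _ hx.1.1)) ?_
      refine Nat.Coprime.prod_left (fun p hp => ?_)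
      refine (Nat.coprime_primes (hP1 p (hSP hp)).1 hxp.1).2 ?_
      rintro rfl
      exact hx.1.2 hp
    have h1 := card_cong_le U (m0 * x.1) (Nat.mul_pos hm0pos hxp.1.pos) (BadA x)
      ((filter_subset _ _).trans hBaseIcc) (by
        intro u hu u' hu' hle
        rw [hBadA, mem_filter] at hu hu'
        apply Nat.Coprime.mul_dvd_of_dvd_of_dvd hcop (hcong u hu.1 u' hu'.1 hle)
        have h3 := Nat.dvd_sub hu'.2 hu.2
        rwa [show u' + (x.2 : ℕ) - (u + (x.2 : ℕ)) = u' - u by omega] at h3)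
    refine h1.trans ?_
    have h2 : (U : ℝ) / ((m0 * x.1 : ℕ) : ℝ) ≤ (U : ℝ) / m0 / Y := by
      rw [div_div]
      push_cast
      have hx1 : (Y : ℝ) ≤ x.1 := by exact_mod_cast hxp.2.1.le
      have hm0' : (0 : ℝ) < m0 := by exact_mod_cast hm0pos
      have hY' : (0 : ℝ) < Y := by exact_mod_cast hYpos
      gcongr
    linarith
  have hB1 : ∀ p ∈ S, ((BadB p).card : ℝ) ≤ (U : ℝ) / m0 / Y + 1 := by
    intro p hp
    have hxp := hP1 p (hSP hp)
    have h1 := card_cong_le U (m0 * p) (Nat.mul_pos hm0pos hxp.1.pos) (BadB p)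
      ((filter_subset _ _).trans hBaseIcc) (by
        intro u hu u' hu' hle
        rw [hBadB, mem_filter] at hu hu'
        have h3 := Nat.dvd_sub hu'.2 hu.2
        rw [show u' + (jj p : ℕ) - (u + (jj p : ℕ)) = u' - u by omega] at h3
        have hQe : Q = p * ∏ x ∈ S.erase p, x := by
          rw [hQ, mul_prod_erase S (fun x => x) hp]
        set Q' := ∏ x ∈ S.erase p, x with hQ'
        have h4 : m0 * p = (Lam L * Q') * p ^ 2 := by
          rw [hm0, hQe]
          ring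
        rw [h4]
        apply Nat.Coprime.mul_dvd_of_dvd_of_dvd
        · apply Nat.Coprime.pow_right
          refine Nat.Coprime.mul_left (coprime_Lam L p hxp.1 (hP4 _ (hSP hp))) ?_
          refine Nat.Coprime.prod_left (fun p' hp' => ?_)
          rw [mem_erase] at hp'
          exact (Nat.coprime_primes (hP1 p' (hSP hp'.2)).1 hxp.1).2 hp'.1
        · refine Dvd.dvd.trans ?_ (hcong u hu.1 u' hu'.1 hle)
          rw [hm0, hQe]
          exact mul_dvd_mul_left _ (dvd_mul_left _ _)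
        · exact h3)
    refine h1.trans ?_
    have h2 : (U : ℝ) / ((m0 * p : ℕ) : ℝ) ≤ (U : ℝ) / m0 / Y := by
      rw [div_div]
      push_cast
      have hx1 : (Y : ℝ) ≤ p := by exact_mod_cast hxp.2.1.le
      have hm0' : (0 : ℝ) < m0 := by exact_mod_cast hm0pos
      have hY' : (0 : ℝ) < Y := by exact_mod_cast hYpos
      gcongr
    linarith
  have hC1 : ∀ x ∈ IC, ((BadC x).card : ℝ) ≤ (U : ℝ) / m0 * ((x.1 : ℝ) ^ 2)⁻¹ + 1 := by
    intro x hx
    rw [hIC, mem_product, mem_sdiff, mem_filter, mem_Ioc] at hx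
    obtain ⟨⟨⟨⟨hx1, hx2⟩, hxp⟩, hxS⟩, -⟩ := hx
    have hcop : Nat.Coprime m0 (x.1 ^ 2) := by
      rw [hm0]
      apply Nat.Coprime.pow_right
      refine Nat.Coprime.mul_left (coprime_Lam L x.1 hxp hx1) ?_
      refine Nat.Coprime.prod_left (fun p hp => ?_)
      refine (Nat.coprime_primes (hP1 p (hSP hp)).1 hxp).2 ?_
      rintro rfl
      exact hxS hp
    have h1 := card_cong_le U (m0 * x.1 ^ 2) (Nat.mul_pos hm0pos (pow_pos hxp.pos 2)) (BadC x)
      ((filter_subset _ _).trans hBaseIcc) (by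
        intro u hu u' hu' hle
        rw [hBadC, mem_filter] at hu hu'
        apply Nat.Coprime.mul_dvd_of_dvd_of_dvd hcop (hcong u hu.1 u' hu'.1 hle)
        have h3 := Nat.dvd_sub hu'.2 hu.2
        rwa [show u' + (x.2 : ℕ) - (u + (x.2 : ℕ)) = u' - u by omega] at h3)
    refine h1.trans (le_of_eq ?_)
    push_cast
    rw [div_mul_eq_div_div, div_eq_mul_inv ((U : ℝ) / m0)]
  -- total
  set T : ℝ := (U : ℝ) / m0 with hT
  have hT0 : 0 ≤ T := by positivity
  have hAtot : ((IA.biUnion BadA).card : ℝ) ≤ (2 * h * L) * (T / Y + 1) := by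
    have h1 : ((IA.biUnion BadA).card : ℝ) ≤ ∑ x ∈ IA, ((BadA x).card : ℝ) := by
      exact_mod_cast card_biUnion_le
    have h2 : ∑ x ∈ IA, ((BadA x).card : ℝ) ≤ IA.card * (T / Y + 1) := by
      rw [← nsmul_eq_mul]
      exact sum_le_card_nsmul _ _ _ hA1
    have h3 : (IA.card : ℝ) ≤ 2 * h * L := by
      rw [hIA, card_product, card_univ, Fintype.card_fin]
      have : (P1 \ S).card ≤ 2 * h := (card_le_card sdiff_subset).trans hcard
      have h4 : (P1 \ S).card * L ≤ 2 * h * L := Nat.mul_le_mul_right _ this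
      exact_mod_cast h4
    have h4 : 0 ≤ T / Y + 1 := by positivity
    exact h1.trans (h2.trans (mul_le_mul_of_nonneg_right h3 h4))
  have hBtot : ((S.biUnion BadB).card : ℝ) ≤ (L * L) * (T / Y + 1) := by
    have h1 : ((S.biUnion BadB).card : ℝ) ≤ ∑ x ∈ S, ((BadB x).card : ℝ) := by
      exact_mod_cast card_biUnion_le
    have h2 : ∑ x ∈ S, ((BadB x).card : ℝ) ≤ S.card * (T / Y + 1) := by
      rw [← nsmul_eq_mul]
      exact sum_le_card_nsmul _ _ _ hB1
    rw [hScard] at h2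
    push_cast at h2
    exact h1.trans h2
  have hCtot : ((IC.biUnion BadC).card : ℝ) ≤ T / 4 + L * X := by
    have h1 : ((IC.biUnion BadC).card : ℝ) ≤ ∑ x ∈ IC, ((BadC x).card : ℝ) := by
      exact_mod_cast card_biUnion_le
    have h2 : ∑ x ∈ IC, ((BadC x).card : ℝ) ≤ ∑ x ∈ IC, (T * ((x.1 : ℝ) ^ 2)⁻¹ + 1) :=
      sum_le_sum hC1
    have h3 : ∑ x ∈ IC, (T * ((x.1 : ℝ) ^ 2)⁻¹ + 1)
        ≤ ∑ x ∈ (Ioc (4 * L) X) ×ˢ (univ : Finset (Fin L)), (T * ((x.1 : ℝ) ^ 2)⁻¹ + 1) := by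
      apply sum_le_sum_of_subset_of_nonneg
      · rw [hIC]
        exact product_subset_product_left (sdiff_subset.trans (filter_subset _ _))
      · intro x _ _
        positivity
    have h4 : ∑ x ∈ (Ioc (4 * L) X) ×ˢ (univ : Finset (Fin L)), (T * ((x.1 : ℝ) ^ 2)⁻¹ + 1)
        = L * (T * ∑ i ∈ Ioc (4 * L) X, ((i : ℝ) ^ 2)⁻¹ + (Ioc (4 * L) X).card) := by
      rw [sum_product, mul_sum, ← nsmul_eq_mul]
      simp only [sum_const, card_univ, Fintype.card_fin, nsmul_eq_mul]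
      rw [← mul_sum, sum_add_distrib]
      simp
    rw [h4] at h3
    have hLpos : (0 : ℝ) < L := by
      have : 0 < L := by omega
      exact_mod_cast this
    have h5 : ((Ioc (4 * L) X).card : ℝ) ≤ X := by
      rw [Nat.card_Ioc]
      exact_mod_cast Nat.sub_le _ _
    have h6 : ∑ i ∈ Ioc (4 * L) X, ((i : ℝ) ^ 2)⁻¹ ≤ 1 / (4 * L) := by
      rcases le_total (4 * L) X with hle | hle
      · have h7 := sum_Ioc_inv_sq_le_sub (α := ℝ) (k := 4 * L) (n := X) (by omega) hle
        refine h7.trans ?_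
        push_cast
        have : (0 : ℝ) ≤ ((m : ℝ) ^ 2 + 1)⁻¹ := by positivity
        have h8 : (0 : ℝ) ≤ (X : ℝ)⁻¹ := by positivity
        have h9 : ((4 : ℝ) * L)⁻¹ = 1 / (4 * L) := by rw [one_div]
        linarith
      · rw [Ioc_eq_empty_of_le hle, sum_empty]
        positivity
    calc ((IC.biUnion BadC).card : ℝ) ≤ L * (T * ∑ i ∈ Ioc (4 * L) X, ((i : ℝ) ^ 2)⁻¹ + (Ioc (4 * L) X).card) :=
          h1.trans (h2.trans h3)
      _ ≤ L * (T * (1 / (4 * L)) + X) := by gcongr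
      _ = T / 4 + L * X := by
          field_simp
  have hBle : (Base.card : ℝ) ≤ (goodSet L U P1 C).card + ((IA.biUnion BadA).card +
      ((S.biUnion BadB).card + (IC.biUnion BadC).card)) := by
    have h1 := card_le_card hcover
    have h2 := (card_union_le (goodSet L U P1 C) (IA.biUnion BadA ∪ (S.biUnion BadB ∪ IC.biUnion BadC)))
    have h3 := card_union_le (IA.biUnion BadA) (S.biUnion BadB ∪ IC.biUnion BadC)
    have h4 := card_union_le (S.biUnion BadB) (IC.biUnion BadC)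
    have h5 : Base.card ≤ (goodSet L U P1 C).card + ((IA.biUnion BadA).card +
      ((S.biUnion BadB).card + (IC.biUnion BadC).card)) := by omega
    exact_mod_cast h5
  -- numerics
  have hTm : (m : ℝ) ^ 3 ≤ T := by
    rw [hT, le_div_iff₀ (by exact_mod_cast hm0pos)]
    have h1 : (m0 : ℝ) ≤ m := by exact_mod_cast hm0m
    have h2 : (U : ℝ) = (m : ℝ) ^ 3 * m := by
      rw [hU]
      push_cast
      ring
    rw [h2]
    have : (0 : ℝ) ≤ (m : ℝ) ^ 3 := by positivity
    exact mul_le_mul_of_nonneg_left h1 this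
  have hmY : 4 * Y ≤ m := by
    have : 1 ≤ Lam L := Lam_pos L
    have h5 : (4 * Y) ^ 1 ≤ (4 * Y) ^ (L * L) := Nat.pow_le_pow_right (by omega) (by nlinarith)
    rw [hm]
    nlinarith
  have hmY' : 4 * (Y : ℝ) ≤ m := by exact_mod_cast hmY
  have hYL2 : 16 * ((L : ℝ) * L) ≤ Y := by exact_mod_cast hYL
  have hYL3 : 16 * (L : ℝ) * (2 * h) + 16 * (L * L) ≤ Y := by exact_mod_cast hYL'
  have hL2 : (2 : ℝ) ≤ L := by exact_mod_cast hL
  have hYposR : (0 : ℝ) < Y := by exact_mod_cast hYpos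
  have hXR : (X : ℝ) = (m : ℝ) ^ 2 + 1 := by
    rw [hX]
    push_cast
    ring
  have hAB : ((2 * h * L : ℝ) + L * L) * (T / Y + 1) ≤ T / 16 + Y / 16 := by
    have h1 : (2 * h * L : ℝ) + L * L ≤ Y / 16 := by linarith
    have h2 : 0 ≤ T / Y + 1 := by positivity
    refine (mul_le_mul_of_nonneg_right h1 h2).trans (le_of_eq ?_)
    field_simp
  have hgoal : (m : ℝ) ^ 3 ≤ 2 * ((goodSet L U P1 C).card : ℝ) := by
    rw [hXR] at hCtot
    have h1 : T - 1 ≤ ((goodSet L U P1 C).card : ℝ) + (T / 16 + Y / 16) + (T / 4 + L * ((m : ℝ) ^ 2 + 1)) := by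
      have h2 : ((2 * h * L : ℝ) + L * L) * (T / Y + 1)
        = (2 * h * L) * (T / Y + 1) + (L * L) * (T / Y + 1) := by ring
      linarith
    have hLm : (L : ℝ) ≤ m / 128 := by nlinarith
    have hm256 : (256 : ℝ) ≤ m := by nlinarith
    have h3 : (L : ℝ) * ((m : ℝ) ^ 2 + 1) ≤ m / 128 * ((m : ℝ) ^ 2 + 1) :=
      mul_le_mul_of_nonneg_right hLm (by positivity)
    have h4 : (m : ℝ) ≤ m ^ 3 / 65536 := by nlinarith [sq_nonneg ((m : ℝ) - 256), sq_nonneg (m : ℝ)]
    nlinarith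
  exact_mod_cast hgoal

end Pool.Agent.Work.MP_f473e4_nt
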