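import Mathlib

set_option autoImplicit false

open Finset Filter Asymptotics

namespace Pool.Agent.Work.MP_f473e4_nt

theorem primes_supply_aux1 : ∀ᶠ y : ℝ in atTop,
    Real.log (4 * y + 1) + 2 * √(4 * y) * Real.log (4 * y) ≤ (2 * Real.log 2 - 1) * y := by
  have hl2 : (0.6931471803 : ℝ) < Real.log 2 := Real.log_two_gt_d9
  have hc : (0 : ℝ) < 2 * Real.log 2 - 1 := by linarith
  set c := 2 * Real.log 2 - 1 with hcdef
  -- log (4y+1) = o(y)
  have t4 : Tendsto (fun y : ℝ => 4 * y) atTop atTop := tendsto_id.const_mul_atTop (by norm_num)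
  have t41 : Tendsto (fun y : ℝ => 4 * y + 1) atTop atTop := tendsto_atTop_add_const_right _ _ t4
  have h1 : ∀ᶠ y : ℝ in atTop, Real.log (4 * y + 1) ≤ (c / 16) * (4 * y + 1) := by
    have := (Real.isLittleO_log_id_atTop.bound (show (0 : ℝ) < c / 16 by positivity))
    have := t41.eventually this
    filter_upwards [this, eventually_ge_atTop (0 : ℝ)] with y hy hy0
    have h2 : ‖Real.log (4 * y + 1)‖ ≤ c / 16 * ‖id (4 * y + 1)‖ := hy
    simp only [id, Real.norm_eq_abs] at h2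
    rw [abs_of_nonneg (show (0 : ℝ) ≤ 4 * y + 1 by linarith)] at h2
    exact (le_abs_self _).trans h2
  have h2 : ∀ᶠ y : ℝ in atTop, Real.log (4 * y) ≤ (c / 16) * √(4 * y) := by
    have hlo := isLittleO_log_rpow_atTop (show (0 : ℝ) < 1 / 2 by norm_num)
    have := hlo.bound (show (0 : ℝ) < c / 16 by positivity)
    have := t4.eventually this
    filter_upwards [this, eventually_ge_atTop (0 : ℝ)] with y hy hy0
    have h2 : ‖Real.log (4 * y)‖ ≤ c / 16 * ‖(4 * y) ^ (1 / 2 : ℝ)‖ := hy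
    rw [← Real.sqrt_eq_rpow] at h2
    simp only [Real.norm_eq_abs] at h2
    rw [abs_of_nonneg (Real.sqrt_nonneg _)] at h2
    exact (le_abs_self _).trans h2
  filter_upwards [h1, h2, eventually_ge_atTop (1 : ℝ)] with y hy1 hy2 hy0
  have hs : √(4 * y) * √(4 * y) = 4 * y := Real.mul_self_sqrt (by linarith)
  have hs0 : 0 ≤ √(4 * y) := Real.sqrt_nonneg _
  have h3 : 2 * √(4 * y) * Real.log (4 * y) ≤ 2 * √(4 * y) * ((c / 16) * √(4 * y)) :=
    mul_le_mul_of_nonneg_left hy2 (by positivity)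
  have h4 : 2 * √(4 * y) * ((c / 16) * √(4 * y)) = c / 2 * y := by
    calc 2 * √(4 * y) * ((c / 16) * √(4 * y)) = c / 8 * (√(4 * y) * √(4 * y)) := by ring
      _ = c / 2 * y := by rw [hs]; ring
  have h5 : c / 16 * (4 * y + 1) ≤ c / 2 * y := by nlinarith
  calc Real.log (4 * y + 1) + 2 * √(4 * y) * Real.log (4 * y)
      ≤ c / 2 * y + c / 2 * y := by linarith
    _ = c * y := by ring

theorem primes_supply_aux2 (q : ℕ) : ∀ᶠ N : ℕ in atTop,
    2 * Real.log (4 * (N : ℝ) ^ q) ≤ N := by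
  have h1 : ∀ᶠ x : ℝ in atTop, Real.log x ≤ (1 / (4 * (q + 1))) * x := by
    have := (Real.isLittleO_log_id_atTop.bound
      (show (0 : ℝ) < 1 / (4 * ((q : ℝ) + 1)) by positivity))
    filter_upwards [this, eventually_ge_atTop (0 : ℝ)] with y hy hy0
    have h2 : ‖Real.log y‖ ≤ 1 / (4 * ((q : ℝ) + 1)) * ‖id y‖ := hy
    simp only [id, Real.norm_eq_abs] at h2
    rw [abs_of_nonneg hy0] at h2
    exact (le_abs_self _).trans h2
  have h2 := tendsto_natCast_atTop_atTop (R := ℝ) |>.eventually h1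
  filter_upwards [h2, eventually_ge_atTop 8] with N hN hN8
  have hN0 : (0 : ℝ) < N := by
    have : 0 < N := by omega
    exact_mod_cast this
  have hN8' : (8 : ℝ) ≤ N := by exact_mod_cast hN8
  rw [Real.log_mul (by norm_num) (by positivity), Real.log_pow]
  have hl4 : Real.log 4 ≤ 2 := by
    have h4 : Real.log 4 = 2 * Real.log 2 := by
      rw [show (4 : ℝ) = 2 ^ 2 by norm_num, Real.log_pow]; norm_num
    have := Real.log_two_lt_d9
    rw [h4]; linarith
  have h3 : (q : ℝ) * Real.log N ≤ N / 4 := by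
    have hq0 : (0 : ℝ) ≤ q := by positivity
    have e : (q : ℝ) * ((1 / (4 * (q + 1))) * N) ≤ N / 4 := by
      have : (q : ℝ) / (q + 1) ≤ 1 := by
        rw [div_le_one (by positivity)]; linarith
      calc (q : ℝ) * ((1 / (4 * (q + 1))) * N) = (q / (q + 1)) * (N / 4) := by
            field_simp
        _ ≤ 1 * (N / 4) := by gcongr
        _ = N / 4 := by ring
    exact (mul_le_mul_of_nonneg_left hN hq0).trans e
  linarith

/-- R1. -/
theorem primes_supply (q : ℕ) (hq : 1 ≤ q) : ∃ N₀ : ℕ, ∀ N ≥ N₀,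
    2 * N ^ (q - 1) ≤ ((Ioc (N ^ q) (4 * N ^ q)).filter Nat.Prime).card := by
  have hpow : Tendsto (fun N : ℕ => ((N : ℝ) ^ q)) atTop atTop :=
    (tendsto_pow_atTop (by omega)).comp tendsto_natCast_atTop_atTop
  have hev := (hpow.eventually primes_supply_aux1).and
    ((primes_supply_aux2 q).and (eventually_ge_atTop 2))
  obtain ⟨N₀, hN₀⟩ := eventually_atTop.1 hev
  refine ⟨N₀, fun N hN => ?_⟩
  obtain ⟨h1, h2, h3⟩ := hN₀ N hN
  set Y := N ^ q with hY
  have hYr : ((N : ℝ) ^ q) = (Y : ℝ) := by rw [hY]; push_cast; ring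
  rw [hYr] at h1 h2
  have hY1 : 1 ≤ Y := Nat.one_le_pow _ _ (by omega)
  have hY1' : (1 : ℝ) ≤ Y := by exact_mod_cast hY1
  -- theta bounds
  have hge := Chebyshev.theta_ge (4 * Y)
  have hle := Chebyshev.theta_le_log4_mul_x (x := (Y : ℝ)) (by positivity)
  have hl4 : Real.log 4 = 2 * Real.log 2 := by
    rw [show (4 : ℝ) = 2 ^ 2 by norm_num, Real.log_pow]; norm_num
  have hdiff : (Y : ℝ) ≤ Chebyshev.theta ((4 * Y : ℕ) : ℝ) - Chebyshev.theta (Y : ℝ) := by
    push_cast at hge ⊢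
    rw [hl4] at hle
    nlinarith
  have hsum : Chebyshev.theta ((4 * Y : ℕ) : ℝ) - Chebyshev.theta (Y : ℝ)
      = ∑ p ∈ (Ioc Y (4 * Y)).filter Nat.Prime, Real.log p := by
    have e1 : Chebyshev.theta ((4 * Y : ℕ) : ℝ) =
        ∑ p ∈ (Ioc 0 (4 * Y)).filter Nat.Prime, Real.log p := by
      rw [Chebyshev.theta, Nat.floor_natCast]
    have e2 : Chebyshev.theta ((Y : ℕ) : ℝ) =
        ∑ p ∈ (Ioc 0 Y).filter Nat.Prime, Real.log p := by
      rw [Chebyshev.theta, Nat.floor_natCast]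
    rw [e1, e2]
    have hsplit : (Ioc 0 (4 * Y)).filter Nat.Prime =
        (Ioc 0 Y).filter Nat.Prime ∪ (Ioc Y (4 * Y)).filter Nat.Prime := by
      rw [← filter_union]
      congr 1
      rw [Ioc_union_Ioc_eq_Ioc (by omega) (by omega)]
    rw [hsplit, sum_union]
    · ring
    · apply disjoint_filter_filter
      rw [disjoint_left]
      intro a ha hb
      simp only [mem_Ioc] at ha hb
      omega
  have hcount : ∑ p ∈ (Ioc Y (4 * Y)).filter Nat.Prime, Real.log p
      ≤ ((Ioc Y (4 * Y)).filter Nat.Prime).card * Real.log (4 * Y) := by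
    rw [← nsmul_eq_mul]
    apply sum_le_card_nsmul
    intro p hp
    simp only [mem_filter, mem_Ioc] at hp
    apply Real.log_le_log
    · exact_mod_cast hp.2.pos
    · exact_mod_cast hp.1.2
  have hlogpos : 0 < Real.log (4 * Y) := Real.log_pos (by linarith)
  have hfin : (Y : ℝ) ≤ ((Ioc Y (4 * Y)).filter Nat.Prime).card * Real.log (4 * Y) := by
    linarith [hsum ▸ hdiff]
  -- Y = N * N^(q-1)
  have hYN : (Y : ℝ) = (N : ℝ) ^ (q - 1) * N := by
    rw [← hYr, ← pow_succ]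
    congr 1
    omega
  have hreal : (2 * (N : ℝ) ^ (q - 1)) ≤ ((Ioc Y (4 * Y)).filter Nat.Prime).card := by
    have hN1 : (0 : ℝ) ≤ (N : ℝ) ^ (q - 1) := by positivity
    have h4 : (N : ℝ) ^ (q - 1) * (2 * Real.log (4 * Y)) ≤
        ((Ioc Y (4 * Y)).filter Nat.Prime).card * Real.log (4 * Y) := by
      calc (N : ℝ) ^ (q - 1) * (2 * Real.log (4 * Y)) ≤ (N : ℝ) ^ (q - 1) * N :=
            mul_le_mul_of_nonneg_left h2 hN1
        _ = Y := hYN.symm
        _ ≤ _ := hfin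
    have h5 : (2 * (N : ℝ) ^ (q - 1)) * Real.log (4 * Y) ≤
        ((Ioc Y (4 * Y)).filter Nat.Prime).card * Real.log (4 * Y) := by linarith
    exact le_of_mul_le_mul_right h5 hlogpos
  exact_mod_cast hreal

end Pool.Agent.Work.MP_f473e4_nt
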