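import Mathlib
import Pool.Agent.Work.MP_f473e4_nt.RPrimes
import Pool.Agent.Work.MP_f473e4_nt.RGood
import Pool.Agent.Work.MP_f473e4_nt.RConf

set_option autoImplicit false

open Finset

namespace Pool.Agent.Work.MP_f473e4_nt

/-! ### combinatorial inequalities -/

theorem rg_pow_le_choose (L : ℕ) : ∀ h : ℕ, L ≤ h → h ^ L ≤ L ^ L * h.choose L := by
  induction L with
  | zero => intro h _; simp
  | succ L ih =>
    intro h hh
    obtain ⟨h, rfl⟩ : ∃ k, h = k + 1 := ⟨h - 1, by omega⟩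
    have hLh : L ≤ h := by omega
    have h1 := ih h hLh
    have h2 : (h + 1) * h.choose L = (h + 1).choose (L + 1) * (L + 1) := Nat.add_one_mul_choose_eq h L
    rcases Nat.eq_zero_or_pos L with rfl | hLpos
    · simp
    · have h3 : (h + 1) ^ L * L ^ L ≤ ((L + 1) ^ L * h.choose L) * L ^ L := by
        calc (h + 1) ^ L * L ^ L = ((h + 1) * L) ^ L := by rw [mul_pow]
          _ ≤ ((L + 1) * h) ^ L := Nat.pow_le_pow_left (by nlinarith) _
          _ = (L + 1) ^ L * h ^ L := by rw [mul_pow]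
          _ ≤ (L + 1) ^ L * (L ^ L * h.choose L) := Nat.mul_le_mul_left _ h1
          _ = ((L + 1) ^ L * h.choose L) * L ^ L := by ring
      have h4 : (h + 1) ^ L ≤ (L + 1) ^ L * h.choose L :=
        Nat.le_of_mul_le_mul_right h3 (pow_pos hLpos _)
      calc (h + 1) ^ (L + 1) = (h + 1) * (h + 1) ^ L := by ring
        _ ≤ (h + 1) * ((L + 1) ^ L * h.choose L) := Nat.mul_le_mul_left _ h4
        _ = (L + 1) ^ L * ((h + 1) * h.choose L) := by ring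
        _ = (L + 1) ^ L * ((h + 1).choose (L + 1) * (L + 1)) := by rw [h2]
        _ = (L + 1) ^ (L + 1) * (h + 1).choose (L + 1) := by ring

theorem rg_choose_div (L h : ℕ) (hL : 2 ≤ L) (hh : L * L ≤ h) :
    h ^ (L * (L - 1)) ≤ (2 * L ^ 2) ^ (L * (L - 1)) * ((h / L).choose L) ^ (L - 1) := by
  have hL0 : 0 < L := by omega
  have h1 : L ≤ h / L := (Nat.le_div_iff_mul_le hL0).2 hh
  have h2 := rg_pow_le_choose L (h / L) h1
  have h3 : h ≤ 2 * L * (h / L) := by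
    have h4 : h < L * (h / L + 1) := by
      have := Nat.lt_mul_div_succ h hL0
      simpa using this
    have h5 : 1 ≤ h / L := by omega
    nlinarith
  have h6 : h ^ L ≤ (2 * L ^ 2) ^ L * (h / L).choose L := by
    calc h ^ L ≤ (2 * L * (h / L)) ^ L := Nat.pow_le_pow_left h3 _
      _ = (2 * L) ^ L * (h / L) ^ L := by rw [mul_pow]
      _ ≤ (2 * L) ^ L * (L ^ L * (h / L).choose L) := Nat.mul_le_mul_left _ h2
      _ = (2 * L ^ 2) ^ L * (h / L).choose L := by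
        rw [← mul_assoc, ← mul_pow]; congr 2; ring
  calc h ^ (L * (L - 1)) = (h ^ L) ^ (L - 1) := by rw [pow_mul]
    _ ≤ ((2 * L ^ 2) ^ L * (h / L).choose L) ^ (L - 1) := Nat.pow_le_pow_left h6 _
    _ = (2 * L ^ 2) ^ (L * (L - 1)) * ((h / L).choose L) ^ (L - 1) := by
      rw [mul_pow, ← pow_mul]

/-! ### definitions -/

def rgCs (P1 : Finset ℕ) (n : ℕ) : Finset ℕ := P1.filter (fun p => p ∣ n)

open Classical in
noncomputable def rgGG (L U : ℕ) (P1 : Finset ℕ) : Finset ℕ :=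
  (Icc 1 U).filter (fun u => u % Lam L = 1 ∧ (∀ j < L, (rgCs P1 (u + j)).card = L) ∧
    ∀ j < L, Squarefree ((u + j) / (1 + j)))

open Classical in
noncomputable def rgKK (L h U : ℕ) (P1 : Finset ℕ) : Finset (Finset ℕ × ℕ) :=
  ((P1.powersetCard (h - L)) ×ˢ rgGG L U P1).filter
    (fun x => ∀ j < L, Disjoint x.1 (rgCs P1 (x.2 + j)))

def rgPair (x : Finset ℕ × ℕ) : ℕ × ℕ := (∏ p ∈ x.1, p, x.2)

open Classical in
noncomputable def rgHH (L h U : ℕ) (P1 : Finset ℕ) : Finset (ℕ × ℕ) :=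
  (rgKK L h U P1).image rgPair

open Classical in
noncomputable def rgTT (L h U : ℕ) (P1 : Finset ℕ) : Finset ℕ :=
  (rgHH L h U P1).biUnion (fun ℓ => (range L).image (fun j => ℓ.1 * (ℓ.2 + j)))

theorem rg_mem_GG {L U : ℕ} {P1 : Finset ℕ} {u : ℕ} : u ∈ rgGG L U P1 ↔
    (1 ≤ u ∧ u ≤ U) ∧ u % Lam L = 1 ∧ (∀ j < L, (rgCs P1 (u + j)).card = L) ∧
      ∀ j < L, Squarefree ((u + j) / (1 + j)) := by
  classical
  simp [rgGG, mem_filter, mem_Icc]

theorem rg_mem_KK {L h U : ℕ} {P1 : Finset ℕ} {x : Finset ℕ × ℕ} : x ∈ rgKK L h U P1 ↔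
    (x.1 ⊆ P1 ∧ x.1.card = h - L) ∧ x.2 ∈ rgGG L U P1 ∧
      ∀ j < L, Disjoint x.1 (rgCs P1 (x.2 + j)) := by
  classical
  simp only [rgKK, mem_filter, mem_product, mem_powersetCard]
  tauto

theorem rg_mem_Cs {P1 : Finset ℕ} {n p : ℕ} : p ∈ rgCs P1 n ↔ p ∈ P1 ∧ p ∣ n := by
  simp [rgCs]

/-! ### the primes dividing products -/

section
variable {L Y h : ℕ} {P1 : Finset ℕ}

theorem rg_Cs_prod (hP : ∀ p ∈ P1, p.Prime) {A : Finset ℕ} (hA : A ⊆ P1) :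
    rgCs P1 (∏ p ∈ A, p) = A := by
  ext p
  rw [rg_mem_Cs]
  constructor
  · rintro ⟨hp, hd⟩
    rw [(hP p hp).prime.dvd_finsetProd_iff] at hd
    obtain ⟨a, ha, hpa⟩ := hd
    rwa [(Nat.prime_dvd_prime_iff_eq (hP p hp) (hP a (hA ha))).1 hpa]
  · intro hp
    exact ⟨hA hp, dvd_prod_of_mem _ hp⟩

theorem rg_Cs_mul (hP : ∀ p ∈ P1, p.Prime) {A : Finset ℕ} (hA : A ⊆ P1) (n : ℕ) :
    rgCs P1 ((∏ p ∈ A, p) * n) = A ∪ rgCs P1 n := by
  ext p
  rw [mem_union, rg_mem_Cs, rg_mem_Cs]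
  constructor
  · rintro ⟨hp, hd⟩
    rcases (hP p hp).dvd_mul.1 hd with h1 | h1
    · left
      have : p ∈ rgCs P1 (∏ p ∈ A, p) := rg_mem_Cs.2 ⟨hp, h1⟩
      rwa [rg_Cs_prod hP hA] at this
    · right; exact ⟨hp, h1⟩
  · rintro (hp | ⟨hp, hd⟩)
    · exact ⟨hA hp, (dvd_prod_of_mem _ hp).mul_right _⟩
    · exact ⟨hp, hd.mul_left _⟩

theorem rg_prod_dvd (hP : ∀ p ∈ P1, p.Prime) (n : ℕ) : (∏ p ∈ rgCs P1 n, p) ∣ n := by
  apply Finset.prod_primes_dvd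
  · intro p hp
    exact (hP p (rg_mem_Cs.1 hp).1).prime
  · intro p hp
    exact (rg_mem_Cs.1 hp).2

end

/-! ### arithmetic of `Lam` -/

theorem rg_Lam_pos (L : ℕ) : 0 < Lam L := pow_pos (Nat.factorial_pos _) _

theorem rg_fact_le_Lam {L : ℕ} (hL : 2 ≤ L) : (4 * L).factorial ≤ Lam L := by
  unfold Lam
  exact Nat.le_self_pow (by omega) _

theorem rg_le_Lam {L : ℕ} (hL : 2 ≤ L) : 4 * L ≤ Lam L :=
  (Nat.self_le_factorial _).trans (rg_fact_le_Lam hL)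

theorem rg_coprime_Lam {L p : ℕ} (hp : p.Prime) (h : 4 * L < p) : Nat.Coprime p (Lam L) := by
  unfold Lam
  apply Nat.Coprime.pow_right
  rw [hp.coprime_iff_not_dvd, hp.dvd_factorial]
  omega

theorem rg_mul_dvd_Lam {L j : ℕ} (hL : 2 ≤ L) (hj : j < L) :
    (1 + j) * (4 * L).factorial ∣ Lam L := by
  have h1 : (1 + j) ∣ (4 * L).factorial := Nat.dvd_factorial (by omega) (by omega)
  have h2 : (4 * L).factorial * (4 * L).factorial ∣ Lam L := by
    unfold Lam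
    rw [← pow_two]
    exact pow_dvd_pow _ hL
  exact (Nat.mul_dvd_mul_right h1 _).trans h2

theorem rg_struct {L u j : ℕ} (hL : 2 ≤ L) (hu : u % Lam L = 1) (hj : j < L) :
    (1 + j) * ((u + j) / (1 + j)) = u + j ∧ Nat.Coprime (1 + j) ((u + j) / (1 + j)) ∧
      Nat.gcd (u + j) (Lam L) = 1 + j := by
  obtain ⟨k, hk⟩ : ∃ k, u = Lam L * k + 1 := ⟨u / Lam L, by rw [← hu]; exact (Nat.div_add_mod _ _).symm⟩
  obtain ⟨b, hb⟩ := rg_mul_dvd_Lam hL hj
  have hfj : (1 + j) ∣ (4 * L).factorial := Nat.dvd_factorial (by omega) (by omega)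
  have h1 : u + j = (1 + j) * (1 + (4 * L).factorial * b * k) := by
    rw [hk, hb]; ring
  have h2 : (u + j) / (1 + j) = 1 + (4 * L).factorial * b * k := by
    rw [h1, Nat.mul_div_cancel_left _ (by omega)]
  refine ⟨by rw [h2, ← h1], ?_, ?_⟩
  · rw [h2]
    obtain ⟨d, hd⟩ := hfj
    rw [hd]
    have : 1 + (1 + j) * d * b * k = (d * b * k) * (1 + j) + 1 := by ring
    rw [this]
    simp
  · have h3 : u + j = (1 + j) + Lam L * k := by rw [hk]; ring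
    rw [h3, Nat.gcd_comm, Nat.gcd_add_mul_left_right]
    rw [Nat.gcd_eq_right]
    exact (Dvd.intro _ rfl : (1 + j) ∣ (1 + j) * (4 * L).factorial).trans (rg_mul_dvd_Lam hL hj)

theorem rg_card_divisors_sqfree {w : ℕ} (hw : Squarefree w) :
    (Nat.divisors w).card = 2 ^ w.primeFactors.card ∧ 2 ^ w.primeFactors.card ≤ w := by
  have hw0 : w ≠ 0 := hw.ne_zero
  have h1 : (Nat.divisors w).card = 2 ^ w.primeFactors.card := by
    rw [Nat.card_divisors hw0, ← prod_const]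
    apply prod_congr rfl
    intro p hp
    have hp' := Nat.prime_of_mem_primeFactors hp
    have h2 : w.factorization p ≤ 1 := hw.natFactorization_le_one p
    have h3 : 0 < w.factorization p :=
      hp'.factorization_pos_of_dvd hw0 (Nat.dvd_of_mem_primeFactors hp)
    omega
  refine ⟨h1, ?_⟩
  calc 2 ^ w.primeFactors.card = ∏ p ∈ w.primeFactors, 2 := by rw [prod_const]
    _ ≤ ∏ p ∈ w.primeFactors, p := by
      apply prod_le_prod (fun _ _ => by omega)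
      intro p hp
      exact (Nat.prime_of_mem_primeFactors hp).two_le
    _ = w := Nat.prod_primeFactors_of_squarefree hw

noncomputable def rgTau (L : ℕ) : ℕ := ∏ j ∈ range L, (Nat.divisors (1 + j)).card

noncomputable def rgKap (L t : ℕ) : ℕ :=
  if (Nat.divisors (Nat.gcd t (Lam L))).card ∣ rgTau L then
    rgTau L / (Nat.divisors (Nat.gcd t (Lam L))).card else 1

theorem rgTau_pos (L : ℕ) : 0 < rgTau L := by
  unfold rgTau
  apply prod_pos
  intro j _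
  exact card_pos.2 ⟨1, Nat.one_mem_divisors.2 (by omega)⟩

theorem rgKap_pos (L t : ℕ) : 0 < rgKap L t := by
  unfold rgKap
  split_ifs with h
  · exact Nat.div_pos (Nat.le_of_dvd (rgTau_pos L) h)
      (card_pos.2 ⟨1, Nat.one_mem_divisors.2 (Nat.gcd_pos_of_pos_right _ (rg_Lam_pos L)).ne'⟩)
  · exact one_pos

theorem rg_balance {L u j s : ℕ} (hL : 2 ≤ L) (hu : u % Lam L = 1) (hj : j < L)
    (hs : Nat.Coprime s (Lam L)) (hsq : Squarefree ((u + j) / (1 + j))) :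
    ∃ e, 2 ^ e ≤ u + j ∧
      (Nat.divisors (u + j)).card * rgKap L (s * (u + j)) = rgTau L * 2 ^ e := by
  obtain ⟨h1, h2, h3⟩ := rg_struct hL hu hj
  obtain ⟨h4, h5⟩ := rg_card_divisors_sqfree hsq
  refine ⟨((u + j) / (1 + j)).primeFactors.card, h5.trans (Nat.div_le_self _ _), ?_⟩
  have h6 : Nat.gcd (s * (u + j)) (Lam L) = 1 + j := by
    rw [Nat.Coprime.gcd_mul_left_cancel _ hs, h3]
  have h7 : (Nat.divisors (1 + j)).card ∣ rgTau L := dvd_prod_of_mem _ (mem_range.2 hj)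
  have h8 : rgKap L (s * (u + j)) = rgTau L / (Nat.divisors (1 + j)).card := by
    unfold rgKap
    rw [h6, if_pos h7]
  have h9 : (Nat.divisors (u + j)).card =
      (Nat.divisors (1 + j)).card * (Nat.divisors ((u + j) / (1 + j))).card := by
    conv_lhs => rw [← h1]
    exact Nat.Coprime.card_divisors_mul h2
  rw [h8, h9, h4]
  obtain ⟨d, hd⟩ := h7
  have hpos : 0 < (Nat.divisors (1 + j)).card := card_pos.2 ⟨1, Nat.one_mem_divisors.2 (by omega)⟩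
  rw [hd, Nat.mul_div_cancel_left _ hpos]
  ring

/-! ### structure of `rgHH` and `rgTT` -/

section
variable {L Y h U : ℕ} {P1 : Finset ℕ}

theorem rg_mem_HH {ℓ : ℕ × ℕ} : ℓ ∈ rgHH L h U P1 ↔ ∃ x ∈ rgKK L h U P1, rgPair x = ℓ := by
  classical
  simp [rgHH]

theorem rg_mem_TT {t : ℕ} : t ∈ rgTT L h U P1 ↔
    ∃ ℓ ∈ rgHH L h U P1, ∃ j < L, ℓ.1 * (ℓ.2 + j) = t := by
  classical
  simp only [rgTT, mem_biUnion, mem_image, mem_range]

theorem rg_prod_pos (hP : ∀ p ∈ P1, p.Prime) {A : Finset ℕ} (hA : A ⊆ P1) : 0 < ∏ p ∈ A, p :=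
  prod_pos fun p hp => (hP p (hA hp)).pos

theorem rg_pair_inj (hP : ∀ p ∈ P1, p.Prime) :
    Set.InjOn rgPair (rgKK L h U P1 : Set (Finset ℕ × ℕ)) := by
  rintro ⟨A, u⟩ hx ⟨A', u'⟩ hx' hxx
  have h1 : A ⊆ P1 := (rg_mem_KK.1 (mem_coe.1 hx)).1.1
  have h2 : A' ⊆ P1 := (rg_mem_KK.1 (mem_coe.1 hx')).1.1
  simp only [rgPair, Prod.mk.injEq] at hxx
  have h3 : A = A' := by
    rw [← rg_Cs_prod hP h1, hxx.1, rg_Cs_prod hP h2]
  rw [h3, hxx.2]

theorem rg_Cs_t (hP : ∀ p ∈ P1, p.Prime) (hLh : L ≤ h) {x : Finset ℕ × ℕ}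
    (hx : x ∈ rgKK L h U P1) {j : ℕ} (hj : j < L) :
    rgCs P1 ((∏ p ∈ x.1, p) * (x.2 + j)) = x.1 ∪ rgCs P1 (x.2 + j) ∧
      (rgCs P1 ((∏ p ∈ x.1, p) * (x.2 + j))).card = h := by
  obtain ⟨⟨h1, h2⟩, h3, h4⟩ := rg_mem_KK.1 hx
  have h5 := rg_Cs_mul hP h1 (x.2 + j)
  refine ⟨h5, ?_⟩
  rw [h5, card_union_of_disjoint (h4 j hj), h2, (rg_mem_GG.1 h3).2.2.1 j hj]
  omega

theorem rg_pair (hL : 2 ≤ L) (hP : ∀ p ∈ P1, p.Prime) (hYL : ∀ p ∈ P1, 4 * L < p) :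
    ∀ ℓ ∈ rgHH L h U P1, ∀ ℓ' ∈ rgHH L h U P1, ℓ ≠ ℓ' →
      ∀ j₁ < L, ∀ j₂ < L, ∀ j₁' < L, ∀ j₂' < L,
        ℓ.1 * (ℓ.2 + j₁) = ℓ'.1 * (ℓ'.2 + j₁') → ℓ.1 * (ℓ.2 + j₂) = ℓ'.1 * (ℓ'.2 + j₂') →
        j₁ = j₂ := by
  intro ℓ hℓ ℓ' hℓ' hne j₁ hj₁ j₂ hj₂ j₁' hj₁' j₂' hj₂' e1 e2
  obtain ⟨⟨A, u⟩, hx, rfl⟩ := rg_mem_HH.1 hℓ
  obtain ⟨⟨A', u'⟩, hx', rfl⟩ := rg_mem_HH.1 hℓ'
  obtain ⟨⟨hA, hAc⟩, hG, -⟩ := rg_mem_KK.1 hx
  obtain ⟨⟨hA', hAc'⟩, hG', -⟩ := rg_mem_KK.1 hx'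
  simp only [rgPair] at e1 e2 hne hA hA' hAc hAc' hG hG'
  by_contra hj
  have hs := rg_prod_pos hP hA
  have hs' := rg_prod_pos hP hA'
  set s := ∏ p ∈ A, p with hsdef
  set s' := ∏ p ∈ A', p with hsdef'
  have e3 : (s : ℤ) * ((j₁ : ℤ) - j₂) = s' * ((j₁' : ℤ) - j₂') := by
    have f1 : (s : ℤ) * (u + j₁) = s' * (u' + j₁') := by exact_mod_cast e1
    have f2 : (s : ℤ) * (u + j₂) = s' * (u' + j₂') := by exact_mod_cast e2
    linear_combination f1 - f2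
  by_cases hAA : A = A'
  · have hss : s = s' := by rw [hsdef, hsdef', hAA]
    rw [← hss] at e1
    have e4 : u + j₁ = u' + j₁' := Nat.eq_of_mul_eq_mul_left hs e1
    have m1 := (rg_mem_GG.1 hG).2.1
    have m2 := (rg_mem_GG.1 hG').2.1
    have hLL := rg_le_Lam hL
    have e5 : u = u' := by
      have g1 := Nat.div_add_mod u (Lam L)
      have g2 := Nat.div_add_mod u' (Lam L)
      rw [m1] at g1
      rw [m2] at g2
      rcases lt_trichotomy (u / Lam L) (u' / Lam L) with hlt | heq | hgt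
      · have : Lam L * (u / Lam L + 1) ≤ Lam L * (u' / Lam L) := Nat.mul_le_mul_left _ hlt
        rw [mul_add] at this
        omega
      · rw [heq] at g1
        omega
      · have : Lam L * (u' / Lam L + 1) ≤ Lam L * (u / Lam L) := Nat.mul_le_mul_left _ hgt
        rw [mul_add] at this
        omega
    exact hne (by rw [hss, e5])
  · have hex : ∃ p ∈ A, p ∉ A' := by
      by_contra hcon
      push Not at hcon
      exact hAA (eq_of_subset_of_card_le hcon (by rw [hAc, hAc']))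
    obtain ⟨p, hpA, hpA'⟩ := hex
    have hp := hP p (hA hpA)
    have d1 : (p : ℤ) ∣ s' * ((j₁' : ℤ) - j₂') := by
      rw [← e3]
      exact (Int.natCast_dvd_natCast.2 (dvd_prod_of_mem _ hpA)).mul_right _
    have hpi : Prime (p : ℤ) := Nat.prime_iff_prime_int.1 hp
    rcases hpi.dvd_or_dvd d1 with d2 | d2
    · have d3 : p ∣ s' := Int.natCast_dvd_natCast.1 d2
      have : p ∈ rgCs P1 s' := rg_mem_Cs.2 ⟨hA hpA, d3⟩
      rw [hsdef', rg_Cs_prod hP hA'] at this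
      exact hpA' this
    · have hpL := hYL p (hA hpA)
      by_cases hz : (j₁' : ℤ) - j₂' = 0
      · rw [hz, mul_zero] at e3
        rcases mul_eq_zero.1 e3 with h0 | h0
        · have : s = 0 := by exact_mod_cast h0
          omega
        · omega
      · have := Int.natAbs_dvd_natAbs.2 d2
        have h5 := Nat.le_of_dvd (by omega) this
        simp only [Int.natAbs_natCast] at h5
        omega

theorem rg_degree (hP : ∀ p ∈ P1, p.Prime) (hLh : L ≤ h) (t : ℕ) :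
    ((rgHH L h U P1).filter (fun ℓ => ∃ j < L, ℓ.1 * (ℓ.2 + j) = t)).card
      ≤ L * h.choose L := by
  classical
  by_cases hne : ((rgHH L h U P1).filter (fun ℓ => ∃ j < L, ℓ.1 * (ℓ.2 + j) = t)) = ∅
  · rw [hne]; simp
  · obtain ⟨ℓ₀, hℓ₀⟩ := nonempty_iff_ne_empty.2 hne
    obtain ⟨hℓ₀, j₀, hj₀, ht₀⟩ := mem_filter.1 hℓ₀
    obtain ⟨x₀, hx₀, rfl⟩ := rg_mem_HH.1 hℓ₀
    have hB : (rgCs P1 t).card = h := by
      rw [← ht₀]
      exact (rg_Cs_t hP hLh hx₀ hj₀).2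
    have hsub : ((rgHH L h U P1).filter (fun ℓ => ∃ j < L, ℓ.1 * (ℓ.2 + j) = t)) ⊆
        (((rgCs P1 t).powersetCard (h - L)) ×ˢ (range L)).image
          (fun y => (∏ p ∈ y.1, p, t / (∏ p ∈ y.1, p) - y.2)) := by
      intro ℓ hℓ
      obtain ⟨hℓ, j, hj, ht⟩ := mem_filter.1 hℓ
      obtain ⟨x, hx, rfl⟩ := rg_mem_HH.1 hℓ
      obtain ⟨⟨h1, h2⟩, h3, h4⟩ := rg_mem_KK.1 hx
      rw [mem_image]
      refine ⟨(x.1, j), ?_, ?_⟩
      · rw [mem_product, mem_powersetCard, mem_range]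
        refine ⟨⟨?_, h2⟩, hj⟩
        rw [← ht]
        simp only [rgPair]
        rw [(rg_Cs_t hP hLh hx hj).1]
        exact subset_union_left
      · simp only [rgPair, Prod.mk.injEq, true_and]
        rw [← ht]
        simp only [rgPair]
        rw [Nat.mul_div_cancel_left _ (rg_prod_pos hP h1)]
        omega
    refine (card_le_card hsub).trans (card_image_le.trans ?_)
    rw [card_product, card_powersetCard, card_range, hB, Nat.choose_symm hLh, mul_comm]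

theorem rg_T_card (hP : ∀ p ∈ P1, p.Prime) (hPY : ∀ p ∈ P1, Y ≤ p) (hY : 0 < Y) (hLh : L ≤ h)
    (hcard : P1.card = 2 * h) :
    (rgTT L h U P1).card * Y ^ L ≤ (2 * h).choose h * (U + L) := by
  classical
  have hsub : rgTT L h U P1 ⊆
      ((P1.powersetCard h) ×ˢ (Icc 1 ((U + L) / Y ^ L))).image
        (fun y => (∏ p ∈ y.1, p) * y.2) := by
    intro t ht
    obtain ⟨ℓ, hℓ, j, hj, rfl⟩ := rg_mem_TT.1 ht
    obtain ⟨x, hx, rfl⟩ := rg_mem_HH.1 hℓ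
    obtain ⟨⟨h1, h2⟩, h3, h4⟩ := rg_mem_KK.1 hx
    obtain ⟨⟨g1, g1'⟩, g2, g3, g4⟩ := rg_mem_GG.1 h3
    obtain ⟨c1, c2⟩ := rg_Cs_t hP hLh hx hj
    obtain ⟨w, hw⟩ := rg_prod_dvd hP (x.2 + j)
    have hCY : Y ^ L ≤ ∏ p ∈ rgCs P1 (x.2 + j), p := by
      have hh := g3 j hj
      calc Y ^ L = ∏ p ∈ rgCs P1 (x.2 + j), Y := by rw [prod_const, hh]
        _ ≤ ∏ p ∈ rgCs P1 (x.2 + j), p :=
          prod_le_prod (fun _ _ => Nat.zero_le _) (fun p hp => hPY p (rg_mem_Cs.1 hp).1)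
    have hw0 : 0 < w := by
      rcases Nat.eq_zero_or_pos w with h0 | h0
      · rw [h0, mul_zero] at hw; omega
      · exact h0
    rw [mem_image]
    refine ⟨(x.1 ∪ rgCs P1 (x.2 + j), w), ?_, ?_⟩
    · rw [mem_product, mem_powersetCard, mem_Icc]
      refine ⟨⟨?_, ?_⟩, hw0, ?_⟩
      · simp only
        rw [← c1]; exact filter_subset _ _
      · simp only
        rw [← c1]; exact c2
      · simp only
        rw [Nat.le_div_iff_mul_le (pow_pos hY _)]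
        calc w * Y ^ L ≤ w * ∏ p ∈ rgCs P1 (x.2 + j), p := Nat.mul_le_mul_left _ hCY
          _ = x.2 + j := by rw [mul_comm]; exact hw.symm
          _ ≤ U + L := by omega
    · simp only [rgPair]
      rw [prod_union (h4 j hj), mul_assoc, ← hw]
  have h1 := (card_le_card hsub).trans card_image_le
  rw [card_product, card_powersetCard, Nat.card_Icc, hcard, Nat.add_sub_cancel] at h1
  calc (rgTT L h U P1).card * Y ^ L
      ≤ ((2 * h).choose h * ((U + L) / Y ^ L)) * Y ^ L := Nat.mul_le_mul_right _ h1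
    _ = (2 * h).choose h * ((U + L) / Y ^ L * Y ^ L) := by ring
    _ ≤ (2 * h).choose h * (U + L) := Nat.mul_le_mul_left _ (Nat.div_mul_le_self _ _)

theorem rg_T_size (hP : ∀ p ∈ P1, p.Prime) (hPY : ∀ p ∈ P1, p ≤ 4 * Y) (hY : 0 < Y) :
    ∀ t ∈ rgTT L h U P1, 0 < t ∧ t ≤ (4 * Y) ^ h * (U + L) := by
  intro t ht
  obtain ⟨ℓ, hℓ, j, hj, rfl⟩ := rg_mem_TT.1 ht
  obtain ⟨x, hx, rfl⟩ := rg_mem_HH.1 hℓ
  obtain ⟨⟨h1, h2⟩, h3, h4⟩ := rg_mem_KK.1 hx
  obtain ⟨⟨g1, g1'⟩, g2, g3, g4⟩ := rg_mem_GG.1 h3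
  simp only [rgPair]
  constructor
  · exact Nat.mul_pos (rg_prod_pos hP h1) (by omega)
  · apply Nat.mul_le_mul
    · calc ∏ p ∈ x.1, p ≤ ∏ p ∈ x.1, (4 * Y) :=
            prod_le_prod (fun _ _ => Nat.zero_le _) (fun p hp => hPY p (h1 hp))
        _ = (4 * Y) ^ (h - L) := by rw [prod_const, h2]
        _ ≤ (4 * Y) ^ h := Nat.pow_le_pow_right (by omega) (Nat.sub_le _ _)
    · omega

theorem rg_H_card (hL : 2 ≤ L) (hP1 : ∀ p ∈ P1, p.Prime ∧ Y < p ∧ p ≤ 4 * Y)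
    (hcard : P1.card = 2 * h) (hY : 16 * L * (2 * h + L) ≤ Y) (hh : L * L ≤ h)
    (hU : U = (Lam L * (4 * Y) ^ (L * L)) ^ 4) :
    (2 * h).choose h * h.choose L * ((h / L).choose L) ^ (L - 1) *
      (Lam L * (4 * Y) ^ (L * L)) ^ 3 ≤ 2 * (rgHH L h U P1).card := by
  classical
  have hP : ∀ p ∈ P1, p.Prime := fun p hp => (hP1 p hp).1
  set Conf := ((P1.powersetCard (h - L) ×ˢ
      Fintype.piFinset (fun _ : Fin L => P1.powersetCard L)).filter
        (fun x => (∀ j, Disjoint x.1 (x.2 j)) ∧ ∀ j j', j ≠ j' → Disjoint (x.2 j) (x.2 j')))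
    with hConf
  have hmemC : ∀ x, x ∈ Conf → (x.1 ⊆ P1 ∧ x.1.card = h - L) ∧
      (∀ j, x.2 j ⊆ P1 ∧ (x.2 j).card = L) ∧ (∀ j, Disjoint x.1 (x.2 j)) ∧
      ∀ j j', j ≠ j' → Disjoint (x.2 j) (x.2 j') := by
    intro x hx
    rw [hConf, mem_filter, mem_product, mem_powersetCard, Fintype.mem_piFinset] at hx
    refine ⟨hx.1.1, fun j => mem_powersetCard.1 (hx.1.2 j), hx.2.1, hx.2.2⟩
  have hgood : ∀ (C : Fin L → Finset ℕ) (u : ℕ), u ∈ goodSet L U P1 C ↔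
      (1 ≤ u ∧ u ≤ U) ∧ u % Lam L = 1 ∧
      (∀ j : Fin L, ∀ p ∈ P1, (p ∣ u + (j : ℕ) ↔ p ∈ C j)) ∧
      ∀ j : Fin L, Squarefree ((u + (j : ℕ)) / (1 + (j : ℕ))) := by
    intro C u
    simp only [goodSet, mem_filter, mem_Icc]
  have hCs : ∀ x ∈ Conf, ∀ u ∈ goodSet L U P1 x.2, ∀ j : Fin L, rgCs P1 (u + (j : ℕ)) = x.2 j := by
    intro x hx u hu j
    obtain ⟨-, -, g3, -⟩ := (hgood _ _).1 hu
    ext p
    rw [rg_mem_Cs]
    constructor
    · rintro ⟨hp, hd⟩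
      exact (g3 j p hp).1 hd
    · intro hp
      have hp1 : p ∈ P1 := ((hmemC x hx).2.1 j).1 hp
      exact ⟨hp1, (g3 j p hp1).2 hp⟩
  have hsub : Conf.biUnion (fun x => (goodSet L U P1 x.2).image (fun u => (x.1, u))) ⊆
      rgKK L h U P1 := by
    intro y hy
    rw [mem_biUnion] at hy
    obtain ⟨x, hx, hy⟩ := hy
    rw [mem_image] at hy
    obtain ⟨u, hu, rfl⟩ := hy
    obtain ⟨c1, c2, c3, c4⟩ := hmemC x hx
    obtain ⟨g1, g2, g3, g4⟩ := (hgood _ _).1 hu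
    rw [rg_mem_KK]
    refine ⟨c1, ?_, ?_⟩
    · rw [rg_mem_GG]
      refine ⟨g1, g2, ?_, ?_⟩
      · intro j hj
        have := hCs x hx u hu ⟨j, hj⟩
        simp only at this
        rw [this]
        exact (c2 _).2
      · intro j hj
        exact g4 ⟨j, hj⟩
    · intro j hj
      have := hCs x hx u hu ⟨j, hj⟩
      simp only at this
      simp only
      rw [this]
      exact c3 _
  have hdisj : ∀ x ∈ Conf, ∀ x' ∈ Conf, x ≠ x' →
      Disjoint ((goodSet L U P1 x.2).image (fun u => (x.1, u)))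
        ((goodSet L U P1 x'.2).image (fun u => (x'.1, u))) := by
    intro x hx x' hx' hne
    rw [disjoint_left]
    intro y hy hy'
    rw [mem_image] at hy hy'
    obtain ⟨u, hu, rfl⟩ := hy
    obtain ⟨u', hu', heq⟩ := hy'
    simp only [Prod.mk.injEq] at heq
    obtain ⟨e1, e2⟩ := heq
    subst e2
    apply hne
    apply Prod.ext e1.symm
    funext j
    rw [← hCs x hx u' hu j, ← hCs x' hx' u' hu' j]
  have hcardK : (rgHH L h U P1).card = (rgKK L h U P1).card := by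
    unfold rgHH
    exact card_image_of_injOn (rg_pair_inj hP)
  have h1 : ∑ x ∈ Conf, (goodSet L U P1 x.2).card ≤ (rgHH L h U P1).card := by
    rw [hcardK]
    refine le_trans (le_of_eq ?_) (card_le_card hsub)
    rw [card_biUnion hdisj]
    apply sum_congr rfl
    intro x _
    rw [card_image_of_injective]
    intro a b hab
    simpa using hab
  have h2 : ∀ x ∈ Conf, (Lam L * (4 * Y) ^ (L * L)) ^ 3 ≤ 2 * (goodSet L U P1 x.2).card := by
    intro x hx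
    obtain ⟨c1, c2, c3, c4⟩ := hmemC x hx
    rw [hU]
    exact goodSet_card L Y h hL P1 hP1 hcard.le hY x.2 (fun j => (c2 j).1) c4 (fun j => (c2 j).2)
  have h3 := config_count L h hL hh P1 hcard
  calc (2 * h).choose h * h.choose L * ((h / L).choose L) ^ (L - 1) *
      (Lam L * (4 * Y) ^ (L * L)) ^ 3 ≤ Conf.card * (Lam L * (4 * Y) ^ (L * L)) ^ 3 :=
        Nat.mul_le_mul_right _ h3
    _ = ∑ _x ∈ Conf, (Lam L * (4 * Y) ^ (L * L)) ^ 3 := by rw [sum_const, smul_eq_mul]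
    _ ≤ ∑ x ∈ Conf, 2 * (goodSet L U P1 x.2).card := sum_le_sum h2
    _ = 2 * ∑ x ∈ Conf, (goodSet L U P1 x.2).card := by rw [mul_sum]
    _ ≤ 2 * (rgHH L h U P1).card := Nat.mul_le_mul_left _ h1

end

/-! ### sizes -/

theorem rg_pow_eventually (q : ℕ) : ∃ N₀ : ℕ, ∀ N ≥ N₀, 4 * N ^ q ≤ 2 ^ (N / 4) := by
  have h1 : Filter.Tendsto (fun n : ℕ => (n : ℝ) ^ q / (2 : ℝ) ^ n) Filter.atTop (nhds 0) :=
    tendsto_pow_const_div_const_pow_of_one_lt q (by norm_num)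
  have h2 : ∀ᶠ n : ℕ in Filter.atTop, (n : ℝ) ^ q / (2 : ℝ) ^ n < 1 / (4 * 8 ^ q) :=
    h1.eventually (gt_mem_nhds (by positivity))
  obtain ⟨k₀, hk₀⟩ := Filter.eventually_atTop.1 h2
  refine ⟨4 * k₀ + 4, fun N hN => ?_⟩
  have hk : k₀ ≤ N / 4 := by omega
  have h3 := hk₀ (N / 4) hk
  have h4 : N ≤ 8 * (N / 4) := by omega
  have h5 : ((N / 4 : ℕ) : ℝ) ^ q * (4 * 8 ^ q) ≤ (2 : ℝ) ^ (N / 4) := by
    rw [div_lt_div_iff₀ (by positivity) (by positivity)] at h3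
    linarith
  have h6 : (N / 4) ^ q * (4 * 8 ^ q) ≤ 2 ^ (N / 4) := by exact_mod_cast h5
  calc 4 * N ^ q ≤ 4 * (8 * (N / 4)) ^ q := Nat.mul_le_mul_left _ (Nat.pow_le_pow_left h4 _)
    _ = (N / 4) ^ q * (4 * 8 ^ q) := by rw [mul_pow]; ring
    _ ≤ _ := h6

/-- R4. -/
theorem rigid_main (L : ℕ) (hL : 2 ≤ L) : ∃ c : ℝ, 0 < c ∧ ∀ q : ℕ, 2 ≤ q → ∃ N₀ : ℕ, ∀ N ≥ N₀,
    ∃ (T : Finset ℕ) (H : Finset (ℕ × ℕ)) (κ : ℕ → ℕ) (τ₀ Δ₀ : ℕ),
      T.Nonempty ∧ (∀ t ∈ T, 0 < t ∧ t ≤ 2 ^ (N ^ q)) ∧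
      (∀ ℓ ∈ H, 0 < ℓ.1 ∧ 0 < ℓ.2 ∧ ∀ j < L, ℓ.1 * (ℓ.2 + j) ∈ T) ∧
      (∀ ℓ ∈ H, ∀ ℓ' ∈ H, ℓ ≠ ℓ' → ∀ j₁ < L, ∀ j₂ < L, ∀ j₁' < L, ∀ j₂' < L,
        ℓ.1 * (ℓ.2 + j₁) = ℓ'.1 * (ℓ'.2 + j₁') → ℓ.1 * (ℓ.2 + j₂) = ℓ'.1 * (ℓ'.2 + j₂') →
        j₁ = j₂) ∧
      (∀ t, (H.filter (fun ℓ => ∃ j < L, ℓ.1 * (ℓ.2 + j) = t)).card ≤ Δ₀) ∧
      c * T.card * Δ₀ ≤ H.card * (N : ℝ) ^ ((L - 1) * L) ∧
      (N ^ (q - 1)) ^ L ≤ L ^ L * Δ₀ ∧
      0 < τ₀ ∧ (∀ t, 0 < κ t) ∧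
      (∀ ℓ ∈ H, ∀ j < L, ∃ e ≤ N ^ q,
        (Nat.divisors (ℓ.2 + j)).card * κ (ℓ.1 * (ℓ.2 + j)) = τ₀ * 2 ^ e) := by
  classical
  set D : ℕ := (2 * L ^ 2) ^ (L * (L - 1)) * (4 * L * Lam L * 4 ^ (L * L)) with hD
  have hDpos : 0 < D := by
    rw [hD]
    have := rg_Lam_pos L
    positivity
  refine ⟨1 / D, by positivity, ?_⟩
  intro q hq
  obtain ⟨N₁, hN₁⟩ := primes_supply q (by omega)
  obtain ⟨N₂, hN₂⟩ := rg_pow_eventually q
  set K0 : ℕ := 2 * Lam L ^ 4 with hK0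
  refine ⟨N₁ + N₂ + 48 * L + 4 * (L * L) + K0 + 8, fun N hN => ?_⟩
  set h := N ^ (q - 1) with hh
  set Y := N ^ q with hYdef
  have hYh : Y = N * h := by
    rw [hYdef, hh, ← pow_succ']
    congr 1
    omega
  have hNpos : 0 < N := by omega
  have hhN : N ≤ h := by
    rw [hh]
    exact Nat.le_self_pow (by omega) _
  have hLL : L * L ≤ h := by omega
  have hLh : L ≤ h := by nlinarith
  have h48 : 48 * L ≤ N := by omega
  have hY16 : 16 * L * (2 * h + L) ≤ Y := by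
    rw [hYh]
    calc 16 * L * (2 * h + L) ≤ 16 * L * (2 * h + h) := by gcongr
      _ = (48 * L) * h := by ring
      _ ≤ N * h := Nat.mul_le_mul_right _ h48
  have hYpos : 0 < Y := by rw [hYh]; exact Nat.mul_pos hNpos (by omega)
  have hYL : 4 * L ≤ Y := by nlinarith
  have hsup : 2 * h ≤ ((Ioc Y (4 * Y)).filter Nat.Prime).card := hN₁ N (by omega)
  obtain ⟨P1, hP1sub, hcard⟩ := exists_subset_card_eq hsup
  have hP1 : ∀ p ∈ P1, p.Prime ∧ Y < p ∧ p ≤ 4 * Y := by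
    intro p hp
    have := hP1sub hp
    rw [mem_filter, mem_Ioc] at this
    exact ⟨this.2, this.1⟩
  have hP : ∀ p ∈ P1, p.Prime := fun p hp => (hP1 p hp).1
  set m := Lam L * (4 * Y) ^ (L * L) with hm
  set U := m ^ 4 with hU
  have hmpos : 0 < m := Nat.mul_pos (rg_Lam_pos L) (pow_pos (by omega) _)
  have hLm : L ≤ m := by
    have h1 := rg_le_Lam hL
    have h2 : 1 ≤ (4 * Y) ^ (L * L) := Nat.one_le_pow _ _ (by omega)
    calc L ≤ Lam L := by omega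
      _ = Lam L * 1 := by ring
      _ ≤ m := Nat.mul_le_mul_left _ h2
  have hLU : L ≤ U := hLm.trans (Nat.le_self_pow (by norm_num) _)
  have hHc := rg_H_card (U := U) hL hP1 hcard hY16 hLL rfl
  rw [← hm] at hHc
  have hTc := rg_T_card (U := U) hP (fun p hp => (hP1 p hp).2.1.le) hYpos hLh hcard
  have hdivL : L ≤ h / L := (Nat.le_div_iff_mul_le (by omega)).2 hLL
  have hHpos : 0 < (rgHH L h U P1).card := by
    have h1 : 0 < (2 * h).choose h * h.choose L * ((h / L).choose L) ^ (L - 1) * m ^ 3 := by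
      have a1 : 0 < (2 * h).choose h := Nat.choose_pos (by omega)
      have a2 : 0 < h.choose L := Nat.choose_pos hLh
      have a3 : 0 < (h / L).choose L := Nat.choose_pos hdivL
      positivity
    omega
  -- size
  have hsize : (4 * Y) ^ h * (U + L) ≤ 2 ^ (N ^ q) := by
    have b1 : 4 * Y ≤ 2 ^ (N / 4) := hN₂ N (by omega)
    have b2 : (4 * Y) ^ h ≤ 2 ^ (N / 4 * h) := by
      calc (4 * Y) ^ h ≤ (2 ^ (N / 4)) ^ h := Nat.pow_le_pow_left b1 _
        _ = _ := by rw [← pow_mul]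
    have b3 : U + L ≤ 2 ^ (K0 + N / 4 * (L * L * 4)) := by
      calc U + L ≤ 2 * U := by omega
        _ = (2 * Lam L ^ 4) * (4 * Y) ^ (L * L * 4) := by
          rw [hU, hm, mul_pow, ← pow_mul]; ring
        _ ≤ 2 ^ K0 * 2 ^ (N / 4 * (L * L * 4)) := by
          apply Nat.mul_le_mul
          · exact Nat.lt_two_pow_self.le
          · calc (4 * Y) ^ (L * L * 4) ≤ (2 ^ (N / 4)) ^ (L * L * 4) := Nat.pow_le_pow_left b1 _
              _ = _ := by rw [← pow_mul]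
        _ = _ := by rw [← pow_add]
    calc (4 * Y) ^ h * (U + L) ≤ 2 ^ (N / 4 * h) * 2 ^ (K0 + N / 4 * (L * L * 4)) :=
          Nat.mul_le_mul b2 b3
      _ = 2 ^ (N / 4 * h + (K0 + N / 4 * (L * L * 4))) := by rw [← pow_add]
      _ ≤ 2 ^ (N ^ q) := by
        apply Nat.pow_le_pow_right (by norm_num)
        have hx : N ^ q = N * h := hYh
        rw [hx]
        have c1 : 4 * (N / 4 * h) ≤ N * h := by
          calc 4 * (N / 4 * h) = (4 * (N / 4)) * h := by ring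
            _ ≤ N * h := Nat.mul_le_mul_right _ (Nat.mul_div_le N 4)
        have c2 : 4 * (N / 4 * (L * L * 4)) ≤ N * h := by
          calc 4 * (N / 4 * (L * L * 4)) = (4 * (N / 4)) * (4 * (L * L)) := by ring
            _ ≤ N * (4 * (L * L)) := Nat.mul_le_mul_right _ (Nat.mul_div_le N 4)
            _ ≤ N * h := Nat.mul_le_mul_left _ (by omega)
        have c3 : 4 * K0 ≤ N * h := by
          calc 4 * K0 ≤ 4 * N := by omega
            _ = N * 4 := by ring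
            _ ≤ N * h := Nat.mul_le_mul_left _ (by omega)
        omega
  refine ⟨rgTT L h U P1, rgHH L h U P1, rgKap L, rgTau L, L * h.choose L, ?_, ?_, ?_, ?_, ?_, ?_,
    ?_, rgTau_pos L, rgKap_pos L, ?_⟩
  · obtain ⟨ℓ, hℓ⟩ := card_pos.1 hHpos
    exact ⟨ℓ.1 * (ℓ.2 + 0), rg_mem_TT.2 ⟨ℓ, hℓ, 0, by omega, rfl⟩⟩
  · intro t ht
    obtain ⟨h1, h2⟩ := rg_T_size hP (fun p hp => (hP1 p hp).2.2) hYpos t ht
    exact ⟨h1, h2.trans hsize⟩
  · intro ℓ hℓ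
    refine ⟨?_, ?_, fun j hj => rg_mem_TT.2 ⟨ℓ, hℓ, j, hj, rfl⟩⟩
    · obtain ⟨x, hx, rfl⟩ := rg_mem_HH.1 hℓ
      exact rg_prod_pos hP (rg_mem_KK.1 hx).1.1
    · obtain ⟨x, hx, rfl⟩ := rg_mem_HH.1 hℓ
      have := (rg_mem_GG.1 (rg_mem_KK.1 hx).2.1).1.1
      simp only [rgPair]
      omega
  · exact rg_pair hL hP (fun p hp => lt_of_le_of_lt hYL (hP1 p hp).2.1)
  · intro t
    convert rg_degree (U := U) hP hLh t
  · -- density
    have hnat : (rgTT L h U P1).card * (L * h.choose L) ≤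
        D * (rgHH L h U P1).card * N ^ ((L - 1) * L) := by
      apply Nat.le_of_mul_le_mul_right _ (pow_pos hYpos L)
      apply Nat.le_of_mul_le_mul_left _ (show 0 < 2 by norm_num)
      have e1 : (rgTT L h U P1).card * Y ^ L ≤ (2 * h).choose h * (2 * m ^ 4) := by
        refine hTc.trans (Nat.mul_le_mul_left _ ?_)
        rw [hU] at hLU ⊢
        omega
      have e2 := rg_choose_div L h hL hLL
      have e3 : 4 * L * m ≤ D * ((h / L).choose L) ^ (L - 1) * N ^ ((L - 1) * L) * Y ^ L := by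
        calc 4 * L * m = 4 * L * Lam L * 4 ^ (L * L) * Y ^ (L * L) := by
              rw [hm, mul_pow]; ring
          _ = 4 * L * Lam L * 4 ^ (L * L) * (h ^ (L * (L - 1)) * N ^ ((L - 1) * L) * Y ^ L) := by
              congr 1
              have : L * L = L * (L - 1) + L := by
                obtain ⟨k, rfl⟩ : ∃ k, L = k + 1 := ⟨L - 1, by omega⟩
                simp only [Nat.add_sub_cancel]
                ring
              rw [this, pow_add]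
              congr 1
              rw [hYh, mul_pow, mul_comm (L - 1) L, mul_comm]
          _ ≤ 4 * L * Lam L * 4 ^ (L * L) *
              (((2 * L ^ 2) ^ (L * (L - 1)) * ((h / L).choose L) ^ (L - 1)) *
                N ^ ((L - 1) * L) * Y ^ L) := by gcongr
          _ = D * ((h / L).choose L) ^ (L - 1) * N ^ ((L - 1) * L) * Y ^ L := by
              rw [hD]; ring
      calc 2 * ((rgTT L h U P1).card * (L * h.choose L) * Y ^ L)
          = 2 * (((rgTT L h U P1).card * Y ^ L) * (L * h.choose L)) := by ring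
        _ ≤ 2 * (((2 * h).choose h * (2 * m ^ 4)) * (L * h.choose L)) := by gcongr
        _ = (4 * L * m) * ((2 * h).choose h * h.choose L * m ^ 3) := by ring
        _ ≤ (D * ((h / L).choose L) ^ (L - 1) * N ^ ((L - 1) * L) * Y ^ L) *
            ((2 * h).choose h * h.choose L * m ^ 3) := Nat.mul_le_mul_right _ e3
        _ = (D * N ^ ((L - 1) * L) * Y ^ L) *
            ((2 * h).choose h * h.choose L * ((h / L).choose L) ^ (L - 1) * m ^ 3) := by ring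
        _ ≤ (D * N ^ ((L - 1) * L) * Y ^ L) * (2 * (rgHH L h U P1).card) :=
            Nat.mul_le_mul_left _ hHc
        _ = 2 * (D * (rgHH L h U P1).card * N ^ ((L - 1) * L) * Y ^ L) := by ring
    have hreal : ((rgTT L h U P1).card : ℝ) * ((L * h.choose L : ℕ) : ℝ) ≤
        D * (rgHH L h U P1).card * (N : ℝ) ^ ((L - 1) * L) := by exact_mod_cast hnat
    have hD' : (0 : ℝ) < D := by exact_mod_cast hDpos
    calc 1 / (D : ℝ) * (rgTT L h U P1).card * ((L * h.choose L : ℕ) : ℝ)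
        = (((rgTT L h U P1).card : ℝ) * ((L * h.choose L : ℕ) : ℝ)) / D := by ring
      _ ≤ (D * (rgHH L h U P1).card * (N : ℝ) ^ ((L - 1) * L)) / D := by gcongr
      _ = (rgHH L h U P1).card * (N : ℝ) ^ ((L - 1) * L) := by field_simp
  · calc h ^ L ≤ L ^ L * h.choose L := rg_pow_le_choose L h hLh
      _ ≤ L ^ L * (L * h.choose L) := by
        apply Nat.mul_le_mul_left
        exact Nat.le_mul_of_pos_left _ (by omega)
  · intro ℓ hℓ j hj
    obtain ⟨x, hx, rfl⟩ := rg_mem_HH.1 hℓ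
    obtain ⟨⟨h1, h2⟩, h3, h4⟩ := rg_mem_KK.1 hx
    obtain ⟨⟨g1, g1'⟩, g2, g3, g4⟩ := rg_mem_GG.1 h3
    have hcop : Nat.Coprime (∏ p ∈ x.1, p) (Lam L) := by
      apply Nat.Coprime.prod_left
      intro p hp
      exact rg_coprime_Lam (hP p (h1 hp)) (lt_of_le_of_lt hYL (hP1 p (h1 hp)).2.1)
    obtain ⟨e, he1, he2⟩ := rg_balance hL g2 hj hcop (g4 j hj)
    refine ⟨e, ?_, he2⟩
    have h5 : 2 ^ e ≤ 2 ^ (N ^ q) := by
      calc 2 ^ e ≤ x.2 + j := he1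
        _ ≤ (4 * Y) ^ h * (U + L) := by
          have : 1 ≤ (4 * Y) ^ h := Nat.one_le_pow _ _ (by omega)
          calc x.2 + j ≤ 1 * (U + L) := by omega
            _ ≤ _ := Nat.mul_le_mul_right _ this
        _ ≤ _ := hsize
    exact (Nat.pow_le_pow_iff_right (by norm_num)).1 h5

end Pool.Agent.Work.MP_f473e4_nt
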