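import Mathlib

set_option autoImplicit false

open Finset

namespace Pool.Agent.Work.MP_f473e4_nt

/-- Module T (thinning). -/
theorem thinning {T Λ : Type} [Fintype T] [DecidableEq T] [DecidableEq Λ] (H₀ : Finset Λ)
    (V : Λ → Finset T) (L Δ₀ Δ : ℕ)
    (hV : ∀ ℓ ∈ H₀, (V ℓ).card ≤ L) (hΔ₀ : ∀ t, (H₀.filter (fun ℓ => t ∈ V ℓ)).card ≤ Δ₀)
    (h1 : 1 ≤ Δ) (h2 : Δ ≤ L * Δ₀) :
    ∃ H ⊆ H₀, (∀ t, (H.filter (fun ℓ => t ∈ V ℓ)).card ≤ Δ) ∧
      H₀.card * Δ ≤ 2 * L * Δ₀ * H.card := by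
  classical
  -- maximal subfamily
  set 𝒮 : Finset (Finset Λ) :=
    H₀.powerset.filter (fun H => ∀ t, (H.filter (fun ℓ => t ∈ V ℓ)).card ≤ Δ) with h𝒮
  have hne : 𝒮.Nonempty := ⟨∅, by simp [h𝒮]⟩
  obtain ⟨H, hH, hmax⟩ := Finset.exists_max_image 𝒮 Finset.card hne
  have hHsub : H ⊆ H₀ := Finset.mem_powerset.1 (Finset.mem_filter.1 hH).1
  have hHdeg := (Finset.mem_filter.1 hH).2
  refine ⟨H, hHsub, hHdeg, ?_⟩
  set Sat : Finset T := univ.filter (fun t => (H.filter (fun ℓ => t ∈ V ℓ)).card = Δ) with hSat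
  -- each missing line contains a saturated vertex
  have hmiss : H₀ \ H ⊆ Sat.biUnion (fun t => H₀.filter (fun ℓ => t ∈ V ℓ)) := by
    intro ℓ hℓ
    obtain ⟨hℓ0, hℓH⟩ := Finset.mem_sdiff.1 hℓ
    by_contra hcon
    have hns : ∀ t ∈ V ℓ, (H.filter (fun ℓ => t ∈ V ℓ)).card < Δ := by
      intro t ht
      refine lt_of_le_of_ne (hHdeg t) (fun heq => hcon ?_)
      refine Finset.mem_biUnion.2 ⟨t, ?_, ?_⟩
      · simp [hSat, heq]
      · simp [hℓ0, ht]
    have hins : insert ℓ H ∈ 𝒮 := by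
      rw [h𝒮, Finset.mem_filter]
      refine ⟨Finset.mem_powerset.2 (Finset.insert_subset hℓ0 hHsub), ?_⟩
      intro t
      rw [Finset.filter_insert]
      split_ifs with ht
      · rw [Finset.card_insert_of_notMem (by simp [hℓH])]
        exact hns t ht
      · exact hHdeg t
    have := hmax _ hins
    rw [Finset.card_insert_of_notMem hℓH] at this
    omega
  have hc1 : (H₀ \ H).card ≤ Sat.card * Δ₀ := by
    calc (H₀ \ H).card ≤ (Sat.biUnion (fun t => H₀.filter (fun ℓ => t ∈ V ℓ))).card :=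
          Finset.card_le_card hmiss
      _ ≤ Sat.card * Δ₀ := Finset.card_biUnion_le_card_mul _ _ _ (fun t _ => hΔ₀ t)
  have hc2 : Sat.card * Δ ≤ L * H.card := by
    calc Sat.card * Δ = ∑ t ∈ Sat, (H.filter (fun ℓ => t ∈ V ℓ)).card := by
          rw [Finset.sum_congr rfl (fun t ht => (Finset.mem_filter.1 ht).2), Finset.sum_const,
            smul_eq_mul]
      _ ≤ ∑ t : T, (H.filter (fun ℓ => t ∈ V ℓ)).card :=
          Finset.sum_le_sum_of_subset (Finset.subset_univ _)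
      _ = ∑ ℓ ∈ H, (V ℓ).card := by
          simp_rw [Finset.card_filter]
          rw [Finset.sum_comm]
          refine Finset.sum_congr rfl (fun ℓ _ => ?_)
          simp
      _ ≤ ∑ ℓ ∈ H, L := Finset.sum_le_sum (fun ℓ hℓ => hV ℓ (hHsub hℓ))
      _ = L * H.card := by simp [mul_comm]
  have hc3 : H₀.card = (H₀ \ H).card + H.card := by
    rw [Finset.card_sdiff_of_subset hHsub]
    have := Finset.card_le_card hHsub
    omega
  calc H₀.card * Δ = (H₀ \ H).card * Δ + H.card * Δ := by rw [hc3]; ring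
    _ ≤ (Sat.card * Δ₀) * Δ + H.card * Δ := by gcongr
    _ = (Sat.card * Δ) * Δ₀ + H.card * Δ := by ring
    _ ≤ (L * H.card) * Δ₀ + H.card * (L * Δ₀) := by gcongr
    _ = 2 * L * Δ₀ * H.card := by ring

end Pool.Agent.Work.MP_f473e4_nt
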