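import Pool.Agent.Work.MP_f473e4_nt.Sieve
import Pool.Agent.Work.MP_f473e4_nt.Prob
import Pool.Agent.Work.MP_f473e4_nt.Arith
import Pool.Agent.Work.MP_f473e4_nt.Rigid
import Pool.Agent.Work.MP_f473e4_nt.Thin

set_option autoImplicit false

open Finset

namespace Pool.Agent.Work.MP_f473e4_nt

theorem card_divisors_sq {n : ℕ} (h : Squarefree n) : n.divisors.card = 2 ^ n.primeFactors.card := by
  have h0 : n ≠ 0 := h.ne_zero
  rw [Nat.card_divisors h0]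
  have : ∀ p ∈ n.primeFactors, n.factorization p + 1 = 2 := by
    intro p hp
    have h1 := (Nat.squarefree_iff_factorization_le_one h0).1 h p
    have h2 : 0 < n.factorization p :=
      (Nat.prime_of_mem_primeFactors hp).factorization_pos_of_dvd h0 (Nat.dvd_of_mem_primeFactors hp)
    omega
  rw [Finset.prod_congr rfl this, Finset.prod_const]

theorem final_core (L : ℕ) (hL : 2 ≤ L) (C : ℕ)
    (hC : ∀ (ι : Type) [Fintype ι] (b : ℕ) (α β : ι → ℕ), 1 ≤ b →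
      2 * Fintype.card ι ≤ 2 ^ b →
      (∀ v, 0 < α v) → (∀ v, Nat.Coprime (α v) (β v)) →
      (∀ v w p, p.Prime → p ∣ α v → p ∣ α w) →
      (∀ v p, p.Prime → p ≤ 2 ^ b → p ∣ α v) →
      ∃ m : ℕ, (∀ v, Squarefree (α v * m + β v)) ∧
        ∑ v, (α v * m + β v).primeFactors.card ≤ C * b * Fintype.card ι)
    (T : Finset ℕ) (H : Finset (ℕ × ℕ)) (κ : ℕ → ℕ) (τ₀ A D r R Δ b : ℕ) (β : ℝ)
    (hTn : T.Nonempty) (hT : ∀ t ∈ T, 0 < t)
    (hH : ∀ ℓ ∈ H, 0 < ℓ.1 ∧ 0 < ℓ.2 ∧ ∀ j < L, ℓ.1 * (ℓ.2 + j) ∈ T)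
    (hpair : ∀ ℓ ∈ H, ∀ ℓ' ∈ H, ℓ ≠ ℓ' → ∀ j₁ < L, ∀ j₂ < L, ∀ j₁' < L, ∀ j₂' < L,
        ℓ.1 * (ℓ.2 + j₁) = ℓ'.1 * (ℓ'.2 + j₁') → ℓ.1 * (ℓ.2 + j₂) = ℓ'.1 * (ℓ'.2 + j₂') →
        j₁ = j₂)
    (hdeg : ∀ t, (H.filter (fun ℓ => ∃ j < L, ℓ.1 * (ℓ.2 + j) = t)).card ≤ Δ)
    (hκ : ∀ t, 0 < κ t) (hτ : 0 < τ₀)
    (hpat : ∀ ℓ ∈ H, ∀ j < L, ∃ e ≤ A,
        (Nat.divisors (ℓ.2 + j)).card * κ (ℓ.1 * (ℓ.2 + j)) = τ₀ * 2 ^ e)
    (hR : 2 * (r + A) ≤ R) (hR0 : 0 < R)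
    (hΔ : 16 * L * Δ ≤ R ^ (L - 1)) (hΔ' : R ^ (L - 1) ≤ 32 * L * Δ) (hβ : 0 < β)
    (hHc : β * Δ * T.card ≤ H.card)
    (hD : 256 * L * Real.log (r + 2) < D * β)
    (hb1 : 1 ≤ b) (hb : 2 * T.card ^ D ≤ 2 ^ b) (hCb : (C * b : ℝ) ≤ β / 2 * (r + 1)) :
    ∃ n k : ℕ, 0 < n ∧ ∀ i < L, (n + i).divisors.card = k := by
  classical
  haveI : Nonempty T := hTn.coe_sort
  set ln : H → Fin L → T := fun ℓ j => ⟨ℓ.1.1 * (ℓ.1.2 + j), (hH ℓ.1 ℓ.2).2.2 j j.2⟩ with hln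
  have hpat' : ∀ ℓ : H, ∀ j : Fin L, ∃ e ≤ A,
      (Nat.divisors (ℓ.1.2 + j)).card * κ (ℓ.1.1 * (ℓ.1.2 + j)) = τ₀ * 2 ^ e :=
    fun ℓ j => hpat ℓ.1 ℓ.2 j j.2
  choose a haA hae using hpat'
  obtain ⟨γ, hγ⟩ := prob_main L D r R Δ A hL (T := T) (Λ := H) univ ln a
    (by
      intro ℓ _ j j' hjj
      have h1 : ℓ.1.1 * (ℓ.1.2 + j) = ℓ.1.1 * (ℓ.1.2 + j') := congrArg Subtype.val hjj
      have h2 := Nat.eq_of_mul_eq_mul_left (hH ℓ.1 ℓ.2).1 h1
      exact Fin.ext (by omega))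
    (by
      intro ℓ _ ℓ' _ hne j₁ j₂ j₁' j₂' h1 h2
      have h1' : ℓ.1.1 * (ℓ.1.2 + j₁) = ℓ'.1.1 * (ℓ'.1.2 + j₁') := congrArg Subtype.val h1
      have h2' : ℓ.1.1 * (ℓ.1.2 + j₂) = ℓ'.1.1 * (ℓ'.1.2 + j₂') := congrArg Subtype.val h2
      have := hpair ℓ.1 ℓ.2 ℓ'.1 ℓ'.2 (fun h => hne (Subtype.ext h)) j₁ j₁.2 j₂ j₂.2 j₁' j₁'.2 j₂' j₂'.2 h1' h2'
      exact Fin.ext this)
    (by
      intro t
      refine le_trans ?_ (hdeg t.1)
      refine Finset.card_le_card_of_injOn (fun ℓ => ℓ.1) ?_ ?_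
      · intro ℓ hℓ
        simp only [Finset.coe_filter, Finset.mem_univ, true_and, Set.mem_setOf_eq] at hℓ
        obtain ⟨j, hj⟩ := hℓ
        simp only [Finset.coe_filter, Set.mem_setOf_eq]
        exact ⟨ℓ.2, j, j.2, congrArg Subtype.val hj⟩
      · intro x _ y _ hxy
        exact Subtype.ext hxy)
    (fun ℓ _ j => haA ℓ j) hR hR0 hΔ hΔ' β hβ
    (by simpa using hHc) hD
  set f : Fin D → (Fin D → T) → ℕ := fun i v => 2 ^ (γ i v : ℕ) * κ (v i : ℕ) with hf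
  obtain ⟨Q, Γ, F, g, E, α, β', hΓ, hF, hg, hE, hgu, hEu, hFu, hdv, hτf, hα, hcop, hsame, hsmall⟩ :=
    arith_main D T hT hTn (2 ^ b) f (fun i v => Nat.mul_pos (by positivity) (hκ _))
  obtain ⟨m, hsq, hsum⟩ := hC (Fin D → T) b α β' hb1
    (by simpa using hb) hα hcop hsame hsmall
  set c : (Fin D → T) → ℕ := fun v => (α v * m + β' v).primeFactors.card with hc
  obtain ⟨i, v, ℓ, _, hbal⟩ := hγ c (by
    have h1 : ((univ.filter (fun v => r < c v)).card : ℝ) * (r + 1) ≤ (C * b * Fintype.card (Fin D → T) : ℕ) := by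
      have h2 : (univ.filter (fun v => r < c v)).card * (r + 1) ≤ ∑ v, c v := by
        calc (univ.filter (fun v => r < c v)).card * (r + 1)
            = ∑ v ∈ univ.filter (fun v => r < c v), (r + 1) := by simp
          _ ≤ ∑ v ∈ univ.filter (fun v => r < c v), c v := by
              apply Finset.sum_le_sum
              intro v hv
              have := (Finset.mem_filter.1 hv).2
              omega
          _ ≤ ∑ v, c v := Finset.sum_le_sum_of_subset (Finset.filter_subset _ _)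
      exact_mod_cast h2.trans hsum
    have hr : (0 : ℝ) < r + 1 := by positivity
    have h3 : ((univ.filter (fun v => r < c v)).card : ℝ) * (r + 1)
        ≤ (β / 2 * Fintype.card (Fin D → T)) * (r + 1) := by
      refine h1.trans ?_
      push_cast
      have hX : (0 : ℝ) ≤ (Fintype.card (Fin D → T) : ℝ) := by positivity
      have h5 := mul_le_mul_of_nonneg_right hCb hX
      push_cast at h5 ⊢
      nlinarith [h5]
    exact le_of_mul_le_mul_right h3 hr)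
  -- the run
  set vj : Fin L → (Fin D → T) := fun j => Function.update v i (ln ℓ j) with hvj
  set s : ℕ := ℓ.1.1 with hs
  set u : ℕ := ℓ.1.2 with hu
  have hs0 : 0 < s := (hH ℓ.1 ℓ.2).1
  have hu0 : 0 < u := (hH ℓ.1 ℓ.2).2.1
  have hvji : ∀ j, ((vj j) i : ℕ) = s * (u + j) := by
    intro j
    simp [hvj, hln, hs, hu]
  set G : ℕ := g i v with hG
  have hG0 : 0 < G := hg i v
  have hgj : ∀ j, g i (vj j) = G := fun j => hgu i v _
  have hEj : ∀ j, E i (vj j) = E i v := fun j => hEu i v _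
  let j0 : Fin L := ⟨0, by omega⟩
  have hFj : ∀ j, F (vj j) = F (vj j0) + G * s * j := by
    intro j
    have h1 := hFu i v (ln ℓ j)
    have h2 := hFu i v (ln ℓ j0)
    have e1 : ((ln ℓ j : T) : ℕ) = s * (u + j) := by simp [hln, hs, hu]
    have e2 : ((ln ℓ j0 : T) : ℕ) = s * (u + (j0 : ℕ)) := by simp [hln, hs, hu]
    have h3 : (F (vj j) : ℤ) - F (vj j0) = G * (s * (u + j)) - G * (s * u) := by
      have e3 : ((j0 : ℕ) : ℤ) = 0 := by simp [j0]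
      rw [e1] at h1
      rw [e2] at h2
      push_cast at h1 h2
      rw [e3] at h2
      simp only [hvj]
      rw [hG]
      linear_combination h1 - h2
    have h4 : (F (vj j) : ℤ) = ((F (vj j0) + G * s * j : ℕ) : ℤ) := by
      push_cast
      linear_combination h3
    exact_mod_cast h4
  have hdvd : ∀ j, s * G ∣ F (vj j) ∧ s * G ∣ Q := by
    intro j
    have := hdv i (vj j) s (by rw [hvji]; exact dvd_mul_right _ _)
    rwa [hgj] at this
  set n : ℕ := (Q * m + F (vj j0)) / (s * G) with hn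
  have hsG : 0 < s * G := Nat.mul_pos hs0 hG0
  have hN : ∀ j : Fin L, (Q * m + F (vj j)) / (s * G) = n + j := by
    intro j
    rw [hFj j, hn, ← add_assoc]
    have : Q * m + F (vj j0) + G * s * j = Q * m + F (vj j0) + (s * G) * j := by ring
    rw [this, Nat.add_mul_div_left _ _ hsG]
  refine ⟨n, (n + 0).divisors.card, ?_, ?_⟩
  · rw [hn]
    apply Nat.div_pos _ hsG
    have := Nat.le_of_dvd (hF (vj j0)) (hdvd j0).1
    omega
  · -- equal number of divisors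
    have key : ∀ j : Fin L, E i v * (n + (j : ℕ)).divisors.card
        = Γ * τ₀ * 2 ^ (c (vj j) + (γ i (vj j) : ℕ) + a ℓ j) := by
      intro j
      have h1 := hτf i (vj j) s m (by rw [hvji]; exact dvd_mul_right _ _)
      rw [hgj, hEj, hN, hvji, Nat.mul_div_cancel_left _ hs0, card_divisors_sq (hsq _)] at h1
      rw [h1]
      have h2 := hae ℓ j
      simp only [hf, hvji]
      have h3 : (u + (j : ℕ)).divisors.card * κ (s * (u + j)) = τ₀ * 2 ^ (a ℓ j) := h2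
      have h4 : c (vj j) = (α (vj j) * m + β' (vj j)).primeFactors.card := rfl
      rw [← h4, pow_add, pow_add]
      calc Γ * (u + (j : ℕ)).divisors.card * (2 ^ (γ i (vj j) : ℕ) * κ (s * (u + j))) * 2 ^ c (vj j)
          = Γ * ((u + (j : ℕ)).divisors.card * κ (s * (u + j))) * 2 ^ (γ i (vj j) : ℕ) * 2 ^ c (vj j) := by
            ring
        _ = _ := by rw [h3]; ring
    intro j hj
    have h1 := key ⟨j, hj⟩
    have h2 := key j0
    have h3 := hbal ⟨j, hj⟩ j0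
    have h4 : c (vj ⟨j, hj⟩) + (γ i (vj ⟨j, hj⟩) : ℕ) + a ℓ ⟨j, hj⟩ = c (vj j0) + (γ i (vj j0) : ℕ) + a ℓ j0 := h3
    rw [h4, ← h2] at h1
    exact Nat.eq_of_mul_eq_mul_left (hE i v) h1

end Pool.Agent.Work.MP_f473e4_nt
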