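import Pool.Agent.Work.MP_f473e4_nt.SCrt

set_option autoImplicit false

open Finset

namespace Pool.Agent.Work.MP_f473e4_nt

/-- S4. file SAvg.lean (uses S3) -/
theorem avg_prod (M q a : ℕ) (hq : 0 < q) (ha : a < q) (J : Finset ℕ) (P : ℕ → Finset ℕ)
    (hP : ∀ j ∈ J, ∀ p ∈ P j, p.Prime ∧ Nat.Coprime q p)
    (hdisj : ∀ j ∈ J, ∀ j' ∈ J, j ≠ j' → Disjoint (P j) (P j'))
    (A : ℕ → Finset ℕ) (hA : ∀ p, A p ⊆ range p) (c : ℕ → Finset ℕ → ℝ) :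
    |(∑ m ∈ (range M).filter (fun m => m % q = a), ∏ j ∈ J, ∑ S ∈ (P j).powerset,
        c j S * (if ∀ p ∈ S, m % p ∈ A p then (1 : ℝ) else 0))
      - (M : ℝ) / q * ∏ j ∈ J, ∑ S ∈ (P j).powerset, c j S * ∏ p ∈ S, (((A p).card : ℝ) / p)|
    ≤ ∏ j ∈ J, ∑ S ∈ (P j).powerset, |c j S| * ∏ p ∈ S, ((A p).card : ℝ) := by
  classical
  set Φ := J.pi (fun j => (P j).powerset) with hΦ
  set U : ((j : ℕ) → j ∈ J → Finset ℕ) → Finset ℕ :=
    fun φ => J.attach.biUnion (fun x => φ x.1 x.2) with hU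
  have hφ : ∀ φ ∈ Φ, ∀ x ∈ J.attach, φ x.1 x.2 ⊆ P x.1 := by
    intro φ hφ x _
    have := mem_pi.1 hφ x.1 x.2
    exact mem_powerset.1 this
  have hpw : ∀ φ ∈ Φ, (J.attach : Set {x // x ∈ J}).PairwiseDisjoint (fun x => φ x.1 x.2) := by
    intro φ hφ' x hx y hy hne
    have h1 := hφ φ hφ' x (mem_attach _ _)
    have h2 := hφ φ hφ' y (mem_attach _ _)
    have h3 : x.1 ≠ y.1 := fun h => hne (Subtype.ext h)
    exact (hdisj x.1 x.2 y.1 y.2 h3).mono h1 h2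
  have hprodU : ∀ φ ∈ Φ, ∀ f : ℕ → ℝ,
      ∏ p ∈ U φ, f p = ∏ x ∈ J.attach, ∏ p ∈ φ x.1 x.2, f p := by
    intro φ hφ' f
    rw [hU]
    exact prod_biUnion (hpw φ hφ')
  -- expansions
  have e1 : ∀ m, ∏ j ∈ J, ∑ S ∈ (P j).powerset,
        c j S * (if ∀ p ∈ S, m % p ∈ A p then (1 : ℝ) else 0)
      = ∑ φ ∈ Φ, (∏ x ∈ J.attach, c x.1 (φ x.1 x.2)) *
          (if ∀ p ∈ U φ, m % p ∈ A p then (1 : ℝ) else 0) := by
    intro m
    rw [prod_sum]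
    refine sum_congr rfl fun φ hφ' => ?_
    rw [prod_mul_distrib]
    congr 1
    rw [prod_ite_zero]
    simp only [prod_const_one]
    congr 1
    rw [hU]
    simp only [mem_biUnion, eq_iff_iff]
    constructor
    · rintro h p ⟨x, hx, hp⟩
      exact h x hx p hp
    · intro h x hx p hp
      exact h p ⟨x, hx, hp⟩
  have e2 : ∏ j ∈ J, ∑ S ∈ (P j).powerset, c j S * ∏ p ∈ S, (((A p).card : ℝ) / p)
      = ∑ φ ∈ Φ, (∏ x ∈ J.attach, c x.1 (φ x.1 x.2)) * ∏ p ∈ U φ, (((A p).card : ℝ) / p) := by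
    rw [prod_sum]
    refine sum_congr rfl fun φ hφ' => ?_
    rw [prod_mul_distrib, hprodU φ hφ']
  have e3 : ∏ j ∈ J, ∑ S ∈ (P j).powerset, |c j S| * ∏ p ∈ S, ((A p).card : ℝ)
      = ∑ φ ∈ Φ, |∏ x ∈ J.attach, c x.1 (φ x.1 x.2)| * ∏ p ∈ U φ, ((A p).card : ℝ) := by
    rw [prod_sum]
    refine sum_congr rfl fun φ hφ' => ?_
    rw [prod_mul_distrib, hprodU φ hφ', abs_prod]
  have e4 : (∑ m ∈ (range M).filter (fun m => m % q = a), ∏ j ∈ J, ∑ S ∈ (P j).powerset,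
        c j S * (if ∀ p ∈ S, m % p ∈ A p then (1 : ℝ) else 0))
      = ∑ φ ∈ Φ, (∏ x ∈ J.attach, c x.1 (φ x.1 x.2)) *
        (((range M).filter (fun m => m % q = a ∧ ∀ p ∈ U φ, m % p ∈ A p)).card : ℝ) := by
    rw [sum_congr rfl (fun m _ => e1 m), sum_comm]
    refine sum_congr rfl fun φ hφ' => ?_
    rw [← mul_sum]
    congr 1
    rw [← sum_filter, sum_const, nsmul_eq_mul, mul_one, filter_filter]
  rw [e4, e2, e3, mul_sum, ← sum_sub_distrib]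
  refine (abs_sum_le_sum_abs _ _).trans (sum_le_sum fun φ hφ' => ?_)
  have h1 := crt_count M (U φ) ?_ q a hq ha ?_ A hA
  · have h2 : (∏ x ∈ J.attach, c x.1 (φ x.1 x.2)) *
        (((range M).filter (fun m => m % q = a ∧ ∀ p ∈ U φ, m % p ∈ A p)).card : ℝ)
        - (M : ℝ) / q * ((∏ x ∈ J.attach, c x.1 (φ x.1 x.2)) * ∏ p ∈ U φ, (((A p).card : ℝ) / p))
        = (∏ x ∈ J.attach, c x.1 (φ x.1 x.2)) *
        ((((range M).filter (fun m => m % q = a ∧ ∀ p ∈ U φ, m % p ∈ A p)).card : ℝ)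
          - (M : ℝ) / q * ∏ p ∈ U φ, (((A p).card : ℝ) / p)) := by ring
    rw [h2, abs_mul]
    exact mul_le_mul_of_nonneg_left h1 (abs_nonneg _)
  · intro p hp
    obtain ⟨x, hx, hp'⟩ := mem_biUnion.1 hp
    exact (hP x.1 x.2 p (hφ φ hφ' x hx hp')).1
  · intro p hp
    obtain ⟨x, hx, hp'⟩ := mem_biUnion.1 hp
    exact (hP x.1 x.2 p (hφ φ hφ' x hx hp')).2

end Pool.Agent.Work.MP_f473e4_nt
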