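import Mathlib

set_option autoImplicit false

open Finset

namespace Pool.Agent.Work.MP_f473e4_nt

theorem dyadic_sum (i : ℕ) (hi : 1 ≤ i) :
    ∑ p ∈ (Ioc (2 ^ i) (2 ^ (i + 1))).filter Nat.Prime, (1 : ℝ) / p ≤ 4 / i := by
  set S := (Ioc (2 ^ i) (2 ^ (i + 1))).filter Nat.Prime with hS
  have hprod : ∏ p ∈ S, p ≤ 4 ^ (2 ^ (i + 1)) := by
    refine le_trans ?_ (primorial_le_four_pow (2 ^ (i + 1)))
    unfold primorial
    refine prod_le_prod_of_subset_of_one_le' ?_ ?_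
    · intro p hp
      simp only [hS, mem_filter, mem_Ioc] at hp
      simp only [mem_filter, mem_range]
      exact ⟨by omega, hp.2⟩
    · intro p hp _
      exact (mem_filter.1 hp).2.one_le
  have h2 : (2 ^ i) ^ S.card ≤ ∏ p ∈ S, p := by
    rw [← prod_const]
    refine prod_le_prod' fun p hp => ?_
    simp only [hS, mem_filter, mem_Ioc] at hp
    exact hp.1.1.le
  have h3 : i * S.card ≤ 2 * 2 ^ (i + 1) := by
    have h4 : 2 ^ (i * S.card) ≤ 2 ^ (2 * 2 ^ (i + 1)) := by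
      rw [pow_mul, pow_mul]
      exact h2.trans hprod
    exact (Nat.pow_le_pow_iff_right (by norm_num)).1 h4
  have h5 : ∑ p ∈ S, (1 : ℝ) / p ≤ ∑ p ∈ S, (1 : ℝ) / 2 ^ i := by
    refine sum_le_sum fun p hp => ?_
    simp only [hS, mem_filter, mem_Ioc] at hp
    have h6 : ((2 : ℝ) ^ i) ≤ p := by exact_mod_cast hp.1.1.le
    exact one_div_le_one_div_of_le (by positivity) h6
  refine h5.trans ?_
  rw [sum_const, nsmul_eq_mul]
  have hi0 : (0 : ℝ) < i := by exact_mod_cast hi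
  have h7 : (i : ℝ) * S.card ≤ 2 * 2 ^ (i + 1) := by exact_mod_cast h3
  rw [le_div_iff₀ hi0]
  have h8 : (0 : ℝ) < 2 ^ i := by positivity
  rw [mul_one_div, div_mul_eq_mul_div, div_le_iff₀ h8]
  rw [pow_succ] at h7
  nlinarith

theorem range_sum (a n : ℕ) :
    ∑ p ∈ (Ioc (2 ^ a) (2 ^ (a + n))).filter Nat.Prime, (1 : ℝ) / p
      = ∑ i ∈ range n, ∑ p ∈ (Ioc (2 ^ (a + i)) (2 ^ (a + i + 1))).filter Nat.Prime, (1 : ℝ) / p := by
  induction n with
  | zero => simp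
  | succ n ih =>
    rw [sum_range_succ, ← ih]
    rw [← sum_union]
    · congr 1
      rw [← filter_union]
      congr 1
      rw [Ioc_union_Ioc_eq_Ioc]
      · rfl
      · exact Nat.pow_le_pow_right (by norm_num) (by omega)
      · exact Nat.pow_le_pow_right (by norm_num) (by omega)
    · rw [disjoint_left]
      intro p hp hp'
      simp only [mem_filter, mem_Ioc] at hp hp'
      omega

/-- S1. file SBlock.lean -/
theorem block_sum (j : ℕ) (hj : 1 ≤ j) :
    ∑ p ∈ (Ioc (2 ^ (2 ^ (j - 1))) (2 ^ (2 ^ j))).filter Nat.Prime, (1 : ℝ) / p ≤ 4 := by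
  obtain ⟨k, rfl⟩ : ∃ k, j = k + 1 := ⟨j - 1, by omega⟩
  simp only [Nat.add_sub_cancel]
  have h1 : (2 : ℕ) ^ (k + 1) = 2 ^ k + 2 ^ k := by ring
  rw [h1, range_sum]
  have h2 : ∀ i ∈ range (2 ^ k), ∑ p ∈ (Ioc (2 ^ (2 ^ k + i)) (2 ^ (2 ^ k + i + 1))).filter Nat.Prime, (1 : ℝ) / p
      ≤ 4 / (2 : ℝ) ^ k := by
    intro i _
    have h3 : 1 ≤ 2 ^ k := Nat.one_le_two_pow
    refine (dyadic_sum (2 ^ k + i) (by omega)).trans ?_
    have h4 : ((2 : ℝ) ^ k) ≤ ((2 ^ k + i : ℕ) : ℝ) := by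
      push_cast
      have : (0 : ℝ) ≤ i := by positivity
      linarith
    exact div_le_div_of_nonneg_left (by norm_num) (by positivity) h4
  refine (sum_le_sum h2).trans ?_
  rw [sum_const, card_range, nsmul_eq_mul]
  push_cast
  rw [mul_div_assoc', mul_comm, mul_div_assoc, div_self (by positivity), mul_one]

end Pool.Agent.Work.MP_f473e4_nt
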