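import Pool.Agent.Work.MP_f473e4_nt.SAvg
import Pool.Agent.Work.MP_f473e4_nt.SComb
import Pool.Agent.Work.MP_f473e4_nt.SBlock

set_option autoImplicit false

open Finset

namespace Pool.Agent.Work.MP_f473e4_nt

theorem one_sub_ge (x : ℝ) (h0 : 0 ≤ x) (h1 : x ≤ 1 / 2) :
    Real.exp (-(x * Real.log 4)) ≤ 1 - x := by
  have hc := convexOn_exp.2 (Set.mem_univ (0 : ℝ)) (Set.mem_univ (-Real.log 2))
    (show (0 : ℝ) ≤ 1 - 2 * x by linarith) (show (0 : ℝ) ≤ 2 * x by linarith) (by ring)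
  simp only [smul_eq_mul, mul_zero, zero_add, Real.exp_zero, mul_one] at hc
  have h4 : Real.log 4 = 2 * Real.log 2 := by
    rw [show (4 : ℝ) = 2 ^ 2 by norm_num, Real.log_pow]
    norm_num
  have h5 : Real.exp (-Real.log 2) = 1 / 2 := by
    rw [Real.exp_neg, Real.exp_log (by norm_num)]
    norm_num
  rw [h5] at hc
  have h6 : -(x * Real.log 4) = 2 * x * -Real.log 2 := by rw [h4]; ring
  rw [h6]
  linarith

section block

variable (k j : ℕ) (Pj : Finset ℕ) (A : ℕ → Finset ℕ)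

theorem sum_g_le (hj : 1 ≤ j)
    (hP : ∀ p ∈ Pj, p.Prime ∧ 2 ^ (2 ^ (j - 1)) < p ∧ p ≤ 2 ^ (2 ^ j) ∧ 2 * k ≤ p)
    (hAk : ∀ p, (A p).card ≤ k) :
    ∑ p ∈ Pj, (((A p).card : ℝ) / p) ≤ 4 * k := by
  have h1 : ∑ p ∈ Pj, (((A p).card : ℝ) / p) ≤ ∑ p ∈ Pj, (k : ℝ) * (1 / p) := by
    refine sum_le_sum fun p hp => ?_
    rw [mul_one_div]
    have : ((A p).card : ℝ) ≤ k := by exact_mod_cast hAk p
    exact div_le_div_of_nonneg_right this (by positivity)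
  refine h1.trans ?_
  rw [← mul_sum]
  have h2 : ∑ p ∈ Pj, (1 : ℝ) / p
      ≤ ∑ p ∈ (Ioc (2 ^ (2 ^ (j - 1))) (2 ^ (2 ^ j))).filter Nat.Prime, (1 : ℝ) / p := by
    refine sum_le_sum_of_subset_of_nonneg ?_ fun p _ _ => by positivity
    intro p hp
    obtain ⟨h3, h4, h5, _⟩ := hP p hp
    simp [mem_filter, h3, h4, h5]
  have h3 := h2.trans (block_sum j hj)
  have hk0 : (0 : ℝ) ≤ k := by positivity
  nlinarith

theorem g_bound (hP : ∀ p ∈ Pj, p.Prime ∧ 2 ^ (2 ^ (j - 1)) < p ∧ p ≤ 2 ^ (2 ^ j) ∧ 2 * k ≤ p)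
    (hAk : ∀ p, (A p).card ≤ k) : ∀ p ∈ Pj, 0 ≤ ((A p).card : ℝ) / p ∧ ((A p).card : ℝ) / p ≤ 1 / 2 := by
  intro p hp
  obtain ⟨h3, h4, h5, h6⟩ := hP p hp
  refine ⟨by positivity, ?_⟩
  have hp0 : (0 : ℝ) < p := by exact_mod_cast h3.pos
  rw [div_le_div_iff₀ hp0 (by norm_num)]
  have h7 : (A p).card * 2 ≤ 1 * p := by
    have := hAk p
    omega
  exact_mod_cast h7

theorem prod_ge (hj : 1 ≤ j)
    (hP : ∀ p ∈ Pj, p.Prime ∧ 2 ^ (2 ^ (j - 1)) < p ∧ p ≤ 2 ^ (2 ^ j) ∧ 2 * k ≤ p)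
    (hAk : ∀ p, (A p).card ≤ k) :
    (1 / 4 : ℝ) ^ (4 * k) ≤ ∏ p ∈ Pj, (1 - ((A p).card : ℝ) / p) := by
  have hg := g_bound k j Pj A hP hAk
  have h1 : ∏ p ∈ Pj, Real.exp (-(((A p).card : ℝ) / p * Real.log 4))
      ≤ ∏ p ∈ Pj, (1 - ((A p).card : ℝ) / p) :=
    prod_le_prod (fun p _ => (Real.exp_pos _).le) fun p hp => one_sub_ge _ (hg p hp).1 (hg p hp).2
  refine le_trans ?_ h1
  rw [← Real.exp_sum, sum_neg_distrib, ← sum_mul]
  have h2 := sum_g_le k j Pj A hj hP hAk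
  have h3 : (1 / 4 : ℝ) ^ (4 * k) = Real.exp (-((4 * k : ℝ) * Real.log 4)) := by
    have h5 : -((4 * k : ℝ) * Real.log 4) = ((4 * k : ℕ) : ℝ) * (-Real.log 4) := by
      push_cast
      ring
    rw [h5, Real.exp_nat_mul, Real.exp_neg, Real.exp_log (by norm_num), one_div]
  rw [h3]
  apply Real.exp_le_exp.2
  have h4 : 0 ≤ Real.log 4 := Real.log_nonneg (by norm_num)
  nlinarith

theorem Y_ge (hj : 1 ≤ j)
    (hP : ∀ p ∈ Pj, p.Prime ∧ 2 ^ (2 ^ (j - 1)) < p ∧ p ≤ 2 ^ (2 ^ j) ∧ 2 * k ≤ p)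
    (hAk : ∀ p, (A p).card ≤ k) (b : ℕ) :
    (1 / 4 : ℝ) ^ (4 * k) ≤ ∑ S ∈ Pj.powerset, (if S.card ≤ 2 * b then (-1 : ℝ) ^ S.card else 0) *
      ∏ p ∈ S, (((A p).card : ℝ) / p) := by
  have hg := g_bound k j Pj A hP hAk
  have h1 := model_even Pj (fun p => ((A p).card : ℝ) / p)
    (fun p hp => ⟨(hg p hp).1, (hg p hp).2.trans (by norm_num)⟩) b
  refine (prod_ge k j Pj A hj hP hAk).trans (h1.trans (le_of_eq ?_))
  rw [sum_filter]
  refine sum_congr rfl fun S _ => ?_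
  split_ifs <;> simp

theorem E_le (hj : 1 ≤ j)
    (hP : ∀ p ∈ Pj, p.Prime ∧ 2 ^ (2 ^ (j - 1)) < p ∧ p ≤ 2 ^ (2 ^ j) ∧ 2 * k ≤ p)
    (hAk : ∀ p, (A p).card ≤ k) (i : ℕ) :
    ∑ S ∈ Pj.powerset, (if S.card = 2 * (40 * k + i) + 1 then (1 : ℝ) else 0) *
      ∏ p ∈ S, (((A p).card : ℝ) / p) ≤ (1 / 4 : ℝ) ^ (4 * k) * (1 / 16) ^ (i + 1) := by
  have hg := g_bound k j Pj A hP hAk
  have h1 := esymm_bound Pj (fun p => ((A p).card : ℝ) / p) (fun p hp => (hg p hp).1)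
    (2 * (40 * k + i) + 1) 16 (by norm_num)
  have h0 : ∑ S ∈ Pj.powerset, (if S.card = 2 * (40 * k + i) + 1 then (1 : ℝ) else 0) *
      ∏ p ∈ S, (((A p).card : ℝ) / p)
      = ∑ S ∈ Pj.powerset.filter (fun S => S.card = 2 * (40 * k + i) + 1),
        ∏ p ∈ S, (((A p).card : ℝ) / p) := by
    rw [sum_filter]
    refine sum_congr rfl fun S _ => ?_
    split_ifs <;> simp
  rw [h0]
  refine h1.trans ?_
  have h2 := sum_g_le k j Pj A hj hP hAk
  have h3 : Real.exp (16 * ∑ p ∈ Pj, (((A p).card : ℝ) / p)) ≤ 16 ^ (32 * k) := by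
    have h4 : Real.exp (16 * ∑ p ∈ Pj, (((A p).card : ℝ) / p)) ≤ Real.exp ((64 * k : ℕ) * 1) := by
      apply Real.exp_le_exp.2
      push_cast
      linarith
    refine h4.trans ?_
    rw [Real.exp_nat_mul]
    have h5 : Real.exp 1 ≤ 4 := by
      have := Real.exp_one_lt_d9
      linarith
    calc (Real.exp 1) ^ (64 * k) ≤ 4 ^ (64 * k) := pow_le_pow_left₀ (Real.exp_pos _).le h5 _
      _ = 16 ^ (32 * k) := by
        rw [show (16 : ℝ) = 4 ^ 2 by norm_num, ← pow_mul]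
        congr 1
        ring
  rw [div_le_iff₀ (by positivity)]
  refine h3.trans ?_
  have h6 : (1 / 4 : ℝ) ^ (4 * k) = (1 / 16) ^ (2 * k) := by
    rw [show (1 / 16 : ℝ) = (1 / 4) ^ 2 by norm_num, ← pow_mul]
    congr 1
    ring
  rw [h6]
  have h7 : (16 : ℝ) ^ (2 * (40 * k + i) + 1)
      = 16 ^ (32 * k) * 16 ^ (2 * k) * 16 ^ (i + 1) * 16 ^ (46 * k + i) := by
    rw [← pow_add, ← pow_add, ← pow_add]
    congr 1
    ring
  rw [h7]
  have h8 : (1 / 16 : ℝ) ^ (2 * k) * (1 / 16) ^ (i + 1) *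
      (16 ^ (32 * k) * 16 ^ (2 * k) * 16 ^ (i + 1) * 16 ^ (46 * k + i))
      = 16 ^ (32 * k) * 16 ^ (46 * k + i) := by
    rw [one_div, inv_pow, inv_pow]
    field_simp
  rw [h8]
  have h9 : (1 : ℝ) ≤ 16 ^ (46 * k + i) := one_le_pow₀ (by norm_num)
  have h10 : (0 : ℝ) < 16 ^ (32 * k) := by positivity
  nlinarith

theorem count_le (n : ℕ) :
    ∑ S ∈ Pj.powerset, (if S.card ≤ n then (k : ℝ) ^ S.card else 0) ≤ (1 + Pj.card * k : ℝ) ^ n := by
  rw [sum_powerset_apply_card (fun i => if i ≤ n then (k : ℝ) ^ i else 0)]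
  have h1 : ∑ m ∈ range (Pj.card + 1), (Pj.card).choose m • (if m ≤ n then (k : ℝ) ^ m else 0)
      ≤ ∑ m ∈ range (n + 1), (Pj.card * k : ℝ) ^ m := by
    have h2 : ∑ m ∈ range (Pj.card + 1), (Pj.card).choose m • (if m ≤ n then (k : ℝ) ^ m else 0)
        = ∑ m ∈ (range (Pj.card + 1)).filter (fun m => m ≤ n), ((Pj.card).choose m : ℝ) * (k : ℝ) ^ m := by
      rw [sum_filter]
      refine sum_congr rfl fun m _ => ?_
      split_ifs <;> simp
    rw [h2]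
    have h3 : (range (Pj.card + 1)).filter (fun m => m ≤ n) ⊆ range (n + 1) := by
      intro m hm
      simp only [mem_filter, mem_range] at hm ⊢
      omega
    refine (sum_le_sum_of_subset_of_nonneg h3 fun m _ _ => by positivity).trans ?_
    refine sum_le_sum fun m _ => ?_
    rw [mul_pow]
    refine mul_le_mul_of_nonneg_right ?_ (by positivity)
    exact_mod_cast Nat.choose_le_pow _ _
  refine h1.trans ?_
  rw [add_comm (1 : ℝ), add_pow]
  refine sum_le_sum fun m hm => ?_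
  rw [one_pow, mul_one]
  have h4 : (1 : ℝ) ≤ (n.choose m : ℝ) := by
    exact_mod_cast Nat.choose_pos (Nat.lt_succ_iff.1 (mem_range.1 hm))
  have h5 : (0 : ℝ) ≤ (Pj.card * k : ℝ) ^ m := by positivity
  nlinarith

theorem err_block (hk : 1 ≤ k)
    (hP : ∀ p ∈ Pj, p.Prime ∧ 2 ^ (2 ^ (j - 1)) < p ∧ p ≤ 2 ^ (2 ^ j) ∧ 2 * k ≤ p)
    (hAk : ∀ p, (A p).card ≤ k) (n : ℕ) (c : Finset ℕ → ℝ)
    (hc : ∀ S, |c S| ≤ if S.card ≤ n then 1 else 0) :
    ∑ S ∈ Pj.powerset, |c S| * ∏ p ∈ S, ((A p).card : ℝ) ≤ (2 : ℝ) ^ ((2 ^ j + k + 1) * n) := by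
  have h1 : ∑ S ∈ Pj.powerset, |c S| * ∏ p ∈ S, ((A p).card : ℝ)
      ≤ ∑ S ∈ Pj.powerset, (if S.card ≤ n then (k : ℝ) ^ S.card else 0) := by
    refine sum_le_sum fun S _ => ?_
    have h2 : ∏ p ∈ S, ((A p).card : ℝ) ≤ (k : ℝ) ^ S.card := by
      rw [← prod_const]
      exact prod_le_prod (fun p _ => by positivity) fun p _ => by exact_mod_cast hAk p
    have h3 : 0 ≤ ∏ p ∈ S, ((A p).card : ℝ) := prod_nonneg fun p _ => by positivity
    have h4 := hc S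
    by_cases h : S.card ≤ n
    · rw [if_pos h] at h4 ⊢
      calc |c S| * ∏ p ∈ S, ((A p).card : ℝ) ≤ 1 * ∏ p ∈ S, ((A p).card : ℝ) :=
            mul_le_mul_of_nonneg_right h4 h3
        _ ≤ _ := by rw [one_mul]; exact h2
    · rw [if_neg h] at h4 ⊢
      have h5 : |c S| = 0 := le_antisymm h4 (abs_nonneg _)
      rw [h5, zero_mul]
  refine h1.trans ((count_le k Pj n).trans ?_)
  rw [pow_mul]
  refine pow_le_pow_left₀ (by positivity) ?_ n
  have h6 : Pj.card ≤ 2 ^ (2 ^ j) := by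
    have h7 : Pj ⊆ Icc 1 (2 ^ (2 ^ j)) := by
      intro p hp
      obtain ⟨h3, h4, h5, h6⟩ := hP p hp
      exact mem_Icc.2 ⟨h3.one_le, h5⟩
    have := card_le_card h7
    simpa using this
  have h8 : k < 2 ^ k := Nat.lt_two_pow_self
  have h9 : 1 + Pj.card * k ≤ 2 ^ (2 ^ j + k + 1) := by
    have h10 : Pj.card * k ≤ 2 ^ (2 ^ j) * 2 ^ k := Nat.mul_le_mul h6 h8.le
    have h11 : 1 ≤ 2 ^ (2 ^ j) * 2 ^ k := Nat.one_le_iff_ne_zero.2 (by positivity)
    rw [pow_succ, pow_add]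
    omega
  exact_mod_cast h9

end block

theorem exp_sum1 (b : ℕ) : ∀ J : ℕ, ∑ j ∈ Icc 1 J, 2 ^ j * (2 * (b + (J - j)) + 1) ≤ (4 * b + 6) * 2 ^ J := by
  intro J
  induction J with
  | zero => simp
  | succ J ih =>
    rw [Finset.sum_Icc_succ_top (by omega)]
    have h1 : ∑ j ∈ Icc 1 J, 2 ^ j * (2 * (b + (J + 1 - j)) + 1)
        = ∑ j ∈ Icc 1 J, 2 ^ j * (2 * (b + (J - j)) + 1) + ∑ j ∈ Icc 1 J, 2 ^ j * 2 := by
      rw [← sum_add_distrib]
      refine sum_congr rfl fun j hj => ?_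
      have h2 := (mem_Icc.1 hj).2
      have h3 : J + 1 - j = (J - j) + 1 := by omega
      rw [h3]
      ring
    have h4 : ∑ j ∈ Icc 1 J, 2 ^ j * 2 ≤ 2 ^ (J + 2) := by
      clear ih h1
      induction J with
      | zero => simp
      | succ J ih =>
        rw [Finset.sum_Icc_succ_top (by omega)]
        have : 2 ^ (J + 1 + 2) = 2 ^ (J + 2) + 2 ^ (J + 1) * 2 := by ring
        omega
    rw [h1]
    have h5 : (4 * b + 6) * 2 ^ (J + 1) = (4 * b + 6) * 2 ^ J + 2 ^ (J + 2) + 2 ^ (J + 1) * (2 * b + 1) := by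
      ring
    have h6 : 2 ^ (J + 1) * (2 * (b + (J + 1 - (J + 1))) + 1) = 2 ^ (J + 1) * (2 * b + 1) := by simp
    rw [h5, h6]
    omega

theorem cube_le (J : ℕ) (hJ : 10 ≤ J) : J * J * J ≤ 2 * 2 ^ J := by
  induction J, hJ using Nat.le_induction with
  | base => norm_num
  | succ J hJ ih =>
    have h1 : (J + 1) * (J + 1) * (J + 1) ≤ 2 * (J * J * J) := by nlinarith [mul_self_nonneg J, Nat.mul_le_mul hJ hJ]
    rw [pow_succ]
    omega

/-- the exponent of the error -/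
def eexp (k J : ℕ) : ℕ := ∑ j ∈ Icc 1 J, (2 ^ j + k + 1) * (2 * (40 * k + (J - j)) + 1)

theorem eexp_le (k J : ℕ) : eexp k J ≤ (160 * k + 6) * 2 ^ J + J * ((k + 1) * (80 * k + 2 * J + 1)) := by
  unfold eexp
  have h1 : ∑ j ∈ Icc 1 J, (2 ^ j + k + 1) * (2 * (40 * k + (J - j)) + 1)
      = ∑ j ∈ Icc 1 J, 2 ^ j * (2 * (40 * k + (J - j)) + 1)
        + ∑ j ∈ Icc 1 J, (k + 1) * (2 * (40 * k + (J - j)) + 1) := by
    rw [← sum_add_distrib]
    refine sum_congr rfl fun j _ => by ring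
  rw [h1]
  refine Nat.add_le_add ?_ ?_
  · refine (exp_sum1 (40 * k) J).trans (le_of_eq (by ring))
  · have h2 : ∀ j ∈ Icc 1 J, (k + 1) * (2 * (40 * k + (J - j)) + 1) ≤ (k + 1) * (80 * k + 2 * J + 1) := by
      intro j _
      refine Nat.mul_le_mul_left _ ?_
      omega
    refine (sum_le_sum h2).trans ?_
    rw [sum_const, Nat.card_Icc, smul_eq_mul]
    simp

theorem final_exp (k c : ℕ) (hc : 160 * k + 8 ≤ 2 ^ (c - 1)) (hc1 : 1 ≤ c) :
    ∃ J₀ : ℕ, ∀ J ≥ J₀, 2 + J + 8 * k * J + eexp k J ≤ 2 ^ (J + c - 1) := by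
  refine ⟨max 10 (2 + 1 + 8 * k + (k + 1) * (80 * k + 3)), fun J hJ => ?_⟩
  have h10 : 10 ≤ J := le_trans (le_max_left _ _) hJ
  have hK : 2 + 1 + 8 * k + (k + 1) * (80 * k + 3) ≤ J := le_trans (le_max_right _ _) hJ
  have h1 := eexp_le k J
  have h2 : 2 ^ (J + c - 1) = 2 ^ J * 2 ^ (c - 1) := by
    rw [← pow_add]
    congr 1
    omega
  have h3 : 2 ^ J * (160 * k + 8) ≤ 2 ^ (J + c - 1) := by
    rw [h2]
    exact Nat.mul_le_mul_left _ hc
  have h4 := cube_le J h10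
  have h5 : 2 + J + 8 * k * J + J * ((k + 1) * (80 * k + 2 * J + 1)) ≤ J * J * J := by
    have h6 : 2 + J + 8 * k * J + J * ((k + 1) * (80 * k + 2 * J + 1))
        ≤ J * J * (2 + 1 + 8 * k + (k + 1) * (80 * k + 3)) := by
      have h7 : 2 ≤ J * J * 2 := by nlinarith
      have h8 : J ≤ J * J * 1 := by nlinarith
      have h9 : 8 * k * J ≤ J * J * (8 * k) := by nlinarith [Nat.zero_le (k * J)]
      have h11 : 80 * k + 2 * J + 1 ≤ J * (80 * k + 3) := by nlinarith [Nat.zero_le (k * J)]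
      have h12 : J * ((k + 1) * (80 * k + 2 * J + 1)) ≤ J * J * ((k + 1) * (80 * k + 3)) := by
        calc J * ((k + 1) * (80 * k + 2 * J + 1)) ≤ J * ((k + 1) * (J * (80 * k + 3))) :=
              Nat.mul_le_mul_left _ (Nat.mul_le_mul_left _ h11)
          _ = _ := by ring
      calc 2 + J + 8 * k * J + J * ((k + 1) * (80 * k + 2 * J + 1))
          ≤ J * J * 2 + J * J * 1 + J * J * (8 * k) + J * J * ((k + 1) * (80 * k + 3)) := by
            omega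
        _ = _ := by ring
    refine h6.trans ?_
    exact Nat.mul_le_mul_left _ hK
  have h13 : (160 * k + 6) * 2 ^ J + 2 * 2 ^ J = 2 ^ J * (160 * k + 8) := by ring
  omega

section main

variable (k : ℕ) (P : ℕ → Finset ℕ) (A : ℕ → Finset ℕ) (J : ℕ)

/-- even truncation coefficient -/
noncomputable def cc (j : ℕ) (S : Finset ℕ) : ℝ :=
  if S.card ≤ 2 * (40 * k + (J - j)) then (-1 : ℝ) ^ S.card else 0

/-- coefficient of the error term -/
noncomputable def ee (j : ℕ) (S : Finset ℕ) : ℝ :=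
  if S.card = 2 * (40 * k + (J - j)) + 1 then (1 : ℝ) else 0

/-- local sum -/
noncomputable def loc (c : ℕ → Finset ℕ → ℝ) (j m : ℕ) : ℝ :=
  ∑ S ∈ (P j).powerset, c j S * (if ∀ p ∈ S, m % p ∈ A p then (1 : ℝ) else 0)

/-- local model -/
noncomputable def mloc (c : ℕ → Finset ℕ → ℝ) (j : ℕ) : ℝ :=
  ∑ S ∈ (P j).powerset, c j S * ∏ p ∈ S, (((A p).card : ℝ) / p)

theorem cc_le (j : ℕ) (S : Finset ℕ) :
    |cc k J j S| ≤ if S.card ≤ 2 * (40 * k + (J - j)) + 1 then 1 else 0 := by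
  unfold cc
  by_cases h : S.card ≤ 2 * (40 * k + (J - j))
  · rw [if_pos h, if_pos (by omega), abs_pow, abs_neg, abs_one, one_pow]
  · rw [if_neg h, abs_zero]
    split_ifs <;> norm_num

theorem ee_le (j : ℕ) (S : Finset ℕ) :
    |ee k J j S| ≤ if S.card ≤ 2 * (40 * k + (J - j)) + 1 then 1 else 0 := by
  unfold ee
  by_cases h : S.card = 2 * (40 * k + (J - j)) + 1
  · rw [if_pos h, if_pos (by omega), abs_one]
  · rw [if_neg h, abs_zero]
    split_ifs <;> norm_num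

theorem mdisj (hP : ∀ j, 1 ≤ j → ∀ p ∈ P j, p.Prime ∧ 2 ^ (2 ^ (j - 1)) < p ∧ p ≤ 2 ^ (2 ^ j) ∧ 2 * k ≤ p) :
    ∀ j ∈ Icc 1 J, ∀ j' ∈ Icc 1 J, j ≠ j' → Disjoint (P j) (P j') := by
  have key : ∀ j j', 1 ≤ j → j < j' → Disjoint (P j) (P j') := by
    intro j j' hj hjj
    rw [disjoint_left]
    intro p hp hp'
    have h1 := (hP j hj p hp).2.2.1
    have h2 := (hP j' (by omega) p hp').2.1
    have h3 : 2 ^ (2 ^ j) ≤ 2 ^ (2 ^ (j' - 1)) :=
      Nat.pow_le_pow_right (by norm_num) (Nat.pow_le_pow_right (by norm_num) (by omega))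
    omega
  intro j hj j' hj' hne
  rcases Nat.lt_or_gt_of_ne hne with h | h
  · exact key j j' (mem_Icc.1 hj).1 h
  · exact (key j' j (mem_Icc.1 hj').1 h).symm

theorem avg_loc (hk : 1 ≤ k)
    (hP : ∀ j, 1 ≤ j → ∀ p ∈ P j, p.Prime ∧ 2 ^ (2 ^ (j - 1)) < p ∧ p ≤ 2 ^ (2 ^ j) ∧ 2 * k ≤ p)
    (hA : ∀ p, A p ⊆ range p) (hAk : ∀ p, (A p).card ≤ k)
    (M q a : ℕ) (hq : 0 < q) (ha : a < q) (hcop : ∀ j ∈ Icc 1 J, ∀ p ∈ P j, Nat.Coprime q p)
    (c : ℕ → Finset ℕ → ℝ)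
    (hc : ∀ j S, |c j S| ≤ if S.card ≤ 2 * (40 * k + (J - j)) + 1 then 1 else 0) :
    |(∑ m ∈ (range M).filter (fun m => m % q = a), ∏ j ∈ Icc 1 J, loc P A c j m)
      - (M : ℝ) / q * ∏ j ∈ Icc 1 J, mloc P A c j| ≤ (2 : ℝ) ^ (eexp k J) := by
  refine (avg_prod M q a hq ha (Icc 1 J) P
    (fun j hj p hp => ⟨(hP j (mem_Icc.1 hj).1 p hp).1, hcop j hj p hp⟩) (mdisj k P J hP) A hA c).trans ?_
  unfold eexp
  rw [← prod_pow_eq_pow_sum]
  refine prod_le_prod (fun j _ => sum_nonneg fun S _ => mul_nonneg (abs_nonneg _)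
    (prod_nonneg fun p _ => by positivity)) fun j hj => ?_
  exact err_block k j (P j) A hk (hP j (mem_Icc.1 hj).1) hAk _ (c j) (hc j)

theorem loc_cc (j m : ℕ) : loc P A (cc k J) j m
    = ∑ S ∈ ((P j).filter (fun p => m % p ∈ A p)).powerset.filter
      (fun S => S.card ≤ 2 * (40 * k + (J - j))), (-1 : ℝ) ^ S.card := by
  unfold loc cc
  have h1 : ((P j).filter (fun p => m % p ∈ A p)).powerset.filter
      (fun S => S.card ≤ 2 * (40 * k + (J - j)))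
      = (P j).powerset.filter (fun S => S.card ≤ 2 * (40 * k + (J - j)) ∧ ∀ p ∈ S, m % p ∈ A p) := by
    ext S
    simp only [mem_filter, mem_powerset, subset_iff]
    constructor
    · rintro ⟨h1, h2⟩
      exact ⟨fun p hp => (h1 hp).1, h2, fun p hp => (h1 hp).2⟩
    · rintro ⟨h1, h2, h3⟩
      exact ⟨fun p hp => ⟨h1 hp, h3 p hp⟩, h2⟩
  rw [h1, sum_filter]
  refine sum_congr rfl fun S _ => ?_
  by_cases h : S.card ≤ 2 * (40 * k + (J - j)) <;> by_cases h' : ∀ p ∈ S, m % p ∈ A p <;>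
    simp [h, h']

theorem loc_ee (j m : ℕ) : loc P A (ee k J) j m
    = ((((P j).filter (fun p => m % p ∈ A p)).powerset.filter
      (fun S => S.card = 2 * (40 * k + (J - j)) + 1)).card : ℝ) := by
  unfold loc ee
  have h1 : ((P j).filter (fun p => m % p ∈ A p)).powerset.filter
      (fun S => S.card = 2 * (40 * k + (J - j)) + 1)
      = (P j).powerset.filter (fun S => S.card = 2 * (40 * k + (J - j)) + 1 ∧ ∀ p ∈ S, m % p ∈ A p) := by
    ext S
    simp only [mem_filter, mem_powerset, subset_iff]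
    constructor
    · rintro ⟨h1, h2⟩
      exact ⟨fun p hp => (h1 hp).1, h2, fun p hp => (h1 hp).2⟩
    · rintro ⟨h1, h2, h3⟩
      exact ⟨fun p hp => ⟨h1 hp, h3 p hp⟩, h2⟩
  rw [h1, card_eq_sum_ones, Nat.cast_sum, sum_filter]
  refine sum_congr rfl fun S _ => ?_
  by_cases h : S.card = 2 * (40 * k + (J - j)) + 1 <;> by_cases h' : ∀ p ∈ S, m % p ∈ A p <;>
    simp [h, h']

/-- indicator of no bad prime in block `j` -/
noncomputable def xx (j m : ℕ) : ℝ :=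
  if ((P j).filter (fun p => m % p ∈ A p)) = ∅ then (1 : ℝ) else 0

theorem xx_nonneg (j m : ℕ) : 0 ≤ xx P A j m := by
  unfold xx
  split_ifs <;> norm_num

theorem xx_le (j m : ℕ) : xx P A j m ≤ loc P A (cc k J) j m := by
  rw [loc_cc]
  exact (bonf_even _ _).1

theorem yy_sub (j m : ℕ) : loc P A (cc k J) j m - xx P A j m ≤ loc P A (ee k J) j m := by
  rw [loc_cc, loc_ee]
  exact (bonf_even _ _).2

theorem prod_xx (m : ℕ) : ∏ j ∈ Icc 1 J, xx P A j m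
    = if ∀ j ∈ Icc 1 J, ∀ p ∈ P j, m % p ∉ A p then (1 : ℝ) else 0 := by
  unfold xx
  rw [prod_ite_zero]
  simp only [prod_const_one]
  congr 1
  simp only [filter_eq_empty_iff]

theorem count_eq (M q a : ℕ) :
    (((range M).filter (fun m => m % q = a ∧ ∀ j ∈ Icc 1 J, ∀ p ∈ P j, m % p ∉ A p)).card : ℝ)
    = ∑ m ∈ (range M).filter (fun m => m % q = a), ∏ j ∈ Icc 1 J, xx P A j m := by
  rw [sum_congr rfl (fun m _ => prod_xx P A J m), ← sum_filter, filter_filter, sum_const,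
    nsmul_eq_mul, mul_one]

end main

theorem geom_small (J : ℕ) : ∑ j ∈ Icc 1 J, (1 / 16 : ℝ) ^ (J - j + 1) ≤ 1 / 15 := by
  have h : ∑ j ∈ Icc 1 J, (1 / 16 : ℝ) ^ (J - j + 1) = 1 / 15 * (1 - (1 / 16) ^ J) := by
    induction J with
    | zero => simp
    | succ J ih =>
      rw [Finset.sum_Icc_succ_top (by omega)]
      have h1 : ∑ j ∈ Icc 1 J, (1 / 16 : ℝ) ^ (J + 1 - j + 1)
          = 1 / 16 * ∑ j ∈ Icc 1 J, (1 / 16 : ℝ) ^ (J - j + 1) := by
        rw [mul_sum]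
        refine sum_congr rfl fun j hj => ?_
        have h2 := (mem_Icc.1 hj).2
        rw [show J + 1 - j + 1 = (J - j + 1) + 1 by omega, pow_succ]
        ring
      rw [h1, ih, Nat.sub_self, pow_succ]
      ring
  rw [h]
  have : (0 : ℝ) ≤ (1 / 16) ^ J := by positivity
  linarith

/-- S5. file SBrun.lean (uses S1, S2, S4) -/
theorem brun_hooley (k c : ℕ) (hk : 1 ≤ k) (hc1 : 1 ≤ c) (hc : 160 * k + 8 ≤ 2 ^ (c - 1))
    (P : ℕ → Finset ℕ)
    (hP : ∀ j, 1 ≤ j → ∀ p ∈ P j, p.Prime ∧ 2 ^ (2 ^ (j - 1)) < p ∧ p ≤ 2 ^ (2 ^ j) ∧ 2 * k ≤ p)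
    (A : ℕ → Finset ℕ) (hA : ∀ p, A p ⊆ range p) (hAk : ∀ p, (A p).card ≤ k) :
    ∃ J₀ : ℕ, ∀ J ≥ J₀, ∃ Y : ℝ, (1 / 4 : ℝ) ^ (4 * k * J) ≤ Y ∧
      Y / 2 * (2 : ℝ) ^ (2 ^ (J + c)) ≤
        (((range (2 ^ (2 ^ (J + c)))).filter
          (fun m => ∀ j ∈ Icc 1 J, ∀ p ∈ P j, m % p ∉ A p)).card : ℝ) ∧
      ∀ q a : ℕ, q.Prime → (∀ j ∈ Icc 1 J, q ∉ P j) → q ≤ 2 ^ (2 ^ (J + c - 1)) → a < q →
        (((range (2 ^ (2 ^ (J + c)))).filter
          (fun m => m % q = a ∧ ∀ j ∈ Icc 1 J, ∀ p ∈ P j, m % p ∉ A p)).card : ℝ)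
          ≤ 2 * Y / q * (2 : ℝ) ^ (2 ^ (J + c)) := by
  obtain ⟨J₀, hJ₀⟩ := final_exp k c hc hc1
  refine ⟨J₀, fun J hJ => ?_⟩
  have hfin := hJ₀ J hJ
  set M : ℕ := 2 ^ (2 ^ (J + c)) with hM
  have hMr : ((M : ℕ) : ℝ) = (2 : ℝ) ^ (2 ^ (J + c)) := by rw [hM]; push_cast; rfl
  set Yj : ℕ → ℝ := fun j => mloc P A (cc k J) j with hYj
  have hYge : ∀ j ∈ Icc 1 J, (1 / 4 : ℝ) ^ (4 * k) ≤ Yj j := fun j hj =>
    Y_ge k j (P j) A (mem_Icc.1 hj).1 (hP j (mem_Icc.1 hj).1) hAk (40 * k + (J - j))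
  have hYpos : ∀ j ∈ Icc 1 J, 0 < Yj j := fun j hj => lt_of_lt_of_le (by positivity) (hYge j hj)
  set Y : ℝ := ∏ j ∈ Icc 1 J, Yj j with hY
  have hY0 : 0 < Y := prod_pos hYpos
  have hY1 : (1 / 4 : ℝ) ^ (4 * k * J) ≤ Y := by
    have h1 : ∏ _j ∈ Icc 1 J, (1 / 4 : ℝ) ^ (4 * k) ≤ Y :=
      prod_le_prod (fun j _ => by positivity) hYge
    rw [prod_const, Nat.card_Icc, Nat.add_sub_cancel, ← pow_mul] at h1
    exact h1
  set Err : ℝ := (2 : ℝ) ^ (eexp k J) with hErr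
  have hErr0 : 0 < Err := by positivity
  -- the error is small
  have hsmall : 4 * ((J : ℝ) + 1) * Err ≤ (2 : ℝ) ^ (2 ^ (J + c - 1)) * Y := by
    have h1 : ((J : ℝ) + 1) ≤ 2 ^ J := by
      have := (Nat.lt_two_pow_self (n := J))
      exact_mod_cast this
    have h2 : (2 : ℝ) ^ (2 + J + 8 * k * J + eexp k J) ≤ (2 : ℝ) ^ (2 ^ (J + c - 1)) :=
      pow_le_pow_right₀ (by norm_num) hfin
    have h3 : (2 : ℝ) ^ (2 + J + 8 * k * J + eexp k J) = 4 * 2 ^ J * 2 ^ (8 * k * J) * Err := by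
      rw [hErr, pow_add, pow_add, pow_add]
      norm_num
    have h4 : (2 : ℝ) ^ (8 * k * J) * (1 / 4 : ℝ) ^ (4 * k * J) = 1 := by
      rw [show (1 / 4 : ℝ) = (1 / 2) ^ 2 by norm_num, ← pow_mul,
        show 2 * (4 * k * J) = 8 * k * J by ring, ← mul_pow]
      norm_num
    have h5 : 1 ≤ (2 : ℝ) ^ (8 * k * J) * Y := by
      rw [← h4]
      exact mul_le_mul_of_nonneg_left hY1 (by positivity)
    have h6 : 0 < (2 : ℝ) ^ (2 ^ (J + c - 1)) := by positivity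
    calc 4 * ((J : ℝ) + 1) * Err ≤ 4 * 2 ^ J * Err := by
          refine mul_le_mul_of_nonneg_right ?_ hErr0.le
          linarith
      _ ≤ 4 * 2 ^ J * Err * ((2 : ℝ) ^ (8 * k * J) * Y) := by
          refine le_mul_of_one_le_right (by positivity) h5
      _ = (4 * 2 ^ J * 2 ^ (8 * k * J) * Err) * Y := by ring
      _ ≤ (2 : ℝ) ^ (2 ^ (J + c - 1)) * Y := by
          rw [← h3]
          exact mul_le_mul_of_nonneg_right h2 hY0.le
  refine ⟨Y, hY1, ?_, ?_⟩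
  · -- lower bound
    have hc0 := count_eq P A J M 1 0
    have hf : (range M).filter (fun m => m % 1 = 0) = range M := by
      ext m
      simp [Nat.mod_one]
    have hf2 : (range M).filter (fun m => m % 1 = 0 ∧ ∀ j ∈ Icc 1 J, ∀ p ∈ P j, m % p ∉ A p)
        = (range M).filter (fun m => ∀ j ∈ Icc 1 J, ∀ p ∈ P j, m % p ∉ A p) := by
      ext m
      simp [Nat.mod_one]
    rw [hf2] at hc0
    rw [hc0]
    have hy := avg_loc k P A J hk hP hA hAk M 1 0 one_pos one_pos (fun j _ p _ => Nat.coprime_one_left p)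
      (cc k J) (cc_le k J)
    have he : ∀ i ∈ Icc 1 J, ∑ m ∈ (range M).filter (fun m => m % 1 = 0),
        loc P A (ee k J) i m * ∏ j ∈ (Icc 1 J).erase i, loc P A (cc k J) j m
        ≤ M * ((1 / 16 : ℝ) ^ (J - i + 1) * Y) + Err := by
      intro i hi
      set ci : ℕ → Finset ℕ → ℝ := fun j S => if j = i then ee k J j S else cc k J j S with hci
      have hcile : ∀ j S, |ci j S| ≤ if S.card ≤ 2 * (40 * k + (J - j)) + 1 then 1 else 0 := by
        intro j S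
        rw [hci]
        dsimp only
        by_cases h : j = i
        · rw [if_pos h]
          exact ee_le k J j S
        · rw [if_neg h]
          exact cc_le k J j S
      have h1 := avg_loc k P A J hk hP hA hAk M 1 0 one_pos one_pos
        (fun j _ p _ => Nat.coprime_one_left p) ci hcile
      have h2 : ∀ m, ∏ j ∈ Icc 1 J, loc P A ci j m
          = loc P A (ee k J) i m * ∏ j ∈ (Icc 1 J).erase i, loc P A (cc k J) j m := by
        intro m
        rw [← mul_prod_erase _ _ hi]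
        congr 1
        · unfold loc
          simp only [hci, if_true]
        · refine prod_congr rfl fun j hj => ?_
          have hji : j ≠ i := (mem_erase.1 hj).1
          unfold loc
          simp only [hci, if_neg hji]
      have h3 : ∏ j ∈ Icc 1 J, mloc P A ci j
          = mloc P A (ee k J) i * ∏ j ∈ (Icc 1 J).erase i, Yj j := by
        rw [← mul_prod_erase _ _ hi]
        congr 1
        · unfold mloc
          simp only [hci, if_true]
        · refine prod_congr rfl fun j hj => ?_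
          have hji : j ≠ i := (mem_erase.1 hj).1
          simp only [hYj, mloc, hci, if_neg hji]
      rw [sum_congr rfl (fun m _ => h2 m), h3] at h1
      have h4 : mloc P A (ee k J) i ≤ (1 / 4 : ℝ) ^ (4 * k) * (1 / 16) ^ (J - i + 1) :=
        E_le k i (P i) A (mem_Icc.1 hi).1 (hP i (mem_Icc.1 hi).1) hAk (J - i)
      have h5 : mloc P A (ee k J) i ≤ (1 / 16) ^ (J - i + 1) * Yj i := by
        refine h4.trans ?_
        rw [mul_comm]
        exact mul_le_mul_of_nonneg_left (hYge i hi) (by positivity)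
      have h6 : 0 ≤ ∏ j ∈ (Icc 1 J).erase i, Yj j :=
        prod_nonneg fun j hj => (hYpos j (mem_of_mem_erase hj)).le
      have h7 : mloc P A (ee k J) i * ∏ j ∈ (Icc 1 J).erase i, Yj j ≤ (1 / 16) ^ (J - i + 1) * Y := by
        calc mloc P A (ee k J) i * ∏ j ∈ (Icc 1 J).erase i, Yj j
            ≤ (1 / 16) ^ (J - i + 1) * Yj i * ∏ j ∈ (Icc 1 J).erase i, Yj j :=
              mul_le_mul_of_nonneg_right h5 h6
          _ = (1 / 16) ^ (J - i + 1) * Y := by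
              rw [mul_assoc, mul_prod_erase _ _ hi]
      have h8 := (abs_le.1 h1).2
      have h9 : (M : ℝ) / (1 : ℕ) * (mloc P A (ee k J) i * ∏ j ∈ (Icc 1 J).erase i, Yj j)
          ≤ M * ((1 / 16 : ℝ) ^ (J - i + 1) * Y) := by
        rw [Nat.cast_one, div_one]
        exact mul_le_mul_of_nonneg_left h7 (by positivity)
      linarith
    have hh : ∀ m, ∏ j ∈ Icc 1 J, loc P A (cc k J) j m
        - ∑ i ∈ Icc 1 J, loc P A (ee k J) i m * ∏ j ∈ (Icc 1 J).erase i, loc P A (cc k J) j m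
        ≤ ∏ j ∈ Icc 1 J, xx P A j m := fun m =>
      hooley (Icc 1 J) (fun j => xx P A j m) (fun j => loc P A (cc k J) j m)
        (fun j => loc P A (ee k J) j m) (fun j _ => xx_nonneg P A j m) (fun j _ => xx_le k P A J j m)
        (fun j _ => yy_sub k P A J j m)
    have hsum : ∑ m ∈ (range M).filter (fun m => m % 1 = 0), ∏ j ∈ Icc 1 J, loc P A (cc k J) j m
        - ∑ i ∈ Icc 1 J, ∑ m ∈ (range M).filter (fun m => m % 1 = 0),
            loc P A (ee k J) i m * ∏ j ∈ (Icc 1 J).erase i, loc P A (cc k J) j m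
        ≤ ∑ m ∈ (range M).filter (fun m => m % 1 = 0), ∏ j ∈ Icc 1 J, xx P A j m := by
      rw [sum_comm, ← sum_sub_distrib]
      exact sum_le_sum fun m _ => hh m
    have hsumE : ∑ i ∈ Icc 1 J, ∑ m ∈ (range M).filter (fun m => m % 1 = 0),
            loc P A (ee k J) i m * ∏ j ∈ (Icc 1 J).erase i, loc P A (cc k J) j m
        ≤ M * (1 / 15 * Y) + J * Err := by
      refine (sum_le_sum he).trans ?_
      rw [sum_add_distrib, sum_const, Nat.card_Icc, Nat.add_sub_cancel, nsmul_eq_mul, ← mul_sum,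
        ← sum_mul]
      have := geom_small J
      have h1 : (∑ j ∈ Icc 1 J, (1 / 16 : ℝ) ^ (J - j + 1)) * Y ≤ 1 / 15 * Y :=
        mul_le_mul_of_nonneg_right this hY0.le
      have h2 : (M : ℝ) * ((∑ j ∈ Icc 1 J, (1 / 16 : ℝ) ^ (J - j + 1)) * Y) ≤ M * (1 / 15 * Y) :=
        mul_le_mul_of_nonneg_left h1 (by positivity)
      linarith
    have hy1 := (abs_le.1 hy).1
    rw [Nat.cast_one, div_one] at hy1
    have hMY : (2 : ℝ) ^ (2 ^ (J + c - 1)) * Y ≤ M * Y := by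
      refine mul_le_mul_of_nonneg_right ?_ hY0.le
      rw [hMr]
      exact pow_le_pow_right₀ (by norm_num) (Nat.pow_le_pow_right (by norm_num) (by omega))
    rw [← hMr]
    have hMY0 : 0 < (M : ℝ) * Y := by
      rw [hMr]
      positivity
    have hE4 : 4 * (((J : ℝ) + 1) * Err) ≤ M * Y := by
      have := hsmall.trans hMY
      linarith
    have hyy : (M : ℝ) * ∏ j ∈ Icc 1 J, mloc P A (cc k J) j = M * Y := rfl
    rw [hyy] at hy1
    nlinarith
  · -- upper bound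
    intro q a hq hqP hqle ha
    rw [count_eq P A J M q a]
    have hy := avg_loc k P A J hk hP hA hAk M q a hq.pos ha (fun j hj p hp => by
      rw [Nat.coprime_primes hq (hP j (mem_Icc.1 hj).1 p hp).1]
      rintro rfl
      exact hqP j hj hp) (cc k J) (cc_le k J)
    have h1 : ∑ m ∈ (range M).filter (fun m => m % q = a), ∏ j ∈ Icc 1 J, xx P A j m
        ≤ ∑ m ∈ (range M).filter (fun m => m % q = a), ∏ j ∈ Icc 1 J, loc P A (cc k J) j m :=
      sum_le_sum fun m _ => prod_le_prod (fun j _ => xx_nonneg P A j m) fun j _ => xx_le k P A J j m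
    have h2 := (abs_le.1 hy).2
    have hyy : (M : ℝ) / q * ∏ j ∈ Icc 1 J, mloc P A (cc k J) j = M / q * Y := rfl
    rw [hyy] at h2
    have hq0 : (0 : ℝ) < q := by exact_mod_cast hq.pos
    have h3 : (2 : ℝ) ^ (2 ^ (J + c - 1)) ≤ M / q := by
      rw [le_div_iff₀ hq0]
      have h4 : (q : ℝ) ≤ 2 ^ (2 ^ (J + c - 1)) := by exact_mod_cast hqle
      calc (2 : ℝ) ^ (2 ^ (J + c - 1)) * q ≤ (2 : ℝ) ^ (2 ^ (J + c - 1)) * 2 ^ (2 ^ (J + c - 1)) :=
            mul_le_mul_of_nonneg_left h4 (by positivity)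
        _ = M := by
            rw [hMr, ← pow_add]
            congr 1
            have : J + c = (J + c - 1) + 1 := by omega
            rw [this, Nat.add_sub_cancel, pow_succ]
            ring
    have h5 : (2 : ℝ) ^ (2 ^ (J + c - 1)) * Y ≤ M / q * Y := mul_le_mul_of_nonneg_right h3 hY0.le
    have h6 : Err ≤ 4 * ((J : ℝ) + 1) * Err := by
      have hJ0 : (0 : ℝ) ≤ J := by positivity
      nlinarith
    have h7 : 2 * Y / q * (2 : ℝ) ^ (2 ^ (J + c)) = M / q * Y + M / q * Y := by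
      rw [← hMr]
      ring
    rw [h7]
    linarith

end Pool.Agent.Work.MP_f473e4_nt
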