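import Pool.Agent.Work.MP_f473e4_nt.SBrun

set_option autoImplicit false

open Finset

namespace Pool.Agent.Work.MP_f473e4_nt

theorem one_class (d α β : ℕ) (hd : 0 < d) (hcop : Nat.Coprime d α) :
    ∃ a, a < d ∧ ∀ m, d ∣ α * m + β → m % d = a := by
  by_cases h : ∃ m₀, d ∣ α * m₀ + β
  · obtain ⟨m₀, h0⟩ := h
    refine ⟨m₀ % d, Nat.mod_lt _ hd, fun m hm => ?_⟩
    have h1 : α * m + β ≡ α * m₀ + β [MOD d] :=
      ((Nat.modEq_zero_iff_dvd.2 hm).trans (Nat.modEq_zero_iff_dvd.2 h0).symm)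
    have h2 : α * m ≡ α * m₀ [MOD d] := Nat.ModEq.add_right_cancel' β h1
    exact Nat.ModEq.cancel_left_of_coprime (by rw [Nat.Coprime] at hcop; exact hcop) h2
  · exact ⟨0, hd, fun m hm => (h ⟨m, hm⟩).elim⟩

theorem blocks_sum (J n : ℕ) :
    ∑ q ∈ (Ioc (2 ^ (2 ^ J)) (2 ^ (2 ^ (J + n)))).filter Nat.Prime, (1 : ℝ) / q ≤ 4 * n := by
  induction n with
  | zero => simp
  | succ n ih =>
    have h1 : (Ioc (2 ^ (2 ^ J)) (2 ^ (2 ^ (J + (n + 1))))).filter Nat.Prime
        = (Ioc (2 ^ (2 ^ J)) (2 ^ (2 ^ (J + n)))).filter Nat.Prime ∪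
          (Ioc (2 ^ (2 ^ (J + n + 1 - 1))) (2 ^ (2 ^ (J + n + 1)))).filter Nat.Prime := by
      rw [← filter_union, Nat.add_sub_cancel, Ioc_union_Ioc_eq_Ioc]
      · rfl
      · exact Nat.pow_le_pow_right (by norm_num) (Nat.pow_le_pow_right (by norm_num) (by omega))
      · exact Nat.pow_le_pow_right (by norm_num) (Nat.pow_le_pow_right (by norm_num) (by omega))
    rw [h1, sum_union]
    · have h3 := block_sum (J + n + 1) (by omega)
      push_cast
      rw [mul_add, mul_one]
      exact add_le_add ih h3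
    · rw [disjoint_left]
      intro p hp hp'
      simp only [mem_filter, mem_Ioc, Nat.add_sub_cancel] at hp hp'
      omega

theorem bigJ (k K : ℕ) : ∃ J₁ : ℕ, ∀ J ≥ J₁, (k + K) * 2 ^ (8 * k * J + 3) ≤ 2 ^ (2 ^ J) := by
  refine ⟨4 + (k + K + 3 + 8 * k), fun J hJ => ?_⟩
  have h1 : k + K ≤ 2 ^ (k + K) := Nat.lt_two_pow_self.le
  have hsq : ∀ n : ℕ, 4 ≤ n → n * n ≤ 2 ^ n := by
    intro n hn
    induction n, hn using Nat.le_induction with
    | base => norm_num
    | succ n hn ih =>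
      rw [pow_succ]
      nlinarith
  have h2 := hsq J (by omega)
  have h3 : k + K + (8 * k * J + 3) ≤ J * J := by
    have h4 : (k + K + 3) * 1 + 8 * k * J ≤ (k + K + 3) * J + 8 * k * J :=
      Nat.add_le_add_right (Nat.mul_le_mul_left _ (by omega)) _
    have h5 : (k + K + 3) * J + 8 * k * J = (k + K + 3 + 8 * k) * J := by ring
    have h6 : (k + K + 3 + 8 * k) * J ≤ J * J := Nat.mul_le_mul_right _ (by omega)
    omega
  calc (k + K) * 2 ^ (8 * k * J + 3) ≤ 2 ^ (k + K) * 2 ^ (8 * k * J + 3) := Nat.mul_le_mul_right _ h1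
    _ = 2 ^ (k + K + (8 * k * J + 3)) := by rw [← pow_add]
    _ ≤ 2 ^ (2 ^ J) := Nat.pow_le_pow_right (by norm_num) (h3.trans h2)

theorem class_count (M d a : ℕ) (hd : 0 < d) (ha : a < d) :
    (((range M).filter (fun m => m % d = a)).card : ℝ) ≤ M / d + 1 := by
  have := (abs_le.1 (crt_base M d a hd ha)).2
  linarith

theorem big_primes (n R : ℕ) (hn : 0 < n) (hR : 2 ≤ R) (hnR : n < R ^ 4) :
    (n.primeFactors.filter (fun p => R < p)).card ≤ 3 := by
  have h1 : R ^ (n.primeFactors.filter (fun p => R < p)).card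
      ≤ ∏ p ∈ n.primeFactors.filter (fun p => R < p), p := by
    rw [← prod_const]
    exact prod_le_prod' fun p hp => (mem_filter.1 hp).2.le
  have h2 : ∏ p ∈ n.primeFactors.filter (fun p => R < p), p ≤ ∏ p ∈ n.primeFactors, p := by
    refine prod_le_prod_of_subset_of_one_le' (filter_subset _ _) ?_
    intro p hp _
    exact (Nat.prime_of_mem_primeFactors hp).one_le
  have h3 : ∏ p ∈ n.primeFactors, p ≤ n := Nat.le_of_dvd hn (Nat.prod_primeFactors_dvd n)
  have h4 : R ^ (n.primeFactors.filter (fun p => R < p)).card < R ^ 4 :=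
    lt_of_le_of_lt (h1.trans (h2.trans h3)) hnR
  have := (Nat.pow_lt_pow_iff_right (by omega : 1 < R)).1 h4
  omega

/-- S6. file Sieve.lean (uses S1, S5) : sieve_main -/
theorem sieve_main : ∃ C : ℕ, ∀ (ι : Type) [Fintype ι] (b : ℕ) (α β : ι → ℕ), 1 ≤ b →
    2 * Fintype.card ι ≤ 2 ^ b →
    (∀ v, 0 < α v) → (∀ v, Nat.Coprime (α v) (β v)) →
    (∀ v w p, p.Prime → p ∣ α v → p ∣ α w) →
    (∀ v p, p.Prime → p ≤ 2 ^ b → p ∣ α v) →
    ∃ m : ℕ, (∀ v, Squarefree (α v * m + β v)) ∧
      ∑ v, (α v * m + β v).primeFactors.card ≤ C * b * Fintype.card ι := by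
  classical
  refine ⟨179, ?_⟩
  intro ι _ b α β hb hcard hα hcop hsame hsmall
  rcases isEmpty_or_nonempty ι with hι | ⟨⟨v0⟩⟩
  · exact ⟨0, fun v => (hι.false v).elim, by simp⟩
  set k := Fintype.card ι with hk
  have hk1 : 1 ≤ k := Fintype.card_pos_iff.2 ⟨v0⟩
  -- basic facts
  have hβ : ∀ v, 0 < β v := by
    intro v
    rcases Nat.eq_zero_or_pos (β v) with h | h
    · exfalso
      have h1 := hcop v
      rw [h, Nat.coprime_zero_right] at h1
      have h2 : 2 ∣ α v := hsmall v 2 Nat.prime_two (by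
        calc 2 = 2 ^ 1 := by norm_num
          _ ≤ 2 ^ b := Nat.pow_le_pow_right (by norm_num) hb)
      rw [h1] at h2
      norm_num at h2
    · exact h
  have hnd : ∀ v m q, q.Prime → q ∣ α v → ¬ q ∣ α v * m + β v := by
    intro v m q hq h1 h2
    have h3 : q ∣ β v := (Nat.dvd_add_right (Dvd.dvd.mul_right h1 m)).1 h2
    have h4 : q ∣ 1 := by
      rw [← hcop v]
      exact Nat.dvd_gcd h1 h3
    exact hq.one_lt.ne' (Nat.dvd_one.1 h4)
  have hcopq : ∀ v q, q.Prime → ¬ q ∣ α v → Nat.Coprime q (α v) := fun v q hq h =>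
    (Nat.Prime.coprime_iff_not_dvd hq).2 h
  have hbig : ∀ v q, q.Prime → ¬ q ∣ α v → 2 ^ b < q := by
    intro v q hq h
    by_contra hle
    exact h (hsmall v q hq (by omega))
  -- the sieve data
  set P : ℕ → Finset ℕ := fun j =>
    (Ioc (2 ^ (2 ^ (j - 1))) (2 ^ (2 ^ j))).filter (fun p => p.Prime ∧ ¬ p ∣ α v0) with hPdef
  set A : ℕ → Finset ℕ := fun p =>
    if p.Prime ∧ ¬ p ∣ α v0 then (range p).filter (fun m => ∃ v, p ∣ α v * m + β v) else ∅ with hAdef
  have hP : ∀ j, 1 ≤ j → ∀ p ∈ P j, p.Prime ∧ 2 ^ (2 ^ (j - 1)) < p ∧ p ≤ 2 ^ (2 ^ j) ∧ 2 * k ≤ p := by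
    intro j _ p hp
    simp only [hPdef, mem_filter, mem_Ioc] at hp
    obtain ⟨⟨h1, h2⟩, h3, h4⟩ := hp
    have := hbig v0 p h3 h4
    exact ⟨h3, h1, h2, by omega⟩
  have hA : ∀ p, A p ⊆ range p := by
    intro p
    simp only [hAdef]
    split_ifs
    · exact filter_subset _ _
    · exact empty_subset _
  have hAk : ∀ p, (A p).card ≤ k := by
    intro p
    simp only [hAdef]
    split_ifs with h
    · have h1 : (range p).filter (fun m => ∃ v, p ∣ α v * m + β v)
          ⊆ (univ : Finset ι).biUnion (fun v => (range p).filter (fun m => p ∣ α v * m + β v)) := by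
        intro m hm
        simp only [mem_filter, mem_biUnion, mem_univ, true_and] at hm ⊢
        obtain ⟨h1, v, h2⟩ := hm
        exact ⟨v, h1, h2⟩
      refine (card_le_card h1).trans (card_biUnion_le.trans ?_)
      have h2 : ∀ v ∈ (univ : Finset ι), ((range p).filter (fun m => p ∣ α v * m + β v)).card ≤ 1 := by
        intro v _
        have h3 : ¬ p ∣ α v := fun h4 => h.2 (hsame v v0 p h.1 h4)
        obtain ⟨a, _, ha⟩ := one_class p (α v) (β v) h.1.pos (hcopq v p h.1 h3)
        rw [card_le_one]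
        intro m hm m' hm'
        simp only [mem_filter, mem_range] at hm hm'
        have h5 := ha m hm.2
        have h6 := ha m' hm'.2
        rw [Nat.mod_eq_of_lt hm.1] at h5
        rw [Nat.mod_eq_of_lt hm'.1] at h6
        omega
      refine (sum_le_sum h2).trans ?_
      simp [hk]
    · simp
  have hc : 160 * k + 8 ≤ 2 ^ (b + 8 - 1) := by
    have : 2 ^ (b + 8 - 1) = 128 * 2 ^ b := by
      rw [show b + 8 - 1 = b + 7 by omega, pow_add]
      ring
    rw [this]
    have : 1 ≤ 2 ^ b := Nat.one_le_two_pow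
    omega
  obtain ⟨J₀, hJ₀⟩ := brun_hooley k (b + 8) hk1 (by omega) hc P hP A hA hAk
  set K := ∑ v, (α v + β v) with hK
  obtain ⟨J₁, hJ₁⟩ := bigJ k K
  set J := max J₀ J₁ with hJ
  obtain ⟨Y, hY1, hY2, hY3⟩ := hJ₀ J (le_max_left _ _)
  have hKbig := hJ₁ J (le_max_right _ _)
  set M : ℕ := 2 ^ (2 ^ (J + (b + 8))) with hM
  set R : ℕ := 2 ^ (2 ^ (J + (b + 8) - 1)) with hR
  set z : ℕ := 2 ^ (2 ^ J) with hz
  have hMR : M = R * R := by
    rw [hM, hR, ← pow_add]
    congr 1
    have : J + (b + 8) = (J + (b + 8) - 1) + 1 := by omega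
    rw [this, Nat.add_sub_cancel, pow_succ]
    ring
  have hMr : ((M : ℕ) : ℝ) = (2 : ℝ) ^ (2 ^ (J + (b + 8))) := by rw [hM]; push_cast; rfl
  rw [← hMr] at hY2 hY3
  have hzR : z ≤ R :=
    Nat.pow_le_pow_right (by norm_num) (Nat.pow_le_pow_right (by norm_num) (by omega))
  have hz2 : 2 ≤ z := by
    calc 2 = 2 ^ 1 := by norm_num
      _ ≤ 2 ^ (2 ^ J) := Nat.pow_le_pow_right (by norm_num) Nat.one_le_two_pow
  have hzpos : (0 : ℝ) < z := by exact_mod_cast (by omega : 0 < z)
  have hRpos : (0 : ℝ) < R := by exact_mod_cast (by omega : 0 < R)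
  have hMpos : (0 : ℝ) < M := by
    rw [hMR]
    push_cast
    positivity
  have hY0 : 0 < Y := lt_of_lt_of_le (by positivity) hY1
  set S := (range M).filter (fun m => ∀ j ∈ Icc 1 J, ∀ p ∈ P j, m % p ∉ A p) with hS
  have hScard : Y * M ≤ 2 * (S.card : ℝ) := by linarith
  have hSpos : (0 : ℝ) < S.card := by
    have := mul_pos hY0 hMpos
    linarith
  -- no small prime divides
  have hfree : ∀ m ∈ S, ∀ v q, q.Prime → q ∣ α v * m + β v → z < q := by
    intro m hm v q hq hdvd
    by_contra hle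
    have hle : q ≤ z := by omega
    have h1 : ¬ q ∣ α v := fun h => hnd v m q hq h hdvd
    have h2 : ¬ q ∣ α v0 := fun h => h1 (hsame v0 v q hq h)
    have h3 := hbig v q hq h1
    have h4 : 2 < q := by
      have : 2 ^ 1 ≤ 2 ^ b := Nat.pow_le_pow_right (by norm_num) hb
      omega
    -- find the block
    have hex : ∃ j, q ≤ 2 ^ (2 ^ j) := ⟨J, hle⟩
    set j := Nat.find hex with hj
    have hj1 : q ≤ 2 ^ (2 ^ j) := Nat.find_spec hex
    have hjJ : j ≤ J := Nat.find_min' hex hle
    have hj0 : 1 ≤ j := by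
      rcases Nat.eq_zero_or_pos j with h | h
      · rw [h] at hj1
        norm_num at hj1
        omega
      · exact h
    have hj2 : ¬ q ≤ 2 ^ (2 ^ (j - 1)) := Nat.find_min hex (by omega)
    have hqP : q ∈ P j := by
      simp only [hPdef, mem_filter, mem_Ioc]
      exact ⟨⟨by omega, hj1⟩, hq, h2⟩
    have h5 := (mem_filter.1 hm).2 j (mem_Icc.2 ⟨hj0, hjJ⟩) q hqP
    apply h5
    simp only [hAdef]
    rw [if_pos ⟨hq, h2⟩, mem_filter, mem_range]
    refine ⟨Nat.mod_lt _ hq.pos, v, ?_⟩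
    have h6 : α v * (m % q) + β v ≡ α v * m + β v [MOD q] :=
      Nat.ModEq.add_right _ (Nat.ModEq.mul_left _ (Nat.mod_modEq m q))
    exact (Nat.modEq_zero_iff_dvd.1 (h6.trans (Nat.modEq_zero_iff_dvd.2 hdvd)))
  -- (i)
  set W : ι → ℕ → ℕ := fun v m => ((Ioc z R).filter (fun q => q.Prime ∧ q ∣ α v * m + β v)).card with hW
  have hi : ∀ v, ((∑ m ∈ S, W v m : ℕ) : ℝ) ≤ 16 * (b + 7) * S.card := by
    intro v
    have h1 : ∑ m ∈ S, W v m
        = ∑ q ∈ (Ioc z R).filter Nat.Prime, (S.filter (fun m => q ∣ α v * m + β v)).card := by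
      simp only [hW, card_filter, sum_filter]
      rw [sum_comm]
      refine sum_congr rfl fun q _ => ?_
      by_cases hq : q.Prime
      · simp [hq]
      · simp [hq]
    rw [h1]
    push_cast
    have h2 : ∀ q ∈ (Ioc z R).filter Nat.Prime, ((S.filter (fun m => q ∣ α v * m + β v)).card : ℝ)
        ≤ 2 * Y * M * (1 / q) := by
      intro q hq
      obtain ⟨h3, h4⟩ := mem_filter.1 hq
      obtain ⟨h5, h6⟩ := mem_Ioc.1 h3
      by_cases h7 : q ∣ α v
      · have : S.filter (fun m => q ∣ α v * m + β v) = ∅ := by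
          rw [filter_eq_empty_iff]
          intro m _
          exact hnd v m q h4 h7
        rw [this, card_empty, Nat.cast_zero]
        positivity
      · obtain ⟨a, ha, hcl⟩ := one_class q (α v) (β v) h4.pos (hcopq v q h4 h7)
        have h8 := hY3 q a h4 (by
          intro j hj hqj
          have h9 := (hP j (mem_Icc.1 hj).1 q hqj).2.2.1
          have h10 : 2 ^ (2 ^ j) ≤ z :=
            Nat.pow_le_pow_right (by norm_num) (Nat.pow_le_pow_right (by norm_num) (mem_Icc.1 hj).2)
          omega) h6 ha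
        have h9 : (S.filter (fun m => q ∣ α v * m + β v)).card
            ≤ ((range M).filter (fun m => m % q = a ∧ ∀ j ∈ Icc 1 J, ∀ p ∈ P j, m % p ∉ A p)).card := by
          refine card_le_card ?_
          intro m hm
          simp only [hS, mem_filter] at hm ⊢
          exact ⟨hm.1.1, hcl m hm.2, hm.1.2⟩
        have h10 : ((S.filter (fun m => q ∣ α v * m + β v)).card : ℝ)
            ≤ (((range M).filter (fun m => m % q = a ∧ ∀ j ∈ Icc 1 J, ∀ p ∈ P j, m % p ∉ A p)).card : ℝ) := by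
          exact_mod_cast h9
        refine h10.trans (h8.trans (le_of_eq (by ring)))
    refine (sum_le_sum h2).trans ?_
    rw [← mul_sum]
    have h3 := blocks_sum J (b + 7)
    have h4 : J + (b + 8) - 1 = J + (b + 7) := by omega
    have h5 : ∑ q ∈ (Ioc z R).filter Nat.Prime, (1 : ℝ) / q ≤ 4 * (b + 7 : ℕ) := by
      rw [hR, h4]
      exact h3
    have h6 : 2 * Y * M * ∑ q ∈ (Ioc z R).filter Nat.Prime, (1 : ℝ) / q ≤ 2 * Y * M * (4 * (b + 7 : ℕ)) :=
      mul_le_mul_of_nonneg_left h5 (by positivity)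
    refine h6.trans ?_
    push_cast
    have hb0 : (0 : ℝ) ≤ (b : ℝ) + 7 := by positivity
    have h7 : Y * M * (b + 7) ≤ 2 * (S.card : ℝ) * (b + 7) := mul_le_mul_of_nonneg_right hScard hb0
    nlinarith
  -- (ii)
  set Bad : ι → Finset ℕ := fun v => S.filter (fun m => ¬ Squarefree (α v * m + β v)) with hBad
  have hii : ∀ v, ((Bad v).card : ℝ) ≤ M / z + (α v + β v : ℕ) * R := by
    intro v
    have hsub : Bad v ⊆ ((Ioc z ((α v + β v) * R)).filter Nat.Prime).biUnion
        (fun q => (range M).filter (fun m => q ^ 2 ∣ α v * m + β v)) := by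
      intro m hm
      obtain ⟨h1, h2⟩ := mem_filter.1 hm
      rw [Nat.squarefree_iff_prime_squarefree] at h2
      push Not at h2
      obtain ⟨q, hq, hq2⟩ := h2
      have hmM : m < M := mem_range.1 (mem_filter.1 h1).1
      have hpos : 0 < α v * m + β v := by
        have := hβ v
        omega
      have hqd : q ∣ α v * m + β v := (Dvd.intro _ rfl).trans hq2
      have hzq := hfree m h1 v q hq hqd
      have hle : q * q ≤ α v * m + β v := Nat.le_of_dvd hpos hq2
      have hle2 : α v * m + β v ≤ (α v + β v) * (R * R) := by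
        rw [← hMR]
        have h3 : α v * m ≤ α v * M := Nat.mul_le_mul_left _ hmM.le
        have h4 : β v * 1 ≤ β v * M := Nat.mul_le_mul_left _ (by omega)
        rw [add_mul]
        omega
      have hqR : q ≤ (α v + β v) * R := by
        by_contra hcon
        have hcon : (α v + β v) * R < q := by omega
        have h5 : ((α v + β v) * R) * ((α v + β v) * R) < q * q :=
          Nat.mul_lt_mul_of_lt_of_lt hcon hcon
        have h6 : (α v + β v) * (R * R) ≤ ((α v + β v) * R) * ((α v + β v) * R) := by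
          have h7 : 1 ≤ α v + β v := by
            have := hβ v
            omega
          calc (α v + β v) * (R * R) = 1 * ((α v + β v) * (R * R)) := by ring
            _ ≤ (α v + β v) * ((α v + β v) * (R * R)) := Nat.mul_le_mul_right _ h7
            _ = _ := by ring
        omega
      simp only [mem_biUnion, mem_filter, mem_Ioc, mem_range]
      exact ⟨q, ⟨⟨hzq, hqR⟩, hq⟩, hmM, by rw [pow_two]; exact hq2⟩
    have h1 : ((Bad v).card : ℝ) ≤ ∑ q ∈ (Ioc z ((α v + β v) * R)).filter Nat.Prime,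
        (((range M).filter (fun m => q ^ 2 ∣ α v * m + β v)).card : ℝ) := by
      exact_mod_cast (card_le_card hsub).trans card_biUnion_le
    refine h1.trans ?_
    have h2 : ∀ q ∈ (Ioc z ((α v + β v) * R)).filter Nat.Prime,
        (((range M).filter (fun m => q ^ 2 ∣ α v * m + β v)).card : ℝ) ≤ M * ((q : ℝ) ^ 2)⁻¹ + 1 := by
      intro q hq
      obtain ⟨h3, h4⟩ := mem_filter.1 hq
      by_cases h7 : q ∣ α v
      · have : (range M).filter (fun m => q ^ 2 ∣ α v * m + β v) = ∅ := by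
          rw [filter_eq_empty_iff]
          intro m _ h8
          exact hnd v m q h4 h7 ((dvd_pow_self q (by norm_num)).trans h8)
        rw [this, card_empty, Nat.cast_zero]
        positivity
      · obtain ⟨a, ha, hcl⟩ := one_class (q ^ 2) (α v) (β v) (pow_pos h4.pos 2)
          (Nat.Coprime.pow_left 2 (hcopq v q h4 h7))
        have h9 : ((range M).filter (fun m => q ^ 2 ∣ α v * m + β v)).card
            ≤ ((range M).filter (fun m => m % (q ^ 2) = a)).card := by
          refine card_le_card ?_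
          intro m hm
          simp only [mem_filter] at hm ⊢
          exact ⟨hm.1, hcl m hm.2⟩
        have h10 : (((range M).filter (fun m => q ^ 2 ∣ α v * m + β v)).card : ℝ)
            ≤ (((range M).filter (fun m => m % (q ^ 2) = a)).card : ℝ) := by exact_mod_cast h9
        refine h10.trans ((class_count M (q ^ 2) a (pow_pos h4.pos 2) ha).trans (le_of_eq ?_))
        push_cast
        ring
    refine (sum_le_sum h2).trans ?_
    rw [sum_add_distrib, ← mul_sum]
    have h3 : ∑ q ∈ (Ioc z ((α v + β v) * R)).filter Nat.Prime, ((q : ℝ) ^ 2)⁻¹ ≤ (z : ℝ)⁻¹ := by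
      have h4 : ∑ q ∈ (Ioc z ((α v + β v) * R)).filter Nat.Prime, ((q : ℝ) ^ 2)⁻¹
          ≤ ∑ q ∈ Ioc z ((α v + β v) * R), ((q : ℝ) ^ 2)⁻¹ :=
        sum_le_sum_of_subset_of_nonneg (filter_subset _ _) fun q _ _ => by positivity
      have h5 : z ≤ (α v + β v) * R := by
        have h6 : 1 ≤ α v + β v := by
          have := hβ v
          omega
        calc z ≤ 1 * R := by omega
          _ ≤ (α v + β v) * R := Nat.mul_le_mul_right _ h6
      have h6 := sum_Ioc_inv_sq_le_sub (α := ℝ) (by omega : z ≠ 0) h5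
      have h7 : (0 : ℝ) ≤ (((α v + β v) * R : ℕ) : ℝ)⁻¹ := by positivity
      linarith
    have h4 : ∑ q ∈ (Ioc z ((α v + β v) * R)).filter Nat.Prime, (1 : ℝ) ≤ (α v + β v : ℕ) * R := by
      rw [sum_const, nsmul_eq_mul, mul_one]
      have h5 : ((Ioc z ((α v + β v) * R)).filter Nat.Prime).card ≤ (α v + β v) * R := by
        refine (card_filter_le _ _).trans ?_
        rw [Nat.card_Ioc]
        omega
      exact_mod_cast h5
    have h5 : (M : ℝ) * ∑ q ∈ (Ioc z ((α v + β v) * R)).filter Nat.Prime, ((q : ℝ) ^ 2)⁻¹ ≤ M / z := by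
      rw [div_eq_mul_inv]
      exact mul_le_mul_of_nonneg_left h3 hMpos.le
    linarith
  have hbadsum : ∑ v, ((Bad v).card : ℝ) ≤ S.card / 4 := by
    have h1 : ∑ v, ((Bad v).card : ℝ) ≤ k * (M / z) + K * R := by
      refine (sum_le_sum fun v _ => hii v).trans ?_
      rw [sum_add_distrib, sum_const, ← sum_mul, nsmul_eq_mul, hK]
      push_cast
      simp [hk]
    refine h1.trans ?_
    have h2 : (K : ℝ) * R ≤ K * (M / z) := by
      refine mul_le_mul_of_nonneg_left ?_ (by positivity)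
      rw [le_div_iff₀ hzpos, hMR]
      push_cast
      refine mul_le_mul_of_nonneg_left ?_ hRpos.le
      exact_mod_cast hzR
    have h3 : ((k : ℝ) + K) * 2 ^ (8 * k * J + 3) ≤ z := by exact_mod_cast hKbig
    have h4 : (2 : ℝ) ^ (8 * k * J) * (1 / 4 : ℝ) ^ (4 * k * J) = 1 := by
      rw [show (1 / 4 : ℝ) = (1 / 2) ^ 2 by norm_num, ← pow_mul,
        show 2 * (4 * k * J) = 8 * k * J by ring, ← mul_pow]
      norm_num
    have h5 : ((k : ℝ) + K) * 8 ≤ z * Y := by
      have h6 : ((k : ℝ) + K) * 8 = ((k : ℝ) + K) * 2 ^ (8 * k * J + 3) * (1 / 4 : ℝ) ^ (4 * k * J) := by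
        rw [pow_add]
        have : ((k : ℝ) + K) * (2 ^ (8 * k * J) * 2 ^ 3) * (1 / 4 : ℝ) ^ (4 * k * J)
            = ((k : ℝ) + K) * 8 * ((2 : ℝ) ^ (8 * k * J) * (1 / 4 : ℝ) ^ (4 * k * J)) := by ring
        rw [this, h4, mul_one]
      rw [h6]
      calc ((k : ℝ) + K) * 2 ^ (8 * k * J + 3) * (1 / 4 : ℝ) ^ (4 * k * J)
          ≤ z * (1 / 4 : ℝ) ^ (4 * k * J) := mul_le_mul_of_nonneg_right h3 (by positivity)
        _ ≤ z * Y := mul_le_mul_of_nonneg_left hY1 hzpos.le
    have h7 : ((k : ℝ) + K) * (M / z) ≤ Y * M / 8 := by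
      rw [mul_div_assoc', div_le_iff₀ hzpos]
      nlinarith
    linarith
  -- (iii)
  set S' := S.filter (fun m => ∀ v, Squarefree (α v * m + β v)) with hS'
  have hS'card : (3 / 4 : ℝ) * S.card ≤ S'.card := by
    have h1 : S ⊆ S' ∪ (univ : Finset ι).biUnion Bad := by
      intro m hm
      rw [mem_union]
      by_cases h : ∀ v, Squarefree (α v * m + β v)
      · exact Or.inl (mem_filter.2 ⟨hm, h⟩)
      · push Not at h
        obtain ⟨v, hv⟩ := h
        exact Or.inr (mem_biUnion.2 ⟨v, mem_univ _, mem_filter.2 ⟨hm, hv⟩⟩)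
    have h2 : S.card ≤ S'.card + ∑ v, (Bad v).card :=
      (card_le_card h1).trans ((card_union_le _ _).trans (Nat.add_le_add_left card_biUnion_le _))
    have h3 : (S.card : ℝ) ≤ S'.card + ∑ v, ((Bad v).card : ℝ) := by exact_mod_cast h2
    linarith
  have hex : ∃ m ∈ S', ∑ v, W v m ≤ 22 * (b + 7) * k := by
    by_contra hcon
    push Not at hcon
    have h1 : (22 * (b + 7) * k) * S'.card ≤ ∑ m ∈ S', ∑ v, W v m := by
      rw [mul_comm, ← smul_eq_mul, ← sum_const]
      exact sum_le_sum fun m hm => (hcon m hm).le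
    have h2 : ∑ m ∈ S', ∑ v, W v m ≤ ∑ v, ∑ m ∈ S, W v m := by
      rw [sum_comm]
      exact sum_le_sum fun v _ => sum_le_sum_of_subset (filter_subset _ _)
    have h3 : ((∑ v, ∑ m ∈ S, W v m : ℕ) : ℝ) ≤ k * (16 * (b + 7) * S.card) := by
      rw [Nat.cast_sum]
      refine (sum_le_sum fun v _ => hi v).trans ?_
      rw [sum_const, nsmul_eq_mul]
      simp [hk]
    have h4 : (((22 * (b + 7) * k) * S'.card : ℕ) : ℝ) ≤ ((∑ v, ∑ m ∈ S, W v m : ℕ) : ℝ) := by
      exact_mod_cast h1.trans h2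
    push_cast at h4
    have h5 : (0 : ℝ) < (b + 7) * k := by
      have : (0 : ℝ) < k := by exact_mod_cast hk1
      positivity
    have h6 : (22 * ((b : ℝ) + 7) * k) * (3 / 4 * S.card) ≤ (22 * ((b : ℝ) + 7) * k) * S'.card :=
      mul_le_mul_of_nonneg_left hS'card (by positivity)
    have h7 : 0 < ((b : ℝ) + 7) * k * S.card := mul_pos h5 hSpos
    have h8 : (22 * ((b : ℝ) + 7) * k) * (3 / 4 * S.card) = 33 / 2 * (((b : ℝ) + 7) * k * S.card) := by
      ring
    have h9 : (k : ℝ) * (16 * (b + 7) * S.card) = 16 * (((b : ℝ) + 7) * k * S.card) := by ring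
    push_cast at h3
    linarith
  obtain ⟨m, hm, hmW⟩ := hex
  obtain ⟨hmS, hmsq⟩ := mem_filter.1 hm
  refine ⟨m, hmsq, ?_⟩
  have hKz : K ≤ z := by
    have h1 : K * 1 ≤ (k + K) * 2 ^ (8 * k * J + 3) :=
      Nat.mul_le_mul (by omega) Nat.one_le_two_pow
    omega
  have hpf : ∀ v, (α v * m + β v).primeFactors.card ≤ W v m + 3 := by
    intro v
    have hpos : 0 < α v * m + β v := by
      have := hβ v
      omega
    have hmM : m < M := mem_range.1 (mem_filter.1 hmS).1
    have hKv : α v + β v ≤ K := by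
      rw [hK]
      exact single_le_sum (f := fun v => α v + β v) (fun v _ => Nat.zero_le _) (mem_univ v)
    have hlt : α v * m + β v < R ^ 4 := by
      have h1 : α v * m + β v < (α v + β v) * M := by
        have h3 : α v * (m + 1) ≤ α v * M := Nat.mul_le_mul_left _ hmM
        have h4 : β v * 1 ≤ β v * M := Nat.mul_le_mul_left _ (by omega)
        have h5 := hα v
        rw [add_mul]
        rw [mul_add] at h3
        omega
      have h2 : (α v + β v) * M ≤ (R * R) * M := by
        refine Nat.mul_le_mul_right _ ?_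
        have : R * 1 ≤ R * R := Nat.mul_le_mul_left _ (by omega)
        omega
      calc α v * m + β v < (α v + β v) * M := h1
        _ ≤ (R * R) * M := h2
        _ = R ^ 4 := by rw [hMR]; ring
    have h3 := big_primes (α v * m + β v) R hpos (by omega) hlt
    have h4 : (α v * m + β v).primeFactors
        ⊆ (Ioc z R).filter (fun q => q.Prime ∧ q ∣ α v * m + β v) ∪
          (α v * m + β v).primeFactors.filter (fun p => R < p) := by
      intro p hp
      have h5 := Nat.prime_of_mem_primeFactors hp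
      have h6 := Nat.dvd_of_mem_primeFactors hp
      rw [mem_union]
      by_cases h7 : p ≤ R
      · left
        rw [mem_filter, mem_Ioc]
        exact ⟨⟨hfree m hmS v p h5 h6, h7⟩, h5, h6⟩
      · right
        rw [mem_filter]
        exact ⟨hp, by omega⟩
    refine (card_le_card h4).trans ((card_union_le _ _).trans ?_)
    exact Nat.add_le_add_left h3 _
  calc ∑ v, (α v * m + β v).primeFactors.card ≤ ∑ v, (W v m + 3) := sum_le_sum fun v _ => hpf v
    _ = ∑ v, W v m + 3 * k := by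
        rw [sum_add_distrib, sum_const]
        simp [hk, mul_comm]
    _ ≤ 22 * (b + 7) * k + 3 * k := Nat.add_le_add_right hmW _
    _ ≤ 179 * b * k := by
        have h1 : 22 * (b + 7) + 3 ≤ 179 * b := by omega
        calc 22 * (b + 7) * k + 3 * k = (22 * (b + 7) + 3) * k := by ring
          _ ≤ 179 * b * k := Nat.mul_le_mul_right _ h1

end Pool.Agent.Work.MP_f473e4_nt
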